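import Pool.Agent.Lib.MP_d01072_ag.CL.Spec

/-!
MP_d01072_ag, package CL: an independent subfamily (module Bss).
-/

set_option autoImplicit false

namespace Pool.Agent.Lib.MP_d01072_ag.CL

section
variable {K : Type} [Field K] {ι : Type} [DecidableEq ι] {α : Type} {n : ℕ}

private lemma Bss_mo (S : Finset ι) (x : ι → Vc K n) :
    Mo false S x = Submodule.span K {pr S x} := by
  unfold Mo
  refine le_antisymm (Submodule.span_mono ?_) (Submodule.span_mono Set.subset_union_left)
  rintro f (hf | ⟨h, _⟩)
  · exact hf
  · exact absurd h (by simp)

open Classical in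
private lemma Bss_ins (S : Finset ι) (J : Finset α) (l : α → ι → Vc K n) (j : α) :
    Es false S (insert j J) l = Mo false S (l j) ⊔ Es false S J l := by
  unfold Es
  exact Finset.iSup_insert j J _

end

/-- an independent subfamily -/
theorem t_Bss : S_Bss := by
  classical
  intro K ι α _ _ _ n S J l
  induction J using Finset.induction_on with
  | empty =>
    refine ⟨∅, Finset.Subset.refl _, rfl, ?_⟩
    have h : Es false S (∅ : Finset α) l = ⊥ := by
      unfold Es
      simp
    rw [h, finrank_bot, Finset.card_empty]
  | insert j J hj ih =>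
    obtain ⟨F, hF, h1, h2⟩ := ih
    by_cases hx : pr S (l j) ∈ Es false S J l
    · refine ⟨F, hF.trans (Finset.subset_insert j J), ?_, h2⟩
      rw [Bss_ins, h1, Bss_mo]
      refine (sup_eq_right.2 ?_).symm
      rw [Submodule.span_le, Set.singleton_subset_iff]
      exact hx
    · refine ⟨insert j F, Finset.insert_subset_insert j hF, ?_, ?_⟩
      · rw [Bss_ins, Bss_ins, h1]
      · have hjF : j ∉ F := fun h => hj (hF h)
        have hne : pr S (l j) ≠ 0 := fun h => hx (h ▸ Submodule.zero_mem _)
        rw [Finset.card_insert_of_notMem hjF, Bss_ins, Bss_mo]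
        have h3 := Submodule.finrank_sup_add_finrank_inf_eq
          (Submodule.span K {pr S (l j)}) (Es false S F l)
        have h4 : Submodule.span K {pr S (l j)} ⊓ Es false S F l = ⊥ := by
          rw [← disjoint_iff, disjoint_comm, Submodule.disjoint_span_singleton' hne, h1]
          exact hx
        rw [h4, finrank_bot, finrank_span_singleton hne, h2] at h3
        omega

end Pool.Agent.Lib.MP_d01072_ag.CL
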