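import Pool.Agent.Lib.MP_d01072_ag.CL.Spec

/-!
MP_d01072_ag, package CL: module Chn (the averaged chain).
-/

set_option autoImplicit false

namespace Pool.Agent.Lib.MP_d01072_ag.CL

open Classical in
/-- the average of `y F` over the chains of `U'` starting at `A` -/
private noncomputable def gg {α β : Type} (y : Finset α → Finset β → ℝ) :
    ℕ → Finset α → Finset β → Finset β → ℝ
  | 0, F, A, _ => y F A
  | n + 1, F, A, U' => (y F A + ∑ t ∈ U', gg y n F (insert t A) (U'.erase t)) / (n + 2)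

open Classical in
private lemma gg_rec {α β : Type} (y : Finset α → Finset β → ℝ) (n : ℕ) (F : Finset α)
    (A U' : Finset β) (h : U'.card = n) :
    ((n : ℝ) + 1) * gg y n F A U' =
      y F A + ∑ t ∈ U', gg y (n - 1) F (insert t A) (U'.erase t) := by
  cases n with
  | zero =>
    rw [Finset.card_eq_zero] at h
    subst h
    simp [gg]
  | succ n =>
    have h0 : ((n : ℝ) + 2) ≠ 0 := by positivity
    simp only [gg, Nat.add_sub_cancel]
    push_cast
    rw [show (n : ℝ) + 1 + 1 = n + 2 by ring]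
    field_simp

open Classical in
private lemma swap_sum {β : Type} (U' : Finset β) (f : β → β → ℝ) :
    ∑ t ∈ U', ∑ t' ∈ U'.erase t, f t t' = ∑ t' ∈ U', ∑ t ∈ U'.erase t', f t t' := by
  refine Finset.sum_comm' ?_
  intro x z
  simp only [Finset.mem_erase]
  constructor
  · rintro ⟨h1, h2, h3⟩
    exact ⟨⟨fun h => h2 h.symm, h1⟩, h3⟩
  · rintro ⟨⟨h1, h2⟩, h3⟩
    exact ⟨h2, fun h => h1 h.symm, h3⟩

open Classical in
private lemma step1 {α β : Type} (U : Finset β) (J : Finset α) (D : α → Finset β)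
    (w : α → ℝ) (lam : ℝ) (y s : Finset α → Finset β → ℝ)
    (h1 : ∀ F ⊆ J, ∀ A ⊆ U, y F A ≤ s F A)
    (h2 : ∀ F ⊆ J, ∀ A ⊆ U, ∀ t ∈ U, t ∉ A → y F A ≤ s F A - s F (insert t A) +
      y (F.filter fun j => t ∉ D j) A + lam * ∑ j ∈ F.filter (fun j => t ∈ D j), w j) :
    ∀ (n : ℕ) (A U' : Finset β) (F : Finset α), F ⊆ J → A ⊆ U → U' ⊆ U → Disjoint A U' →
      U'.card = n →
      ((n : ℝ) + 1) * gg y n F A U' ≤ s F A +
        ∑ t ∈ U', gg y (n - 1) (F.filter fun j => t ∉ D j) A (U'.erase t) +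
        lam * ∑ t ∈ U', ∑ j ∈ F.filter (fun j => t ∈ D j), w j := by
  intro n
  induction n with
  | zero =>
    intro A U' F hF hA hU' hd h
    rw [Finset.card_eq_zero] at h
    subst h
    simpa [gg] using h1 F hF A hA
  | succ n ih =>
    intro A U' F hF hA hU' hd h
    have hn : (0 : ℝ) < (n : ℝ) + 1 := by positivity
    set δ : β → ℝ := fun t => ∑ j ∈ F.filter (fun j => t ∈ D j), w j with hδ
    -- the induction hypothesis, summed
    have e1 : ∑ t ∈ U', ((n : ℝ) + 1) * gg y n F (insert t A) (U'.erase t) ≤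
        ∑ t ∈ U', (s F (insert t A) +
          ∑ t' ∈ U'.erase t, gg y (n - 1) (F.filter fun j => t' ∉ D j) (insert t A)
            ((U'.erase t).erase t') + lam * ∑ t' ∈ U'.erase t, δ t') := by
      refine Finset.sum_le_sum fun t ht => ?_
      refine ih (insert t A) (U'.erase t) F hF ?_ ?_ ?_ ?_
      · exact Finset.insert_subset (hU' ht) hA
      · exact (Finset.erase_subset _ _).trans hU'
      · rw [Finset.disjoint_insert_left]
        exact ⟨Finset.notMem_erase _ _, Finset.disjoint_of_subset_right (Finset.erase_subset _ _) hd⟩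
      · rw [Finset.card_erase_of_mem ht, h]; rfl
    have e2 : ∑ _t ∈ U', y F A ≤ ∑ t ∈ U', (s F A - s F (insert t A) +
        y (F.filter fun j => t ∉ D j) A + lam * δ t) := by
      refine Finset.sum_le_sum fun t ht => ?_
      exact h2 F hF A hA t (hU' ht) (fun h' => (Finset.disjoint_left.1 hd) h' ht)
    have e3 : ∀ t ∈ U', ((n : ℝ) + 1) * gg y n (F.filter fun j => t ∉ D j) A (U'.erase t) =
        y (F.filter fun j => t ∉ D j) A + ∑ t' ∈ U'.erase t,
          gg y (n - 1) (F.filter fun j => t ∉ D j) (insert t' A) ((U'.erase t).erase t') :=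
      fun t ht => gg_rec y n _ A _ (by rw [Finset.card_erase_of_mem ht, h]; rfl)
    have e4 : ∑ t ∈ U', ∑ t' ∈ U'.erase t, gg y (n - 1) (F.filter fun j => t' ∉ D j) (insert t A)
            ((U'.erase t).erase t') = ∑ t ∈ U', ∑ t' ∈ U'.erase t,
          gg y (n - 1) (F.filter fun j => t ∉ D j) (insert t' A) ((U'.erase t).erase t') := by
      rw [swap_sum]
      refine Finset.sum_congr rfl fun t _ => Finset.sum_congr rfl fun t' _ => ?_
      rw [Finset.erase_right_comm]
    have e5 : ∑ t ∈ U', ∑ t' ∈ U'.erase t, δ t' = n * ∑ t ∈ U', δ t := by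
      have : ∀ t ∈ U', ∑ t' ∈ U'.erase t, δ t' = ∑ t' ∈ U', δ t' - δ t := by
        intro t ht
        rw [← Finset.sum_erase_add _ _ ht]
        ring
      rw [Finset.sum_congr rfl this, Finset.sum_sub_distrib, Finset.sum_const, h]
      simp only [nsmul_eq_mul]
      push_cast
      ring
    have e6 : ((n : ℝ) + 1) * ∑ t ∈ U', gg y n (F.filter fun j => t ∉ D j) A (U'.erase t) =
        ∑ t ∈ U', y (F.filter fun j => t ∉ D j) A + ∑ t ∈ U', ∑ t' ∈ U'.erase t,
          gg y (n - 1) (F.filter fun j => t ∉ D j) (insert t' A) ((U'.erase t).erase t') := by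
      rw [Finset.mul_sum, Finset.sum_congr rfl e3, Finset.sum_add_distrib]
    have e7 := gg_rec y (n + 1) F A U' h
    simp only [Nat.add_sub_cancel] at e7 ⊢
    rw [e7]
    simp only [Finset.sum_add_distrib, ← Finset.mul_sum, Finset.sum_sub_distrib,
      Finset.sum_const, h, nsmul_eq_mul, e5, e4] at e1 e2
    push_cast at e2
    refine le_of_mul_le_mul_left ?_ hn
    have e8 : ((n : ℝ) + 1) * (s F A +
        ∑ t ∈ U', gg y n (F.filter fun j => t ∉ D j) A (U'.erase t) + lam * ∑ t ∈ U', δ t) =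
        ((n : ℝ) + 1) * s F A + ((n : ℝ) + 1) *
          ∑ t ∈ U', gg y n (F.filter fun j => t ∉ D j) A (U'.erase t) +
        ((n : ℝ) + 1) * (lam * ∑ t ∈ U', δ t) := by ring
    rw [e8, e6]
    linarith

private lemma filter_sum {α β : Type} (U' : Finset β) (F : Finset α) (p : β → α → Prop)
    [∀ t j, Decidable (p t j)] (g : α → ℝ) :
    ∑ t ∈ U', ∑ j ∈ F.filter (fun j => p t j), g j =
      ∑ j ∈ F, ((U'.filter fun t => p t j).card : ℝ) * g j := by
  have : ∀ t ∈ U', ∑ j ∈ F.filter (fun j => p t j), g j = ∑ j ∈ F, if p t j then g j else 0 :=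
    fun t _ => Finset.sum_filter _ _
  rw [Finset.sum_congr rfl this, Finset.sum_comm]
  refine Finset.sum_congr rfl fun j _ => ?_
  rw [← Finset.sum_filter, Finset.sum_const, nsmul_eq_mul]

open Classical in
private lemma step2 {α β : Type} (U : Finset β) (J : Finset α) (D : α → Finset β)
    (w : α → ℝ) (lam : ℝ) (y s : Finset α → Finset β → ℝ) (hlam : 0 ≤ lam)
    (hw : ∀ j ∈ J, 0 ≤ w j)
    (h1 : ∀ F ⊆ J, ∀ A ⊆ U, y F A ≤ s F A) (h3 : ∀ F ⊆ J, s F ∅ ≤ ∑ j ∈ F, w j)
    (h2 : ∀ F ⊆ J, ∀ A ⊆ U, ∀ t ∈ U, t ∉ A → y F A ≤ s F A - s F (insert t A) +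
      y (F.filter fun j => t ∉ D j) A + lam * ∑ j ∈ F.filter (fun j => t ∈ D j), w j) :
    ∀ (n : ℕ) (U' : Finset β) (F : Finset α), F ⊆ J → U' ⊆ U → U'.card = n →
      gg y n F ∅ U' ≤
        ∑ j ∈ F, w j * (1 / (((U'.filter fun t => t ∈ D j).card : ℝ) + 1) + lam) := by
  intro n
  induction n with
  | zero =>
    intro U' F hF hU' h
    rw [Finset.card_eq_zero] at h
    subst h
    refine ((h1 F hF ∅ (Finset.empty_subset _)).trans (h3 F hF)).trans ?_
    refine Finset.sum_le_sum fun j hj => ?_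
    have := mul_nonneg (hw j (hF hj)) hlam
    simp only [Finset.filter_empty, Finset.card_empty, Nat.cast_zero, zero_add, div_one, mul_add,
      mul_one]
    linarith
  | succ n ih =>
    intro U' F hF hU' h
    have e1 := step1 U J D w lam y s h1 h2 (n + 1) ∅ U' F hF (Finset.empty_subset _) hU'
      (Finset.disjoint_empty_left _) h
    simp only [Nat.add_sub_cancel] at e1
    set m : α → ℕ := fun j => (U'.filter fun t => t ∈ D j).card with hm
    have e2 : ∑ t ∈ U', gg y n (F.filter fun j => t ∉ D j) ∅ (U'.erase t) ≤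
        ∑ t ∈ U', ∑ j ∈ F.filter (fun j => t ∉ D j), w j * (1 / ((m j : ℝ) + 1) + lam) := by
      refine Finset.sum_le_sum fun t ht => ?_
      refine (ih (U'.erase t) (F.filter fun j => t ∉ D j) ((Finset.filter_subset _ _).trans hF)
        ((Finset.erase_subset _ _).trans hU') (by rw [Finset.card_erase_of_mem ht, h]; rfl)).trans
        (le_of_eq ?_)
      refine Finset.sum_congr rfl fun j hj => ?_
      have hj' : t ∉ D j := (Finset.mem_filter.1 hj).2
      have : ((U'.erase t).filter fun t' => t' ∈ D j) = U'.filter fun t' => t' ∈ D j := by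
        ext x
        simp only [Finset.mem_filter, Finset.mem_erase]
        constructor
        · rintro ⟨⟨_, h4⟩, h5⟩
          exact ⟨h4, h5⟩
        · rintro ⟨h4, h5⟩
          exact ⟨⟨fun h6 => hj' (h6 ▸ h5), h4⟩, h5⟩
      rw [this]
    rw [filter_sum U' F (fun t j => t ∉ D j)] at e2
    rw [filter_sum U' F (fun t j => t ∈ D j)] at e1
    have e3 := h3 F hF
    have hn : (0 : ℝ) < ((n + 1 : ℕ) : ℝ) + 1 := by positivity
    refine le_of_mul_le_mul_left ?_ hn
    refine e1.trans ?_
    have e4 : s F ∅ + ∑ t ∈ U', gg y n (F.filter fun j => t ∉ D j) ∅ (U'.erase t) +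
        lam * ∑ j ∈ F, ((U'.filter fun t => t ∈ D j).card : ℝ) * w j ≤
        ∑ j ∈ F, (w j + ((U'.filter fun t => t ∉ D j).card : ℝ) *
          (w j * (1 / ((m j : ℝ) + 1) + lam)) + lam * ((m j : ℝ) * w j)) := by
      rw [Finset.sum_add_distrib, Finset.sum_add_distrib, ← Finset.mul_sum]
      linarith
    refine e4.trans ?_
    rw [Finset.mul_sum]
    refine Finset.sum_le_sum fun j hj => ?_
    have hc : ((U'.filter fun t => t ∉ D j).card : ℝ) = ((n + 1 : ℕ) : ℝ) - m j := by
      have := Finset.card_filter_add_card_filter_not (s := U') (fun t => t ∈ D j)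
      rw [h] at this
      have h6 : ((m j : ℕ) : ℝ) + ((U'.filter fun t => t ∉ D j).card : ℝ) =
          ((n + 1 : ℕ) : ℝ) := by
        exact_mod_cast this
      linarith
    rw [hc]
    have hwl : 0 ≤ w j * lam := mul_nonneg (hw j (hF hj)) hlam
    have hmp : ((m j : ℝ) + 1) ≠ 0 := by positivity
    have e5 : w j + (((n + 1 : ℕ) : ℝ) - m j) * (w j * (1 / ((m j : ℝ) + 1) + lam)) +
        lam * ((m j : ℝ) * w j) =
        (((n + 1 : ℕ) : ℝ) + 1) * (w j * (1 / ((m j : ℝ) + 1) + lam)) - w j * lam := by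
      field_simp
      ring
    rw [e5]
    linarith

open Classical in
private lemma step3 {α β : Type} (U : Finset β) (J : Finset α) (D : α → Finset β)
    (w : α → ℝ) (lam : ℝ) (y : Finset α → Finset β → ℝ)
    (h4 : ∀ A ⊆ U, ∀ t ∈ U, t ∉ A → y J A ≤ y J (insert t A) +
      lam * ∑ j ∈ J.filter (fun j => t ∈ D j), w j) :
    ∀ A : Finset β, A ⊆ U →
      y J ∅ ≤ y J A + lam * ∑ t ∈ A, ∑ j ∈ J.filter (fun j => t ∈ D j), w j := by
  intro A
  induction A using Finset.induction_on with
  | empty => intro _; simp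
  | insert t A ht ih =>
    intro hA
    have h5 := ih ((Finset.subset_insert _ _).trans hA)
    have h6 := h4 A ((Finset.subset_insert _ _).trans hA) t (hA (Finset.mem_insert_self _ _)) ht
    rw [Finset.sum_insert ht, mul_add]
    linarith

open Classical in
private lemma step4 {α β : Type} (U : Finset β) (J : Finset α) (y : Finset α → Finset β → ℝ)
    (c : ℝ) (h : ∀ A ⊆ U, c ≤ y J A) :
    ∀ (n : ℕ) (A U' : Finset β), A ⊆ U → U' ⊆ U → U'.card = n → c ≤ gg y n J A U' := by
  intro n
  induction n with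
  | zero => intro A U' hA _ _; exact h A hA
  | succ n ih =>
    intro A U' hA hU' hc
    have h0 : (0 : ℝ) < (n : ℝ) + 2 := by positivity
    simp only [gg]
    rw [le_div_iff₀ h0]
    have h1 : ∑ _t ∈ U', c ≤ ∑ t ∈ U', gg y n J (insert t A) (U'.erase t) := by
      refine Finset.sum_le_sum fun t ht => ?_
      exact ih (insert t A) (U'.erase t) (Finset.insert_subset (hU' ht) hA)
        ((Finset.erase_subset _ _).trans hU') (by rw [Finset.card_erase_of_mem ht, hc]; rfl)
    rw [Finset.sum_const, hc, nsmul_eq_mul] at h1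
    push_cast at h1
    have := h A hA
    linarith

open Classical in
theorem t_Chn : S_Chn := by
  intro α β U J D w lam y s hlam hw hD h1 h3 h2 h4
  have a1 := step2 U J D w lam y s hlam hw h1 h3 h2 U.card U J (Finset.Subset.refl _)
    (Finset.Subset.refl _) rfl
  have a2 : ∀ A ⊆ U, y J ∅ - lam * ∑ j ∈ J, w j * (D j).card ≤ y J A := by
    intro A hA
    have b1 := step3 U J D w lam y (h4 J (Finset.Subset.refl _)) A hA
    rw [filter_sum A J (fun t j => t ∈ D j)] at b1
    have b2 : ∑ j ∈ J, (((A.filter fun t => t ∈ D j).card : ℝ)) * w j ≤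
        ∑ j ∈ J, w j * (D j).card := by
      refine Finset.sum_le_sum fun j hj => ?_
      rw [mul_comm]
      refine mul_le_mul_of_nonneg_left ?_ (hw j hj)
      have : (A.filter fun t => t ∈ D j) ⊆ D j := fun x hx => (Finset.mem_filter.1 hx).2
      exact_mod_cast Finset.card_le_card this
    have b3 := mul_le_mul_of_nonneg_left b2 hlam
    linarith
  have a3 := step4 U J y _ a2 U.card ∅ U (Finset.empty_subset _) (Finset.Subset.refl _) rfl
  have a4 : ∀ j ∈ J, (U.filter fun t => t ∈ D j) = D j := by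
    intro j hj
    ext x
    simp only [Finset.mem_filter]
    exact ⟨fun h => h.2, fun h => ⟨hD j hj h, h⟩⟩
  have a5 : ∑ j ∈ J, w j * (1 / (((U.filter fun t => t ∈ D j).card : ℝ) + 1) + lam) =
      ∑ j ∈ J, w j * (1 / (((D j).card : ℝ) + 1) + lam) :=
    Finset.sum_congr rfl fun j hj => by rw [a4 j hj]
  rw [a5] at a1
  have a6 : ∑ j ∈ J, w j * (1 / (((D j).card : ℝ) + 1) + lam * (((D j).card : ℝ) + 1)) =
      ∑ j ∈ J, w j * (1 / (((D j).card : ℝ) + 1) + lam) + lam * ∑ j ∈ J, w j * (D j).card := by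
    rw [Finset.mul_sum, ← Finset.sum_add_distrib]
    exact Finset.sum_congr rfl fun j _ => by ring
  rw [a6]
  linarith

end Pool.Agent.Lib.MP_d01072_ag.CL
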