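import Pool.Agent.Lib.MP_d01072_ag.CL.Spec

/-! MP_d01072_ag, package CL: symmetric tensors and contents. -/

set_option autoImplicit false

namespace Pool.Agent.Lib.MP_d01072_ag.CL

section
variable {ι : Type} [DecidableEq ι] {n : ℕ}

private theorem cnt_mem (μ : Fin (n + 1) → ℕ) (s : ℕ) : μ ∈ Dl n s ↔ ∑ a, μ a = s := by
  unfold Dl
  rw [Finset.mem_piAntidiag]
  constructor
  · exact fun h => h.1
  · exact fun h => ⟨h, fun a _ => Finset.mem_univ a⟩

omit [DecidableEq ι] in
private theorem cnt_sum (Q : Finset ι) (i : ι → Fin (n + 1)) : ∑ a, cont Q i a = Q.card := by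
  unfold cont
  exact (Finset.card_eq_sum_card_fiberwise (f := i) (t := Finset.univ)
    (fun _ _ => Finset.mem_coe.2 (Finset.mem_univ _))).symm

private theorem cnt_insert (Q : Finset ι) (t : ι) (ht : t ∉ Q) (i : ι → Fin (n + 1))
    (b : Fin (n + 1)) : cont (insert t Q) i b = cont Q i b + if i t = b then 1 else 0 := by
  unfold cont
  rw [Finset.filter_insert]
  split_ifs with h
  · rw [Finset.card_insert_of_notMem (fun h' => ht (Finset.mem_filter.1 h').1)]
  · rfl

omit [DecidableEq ι] in
private theorem cnt_congr (Q : Finset ι) (i i' : ι → Fin (n + 1)) (h : ∀ t ∈ Q, i t = i' t) :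
    cont Q i = cont Q i' := by
  funext a
  unfold cont
  congr 1
  exact Finset.filter_congr fun t ht => by rw [h t ht]

private theorem cnt_ex (Q : Finset ι) : ∀ μ : Fin (n + 1) → ℕ, ∑ a, μ a = Q.card →
    ∀ i₀ : ι → Fin (n + 1), ∃ i, cont Q i = μ ∧ ∀ t, t ∉ Q → i t = i₀ t := by
  induction Q using Finset.induction_on with
  | empty =>
    intro μ hμ i₀
    refine ⟨i₀, ?_, fun _ _ => rfl⟩
    rw [Finset.card_empty, Finset.sum_eq_zero_iff] at hμ
    funext a
    rw [hμ a (Finset.mem_univ a)]
    rfl
  | insert t Q ht ih =>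
    intro μ hμ i₀
    rw [Finset.card_insert_of_notMem ht] at hμ
    obtain ⟨a, -, ha⟩ : ∃ a ∈ (Finset.univ : Finset (Fin (n + 1))), μ a ≠ 0 := by
      apply Finset.exists_ne_zero_of_sum_ne_zero
      rw [hμ]
      exact Nat.succ_ne_zero _
    have hsum : ∑ b, (Function.update μ a (μ a - 1)) b = Q.card := by
      have h1 := Finset.sum_update_of_mem (Finset.mem_univ a) μ (μ a - 1)
      have h2 := Finset.add_sum_erase Finset.univ μ (Finset.mem_univ a)
      rw [h1, Finset.sdiff_singleton_eq_erase]
      omega
    obtain ⟨i', h1, h2⟩ := ih _ hsum i₀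
    refine ⟨Function.update i' t a, ?_, fun u hu => ?_⟩
    · have h3 : cont Q (Function.update i' t a) = cont Q i' :=
        cnt_congr Q _ _ fun u hu =>
          Function.update_of_ne (fun h : u = t => ht (h ▸ hu)) a i'
      funext b
      rw [cnt_insert Q t ht, h3, h1, Function.update_self]
      by_cases hab : b = a
      · subst hab
        rw [Function.update_self, if_pos rfl]
        omega
      · rw [Function.update_of_ne hab, if_neg (fun h => hab h.symm), add_zero]
    · rw [Finset.mem_insert, not_or] at hu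
      rw [Function.update_of_ne hu.1]
      exact h2 u hu.2

private theorem cnt_swap (Q : Finset ι) (t t' : ι) (ht : t ∈ Q) (ht' : t' ∈ Q)
    (i : ι → Fin (n + 1)) : cont Q (fun u => i (Equiv.swap t t' u)) = cont Q i := by
  have hQ : ∀ u ∈ Q, Equiv.swap t t' u ∈ Q := by
    intro u hu
    by_cases h1 : u = t
    · rw [h1, Equiv.swap_apply_left]
      exact ht'
    · by_cases h2 : u = t'
      · rw [h2, Equiv.swap_apply_right]
        exact ht
      · rw [Equiv.swap_apply_of_ne_of_ne h1 h2]
        exact hu
  funext a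
  unfold cont
  refine Finset.card_bij' (fun u _ => Equiv.swap t t' u) (fun u _ => Equiv.swap t t' u) ?_ ?_ ?_ ?_
  · intro u hu
    rw [Finset.mem_filter] at hu ⊢
    exact ⟨hQ u hu.1, hu.2⟩
  · intro u hu
    rw [Finset.mem_filter] at hu ⊢
    refine ⟨hQ u hu.1, ?_⟩
    show i (Equiv.swap t t' (Equiv.swap t t' u)) = a
    rw [Equiv.swap_apply_self]
    exact hu.2
  · intro u _
    exact Equiv.swap_apply_self t t' u
  · intro u _
    exact Equiv.swap_apply_self t t' u

private theorem cnt_eq {K : Type} [Field K] (Q : Finset ι) (f : Tn K ι n) (hf : f ∈ Sy K n Q) :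
    ∀ (m : ℕ) (i i' : ι → Fin (n + 1)), (Q.filter fun t => i t ≠ i' t).card = m →
      cont Q i = cont Q i' → (∀ t, t ∉ Q → i t = i' t) → f i = f i' := by
  intro m
  induction m using Nat.strong_induction_on with
  | _ m ih =>
    intro i i' hm hc ho
    by_cases hall : ∀ t ∈ Q, i t = i' t
    · have : i = i' := by
        funext t
        by_cases ht : t ∈ Q
        · exact hall t ht
        · exact ho t ht
      rw [this]
    · push Not at hall
      obtain ⟨t, ht, hne⟩ := hall
      obtain ⟨t', ht', h1, h2⟩ : ∃ t' ∈ Q, i t' = i' t ∧ i' t' ≠ i' t := by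
        by_contra hcon
        push Not at hcon
        have h3 : (Q.filter fun u => i u = i' t) ⊂ (Q.filter fun u => i' u = i' t) := by
          rw [Finset.ssubset_iff_of_subset]
          · exact ⟨t, Finset.mem_filter.2 ⟨ht, rfl⟩,
              fun h => hne (Finset.mem_filter.1 h).2⟩
          · intro u hu
            rw [Finset.mem_filter] at hu ⊢
            exact ⟨hu.1, hcon u hu.1 hu.2⟩
        have h4 := Finset.card_lt_card h3
        have h5 : cont Q i (i' t) = cont Q i' (i' t) := by rw [hc]
        unfold cont at h5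
        omega
      have htt : t ≠ t' := fun h => h2 (by rw [← h])
      have hf1 : f (fun u => i (Equiv.swap t t' u)) = f i := hf t ht t' ht' i
      rw [← hf1]
      refine ih _ ?_ (fun u => i (Equiv.swap t t' u)) i' rfl ?_ ?_
      · rw [← hm]
        apply Finset.card_lt_card
        rw [Finset.ssubset_iff_of_subset]
        · refine ⟨t, Finset.mem_filter.2 ⟨ht, hne⟩, fun h => ?_⟩
          have h6 := (Finset.mem_filter.1 h).2
          simp only [Equiv.swap_apply_left] at h6
          exact h6 h1
        · intro u hu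
          rw [Finset.mem_filter] at hu ⊢
          refine ⟨hu.1, ?_⟩
          by_cases hu1 : u = t
          · rw [hu1]
            exact hne
          · by_cases hu2 : u = t'
            · rw [hu2, h1]
              exact fun h => h2 h.symm
            · have h7 := hu.2
              simp only [Equiv.swap_apply_of_ne_of_ne hu1 hu2] at h7
              exact h7
      · rw [cnt_swap Q t t' ht ht' i, hc]
      · intro u hu
        have hu1 : u ≠ t := fun h => hu (h ▸ ht)
        have hu2 : u ≠ t' := fun h => hu (h ▸ ht')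
        simp only [Equiv.swap_apply_of_ne_of_ne hu1 hu2]
        exact ho u hu

end

theorem t_Cnt : S_Cnt := by
  intro K ι _ _ n Q
  refine ⟨fun i => (cnt_mem _ _).2 (cnt_sum Q i), fun μ hμ i₀ => ?_, fun f hf i i' hc ho => ?_⟩
  · exact cnt_ex Q μ ((cnt_mem _ _).1 hμ) i₀
  · exact cnt_eq Q f hf _ i i' rfl hc ho

end Pool.Agent.Lib.MP_d01072_ag.CL
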