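import Pool.Agent.Lib.MP_d01072_ag.CL.Spec

/-! MP_d01072_ag, package CL, module CtA (helper10): the spaces `Mo` and one contraction. -/

set_option autoImplicit false
set_option linter.unusedSectionVars false

namespace Pool.Agent.Lib.MP_d01072_ag.CL

section
variable {K : Type} [Field K] {ι : Type} [DecidableEq ι] {n : ℕ}

open Classical in
/-- the tangent vector of the class `w` in the direction `v` -/
private noncomputable def CtA_tg (S : Finset ι) (x : ι → Vc K n) (w v : Vc K n) : Tn K ι n :=
  ∑ u ∈ S.filter (fun u => x u = w), pr S (Function.update x u v)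

private lemma CtA_mo (τ : Bool) (S : Finset ι) (x : ι → Vc K n) :
    Mo τ S x = Submodule.span K ({pr S x} ∪ {f | τ = true ∧ ∃ w v : Vc K n, f = CtA_tg S x w v}) :=
  rfl

private lemma CtA_prm (τ : Bool) (S : Finset ι) (x : ι → Vc K n) : pr S x ∈ Mo τ S x :=
  Submodule.subset_span (Or.inl rfl)

private lemma CtA_tgm {τ : Bool} (hτ : τ = true) (S : Finset ι) (x : ι → Vc K n) (w v : Vc K n) :
    CtA_tg S x w v ∈ Mo τ S x := by
  rw [CtA_mo]
  exact Submodule.subset_span (Or.inr ⟨hτ, w, v, rfl⟩)

private lemma CtA_le {τ : Bool} {S : Finset ι} {x : ι → Vc K n} {W : Submodule K (Tn K ι n)}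
    (h1 : pr S x ∈ W) (h2 : τ = true → ∀ w v, CtA_tg S x w v ∈ W) : Mo τ S x ≤ W := by
  rw [CtA_mo, Submodule.span_le]
  rintro f (hf | ⟨hτ, w, v, rfl⟩)
  · rw [Set.mem_singleton_iff] at hf
    rw [hf]; exact h1
  · exact h2 hτ w v

private lemma CtA_prDp (S : Finset ι) (x : ι → Vc K n) : pr S x ∈ Dp K n S := by
  intro i i' h
  exact Finset.prod_congr rfl fun t ht => by rw [h t ht]

private lemma CtA_swap (S : Finset ι) (x : ι → Vc K n) {t t' : ι} (ht : t ∈ S) (ht' : t' ∈ S)
    (i : ι → Fin (n + 1)) :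
    pr S x (fun u => i (Equiv.swap t t' u)) = pr S (fun u => x (Equiv.swap t t' u)) i := by
  refine Finset.prod_equiv (Equiv.swap t t') ?_ ?_
  · intro u
    constructor
    · intro hu
      rcases eq_or_ne u t with rfl | h1
      · rw [Equiv.swap_apply_left]; exact ht'
      · rcases eq_or_ne u t' with rfl | h2
        · rw [Equiv.swap_apply_right]; exact ht
        · rw [Equiv.swap_apply_of_ne_of_ne h1 h2]; exact hu
    · intro hu
      rcases eq_or_ne u t with rfl | h1
      · exact ht
      · rcases eq_or_ne u t' with rfl | h2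
        · exact ht'
        · rwa [Equiv.swap_apply_of_ne_of_ne h1 h2] at hu
  · intro u _
    simp only [Equiv.swap_apply_self]

private lemma CtA_swx {x : ι → Vc K n} {t t' : ι} (h : x t = x t') (u : ι) :
    x (Equiv.swap t t' u) = x u := by
  rcases eq_or_ne u t with rfl | h1
  · rw [Equiv.swap_apply_left, h]
  · rcases eq_or_ne u t' with rfl | h2
    · rw [Equiv.swap_apply_right, h]
    · rw [Equiv.swap_apply_of_ne_of_ne h1 h2]

private lemma CtA_swS {S : Finset ι} {t t' : ι} (ht : t ∈ S) (ht' : t' ∈ S) {u : ι} (hu : u ∈ S) :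
    Equiv.swap t t' u ∈ S := by
  rcases eq_or_ne u t with rfl | h1
  · rw [Equiv.swap_apply_left]; exact ht'
  · rcases eq_or_ne u t' with rfl | h2
    · rw [Equiv.swap_apply_right]; exact ht
    · rw [Equiv.swap_apply_of_ne_of_ne h1 h2]; exact hu

private lemma CtA_upd {x : ι → Vc K n} {t t' : ι} (h : x t = x t') (u : ι) (v : Vc K n) :
    (fun s => Function.update x u v (Equiv.swap t t' s)) =
      Function.update x (Equiv.swap t t' u) v := by
  funext s
  by_cases hs : Equiv.swap t t' s = u
  · have : s = Equiv.swap t t' u := by rw [← hs, Equiv.swap_apply_self]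
    rw [hs, Function.update_self, this, Function.update_self]
  · have : s ≠ Equiv.swap t t' u := by
      intro h1; apply hs; rw [h1, Equiv.swap_apply_self]
    rw [Function.update_of_ne hs, Function.update_of_ne this, CtA_swx h]

private lemma CtA_ct {S : Finset ι} {t : ι} (ht : t ∈ S) (ξ : Vc K n) (y : ι → Vc K n) :
    ct t ξ (pr S y) = vl ξ (y t) • pr (S.erase t) y := by
  funext i
  change ∑ a, ξ a * pr S y (Function.update i t a) = vl ξ (y t) * pr (S.erase t) y i
  rw [vl, Finset.sum_mul]
  refine Finset.sum_congr rfl fun a _ => ?_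
  rw [pr, ← Finset.mul_prod_erase S _ ht, Function.update_self, ← mul_assoc]
  congr 1
  refine Finset.prod_congr rfl fun u hu => ?_
  rw [Function.update_of_ne (Finset.ne_of_mem_erase hu)]

private lemma CtA_congr {S : Finset ι} {y y' : ι → Vc K n} (h : ∀ t ∈ S, y t = y' t) :
    pr S y = pr S y' := by
  funext i
  exact Finset.prod_congr rfl fun t ht => by rw [h t ht]

private lemma CtA_erup (S : Finset ι) (x : ι → Vc K n) (t : ι) (v : Vc K n) :
    pr (S.erase t) (Function.update x t v) = pr (S.erase t) x :=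
  CtA_congr fun u hu => by rw [Function.update_of_ne (Finset.ne_of_mem_erase hu)]

open Classical in
/-- splitting of the sum over the class -/
private lemma CtA_spl {S : Finset ι} {t : ι} (ht : t ∈ S) (x : ι → Vc K n) (w : Vc K n)
    {M : Type} [AddCommMonoid M] (g : ι → M) :
    ∑ u ∈ S.filter (fun u => x u = w), g u =
      (if x t = w then g t else 0) + ∑ u ∈ (S.erase t).filter (fun u => x u = w), g u := by
  rw [Finset.sum_filter, Finset.sum_filter, ← Finset.add_sum_erase S _ ht]

private lemma CtA_ctg {S : Finset ι} {t : ι} (ht : t ∈ S) (ξ : Vc K n) (x : ι → Vc K n)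
    (w v : Vc K n) : ∃ c : K, ct t ξ (CtA_tg S x w v) =
      vl ξ (x t) • CtA_tg (S.erase t) x w v + c • pr (S.erase t) x := by
  classical
  have key : ct t ξ (CtA_tg S x w v) = (if x t = w then vl ξ v • pr (S.erase t) x else 0) +
      vl ξ (x t) • CtA_tg (S.erase t) x w v := by
    rw [CtA_tg, map_sum]
    have h0 : ∑ u ∈ S.filter (fun u => x u = w), ct t ξ (pr S (Function.update x u v)) =
        ∑ u ∈ S.filter (fun u => x u = w),
          vl ξ (Function.update x u v t) • pr (S.erase t) (Function.update x u v) :=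
      Finset.sum_congr rfl fun u _ => CtA_ct ht ξ _
    rw [h0, CtA_spl ht x w, Function.update_self, CtA_erup, CtA_tg, Finset.smul_sum]
    congr 1
    refine Finset.sum_congr rfl fun u hu => ?_
    have hu' : u ≠ t := Finset.ne_of_mem_erase (Finset.mem_filter.1 hu).1
    rw [Function.update_of_ne hu'.symm]
  by_cases h : x t = w
  · refine ⟨vl ξ v, ?_⟩
    rw [key, if_pos h, add_comm]
  · refine ⟨0, ?_⟩
    rw [key, if_neg h, zero_add, zero_smul, add_zero]

private lemma CtA_one (t : ι) (v : Vc K n) : (fun i => v (i t) : Tn K ι n) ∈ Dp K n {t} := by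
  intro i i' h
  change v (i t) = v (i' t)
  rw [h t (Finset.mem_singleton_self t)]

private lemma CtA_fac {S : Finset ι} {t : ι} (ht : t ∈ S) (y : ι → Vc K n) :
    pr S y = (fun i => y t (i t) : Tn K ι n) * pr (S.erase t) y := by
  funext i
  change ∏ u ∈ S, y u (i u) = y t (i t) * ∏ u ∈ S.erase t, y u (i u)
  rw [← Finset.mul_prod_erase S _ ht]

end

theorem t_CtA : S_CtA := by
  classical
  intro K ι _ _ _ n τ S x
  have h3 : ∀ t ∈ S, ∀ ξ : Vc K n, (Mo τ S x).map (ct t ξ) ≤ Mo τ (S.erase t) x := by
    intro t ht ξ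
    rw [Submodule.map_le_iff_le_comap]
    refine CtA_le ?_ fun hτ w v => ?_
    · rw [Submodule.mem_comap, CtA_ct ht]
      exact Submodule.smul_mem _ _ (CtA_prm _ _ _)
    · obtain ⟨c, hc⟩ := CtA_ctg ht ξ x w v
      rw [Submodule.mem_comap, hc]
      exact Submodule.add_mem _ (Submodule.smul_mem _ _ (CtA_tgm hτ _ _ _ _))
        (Submodule.smul_mem _ _ (CtA_prm _ _ _))
  refine ⟨?_, ?_, h3, ?_, ?_, ?_⟩
  · refine CtA_le (CtA_prDp S x) fun _ w v => ?_
    exact Submodule.sum_mem _ fun u _ => CtA_prDp S _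
  · intro Q hQ hx
    refine CtA_le ?_ fun _ w v => ?_
    · intro t ht t' ht' i
      rw [CtA_swap S x (hQ ht) (hQ ht') i]
      have : (fun u => x (Equiv.swap t t' u)) = x := funext fun u => CtA_swx (hx t ht t' ht') u
      rw [this]
    · intro t ht t' ht' i
      rw [CtA_tg, Finset.sum_apply, Finset.sum_apply]
      refine Finset.sum_equiv (Equiv.swap t t') ?_ ?_
      · intro u
        rw [Finset.mem_filter, Finset.mem_filter, CtA_swx (hx t ht t' ht')]
        constructor
        · rintro ⟨h1, h2⟩
          exact ⟨CtA_swS (hQ ht) (hQ ht') h1, h2⟩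
        · rintro ⟨h1, h2⟩
          have := CtA_swS (hQ ht) (hQ ht') h1
          rw [Equiv.swap_apply_self] at this
          exact ⟨this, h2⟩
      · intro u _
        rw [CtA_swap S _ (hQ ht) (hQ ht') i, CtA_upd (hx t ht t' ht')]
  · intro t ht ξ hξ
    refine le_antisymm (h3 t ht ξ) ?_
    have hp : pr (S.erase t) x ∈ (Mo τ S x).map (ct t ξ) := by
      refine ⟨(vl ξ (x t))⁻¹ • pr S x, Submodule.smul_mem _ _ (CtA_prm _ _ _), ?_⟩
      rw [map_smul, CtA_ct ht, smul_smul, inv_mul_cancel₀ hξ, one_smul]
    refine CtA_le hp fun hτ w v => ?_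
    obtain ⟨c, hc⟩ := CtA_ctg ht ξ x w v
    have h1 : ct t ξ (CtA_tg S x w v) ∈ (Mo τ S x).map (ct t ξ) :=
      Submodule.mem_map_of_mem (CtA_tgm hτ _ _ _ _)
    have h2 : vl ξ (x t) • CtA_tg (S.erase t) x w v ∈ (Mo τ S x).map (ct t ξ) := by
      have : vl ξ (x t) • CtA_tg (S.erase t) x w v =
          ct t ξ (CtA_tg S x w v) - c • pr (S.erase t) x := by
        rw [hc]; abel
      rw [this]
      exact Submodule.sub_mem _ h1 (Submodule.smul_mem _ _ hp)
    have h4 := Submodule.smul_mem _ (vl ξ (x t))⁻¹ h2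
    rwa [smul_smul, inv_mul_cancel₀ hξ, one_smul] at h4
  · intro t ht
    refine CtA_le ?_ fun hτ w v => ?_
    · rw [CtA_fac ht]
      exact Submodule.mul_mem_mul (CtA_one t _) (CtA_prm _ _ _)
    · have h0 : CtA_tg S x w v = (if x t = w then
          (fun i => v (i t) : Tn K ι n) * pr (S.erase t) x else 0) +
          (fun i => x t (i t) : Tn K ι n) * CtA_tg (S.erase t) x w v := by
        rw [CtA_tg, CtA_spl ht x w, CtA_tg, Finset.mul_sum]
        congr 1
        · by_cases h : x t = w
          · rw [if_pos h, if_pos h, CtA_fac ht, Function.update_self, CtA_erup]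
          · rw [if_neg h, if_neg h]
        · refine Finset.sum_congr rfl fun u hu => ?_
          have hu' : u ≠ t := Finset.ne_of_mem_erase (Finset.mem_filter.1 hu).1
          rw [CtA_fac ht, Function.update_of_ne hu'.symm]
      rw [h0]
      refine Submodule.add_mem _ ?_ (Submodule.mul_mem_mul (CtA_one t _) (CtA_tgm hτ _ _ _ _))
      by_cases h : x t = w
      · rw [if_pos h]
        exact Submodule.mul_mem_mul (CtA_one t _) (CtA_prm _ _ _)
      · rw [if_neg h]
        exact Submodule.zero_mem _
  · intro x' hx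
    have e1 : pr S x = pr S x' := CtA_congr hx
    have e2 : ∀ w v, CtA_tg S x w v = CtA_tg S x' w v := by
      intro w v
      rw [CtA_tg, CtA_tg]
      have : S.filter (fun u => x u = w) = S.filter (fun u => x' u = w) :=
        Finset.filter_congr fun u hu => by rw [hx u hu]
      rw [this]
      refine Finset.sum_congr rfl fun u _ => CtA_congr fun s hs => ?_
      by_cases h : s = u
      · rw [h, Function.update_self, Function.update_self]
      · rw [Function.update_of_ne h, Function.update_of_ne h, hx s hs]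
    rw [CtA_mo, CtA_mo, e1]
    simp only [e2]

end Pool.Agent.Lib.MP_d01072_ag.CL
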