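import Pool.Agent.Lib.MP_d01072_ag.CL.Spec

/-!
MP_d01072_ag, package CL, module Der: derivations.
-/

set_option autoImplicit false

namespace Pool.Agent.Lib.MP_d01072_ag.CL

open MvPolynomial
open scoped TensorProduct

/-- The differentials of a transcendence basis are a basis. -/
private theorem Der_basis (k : Type) [Field k] [Algebra ℂ k] (ι : Type) (z : ι → k)
    (hz : IsTranscendenceBasis ℂ z) :
    ∃ B : Module.Basis ι k (Ω[k⁄ℂ]), ∀ i, B i = KaehlerDifferential.D ℂ k (z i) := by
  classical
  let P := MvPolynomial ι ℂ
  let φ : P →ₐ[ℂ] k := aeval z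
  have hinj : Function.Injective φ := hz.1
  letI algPk : Algebra P k := φ.toRingHom.toAlgebra
  have hmap : ∀ p : P, algebraMap P k p = aeval z p := fun p => rfl
  haveI tower : IsScalarTower ℂ P k := IsScalarTower.of_algebraMap_eq fun c => by
    rw [hmap]
    exact (φ.commutes c).symm
  haveI hfaith : FaithfulSMul P k := (faithfulSMul_iff_algebraMap_injective _ _).2 hinj
  -- `k` is algebraic over `P`
  haveI halg : Algebra.IsAlgebraic P k := by
    constructor
    intro a
    have h1 := (hz.isAlgebraic).isAlgebraic a
    obtain ⟨p, hp, hpa⟩ := h1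
    let e : P ≃ₐ[ℂ] Algebra.adjoin ℂ (Set.range z) := hz.1.aevalEquiv
    have he : ∀ q : P, ((e q : Algebra.adjoin ℂ (Set.range z)) : k) = aeval z q := fun q =>
      hz.1.algebraMap_aevalEquiv q
    refine ⟨p.map (e.symm : Algebra.adjoin ℂ (Set.range z) →+* P), ?_, ?_⟩
    · exact (Polynomial.map_ne_zero_iff e.symm.injective).2 hp
    · rw [Polynomial.aeval_def, Polynomial.eval₂_map]
      rw [Polynomial.aeval_def] at hpa
      rw [← hpa]
      congr 1
      ext q
      change aeval z (e.symm q) = (q : k)
      rw [← he, e.apply_symm_apply]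
  let L := FractionRing P
  letI algLk : Algebra L k := FractionRing.liftAlgebra P k
  haveI towerPLk : IsScalarTower P L k := FractionRing.isScalarTower_liftAlgebra P k
  haveI towerCLk : IsScalarTower ℂ L k := by
    apply IsScalarTower.of_algebraMap_eq
    intro c
    rw [IsScalarTower.algebraMap_apply ℂ P k, IsScalarTower.algebraMap_apply ℂ P L,
      ← IsScalarTower.algebraMap_apply P L k]
  haveI halgL : Algebra.IsAlgebraic L k :=
    Algebra.IsAlgebraic.extendScalars (R := P) (IsFractionRing.injective P L)
  haveI : CharZero L := by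
    have : CharZero ℂ := inferInstance
    exact charZero_of_injective_algebraMap (algebraMap ℂ L).injective
  haveI hsep : Algebra.IsSeparable L k := Algebra.IsAlgebraic.isSeparable_of_perfectField
  haveI het1 : Algebra.FormallyEtale L k := Algebra.FormallyEtale.of_isSeparable L k
  haveI het2 : Algebra.FormallyEtale P L :=
    Algebra.FormallyEtale.of_isLocalization (nonZeroDivisors P)
  haveI het : Algebra.FormallyEtale P k := Algebra.FormallyEtale.comp P L k
  set E := KaehlerDifferential.tensorKaehlerEquivOfFormallyEtale ℂ P k with hE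
  set b := KaehlerDifferential.mvPolynomialBasis ℂ ι with hb0
  refine ⟨(b.baseChange k).map E, fun i => ?_⟩
  have hb : b i = KaehlerDifferential.D ℂ P (X i) := KaehlerDifferential.mvPolynomialBasis_apply ℂ ι i
  have hD : KaehlerDifferential.D ℂ k (z i) =
      E ((1 : k) ⊗ₜ[P] (KaehlerDifferential.D ℂ _ (X i : P))) := by
    rw [← LinearEquiv.symm_apply_eq]
    have h1 := KaehlerDifferential.tensorKaehlerEquivOfFormallyEtale_symm_D_algebraMap ℂ P k (X i)
    rw [hmap, aeval_X] at h1
    exact h1
  rw [hD, ← hb, Module.Basis.map_apply, Module.Basis.baseChange_apply]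

private theorem Der_dual (k : Type) [Field k] [Algebra ℂ k] (ι : Type) [DecidableEq ι] (z : ι → k)
    (hz : AlgebraicIndependent ℂ z) :
    ∃ D : ι → Derivation ℂ k k, ∀ i j, D i (z j) = if i = j then 1 else 0 := by
  classical
  obtain ⟨t, hst, ht⟩ := exists_isTranscendenceBasis_superset (R := ℂ) (s := Set.range z)
    hz.to_subtype_range
  obtain ⟨B, hB⟩ := Der_basis k t (fun a => (a : k)) ht
  let q : ι → t := fun i => ⟨z i, hst ⟨i, rfl⟩⟩
  have hq : Function.Injective q := fun i j hij => hz.injective (congrArg Subtype.val hij)
  refine ⟨fun i => (B.coord (q i)).compDer (KaehlerDifferential.D ℂ k), fun i j => ?_⟩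
  have h2 : ((B.coord (q i)).compDer (KaehlerDifferential.D ℂ k)) (z j) =
      B.coord (q i) (KaehlerDifferential.D ℂ k ((q j : t) : k)) := rfl
  rw [h2, ← hB, Module.Basis.coord_apply, Module.Basis.repr_self, Finsupp.single_apply]
  by_cases h : i = j
  · rw [if_pos h, if_pos (congrArg q h.symm)]
  · rw [if_neg h, if_neg fun h3 => h (hq h3).symm]

/-- the derivative of a product -/
private theorem Der_prod {K : Type} [Field K] [Algebra ℂ K] (D : Derivation ℂ K K) {α : Type}
    [DecidableEq α] (s : Finset α) (f : α → K) :
    D (∏ t ∈ s, f t) = ∑ t ∈ s, ∏ u ∈ s, Function.update f t (D (f t)) u := by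
  induction s using Finset.induction_on with
  | empty => simp
  | insert a s ha ih =>
    rw [Finset.prod_insert ha, Derivation.leibniz, ih, Finset.sum_insert ha,
      Finset.prod_insert ha, Function.update_self, smul_eq_mul, smul_eq_mul]
    have h1 : ∏ u ∈ s, Function.update f a (D (f a)) u = ∏ u ∈ s, f u :=
      Finset.prod_congr rfl fun u hu => Function.update_of_ne (fun h : u = a => ha (h ▸ hu)) _ _
    have h2 : ∑ t ∈ s, ∏ u ∈ insert a s, Function.update f t (D (f t)) u =
        f a * ∑ t ∈ s, ∏ u ∈ s, Function.update f t (D (f t)) u := by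
      rw [Finset.mul_sum]
      refine Finset.sum_congr rfl fun t ht => ?_
      rw [Finset.prod_insert ha, Function.update_of_ne (fun h : a = t => ha (h ▸ ht))]
    rw [h1, h2]
    ring

theorem t_Der : S_Der := by
  classical
  intro K _ _ n d r m w l J hsym hind
  obtain ⟨τ, hτ⟩ : ∃ τ : Tn K (Fin d) n, τ = ∑ j, w j • pr Finset.univ (l j) := ⟨_, rfl⟩
  rw [← hτ] at hsym hind
  obtain ⟨D, hD⟩ := Der_dual K (Fin m) _ hind
  have hmem : ∀ a, (fun i => D a (τ i)) ∈
      (Sy K n Finset.univ ⊓ Es true Finset.univ Finset.univ l : Submodule K (Tn K (Fin d) n)) := by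
    intro a
    refine Submodule.mem_inf.2 ⟨?_, ?_⟩
    · intro t ht t' ht' i
      exact congrArg (D a) (hsym t ht t' ht' i)
    · have h1 : (fun i => D a (τ i)) = ∑ j, ((D a (w j)) • pr Finset.univ (l j) +
          w j • ∑ v ∈ Finset.univ.image (l j),
            ∑ u ∈ Finset.univ.filter (fun u => l j u = v),
              pr Finset.univ (Function.update (l j) u (fun b => D a (v b)))) := by
        funext i
        have h2 : τ i = ∑ j, w j * ∏ t, l j t (i t) := by
          rw [hτ, Finset.sum_apply]
          rfl
        rw [h2, map_sum, Finset.sum_apply]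
        refine Finset.sum_congr rfl fun j _ => ?_
        rw [Derivation.leibniz, Pi.add_apply, Pi.smul_apply, Pi.smul_apply, smul_eq_mul,
          smul_eq_mul, smul_eq_mul, smul_eq_mul, Finset.sum_apply]
        have h3 : ∑ v ∈ Finset.univ.image (l j),
            (∑ u ∈ Finset.univ.filter (fun u => l j u = v),
              pr Finset.univ (Function.update (l j) u (fun b => D a (v b)))) i =
            ∑ u, pr Finset.univ (Function.update (l j) u (fun b => D a (l j u b))) i := by
          rw [← Finset.sum_fiberwise_of_maps_to (s := Finset.univ)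
            (t := Finset.univ.image (l j)) (g := l j)
            (fun u _ => Finset.mem_image_of_mem _ (Finset.mem_univ u))]
          refine Finset.sum_congr rfl fun v _ => ?_
          rw [Finset.sum_apply]
          refine Finset.sum_congr rfl fun u hu => ?_
          rw [(Finset.mem_filter.1 hu).2]
        rw [h3, Der_prod]
        have h4 : ∀ u, pr Finset.univ (Function.update (l j) u (fun b => D a (l j u b))) i =
            ∏ t, Function.update (fun t => l j t (i t)) u (D a (l j u (i u))) t := by
          intro u
          unfold pr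
          refine Finset.prod_congr rfl fun t _ => ?_
          by_cases h : t = u
          · subst h
            rw [Function.update_self, Function.update_self]
          · rw [Function.update_of_ne h, Function.update_of_ne h]
        simp only [h4]
        unfold pr
        ring
      rw [h1]
      refine Submodule.sum_mem _ fun j _ => ?_
      have hle : Mo true Finset.univ (l j) ≤ Es true Finset.univ Finset.univ l :=
        le_iSup₂_of_le j (Finset.mem_univ j) le_rfl
      refine hle (Submodule.add_mem _ (Submodule.smul_mem _ _ ?_) (Submodule.smul_mem _ _ ?_))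
      · exact Submodule.subset_span (Or.inl rfl)
      · refine Submodule.sum_mem _ fun v _ => ?_
        refine Submodule.subset_span (Or.inr ⟨rfl, v, fun b => D a (v b), ?_⟩)
        refine Finset.sum_congr ?_ fun _ _ => rfl
        ext u
        simp
  -- linear independence
  have hli : LinearIndependent K (fun a : Fin m => (⟨fun i => D a (τ i), hmem a⟩ :
      (Sy K n Finset.univ ⊓ Es true Finset.univ Finset.univ l : Submodule K (Tn K (Fin d) n)))) := by
    rw [Fintype.linearIndependent_iff]
    intro c hc b
    have h1 := congrArg (fun f : (Sy K n Finset.univ ⊓ Es true Finset.univ Finset.univ l :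
      Submodule K (Tn K (Fin d) n)) => (f : Tn K (Fin d) n) (J b)) hc
    simp only [Submodule.coe_sum, Submodule.coe_smul, Finset.sum_apply, Pi.smul_apply,
      smul_eq_mul, hD, Submodule.coe_zero, Pi.zero_apply] at h1
    simpa using h1
  have h := hli.fintype_card_le_finrank
  rw [Fintype.card_fin] at h
  exact h

end Pool.Agent.Lib.MP_d01072_ag.CL
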