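import Pool.Agent.Lib.MP_d01072_ag.CL.Spec

set_option autoImplicit false

/-!
MP_d01072_ag, package CL: few deviations.
-/

namespace Pool.Agent.Lib.MP_d01072_ag.CL

section

variable {K : Type} [Field K] {ι : Type} [Fintype ι] [DecidableEq ι] {α : Type} {n : ℕ}

private lemma Few_rp_insert (l : α → ι → Vc K n) (t q : ι) (A A' : Finset ι)
    (h : ∀ u, u ∈ A' ↔ u = t ∨ u ∈ A) : rp {t} q (rp A q l) = rp A' q l := by
  funext j u
  unfold rp
  by_cases h1 : u = t
  · subst h1
    have h2 : u ∈ A' := (h u).2 (Or.inl rfl)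
    simp only [Finset.mem_singleton, if_true, if_pos h2]
    split_ifs <;> rfl
  · have h2 : (u ∈ A') ↔ u ∈ A := by
      rw [h u]
      simp [h1]
    simp only [Finset.mem_singleton, if_neg h1]
    by_cases h3 : u ∈ A
    · rw [if_pos h3, if_pos (h2.2 h3)]
    · rw [if_neg h3, if_neg (fun h4 => h3 (h2.1 h4))]

private lemma Few_rp_empty (l : α → ι → Vc K n) (q : ι) (A : Finset ι) (h : ∀ u, u ∉ A) :
    rp A q l = l := by
  funext j u
  unfold rp
  rw [if_neg (h u)]

private lemma Few_cl (S S' A : Finset ι) (q : ι) (l : α → ι → Vc K n) (j : α) (hq : q ∈ S)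
    (hS : S' ⊆ S) : cl S' (rp A q l j) ≤ cl S (l j) := by
  classical
  unfold cl
  refine Finset.card_le_card ?_
  intro v hv
  rw [Finset.mem_image] at hv ⊢
  obtain ⟨u, hu, rfl⟩ := hv
  unfold rp
  by_cases h : u ∈ A
  · exact ⟨q, hq, by rw [if_pos h]⟩
  · exact ⟨u, hS hu, by rw [if_neg h]⟩

private lemma Few_finrank_Es (τ : Bool) (S : Finset ι) (J : Finset α) (l : α → ι → Vc K n)
    (w : α → ℕ) (hw : ∀ j ∈ J, Module.finrank K (Mo τ S (l j)) ≤ w j) :
    Module.finrank K (Es τ S J l) ≤ ∑ j ∈ J, w j := by
  classical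
  induction J using Finset.induction_on with
  | empty =>
    have : Es τ S (∅ : Finset α) l = ⊥ := by simp [Es]
    rw [this]
    simp
  | insert a J ha ih =>
    have h1 : Es τ S (insert a J) l = Mo τ S (l a) ⊔ Es τ S J l := by
      unfold Es
      rw [Finset.iSup_insert]
    rw [h1, Finset.sum_insert ha]
    refine (Submodule.finrank_add_le_finrank_add_finrank _ _).trans ?_
    exact Nat.add_le_add (hw a (Finset.mem_insert_self _ _))
      (ih fun j hj => hw j (Finset.mem_insert_of_mem hj))

private lemma Few_Es_split (τ : Bool) (S : Finset ι) (J : Finset α) (l l' : α → ι → Vc K n)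
    (t q : ι) : Es τ S J l' = Es τ S (Jn J l t q) l' ⊔ Es τ S (Je J l t q) l' := by
  classical
  have h : J = Jn J l t q ∪ Je J l t q := by
    ext j
    simp only [Jn, Je, Finset.mem_union, Finset.mem_filter]
    tauto
  unfold Es
  rw [← Finset.iSup_union, ← h]

private lemma Few_Es_congr (τ : Bool) (S : Finset ι) (J : Finset α) (l l' : α → ι → Vc K n)
    (h : ∀ j ∈ J, l j = l' j) : Es τ S J l = Es τ S J l' := by
  unfold Es
  refine iSup_congr fun j => iSup_congr fun hj => ?_
  rw [h j hj]

end

open Classical in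
/-- **Few**.  Few deviations. -/
theorem t_Few (_h1 : S_CtA) (h2 : S_CtB) (h3 : S_Pp) (h4 : S_Sh) (h5 : S_Rr) (h6 : S_Chn) :
    S_Few := by
  intro K ι α _ _ _ _ n S Q q J l hQS hqQ hnQ hCs hNm
  have hqS : q ∈ S := hQS hqQ
  have hb : 0 < Q.card := Finset.card_pos.mpr ⟨q, hqQ⟩
  have hbR : (0 : ℝ) < Q.card := by exact_mod_cast hb
  set b : ℝ := (Q.card : ℝ) with hbdef
  have hb1 : (1 : ℝ) ≤ b := by
    rw [hbdef]
    exact_mod_cast hb
  have hn0 : (0 : ℝ) ≤ n := Nat.cast_nonneg n
  set D : α → Finset ι := fun j => (S \ Q).filter fun t => l j t ≠ l j q with hD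
  set w : α → ℝ := fun j => (n * cl S (l j) + 1 : ℝ) with hw
  set lam : ℝ := 3 * n / b with hlam
  have hlam0 : 0 ≤ lam := by positivity
  set y : Finset α → Finset ι → ℝ := fun F A => (yy true S F (rp A q l) : ℝ) with hy
  set s : Finset α → Finset ι → ℝ := fun F A =>
    (Module.finrank K (Es true S F (rp A q l)) : ℝ) with hs
  -- members of the modified families
  have hval : ∀ (A : Finset ι), A ⊆ S \ Q → ∀ j, ∀ u ∈ Q, rp A q l j u = l j u := by
    intro A hA j u hu
    unfold rp
    rw [if_neg]
    intro h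
    exact (Finset.mem_sdiff.mp (hA h)).2 hu
  have hvalt : ∀ (A : Finset ι) (t : ι), t ∉ A → ∀ j, rp A q l j t = l j t := by
    intro A t ht j
    unfold rp
    rw [if_neg ht]
  have hNm' : ∀ (A : Finset ι), ∀ j ∈ J, ∀ u ∈ S, Nm (rp A q l j u) := by
    intro A j hj u hu
    unfold rp
    split_ifs
    · exact hNm j hj q hqS
    · exact hNm j hj u hu
  have hdim : ∀ (A S' : Finset ι), S' ⊆ S → ∀ j ∈ J,
      Module.finrank K (Mo true S' (rp A q l j)) ≤ n * cl S (l j) + 1 := by
    intro A S' hS' j hj
    have h7 := (h2 K ι n true S' (rp A q l j)).2.2.2.2.2.2 (fun t ht => hNm' A j hj t (hS' ht))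
    exact h7.trans (Nat.add_le_add_right (Nat.mul_le_mul_left n (Few_cl S S' A q l j hqS hS')) 1)
  have hEs : ∀ (A S' : Finset ι), S' ⊆ S → ∀ F, F ⊆ J →
      (Module.finrank K (Es true S' F (rp A q l)) : ℝ) ≤ ∑ j ∈ F, w j := by
    intro A S' hS' F hF
    have h7 := Few_finrank_Es true S' F (rp A q l) (fun j => n * cl S (l j) + 1)
      (fun j hj => hdim A S' hS' j (hF hj))
    have h8 : ((∑ j ∈ F, (n * cl S (l j) + 1) : ℕ) : ℝ) = ∑ j ∈ F, w j := by
      push_cast
      rfl
    rw [← h8]
    exact_mod_cast h7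
  have hJn : ∀ (A : Finset ι) (t : ι), A ⊆ S \ Q → t ∈ S \ Q → t ∉ A → ∀ F : Finset α,
      Jn F (rp A q l) t q = F.filter fun j => t ∈ D j := by
    intro A t hA ht htA F
    ext j
    simp only [Jn, Finset.mem_filter]
    rw [hvalt A t htA j, hval A hA j q hqQ]
    simp only [hD, Finset.mem_filter, ht, true_and]
  have hJe : ∀ (A : Finset ι) (t : ι), A ⊆ S \ Q → t ∈ S \ Q → t ∉ A → ∀ F : Finset α,
      Je F (rp A q l) t q = F.filter fun j => t ∉ D j := by
    intro A t hA ht htA F
    ext j
    simp only [Je, Finset.mem_filter]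
    rw [hvalt A t htA j, hval A hA j q hqQ]
    simp only [hD, Finset.mem_filter, ht, true_and, ne_eq, not_not]
  have hCs' : ∀ (A : Finset ι), A ⊆ S \ Q → ∀ F, F ⊆ J → Cs Q F (rp A q l) := by
    intro A hA F hF j hj t ht t' ht'
    rw [hval A hA j t ht, hval A hA j t' ht']
    exact hCs j (hF hj) t ht t' ht'
  have key := h6 α ι (S \ Q) J D w lam y s hlam0 (fun j _ => by
      rw [hw]
      positivity) (fun j _ => Finset.filter_subset _ _)
    (fun F _ A _ => by
      simp only [hy, hs, yy]
      exact_mod_cast Submodule.finrank_mono (inf_le_right :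
        Sy K n S ⊓ Es true S F (rp A q l) ≤ Es true S F (rp A q l)))
    (fun F hF => hEs ∅ S (Finset.Subset.refl S) F hF)
    (fun F hF A hA t ht htA => by
      -- (P')
      obtain ⟨htS, htQ⟩ := Finset.mem_sdiff.mp ht
      have hqt : t ≠ q := fun h => htQ (h ▸ hqQ)
      have hins : rp {t} q (rp A q l) = rp (insert t A) q l :=
        Few_rp_insert l t q A _ (fun u => by rw [Finset.mem_insert])
      have hP := h3 K ι α n true S t q F (rp A q l) htS hqS hqt
        (fun j hj => ⟨hNm' A j (hF hj) t htS, hNm' A j (hF hj) q hqS⟩)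
      rw [hJn A t hA ht htA F, hJe A t hA ht htA F] at hP
      have hS := h4 K ι α n true S Q t q (F.filter fun j => t ∈ D j) (rp A q l) hQS htS htQ hqQ
        (hCs' A hA _ ((Finset.filter_subset _ _).trans hF))
      rw [hins] at hS
      have hsp := Few_Es_split true S F (rp A q l) (rp (insert t A) q l) t q
      rw [hJn A t hA ht htA F, hJe A t hA ht htA F] at hsp
      have hce : Es true S (F.filter fun j => t ∉ D j) (rp (insert t A) q l) =
          Es true S (F.filter fun j => t ∉ D j) (rp A q l) := by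
        refine Few_Es_congr true S _ _ _ fun j hj => ?_
        rw [← hJe A t hA ht htA F] at hj
        have hj2 : rp A q l j t = rp A q l j q := (Finset.mem_filter.mp hj).2
        rw [← hins]
        funext u
        change (if u ∈ ({t} : Finset ι) then rp A q l j q else rp A q l j u) = rp A q l j u
        by_cases hu : u = t
        · rw [if_pos (Finset.mem_singleton.mpr hu), hu, hj2]
        · rw [if_neg (fun h => hu (Finset.mem_singleton.mp h))]
      have hsum : Module.finrank K (Es true S F (rp (insert t A) q l)) ≤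
          Module.finrank K (Es true S (F.filter fun j => t ∈ D j) (rp (insert t A) q l)) +
          Module.finrank K (Es true S (F.filter fun j => t ∉ D j) (rp A q l)) := by
        rw [hsp, ← hce]
        exact Submodule.finrank_add_le_finrank_add_finrank _ _
      have hw1 := hEs (insert t A) S (Finset.Subset.refl S) (F.filter fun j => t ∈ D j)
        ((Finset.filter_subset _ _).trans hF)
      set e1 : ℕ := Module.finrank K (Es true S (F.filter fun j => t ∈ D j)
        (rp (insert t A) q l)) with he1
      set r0 : ℕ := Module.finrank K (Es true ((S.erase t).erase q) (F.filter fun j => t ∈ D j)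
        (rp A q l)) with hr0
      have hPR : (yy true S F (rp A q l) : ℝ) + r0 +
          Module.finrank K (Es true S (F.filter fun j => t ∉ D j) (rp A q l)) ≤
          Module.finrank K (Es true S F (rp A q l)) +
          yy true S (F.filter fun j => t ∉ D j) (rp A q l) := by exact_mod_cast hP
      have hSR : (b + 1) * b * e1 ≤ (b + 1 + n) * (b + n) * r0 := by
        rw [hbdef]
        exact_mod_cast hS
      have hsumR : (Module.finrank K (Es true S F (rp (insert t A) q l)) : ℝ) ≤
          e1 + Module.finrank K (Es true S (F.filter fun j => t ∉ D j) (rp A q l)) := by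
        exact_mod_cast hsum
      have he1w : (e1 : ℝ) ≤ ∑ j ∈ F.filter (fun j => t ∈ D j), w j := hw1
      have he1n : (0 : ℝ) ≤ e1 := Nat.cast_nonneg _
      have hdiff : (e1 : ℝ) - r0 ≤ lam * e1 := by
        have hX : 0 < (b + 1 + n) * (b + n) := by positivity
        have h9 : ((e1 : ℝ) - r0) * ((b + 1 + n) * (b + n)) ≤
            lam * e1 * ((b + 1 + n) * (b + n)) := by
          have h10 : ((e1 : ℝ) - r0) * ((b + 1 + n) * (b + n)) ≤
              e1 * ((b + 1 + n) * (b + n)) - (b + 1) * b * e1 := by linarith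
          have h11 : lam * e1 * ((b + 1 + n) * (b + n)) =
              e1 * (3 * n * ((b + 1 + n) * (b + n)) / b) := by
            rw [hlam]
            ring
          have h12 : (b + 1 + n) * (b + n) - (b + 1) * b ≤ 3 * n * ((b + 1 + n) * (b + n)) / b := by
            rw [le_div_iff₀ hbR]
            have h13 : 0 ≤ (n : ℝ) * b := by positivity
            nlinarith [mul_nonneg hn0 hn0, mul_nonneg (mul_nonneg hn0 hn0) hn0,
              mul_nonneg h13 hn0, mul_nonneg h13 hbR.le, mul_nonneg (mul_nonneg hn0 hn0) hbR.le]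
          rw [h11]
          calc ((e1 : ℝ) - r0) * ((b + 1 + n) * (b + n))
              ≤ e1 * ((b + 1 + n) * (b + n)) - (b + 1) * b * e1 := h10
            _ = e1 * ((b + 1 + n) * (b + n) - (b + 1) * b) := by ring
            _ ≤ e1 * (3 * n * ((b + 1 + n) * (b + n)) / b) :=
                mul_le_mul_of_nonneg_left h12 he1n
        exact le_of_mul_le_mul_right h9 hX
      have hlw : lam * e1 ≤ lam * ∑ j ∈ F.filter (fun j => t ∈ D j), w j :=
        mul_le_mul_of_nonneg_left he1w hlam0
      have HG : y F A ≤ s F A - s F (insert t A) + y (F.filter fun j => t ∉ D j) A +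
          lam * ∑ j ∈ F.filter (fun j => t ∈ D j), w j := by
        simp only [hy, hs]
        linarith
      have hinst : (‹DecidableEq ι› : DecidableEq ι) =
          fun a b => Classical.propDecidable (a = b) := Subsingleton.elim _ _
      rw [← hinst]
      exact HG)
    (fun F hF A hA t ht htA => by
      -- (R')
      obtain ⟨htS, htQ⟩ := Finset.mem_sdiff.mp ht
      have hins : rp {t} q (rp A q l) = rp (insert t A) q l :=
        Few_rp_insert l t q A _ (fun u => by rw [Finset.mem_insert])
      have hR := h5 K ι α n true S Q t q F (rp A q l) hQS htS htQ hqQ (hCs' A hA F hF)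
        (fun j hj => hNm' A j (hF hj) q hqS)
      rw [hJn A t hA ht htA F, hins] at hR
      have hw1 := hEs A (S.erase t) (Finset.erase_subset _ _) (F.filter fun j => t ∈ D j)
        ((Finset.filter_subset _ _).trans hF)
      set r1 : ℕ := Module.finrank K (Es true (S.erase t) (F.filter fun j => t ∈ D j)
        (rp A q l)) with hr1
      have hRR : (b + 1) * (yy true S F (rp A q l) : ℝ) ≤
          (b + 1) * yy true S F (rp (insert t A) q l) + n * r1 := by
        rw [hbdef]
        exact_mod_cast hR
      have hr1w : (r1 : ℝ) ≤ ∑ j ∈ F.filter (fun j => t ∈ D j), w j := hw1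
      have hr1n : (0 : ℝ) ≤ r1 := Nat.cast_nonneg _
      have hb1p : 0 < b + 1 := by positivity
      have h9 : (n : ℝ) * r1 ≤ (b + 1) * (lam * r1) := by
        have h10 : (b + 1) * (lam * r1) = n * r1 * (3 * (b + 1) / b) := by
          rw [hlam]
          ring
        rw [h10]
        have h11 : 1 ≤ 3 * (b + 1) / b := by
          rw [le_div_iff₀ hbR]
          linarith
        have h12 : 0 ≤ (n : ℝ) * r1 := mul_nonneg hn0 hr1n
        calc (n : ℝ) * r1 = n * r1 * 1 := by ring
          _ ≤ n * r1 * (3 * (b + 1) / b) := mul_le_mul_of_nonneg_left h11 h12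
      have h10 : (b + 1) * (yy true S F (rp A q l) : ℝ) ≤
          (b + 1) * (yy true S F (rp (insert t A) q l) + lam * r1) := by
        calc (b + 1) * (yy true S F (rp A q l) : ℝ)
            ≤ (b + 1) * yy true S F (rp (insert t A) q l) + n * r1 := hRR
          _ ≤ (b + 1) * yy true S F (rp (insert t A) q l) + (b + 1) * (lam * r1) := by linarith
          _ = (b + 1) * (yy true S F (rp (insert t A) q l) + lam * r1) := by ring
      have h11 := le_of_mul_le_mul_left h10 hb1p
      have hlw : lam * r1 ≤ lam * ∑ j ∈ F.filter (fun j => t ∈ D j), w j :=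
        mul_le_mul_of_nonneg_left hr1w hlam0
      have HG : y F A ≤ y F (insert t A) + lam * ∑ j ∈ F.filter (fun j => t ∈ D j), w j := by
        simp only [hy]
        linarith
      have hinst : (‹DecidableEq ι› : DecidableEq ι) =
          fun a b => Classical.propDecidable (a = b) := Subsingleton.elim _ _
      rw [← hinst]
      exact HG)
  have hDcard : ∀ j ∈ J, (D j).card = dv S (l j) (l j q) := by
    intro j hj
    unfold dv
    congr 1
    ext t
    simp only [hD, Finset.mem_filter, Finset.mem_sdiff]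
    constructor
    · rintro ⟨⟨h7, _⟩, h8⟩
      exact ⟨h7, h8⟩
    · rintro ⟨h7, h8⟩
      exact ⟨⟨h7, fun h9 => h8 (hCs j hj t h9 q hqQ)⟩, h8⟩
  have hy0 : y J ∅ = (yy true S J l : ℝ) := by
    simp only [hy]
    rw [Few_rp_empty l q ∅ (fun u => Finset.notMem_empty u)]
  rw [hy0] at key
  refine key.trans (le_of_eq (Finset.sum_congr rfl fun j hj => ?_))
  rw [hDcard j hj]

end Pool.Agent.Lib.MP_d01072_ag.CL
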