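import Pool.Agent.Lib.MP_d01072_ag.CL.Spec

/-!
MP_d01072_ag, package CL, module Fnl: the theorem.
-/

set_option autoImplicit false

namespace Pool.Agent.Lib.MP_d01072_ag.CL

open MvPolynomial

/-- from a polynomial to a homogeneous polynomial -/
private theorem fl_homog {n d p : ℕ} (hd : 0 < d) (c : Fin d → Fin p) (h : ℕ)
    (H : ∃ Q : MvPolynomial (Fin d → Fin (n + 1)) ℂ, (∃ T ∈ sec n d h, eval T Q ≠ 0) ∧
      ∀ T ∈ sec n d h, eval T Q ≠ 0 → rk c T = srk T) : Bp.Concl (n := n) c h := by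
  obtain ⟨Q, ⟨T0, hT0, hT0Q⟩, hQ⟩ := H
  have h1 : ∃ k, eval T0 (homogeneousComponent k Q) ≠ 0 := by
    by_contra hcon
    push Not at hcon
    apply hT0Q
    rw [← sum_homogeneousComponent Q, map_sum]
    exact Finset.sum_eq_zero fun k _ => hcon k
  obtain ⟨k, hk⟩ := h1
  refine ⟨k, homogeneousComponent k Q, homogeneousComponent_isHomogeneous k Q, ⟨T0, hT0, hk⟩, ?_⟩
  intro T hT hTk
  set q : Polynomial ℂ :=
    aeval (fun i => Polynomial.C (T i) * Polynomial.X :
      (Fin d → Fin (n + 1)) → Polynomial ℂ) Q with hq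
  have hq0 : Polynomial.X * q ≠ 0 := by
    refine mul_ne_zero Polynomial.X_ne_zero fun h0 => hTk ?_
    rw [← coeff_line, ← hq, h0, Polynomial.coeff_zero]
  obtain ⟨z, hz⟩ : ∃ z, (Polynomial.X * q).eval z ≠ 0 := by
    by_contra hcon
    push Not at hcon
    exact hq0 (Polynomial.funext fun z => by rw [hcon, Polynomial.eval_zero])
  rw [Polynomial.eval_mul, Polynomial.eval_X, hq, eval_line] at hz
  have hz0 := left_ne_zero_of_mul hz
  have h2 := hQ (z • T) (smul_mem_sec hd hT z) (right_ne_zero_of_mul hz)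
  rw [rk_smul hd c T hz0, srk, rk_smul hd (one d) T hz0] at h2
  exact h2

/-- a polynomial which vanishes on the sums vanishes on the parametrisation -/
private theorem fl_par {n d h : ℕ} (P : MvPolynomial (Fin d → Fin (n + 1)) ℂ)
    (hP : ∀ S : Tens n d, SumOf (one d) h S → eval S P = 0) : aeval (par n d h) P = 0 := by
  refine MvPolynomial.funext fun y => ?_
  rw [eval_aeval_par, map_zero]
  exact hP _ ⟨fun j _ a => y (j, a), rfl⟩

/-- the elements of the secant variety are symmetric -/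
private theorem fl_symm {n d h : ℕ} {T : Tens n d} (hT : T ∈ sec n d h)
    (σ : Equiv.Perm (Fin d)) (i : Fin d → Fin (n + 1)) : T (fun t => i (σ t)) = T i := by
  have h1 := hT (X (fun t => i (σ t)) - X i) ?_
  · rw [map_sub, eval_X, eval_X] at h1
    exact sub_eq_zero.1 h1
  · rintro S ⟨l, rfl⟩
    rw [map_sub, eval_X, eval_X, sub_eq_zero]
    simp only [Finset.sum_apply]
    refine Finset.sum_congr rfl fun j _ => ?_
    exact Equiv.prod_comp σ (fun t => l j 0 (i t))

/-- `sec_0` is not `sec_h` -/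
private theorem fl_zero {n d h : ℕ} (hd : 0 < d) (hh : 1 ≤ h) : sec n d 0 ≠ sec n d h := by
  intro hcon
  set T : Tens n d := pt (one d) (fun _ _ => 1) with hT
  have h1 : SumOf (one d) 1 T := ⟨fun _ _ _ => 1, by rw [Fin.sum_univ_one]⟩
  have h2 : T ∈ sec n d h := sumOf_mem_sec (h1.mono hd hh)
  rw [← hcon] at h2
  have h3 := h2 (X (fun _ => 0)) (by
    rintro S ⟨l, rfl⟩
    rw [eval_X, Finset.univ_eq_empty, Finset.sum_empty, Pi.zero_apply])
  rw [eval_X, hT, pt, Finset.prod_const_one] at h3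
  exact one_ne_zero h3

/-- the polynomial which vanishes on the sums of few terms -/
private theorem fl_key (h3 : Bp.S_Gp) {n E D : ℕ}
    (hD : ∀ (K : Type) [Field K] [Algebra ℂ K]
      [IsAlgClosed K] (d r m : ℕ) (v : Fin r → Fin d → Fin (n + 1) → K)
      (J : Fin m → (Fin d → Fin (n + 1))), D ≤ d →
      (∀ (σ : Equiv.Perm (Fin d)) (i : Fin d → Fin (n + 1)),
        ∑ j, ∏ t, v j t (i (σ t)) = ∑ j, ∏ t, v j t (i t)) →
      AlgebraicIndependent ℂ (fun a => ∑ j, ∏ t, v j t (J a t)) →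
      (n + 1) * r ≤ m + E →
      ∃ u : Fin r → Fin (n + 1) → K, ∀ i : Fin d → Fin (n + 1),
        ∑ j, ∏ t, v j t (i t) = ∑ j, ∏ t, u j (i t))
    {d p r h mJ : ℕ} (c : Fin d → Fin p) (J : Fin mJ → (Fin d → Fin (n + 1)))
    (P : MvPolynomial (Fin d → Fin (n + 1)) ℂ) (hDd : D ≤ d) (hJE : (n + 1) * r ≤ mJ + E)
    (hJ : AlgebraicIndependent ℂ (fun j => par n d h (J j))) (hPr : aeval (par n d r) P = 0)
    (hPh : aeval (par n d h) P ≠ 0) :
    ∃ Q : MvPolynomial (Fin d → Fin (n + 1)) ℂ, aeval (par n d h) Q ≠ 0 ∧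
      ∀ T : Tens n d, SumOf c r T → T ∈ sec n d h → eval T Q = 0 := by
  by_contra hcon
  push Not at hcon
  obtain ⟨K, _, _, _, v, hv⟩ := h3 n d p c r h fun Q hQ => by
    obtain ⟨T, hT1, hT2, hT3⟩ := hcon Q hQ
    exact ⟨T, hT2, hT1, hT3⟩
  have hsym : ∀ (σ : Equiv.Perm (Fin d)) (i : Fin d → Fin (n + 1)),
      ∑ j, ∏ t, v j (c t) (i (σ t)) = ∑ j, ∏ t, v j (c t) (i t) := by
    intro σ i
    have h4 := (hv (X (fun t => i (σ t)) - X i)).2 (by
      rw [map_sub, aeval_X, aeval_X, sub_eq_zero]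
      unfold par
      refine Finset.sum_congr rfl fun j _ => ?_
      exact Equiv.prod_comp σ (fun t => (X (j, i t) : MvPolynomial (Fin h × Fin (n + 1)) ℂ)))
    rw [map_sub, aeval_X, aeval_X, sub_eq_zero] at h4
    exact h4
  have hind : AlgebraicIndependent ℂ
      (fun j => (fun i : Fin d → Fin (n + 1) => ∑ j, ∏ t, v j (c t) (i t)) (J j)) := by
    rw [algebraicIndependent_iff] at hJ ⊢
    intro Q hQ
    apply hJ
    have h6 := (hv (rename J Q)).1 (by
      rw [aeval_rename]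
      exact hQ)
    rw [aeval_rename] at h6
    exact h6
  obtain ⟨u, hu⟩ := hD K d r mJ (fun j t => v j (c t)) J hDd hsym hind hJE
  apply hPh
  rw [← hv P]
  have h5 : (fun i : Fin d → Fin (n + 1) => ∑ j, ∏ t, v j (c t) (i t)) =
      fun i => aeval (fun q : Fin r × Fin (n + 1) => u q.1 q.2) (par n d r i) := by
    funext i
    rw [hu i]
    simp only [par, map_sum, map_prod, aeval_X]
  rw [h5]
  have h6 : aeval (fun i : Fin d → Fin (n + 1) =>
      aeval (fun q : Fin r × Fin (n + 1) => u q.1 q.2) (par n d r i)) P =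
      aeval (fun q : Fin r × Fin (n + 1) => u q.1 q.2) (aeval (par n d r) P) := by
    rw [← AlgHom.comp_apply, comp_aeval]
  rw [h6, hPr, map_zero]

theorem t_Fnl (h1 : Bp.S_AHn) (h2 : Bp.S_All) (h3 : Bp.S_Gp) (h4 : S_Key) : S_Fnl := by
  intro n hn
  obtain ⟨E, hE⟩ := h1 n hn
  obtain ⟨D, hD⟩ := h4 n E hn
  refine ⟨D + 1, fun d p c h hDd hh => ?_⟩
  have hd0 : 0 < d := by omega
  -- the smallest number
  classical
  have hex : ∃ h', sec n d h' = sec n d h := ⟨h, rfl⟩
  set h0 := Nat.find hex with hh0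
  have hsp : sec n d h0 = sec n d h := Nat.find_spec hex
  have hmin : ∀ m < h0, sec n d m ≠ sec n d h := fun m hm => Nat.find_min hex hm
  have hh1 : 1 ≤ h0 := by
    rw [Nat.one_le_iff_ne_zero]
    intro h00
    rw [h00] at hsp
    exact fl_zero hd0 hh hsp
  set r := h0 - 1 with hr
  have hr1 : r + 1 = h0 := by omega
  have hsub : sec n d r ⊆ sec n d h0 := by
    intro T hT P hP
    exact hT P fun S hS => hP S (hS.mono hd0 (by omega))
  obtain ⟨T1, hT1, P, hPr, hPT⟩ : ∃ T1 ∈ sec n d h0, ∃ P : MvPolynomial (Fin d → Fin (n + 1)) ℂ,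
      (∀ S : Tens n d, SumOf (one d) r S → eval S P = 0) ∧ eval T1 P ≠ 0 := by
    by_contra hcon
    push Not at hcon
    refine hmin r (by omega) ?_
    rw [← hsp]
    exact Set.Subset.antisymm hsub fun T hT P hP => hcon T hT P hP
  have hP0 : aeval (par n d r) P = 0 := fl_par P hPr
  have hP1 : aeval (par n d h0) P ≠ 0 := fun hcon =>
    hPT (hT1 P fun S hS => aeval_par_eq_zero _ P hcon S hS)
  have hrN : (n + 1) * r ≤ (d + n).choose n + E := by
    obtain ⟨m', J', hJ', hm', hm''⟩ := hE d r hd0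
    rcases hm'' with hm'' | hm''
    · omega
    · exact absurd (h2 n d r m' J' hJ' hm'' P hP0 T1 fun σ i => fl_symm hT1 σ i) hPT
  obtain ⟨mJ, J, hJ, hmJ, hmJ'⟩ := hE d h0 hd0
  have hrJ : (n + 1) * r ≤ mJ + E := by
    rcases hmJ' with hm'' | hm''
    · have : (n + 1) * r ≤ (n + 1) * h0 := Nat.mul_le_mul_left _ (by omega)
      omega
    · omega
  obtain ⟨Q1, hQ10, hQ1⟩ := fl_key h3 hD c J P (by omega) hrJ hJ hP0 hP1
  obtain ⟨Q2, hQ2, hopen⟩ := exists_open_image (par n d h0)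
  apply fl_homog hd0
  rw [← hsp]
  refine ⟨Q1 * Q2, ?_, ?_⟩
  · have h5 : aeval (par n d h0) (Q1 * Q2) ≠ 0 := by
      rw [map_mul]
      exact mul_ne_zero hQ10 hQ2
    have h6 : ∃ y, eval y (aeval (par n d h0) (Q1 * Q2)) ≠ 0 := by
      by_contra hcon
      push Not at hcon
      exact h5 (MvPolynomial.funext fun y => by rw [hcon, map_zero])
    obtain ⟨y, hy⟩ := h6
    rw [eval_aeval_par] at hy
    exact ⟨_, sumOf_mem_sec ⟨fun j _ a => y (j, a), rfl⟩, hy⟩
  · intro T hT hTQ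
    rw [map_mul] at hTQ
    have hT1 := left_ne_zero_of_mul hTQ
    have hT2 := right_ne_zero_of_mul hTQ
    obtain ⟨y, hy⟩ := hopen T (fun P hP => hT P fun S hS => aeval_par_eq_zero _ P hP S hS) hT2
    have hsum : SumOf (one d) h0 T := by
      refine ⟨fun j _ a => y (j, a), ?_⟩
      funext i
      rw [hy i]
      simp only [par, map_sum, map_prod, eval_X, Finset.sum_apply, pt]
    have hnot : ∀ r', r' + 1 ≤ h0 → ¬ SumOf c r' T := fun r' hr' hcon =>
      hT1 (hQ1 T (hcon.mono hd0 (by omega)) hT)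
    rw [rk_eq hsum.of_one hnot, srk, rk_eq hsum fun r' hr' hcon => hnot r' hr' hcon.of_one]

end Pool.Agent.Lib.MP_d01072_ag.CL
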