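import Pool.Agent.Lib.MP_d01072_ag.CL.Spec

/-! Module FwM of package CL: families with few deviations, choice of the common set of slots. -/

set_option autoImplicit false

namespace Pool.Agent.Lib.MP_d01072_ag.CL

open Classical in
private lemma finrank_Es_le {K ι α : Type} [Field K] [Fintype ι] [DecidableEq ι] {n : ℕ} (τ : Bool)
    (S : Finset ι) (l : α → ι → Vc K n) (w : α → ℕ) (J : Finset α)
    (hw : ∀ j ∈ J, Module.finrank K (Mo τ S (l j)) ≤ w j) :
    Module.finrank K (Es τ S J l) ≤ ∑ j ∈ J, w j := by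
  induction J using Finset.induction_on with
  | empty =>
    have h0 : Es τ S (∅ : Finset α) l = ⊥ := by simp [Es]
    rw [h0]
    simp
  | insert a J ha ih =>
    have h1 : Es τ S (insert a J) l = Mo τ S (l a) ⊔ Es τ S J l := by
      unfold Es
      rw [Finset.iSup_insert]
    rw [h1, Finset.sum_insert ha]
    exact (Submodule.finrank_add_le_finrank_add_finrank _ _).trans
      (add_le_add (hw a (Finset.mem_insert_self _ _))
        (ih fun j hj => hw j (Finset.mem_insert_of_mem hj)))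

open Classical in
private lemma yy_union_le {K ι α : Type} [Field K] [Fintype ι] [DecidableEq ι] {n : ℕ} (τ : Bool)
    (S : Finset ι) (l : α → ι → Vc K n) (J₁ J₂ : Finset α) :
    yy τ S (J₁ ∪ J₂) l ≤ yy τ S J₁ l + Module.finrank K (Es τ S J₂ l) := by
  have hE : Es τ S (J₁ ∪ J₂) l = Es τ S J₁ l ⊔ Es τ S J₂ l := by
    unfold Es
    rw [Finset.iSup_union]
  unfold yy
  rw [hE]
  set A := Sy K n S
  set B := Es τ S J₁ l
  set C := Es τ S J₂ l
  have h1 := Submodule.finrank_sup_add_finrank_inf_eq (A ⊓ (B ⊔ C)) B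
  have h2 : Module.finrank K ((A ⊓ (B ⊔ C)) ⊔ B : Submodule K (Tn K ι n)) ≤
      Module.finrank K (B ⊔ C : Submodule K (Tn K ι n)) :=
    Submodule.finrank_mono (sup_le inf_le_right le_sup_left)
  have h3 : Module.finrank K ((A ⊓ (B ⊔ C)) ⊓ B : Submodule K (Tn K ι n)) ≤
      Module.finrank K (A ⊓ B : Submodule K (Tn K ι n)) :=
    Submodule.finrank_mono (le_inf (inf_le_left.trans inf_le_left) inf_le_right)
  have h4 : Module.finrank K (B ⊔ C : Submodule K (Tn K ι n)) ≤
      Module.finrank K B + Module.finrank K C := Submodule.finrank_add_le_finrank_add_finrank _ _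
  omega

open Classical in
private lemma cl_le_dv {K ι : Type} [Field K] [DecidableEq ι] {n : ℕ}
    (S : Finset ι) (x : ι → Vc K n) (v : Vc K n) : cl S x ≤ dv S x v + 1 := by
  have h : S.image x ⊆ insert v ((S.filter fun t => x t ≠ v).image x) := by
    intro z hz
    obtain ⟨t, ht, rfl⟩ := Finset.mem_image.1 hz
    by_cases hv : x t = v
    · exact Finset.mem_insert.2 (Or.inl hv)
    · exact Finset.mem_insert.2 (Or.inr (Finset.mem_image.2
        ⟨t, Finset.mem_filter.2 ⟨ht, hv⟩, rfl⟩))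
  unfold cl dv
  refine (Finset.card_le_card h).trans ((Finset.card_insert_le _ _).trans ?_)
  exact Nat.add_le_add_right Finset.card_image_le 1

/-- `k` disjoint blocks of `b` slots -/
private lemma blocks {ι : Type} [DecidableEq ι] (S : Finset ι) (k b : ℕ) (h : k * b ≤ S.card) :
    ∃ e : Fin k × Fin b → ι, Function.Injective e ∧ ∀ p, e p ∈ S := by
  refine ⟨fun p => (S.equivFin.symm (Fin.castLE h (finProdFinEquiv p)) : ι), ?_, ?_⟩
  · intro p p' hp
    have h1 := Subtype.coe_injective hp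
    have h2 := S.equivFin.symm.injective h1
    exact finProdFinEquiv.injective (Fin.castLE_injective h h2)
  · intro p
    exact (S.equivFin.symm (Fin.castLE h (finProdFinEquiv p))).2

/-- one of the blocks is hit by few of the sets -/
private lemma pick {ι α : Type} [DecidableEq ι] (J : Finset α) (D : α → Finset ι)
    (c M k b : ℕ) (hb : 0 < b) (hk : c * M + 1 ≤ k) (e : Fin k × Fin b → ι) (he : Function.Injective e)
    (hDc : ∀ j ∈ J, (D j).card ≤ M) :
    ∃ i : Fin k, c * (J.filter fun j => ∃ t, e (i, t) ∈ D j).card ≤ J.card := by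
  classical
  have : Nonempty (Fin b) := ⟨⟨0, hb⟩⟩
  by_contra hcon
  push Not at hcon
  have h1 : ∑ i : Fin k, (J.filter fun j => ∃ t, e (i, t) ∈ D j).card ≤ J.card * M := by
    have h2 : ∑ i : Fin k, (J.filter fun j => ∃ t, e (i, t) ∈ D j).card =
        ∑ j ∈ J, (Finset.univ.filter fun i : Fin k => ∃ t, e (i, t) ∈ D j).card := by
      simp only [Finset.card_filter]
      rw [Finset.sum_comm]
    rw [h2]
    refine (Finset.sum_le_card_nsmul _ _ M ?_).trans (by simp)
    intro j hj
    refine le_trans ?_ (hDc j hj)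
    have h3 : ∀ i ∈ (Finset.univ.filter fun i : Fin k => ∃ t, e (i, t) ∈ D j),
        ∃ t, e (i, t) ∈ D j := fun i hi => (Finset.mem_filter.1 hi).2
    choose! f hf using h3
    refine Finset.card_le_card_of_injOn (fun i => e (i, f i)) (fun i hi => hf i hi) ?_
    intro i _ i' _ hii
    exact congrArg Prod.fst (he hii)
  have h4 : ∑ i : Fin k, (J.card + 1) ≤
      ∑ i : Fin k, c * (J.filter fun j => ∃ t, e (i, t) ∈ D j).card :=
    Finset.sum_le_sum fun i _ => hcon i
  rw [← Finset.mul_sum] at h4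
  simp only [Finset.sum_const, Finset.card_univ, Fintype.card_fin, smul_eq_mul] at h4
  have h5 : c * (∑ i : Fin k, (J.filter fun j => ∃ t, e (i, t) ∈ D j).card) ≤
      c * (J.card * M) := Nat.mul_le_mul_left _ h1
  have h6 : (c * M + 1) * (J.card + 1) ≤ k * (J.card + 1) := Nat.mul_le_mul_right _ hk
  nlinarith

/-- the estimate of one term -/
private lemma term_le (n M : ℕ) (hn : 1 ≤ n) (c m : ℕ) (b : ℝ)
    (hb : b = 48 * n * (M + 1) * (n * (M + 1) + 1)) (hc : c ≤ m + 1) (hm : m ≤ M) :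
    ((n * c + 1 : ℝ)) * (1 / (m + 1) + 3 * n / b * (m + 1)) ≤
      (n + 9 / 16) + (if m = 0 then (n + 1 : ℝ) else 0) := by
  have hn' : (1 : ℝ) ≤ n := by exact_mod_cast hn
  have hM' : (0 : ℝ) ≤ M := by positivity
  have hm' : (m : ℝ) ≤ M := by exact_mod_cast hm
  have hm0 : (0 : ℝ) ≤ m := by positivity
  have hc' : (c : ℝ) ≤ m + 1 := by exact_mod_cast hc
  have hbpos : 0 < b := by rw [hb]; positivity
  have h3 : 3 * (n : ℝ) / b = 1 / (16 * ((M + 1) * (n * (M + 1) + 1))) := by
    rw [hb]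
    field_simp
    ring
  have hD : (n * c + 1 : ℝ) ≤ n * (M + 1) + 1 := by nlinarith
  have h4 : ((n * c + 1 : ℝ)) * (3 * n / b * (m + 1)) ≤ 1 / 16 := by
    rw [h3]
    have h5 : ((n * c + 1 : ℝ)) * (1 / (16 * ((M + 1) * (n * (M + 1) + 1))) * (m + 1)) =
        ((n * c + 1) * (m + 1)) / (16 * ((M + 1) * (n * (M + 1) + 1))) := by
      field_simp
    rw [h5, div_le_div_iff₀ (by positivity) (by norm_num)]
    have h6 : ((n * c + 1 : ℝ)) * (m + 1) ≤ (n * (M + 1) + 1) * (M + 1) :=
      mul_le_mul hD (by linarith) (by positivity) (by positivity)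
    nlinarith
  have h7 : ((n * c + 1 : ℝ)) * (1 / (m + 1)) ≤ n + 1 / (m + 1) := by
    have h8 : ((n * c + 1 : ℝ)) ≤ n * (m + 1) + 1 := by nlinarith
    have h9 : ((n * c + 1 : ℝ)) * (1 / (m + 1)) ≤ (n * (m + 1) + 1) * (1 / (m + 1)) :=
      mul_le_mul_of_nonneg_right h8 (by positivity)
    have h10 : ((n : ℝ) * (m + 1) + 1) * (1 / (m + 1)) = n + 1 / (m + 1) := by
      field_simp
    linarith
  rw [mul_add]
  by_cases h0 : m = 0
  · subst h0
    simp only [if_true]
    have h11 : (1 : ℝ) / (((0 : ℕ) : ℝ) + 1) = 1 := by norm_num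
    rw [h11] at h7
    rw [h11]
    linarith
  · rw [if_neg h0]
    have h12 : (1 : ℝ) ≤ m := by exact_mod_cast Nat.one_le_iff_ne_zero.2 h0
    have h13 : 1 / ((m : ℝ) + 1) ≤ 1 / 2 := by
      apply one_div_le_one_div_of_le (by norm_num)
      linarith
    linarith

theorem t_FwM (h1 : S_CtB) (h2 : S_Few) : S_FwM := by
  classical
  intro n M hn
  set D1 : ℕ := n * (M + 1) + 1 with hD1
  set b : ℕ := 48 * n * (M + 1) * D1 with hbdef
  set k : ℕ := 16 * D1 * M + 1 with hkdef
  refine ⟨k * b, ?_⟩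
  intro K ι α _ _ _ _ S J l hS hN hdv
  have hbn : n ≤ b := by
    have : 1 ≤ 48 * (M + 1) * D1 := by
      rw [hD1]
      exact Nat.succ_le_of_lt (by positivity)
    calc n = n * 1 := (mul_one n).symm
      _ ≤ n * (48 * (M + 1) * D1) := Nat.mul_le_mul_left _ this
      _ = b := by rw [hbdef]; ring
  have hb1 : 1 ≤ b := hn.trans hbn
  obtain ⟨e, he, heS⟩ := blocks S k b hS
  choose! v hv using hdv
  obtain ⟨i, hi⟩ := pick J (fun j => S.filter fun t => l j t ≠ v j) (16 * D1) M k b hb1 le_rfl e he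
    (fun j hj => by
      have := hv j hj
      unfold dv at this
      exact this)
  set J₁ := J.filter fun j => ∃ t, e (i, t) ∈ S.filter fun t => l j t ≠ v j with hJ₁
  set J₂ := J.filter fun j => ¬ ∃ t, e (i, t) ∈ S.filter fun t => l j t ≠ v j with hJ₂
  have hJ : J = J₂ ∪ J₁ := by
    rw [Finset.union_comm]
    exact (Finset.filter_union_filter_not_eq _ _).symm
  set Q : Finset ι := Finset.univ.image (fun t : Fin b => e (i, t)) with hQdef
  have hQc : Q.card = b := by
    rw [hQdef, Finset.card_image_of_injective _ (fun t t' h => congrArg Prod.snd (he h)),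
      Finset.card_univ, Fintype.card_fin]
  have hQS : Q ⊆ S := by
    intro t ht
    obtain ⟨u, _, rfl⟩ := Finset.mem_image.1 ht
    exact heS _
  set q : ι := e (i, ⟨0, hb1⟩) with hq
  have hqQ : q ∈ Q := Finset.mem_image.2 ⟨_, Finset.mem_univ _, rfl⟩
  have hval : ∀ j ∈ J₂, ∀ t ∈ Q, l j t = v j := by
    intro j hj t ht
    obtain ⟨u, _, rfl⟩ := Finset.mem_image.1 ht
    by_contra hne
    exact (Finset.mem_filter.1 hj).2 ⟨u, Finset.mem_filter.2 ⟨heS _, hne⟩⟩
  have hJ₂J : ∀ j ∈ J₂, j ∈ J := fun j hj => (Finset.mem_filter.1 hj).1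
  have hJ₁J : ∀ j ∈ J₁, j ∈ J := fun j hj => (Finset.mem_filter.1 hj).1
  have hCs : Cs Q J₂ l := fun j hj t ht t' ht' => (hval j hj t ht).trans (hval j hj t' ht').symm
  have hfew := h2 K ι α n S Q q J₂ l hQS hqQ (hQc ▸ hbn) hCs (fun j hj => hN j (hJ₂J j hj))
  -- the exceptional members
  have hEs : Module.finrank K (Es true S J₁ l) ≤ J₁.card * D1 := by
    refine (finrank_Es_le true S l (fun _ => D1) J₁ ?_).trans (by simp)
    intro j hj
    refine ((h1 K ι n true S (l j)).2.2.2.2.2.2 (hN j (hJ₁J j hj))).trans ?_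
    have h3 : cl S (l j) ≤ M + 1 :=
      (cl_le_dv S (l j) (v j)).trans (Nat.add_le_add_right (hv j (hJ₁J j hj)) 1)
    rw [hD1]
    exact Nat.add_le_add_right (Nat.mul_le_mul_left _ h3) 1
  have hsplit : yy true S J l ≤ yy true S J₂ l + J₁.card * D1 := by
    have h3 := yy_union_le true S l J₂ J₁
    rw [← hJ] at h3
    exact h3.trans (Nat.add_le_add_left hEs _)
  -- the main members
  have hterm : ∀ j ∈ J₂, ((n * cl S (l j) + 1 : ℝ)) *
      (1 / (dv S (l j) (l j q) + 1) + 3 * n / Q.card * (dv S (l j) (l j q) + 1)) ≤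
      (n + 9 / 16) + (if ∀ t ∈ S, ∀ t' ∈ S, l j t = l j t' then (n + 1 : ℝ) else 0) := by
    intro j hj
    have hqv : l j q = v j := hval j hj q hqQ
    rw [hqv, hQc]
    refine (term_le n M hn (cl S (l j)) (dv S (l j) (v j)) (b : ℝ) ?_
      (cl_le_dv S (l j) (v j)) (hv j (hJ₂J j hj))).trans ?_
    · rw [hbdef, hD1]
      push_cast
      ring
    · by_cases h0 : dv S (l j) (v j) = 0
      · have hconst : ∀ t ∈ S, ∀ t' ∈ S, l j t = l j t' := by
          have h3 : ∀ t ∈ S, l j t = v j := by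
            intro t ht
            by_contra hne
            have h4 : t ∈ S.filter fun t => l j t ≠ v j := Finset.mem_filter.2 ⟨ht, hne⟩
            unfold dv at h0
            rw [Finset.card_eq_zero] at h0
            rw [h0] at h4
            exact absurd h4 (Finset.notMem_empty _)
          exact fun t ht t' ht' => (h3 t ht).trans (h3 t' ht').symm
        rw [if_pos h0, if_pos hconst]
      · rw [if_neg h0]
        have : (0 : ℝ) ≤ (if ∀ t ∈ S, ∀ t' ∈ S, l j t = l j t' then (n + 1 : ℝ) else 0) := by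
          split_ifs
          · positivity
          · exact le_rfl
        linarith
  have hsum : (yy true S J₂ l : ℝ) ≤ (n + 9 / 16) * J.card +
      (n + 1) * (J.filter fun j => ∀ t ∈ S, ∀ t' ∈ S, l j t = l j t').card := by
    refine hfew.trans ((Finset.sum_le_sum hterm).trans ?_)
    rw [Finset.sum_add_distrib, Finset.sum_const, nsmul_eq_mul, ← Finset.sum_filter,
      Finset.sum_const, nsmul_eq_mul]
    have h3 : (J₂.card : ℝ) ≤ J.card := by
      exact_mod_cast Finset.card_le_card (fun j hj => hJ₂J j hj)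
    have h4 : ((J₂.filter fun j => ∀ t ∈ S, ∀ t' ∈ S, l j t = l j t').card : ℝ) ≤
        (J.filter fun j => ∀ t ∈ S, ∀ t' ∈ S, l j t = l j t').card := by
      exact_mod_cast Finset.card_le_card (Finset.filter_subset_filter _ (fun j hj => hJ₂J j hj))
    have h5 : (0 : ℝ) ≤ n := by positivity
    nlinarith
  have hD1J : (16 * D1 * J₁.card : ℝ) ≤ J.card := by exact_mod_cast hi
  have hsplit' : (yy true S J l : ℝ) ≤ yy true S J₂ l + J₁.card * D1 := by exact_mod_cast hsplit
  linarith

end Pool.Agent.Lib.MP_d01072_ag.CL
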