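import Pool.Agent.Lib.MP_d01072_ag.CL.Spec

/-!
MP_d01072_ag, package CL: simple properties of `Gd` and the limit
-/

set_option autoImplicit false

namespace Pool.Agent.Lib.MP_d01072_ag.CL

private theorem GdM_sup {K V α : Type} [Field K] [AddCommGroup V] [Module K V]
    [FiniteDimensional K V] (J : Finset α) (W : α → Submodule K V)
    (h : ∀ j ∈ J, Module.finrank K (W j) ≤ 1) :
    Module.finrank K (⨆ j ∈ J, W j : Submodule K V) ≤ J.card := by
  classical
  induction J using Finset.induction_on with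
  | empty => simp
  | insert a s ha ih =>
    rw [Finset.iSup_insert, Finset.card_insert_of_notMem ha]
    have h1 := Submodule.finrank_add_le_finrank_add_finrank (W a) (⨆ j ∈ s, W j)
    have h2 := h a (Finset.mem_insert_self a s)
    have h3 := ih fun j hj => h j (Finset.mem_insert_of_mem hj)
    omega

private theorem GdM_yy (h1 : S_CtB) {K ι α : Type} [Field K] [Fintype ι] [DecidableEq ι] (n : ℕ)
    (S : Finset ι) (J : Finset α) (l : α → ι → Vc K n) : yy false S J l ≤ J.card := by
  have h2 : yy false S J l ≤ Module.finrank K (Es false S J l : Submodule K (Tn K ι n)) :=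
    Submodule.finrank_mono inf_le_right
  refine h2.trans (GdM_sup J _ fun j _ => ?_)
  obtain ⟨_, _, _, _, _, h, _⟩ := h1 K ι n false S (l j)
  exact h

theorem t_GdM (h1 : S_CtB) (h2 : S_MQ) : S_GdM := by
  intro n q
  refine ⟨?_, ?_, ?_, ?_, ?_⟩
  · intro η hη
    refine ⟨0, 0, ?_⟩
    intro K ι α _ _ _ _ S Q J l _ _ _ _ _ _
    have h : (yy false S J l : ℝ) ≤ J.card := by exact_mod_cast GdM_yy h1 n S J l
    nlinarith [Nat.cast_nonneg (α := ℝ) J.card]
  · intro c h η hη
    obtain ⟨M, s₀, hM⟩ := h η hη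
    refine ⟨M, s₀, ?_⟩
    intro K ι α _ _ _ _ S Q J l hs hQ hq hC hN hD
    obtain ⟨Q', hQ', hq'⟩ := Finset.exists_subset_card_eq (s := Q) (n := q) (by omega)
    exact hM K ι α S Q' J l hs (hQ'.trans hQ) hq'
      (fun j hj t ht t' ht' => hC j hj t (hQ' ht) t' (hQ' ht')) hN hD
  · intro c h η hη
    obtain ⟨M, s₀, hM⟩ := h η hη
    refine ⟨M, max s₀ 1, ?_⟩
    intro K ι α _ _ _ _ S Q J l hs hQ hq hC hN hD
    have hS : S.Nonempty := Finset.card_pos.1 (by have := le_max_right s₀ 1; omega)
    obtain ⟨t, ht⟩ := hS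
    refine hM K ι α S {t} J l ((le_max_left _ _).trans hs) (by simpa using ht) (by simp) ?_ hN hD
    intro j _ u hu u' hu'
    rw [Finset.mem_singleton] at hu hu'
    rw [hu, hu']
  · intro c h η hη
    obtain ⟨M, s₀, hM⟩ := h (c + η / 2) (by linarith) (η / 2) (by linarith)
    refine ⟨M, s₀, ?_⟩
    intro K ι α _ _ _ _ S Q J l hs hQ hq hC hN hD
    have := hM K ι α S Q J l hs hQ hq hC hN hD
    have e : c + η / 2 + η / 2 = c + η := by ring
    rwa [e] at this
  · intro η hη
    set a : ℝ := min η 1 / 4 with ha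
    have ha0 : 0 < a := by
      have : 0 < min η 1 := lt_min hη one_pos
      positivity
    have ha1 : a ≤ η / 4 := by
      have := min_le_left η 1
      rw [ha]; linarith
    have ha2 : a < 1 := by
      have := min_le_right η 1
      rw [ha]; linarith
    obtain ⟨k₀, hk₀⟩ := exists_nat_gt (3 * (n : ℝ) / (a * (η / 4)))
    obtain ⟨M, hM⟩ := exists_pow_lt_of_lt_one ha0 (show 1 - a < 1 by linarith)
    refine ⟨k₀ + n + 1, ?_⟩
    intro η' hη'
    refine ⟨M, 0, ?_⟩
    intro K ι α _ _ _ _ S Q J l _ hQ hq hC hN hD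
    obtain ⟨t, ht⟩ : Q.Nonempty := Finset.card_pos.1 (by omega)
    have h3 := h2 K ι α n S Q t J l a hQ ht (by omega) hC hN ha0 ha2
    refine h3.trans ?_
    have h4 : ∀ j ∈ J, max a ((1 - a) ^ dv S (l j) (l j t)) + 3 * n / Q.card / a ≤ η := by
      intro j hj
      have h5 : (1 - a) ^ dv S (l j) (l j t) ≤ a :=
        (pow_le_pow_of_le_one (by linarith) (by linarith) (hD j hj _)).trans hM.le
      have h6 : max a ((1 - a) ^ dv S (l j) (l j t)) ≤ a := max_le le_rfl h5
      have hc : (k₀ : ℝ) ≤ Q.card := by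
        rw [hq]; push_cast; linarith [Nat.cast_nonneg (α := ℝ) n]
      have hc0 : (0 : ℝ) < Q.card := by
        rw [hq]; positivity
      have h7 : 3 * (n : ℝ) / Q.card / a ≤ η / 4 := by
        rw [div_div, div_le_iff₀ (by positivity)]
        have h8 : 3 * (n : ℝ) < k₀ * (a * (η / 4)) := by
          rwa [div_lt_iff₀ (by positivity)] at hk₀
        have h9 : (k₀ : ℝ) * (a * (η / 4)) ≤ Q.card * (a * (η / 4)) :=
          mul_le_mul_of_nonneg_right hc (by positivity)
        nlinarith
      linarith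
    calc ∑ j ∈ J, (max a ((1 - a) ^ dv S (l j) (l j t)) + 3 * (n : ℝ) / Q.card / a)
        ≤ ∑ _j ∈ J, η := Finset.sum_le_sum h4
      _ = J.card * η := by rw [Finset.sum_const, nsmul_eq_mul]
      _ ≤ (η + η') * J.card := by
        have := mul_nonneg hη'.le (Nat.cast_nonneg (α := ℝ) J.card)
        nlinarith

end Pool.Agent.Lib.MP_d01072_ag.CL
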