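import Pool.Agent.Lib.MP_d01072_ag.CL.Spec

/-!
MP_d01072_ag, package CL, module GdS: the recursion for `Gd`.
-/

set_option autoImplicit false

namespace Pool.Agent.Lib.MP_d01072_ag.CL

open Classical in
private theorem GdS_core (hS : S_Stp) {K ι α : Type} [Field K] [Infinite K] [Fintype ι]
    [DecidableEq ι] {n : ℕ} {S : Finset ι} {t t' : ι} {J : Finset α} {l : α → ι → Vc K n}
    (ht : t ∈ S) (ht' : t' ∈ S) (htt : t ≠ t') (hN : ∀ j ∈ J, ∀ t ∈ S, Nm (l j t))
    {a1 a2 e : ℝ} (ha1 : 0 < a1) (ha2 : 0 ≤ a2) (hcard : 2 ≤ S.card)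
    (h1 : ∀ J' ⊆ J, (yy false ((S.erase t).erase t') J' l : ℝ) ≤ a1 * J'.card)
    (h2 : ∀ F ⊆ J, (yy false S (Je F l t t') l : ℝ) ≤ a2 * (Je F l t t').card)
    (hs : (1 - e) * (((S.card : ℝ) + n) * ((S.card : ℝ) - 1 + n)) ≤
      (S.card : ℝ) * ((S.card : ℝ) - 1)) :
    (yy false S J l : ℝ) * (a1 + (1 - e)) ≤ a1 * (1 + a2) * J.card := by
  obtain ⟨F, hF, B, hB, hi, hii⟩ := hS K ι α n S t t' J l ht ht' htt
    (fun j hj => ⟨hN j hj t ht, hN j hj t' ht'⟩)
  have hFe : (Jn F l t t').card + (Je F l t t').card = F.card := by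
    rw [add_comm]
    exact Finset.card_filter_add_card_filter_not _
  have hFJ : F.card ≤ J.card := Finset.card_le_card hF
  have hBJ : B ∪ Je F l t t' ⊆ J := by
    refine Finset.union_subset ((hB.trans ?_).trans hF) (Finset.Subset.trans ?_ hF)
    · exact Finset.filter_subset _ _
    · exact Finset.filter_subset _ _
  have hU : (B ∪ Je F l t t').card ≤ B.card + (Je F l t t').card := Finset.card_union_le _ _
  have hy1 := h1 _ hBJ
  have hy2 := h2 F hF
  set y : ℝ := (yy false S J l : ℝ) with hy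
  have hy0 : 0 ≤ y := Nat.cast_nonneg _
  have hiR : y + B.card ≤ (Jn F l t t').card + (yy false S (Je F l t t') l : ℝ) := by
    rw [hy]; exact_mod_cast hi
  have hs1 : ((S.card - 1 : ℕ) : ℝ) = (S.card : ℝ) - 1 := by
    rw [Nat.cast_sub (by omega)]; simp
  have hiiR : (S.card : ℝ) * ((S.card : ℝ) - 1) * y ≤ ((S.card : ℝ) + n) *
      ((S.card : ℝ) - 1 + n) *
        (yy false ((S.erase t).erase t') (B ∪ Je F l t t') l : ℝ) := by
    have h3 : ((S.card * (S.card - 1) * yy false S J l : ℕ) : ℝ) ≤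
        (((S.card + n) * (S.card - 1 + n) *
          yy false ((S.erase t).erase t') (B ∪ Je F l t t') l : ℕ) : ℝ) := by
      exact_mod_cast hii
    push_cast at h3
    rw [hs1] at h3
    exact h3
  have hc2 : (2 : ℝ) ≤ S.card := by exact_mod_cast hcard
  have hn0 : (0 : ℝ) ≤ n := Nat.cast_nonneg _
  have hpos : 0 < ((S.card : ℝ) + n) * ((S.card : ℝ) - 1 + n) := by
    apply mul_pos <;> linarith
  have hth : (1 - e) * y ≤
      (yy false ((S.erase t).erase t') (B ∪ Je F l t t') l : ℝ) := by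
    have h3 := mul_le_mul_of_nonneg_right hs hy0
    have h4 : ((S.card : ℝ) + n) * ((S.card : ℝ) - 1 + n) * ((1 - e) * y) ≤
        ((S.card : ℝ) + n) * ((S.card : ℝ) - 1 + n) *
          (yy false ((S.erase t).erase t') (B ∪ Je F l t t') l : ℝ) := by
      refine le_trans (le_of_eq ?_) (h3.trans hiiR)
      ring
    exact le_of_mul_le_mul_left h4 hpos
  have hUR : ((B ∪ Je F l t t').card : ℝ) ≤ B.card + (Je F l t t').card := by exact_mod_cast hU
  have hFeR : ((Jn F l t t').card : ℝ) + (Je F l t t').card ≤ J.card := by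
    exact_mod_cast hFe.le.trans hFJ
  have hE0 : (0 : ℝ) ≤ (Je F l t t').card := Nat.cast_nonneg _
  have hA0 : (0 : ℝ) ≤ (Jn F l t t').card := Nat.cast_nonneg _
  set A : ℝ := ((Jn F l t t').card : ℝ)
  set E : ℝ := ((Je F l t t').card : ℝ)
  set β : ℝ := (B.card : ℝ)
  have h5 : (1 - e) * y ≤ a1 * (β + E) :=
    hth.trans (hy1.trans (mul_le_mul_of_nonneg_left hUR ha1.le))
  have h6 : a1 * (y + β) ≤ a1 * (A + a2 * E) :=
    mul_le_mul_of_nonneg_left (hiR.trans (by linarith)) ha1.le
  have h7 : A + a2 * E + E ≤ (1 + a2) * (A + E) := by nlinarith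
  have h8 : (1 + a2) * (A + E) ≤ (1 + a2) * J.card :=
    mul_le_mul_of_nonneg_left hFeR (by linarith)
  have h9 := mul_le_mul_of_nonneg_left (h7.trans h8) ha1.le
  nlinarith

private theorem GdS_arith {n s : ℕ} {e : ℝ} (he : 0 < e) (hs : 2 ≤ s) (hsn : 2 * n / e + 1 ≤ s) :
    (1 - e) * (((s : ℝ) + n) * ((s : ℝ) - 1 + n)) ≤ (s : ℝ) * ((s : ℝ) - 1) := by
  have hs2 : (2 : ℝ) ≤ s := by exact_mod_cast hs
  have hn0 : (0 : ℝ) ≤ n := Nat.cast_nonneg _
  have h1 : 2 * (n : ℝ) ≤ e * ((s : ℝ) - 1 + n) := by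
    have h2 : 2 * (n : ℝ) / e ≤ (s : ℝ) - 1 := by linarith
    rw [div_le_iff₀ he] at h2
    nlinarith
  have h3 : (n : ℝ) * (2 * s - 1 + n) ≤ 2 * n * ((s : ℝ) + n) := by nlinarith
  have h4 : 2 * (n : ℝ) * ((s : ℝ) + n) ≤ e * ((s : ℝ) - 1 + n) * ((s : ℝ) + n) :=
    mul_le_mul_of_nonneg_right h1 (by linarith)
  nlinarith

private theorem GdS_fin {c' c'' η e y N : ℝ} (hc' : 0 < c') (hc'' : 0 ≤ c'')
    (he : 0 < e) (he1 : e ≤ 1) (hη : e * (2 + c' + c'') ≤ η * (1 + c')) (hN : 0 ≤ N)
    (h : y * (c' + e + (1 - e)) ≤ (c' + e) * (1 + (c'' + e)) * N) :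
    y ≤ (c' * (1 + c'') / (1 + c') + η) * N := by
  have h1 : (0 : ℝ) < 1 + c' := by linarith
  have h2 : (c' * (1 + c'') / (1 + c') + η) * N =
      (c' * (1 + c'') + η * (1 + c')) * N / (1 + c') := by
    field_simp
  rw [h2, le_div_iff₀ h1]
  have h3 : (c' + e) * (1 + (c'' + e)) ≤ c' * (1 + c'') + η * (1 + c') := by nlinarith
  have h4 := mul_le_mul_of_nonneg_right h3 hN
  calc y * (1 + c') = y * (c' + e + (1 - e)) := by ring
    _ ≤ _ := h.trans h4

private theorem GdS_dv {K ι : Type} [Field K] [DecidableEq ι] {n : ℕ} (S : Finset ι) (t t' : ι)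
    (x : ι → Vc K n) (v : Vc K n) : dv S x v ≤ dv ((S.erase t).erase t') x v + 2 := by
  classical
  unfold dv
  have h : (S.filter fun u => x u ≠ v) ⊆
      insert t (insert t' (((S.erase t).erase t').filter fun u => x u ≠ v)) := by
    intro u hu
    rw [Finset.mem_filter] at hu
    by_cases h1 : u = t
    · rw [h1]; exact Finset.mem_insert_self _ _
    · by_cases h2 : u = t'
      · rw [h2]; exact Finset.mem_insert_of_mem (Finset.mem_insert_self _ _)
      · refine Finset.mem_insert_of_mem (Finset.mem_insert_of_mem ?_)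
        rw [Finset.mem_filter, Finset.mem_erase, Finset.mem_erase]
        exact ⟨⟨h2, h1, hu.1⟩, hu.2⟩
  refine (Finset.card_le_card h).trans ((Finset.card_insert_le _ _).trans ?_)
  have := Finset.card_insert_le t' (((S.erase t).erase t').filter fun u => x u ≠ v)
  omega

theorem t_GdS (h1 : S_Stp) : S_GdS := by
  classical
  intro n q c' c'' hc' hc''
  have key : ∀ η : ℝ, 0 < η → ∃ e : ℝ, 0 < e ∧ e ≤ 1 ∧ e * (2 + c' + c'') ≤ η * (1 + c') := by
    intro η hη
    have hp : (0 : ℝ) < 2 + c' + c'' := by linarith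
    refine ⟨min 1 (η * (1 + c') / (2 + c' + c'')), lt_min one_pos (by positivity),
      min_le_left _ _, ?_⟩
    calc _ ≤ η * (1 + c') / (2 + c' + c'') * (2 + c' + c'') :=
          mul_le_mul_of_nonneg_right (min_le_right _ _) hp.le
      _ = η * (1 + c') := by field_simp
  constructor
  · intro g1 g2 η hη
    obtain ⟨e, he, he1, hee⟩ := key η hη
    obtain ⟨M1, s1, H1⟩ := g1 e he
    obtain ⟨M2, s2, H2⟩ := g2 e he
    obtain ⟨s3, hs3⟩ := exists_nat_ge (2 * (n : ℝ) / e + 1)
    refine ⟨max M1 M2 + 2, max (max (s1 + 2) s2) (max (q + 2) s3) + 2, ?_⟩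
    intro K ι α _ _ _ _ S Q J l hs hQ hQc hCs hN hdv
    have hb1 : s1 + 2 ≤ S.card := by omega
    have hb2 : s2 ≤ S.card := by omega
    have hb3 : q + 2 ≤ S.card := by omega
    have hb4 : s3 ≤ S.card := by omega
    obtain ⟨t, htQ⟩ : Q.Nonempty := Finset.card_pos.1 (by omega)
    obtain ⟨t', ht'S, ht'Q⟩ : ∃ t' ∈ S, t' ∉ Q := by
      by_contra hcon
      push Not at hcon
      have := Finset.card_le_card (show S ⊆ Q from hcon)
      omega
    have htS : t ∈ S := hQ htQ
    have htt : t ≠ t' := fun h => ht'Q (h ▸ htQ)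
    have hS' : ((S.erase t).erase t').card = S.card - 2 := by
      rw [Finset.card_erase_of_mem (Finset.mem_erase.2 ⟨htt.symm, ht'S⟩),
        Finset.card_erase_of_mem htS]
      omega
    refine GdS_fin hc' hc'' he he1 hee (Nat.cast_nonneg _) ?_
    refine GdS_core h1 (t := t) (t' := t') htS ht'S htt hN (by linarith) (by linarith) (by omega)
      ?_ ?_ (GdS_arith he (by omega) (hs3.trans (by exact_mod_cast hb4)))
    · intro J' hJ'
      refine H1 K ι α ((S.erase t).erase t') (Q.erase t) J' l (by omega) ?_ ?_ ?_ ?_ ?_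
      · intro u hu
        rw [Finset.mem_erase] at hu
        rw [Finset.mem_erase, Finset.mem_erase]
        exact ⟨fun h => ht'Q (h ▸ hu.2), hu.1, hQ hu.2⟩
      · rw [Finset.card_erase_of_mem htQ]; omega
      · intro j hj u hu u' hu'
        exact hCs j (hJ' hj) u (Finset.mem_of_mem_erase hu) u' (Finset.mem_of_mem_erase hu')
      · intro j hj u hu
        exact hN j (hJ' hj) u (Finset.mem_of_mem_erase (Finset.mem_of_mem_erase hu))
      · intro j hj v
        have h3 := hdv j (hJ' hj) v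
        have h4 := GdS_dv S t t' (l j) v
        omega
    · intro F hF
      have hsub : Je F l t t' ⊆ J := (Finset.filter_subset _ _).trans hF
      refine H2 K ι α S (insert t' Q) (Je F l t t') l hb2 ?_ ?_ ?_ ?_ ?_
      · exact Finset.insert_subset ht'S hQ
      · rw [Finset.card_insert_of_notMem ht'Q]; omega
      · intro j hj u hu u' hu'
        have hjJ := hsub hj
        have hje : l j t = l j t' := (Finset.mem_filter.1 hj).2
        have hall : ∀ u ∈ insert t' Q, l j u = l j t := by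
          intro u hu
          rcases Finset.mem_insert.1 hu with h | h
          · rw [h]; exact hje.symm
          · exact hCs j hjJ u h t htQ
        rw [hall u hu, hall u' hu']
      · intro j hj u hu
        exact hN j (hsub hj) u hu
      · intro j hj v
        have h3 := hdv j (hsub hj) v
        omega
  · intro g1 g2 η hη
    obtain ⟨e, he, he1, hee⟩ := key η hη
    obtain ⟨M1, s1, H1⟩ := g1 e he
    obtain ⟨M2, s2, H2⟩ := g2 e he
    obtain ⟨s3, hs3⟩ := exists_nat_ge (2 * (n : ℝ) / e + 1)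
    refine ⟨max M1 M2 + 2, max (max (s1 + 2) s2) (max 2 s3), ?_⟩
    intro K ι α _ _ _ _ S Q J l hs hQ hQc hCs hN hdv
    have hb1 : s1 + 2 ≤ S.card := by omega
    have hb2 : s2 ≤ S.card := by omega
    have hb3 : 2 ≤ S.card := by omega
    have hb4 : s3 ≤ S.card := by omega
    obtain ⟨t, htS, t', ht'S, htt⟩ := Finset.one_lt_card.1 (show 1 < S.card by omega)
    have hS' : ((S.erase t).erase t').card = S.card - 2 := by
      rw [Finset.card_erase_of_mem (Finset.mem_erase.2 ⟨htt.symm, ht'S⟩),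
        Finset.card_erase_of_mem htS]
      omega
    refine GdS_fin hc' hc'' he he1 hee (Nat.cast_nonneg _) ?_
    refine GdS_core h1 (t := t) (t' := t') htS ht'S htt hN (by linarith) (by linarith) (by omega)
      ?_ ?_ (GdS_arith he (by omega) (hs3.trans (by exact_mod_cast hb4)))
    · intro J' hJ'
      refine H1 K ι α ((S.erase t).erase t') ∅ J' l (by omega) (Finset.empty_subset _)
        Finset.card_empty ?_ ?_ ?_
      · intro j hj u hu
        exact absurd hu (Finset.notMem_empty _)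
      · intro j hj u hu
        exact hN j (hJ' hj) u (Finset.mem_of_mem_erase (Finset.mem_of_mem_erase hu))
      · intro j hj v
        have h3 := hdv j (hJ' hj) v
        have h4 := GdS_dv S t t' (l j) v
        omega
    · intro F hF
      have hsub : Je F l t t' ⊆ J := (Finset.filter_subset _ _).trans hF
      refine H2 K ι α S {t, t'} (Je F l t t') l hb2 ?_ (Finset.card_pair htt) ?_ ?_ ?_
      · intro u hu
        rcases Finset.mem_insert.1 hu with h | h
        · rw [h]; exact htS
        · rw [Finset.mem_singleton.1 h]; exact ht'S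
      · intro j hj u hu u' hu'
        have hje : l j t = l j t' := (Finset.mem_filter.1 hj).2
        have hall : ∀ u ∈ ({t, t'} : Finset ι), l j u = l j t := by
          intro u hu
          rcases Finset.mem_insert.1 hu with h | h
          · rw [h]
          · rw [Finset.mem_singleton.1 h]; exact hje.symm
        rw [hall u hu, hall u' hu']
      · intro j hj u hu
        exact hN j (hsub hj) u hu
      · intro j hj v
        have h3 := hdv j (hsub hj) v
        omega

end Pool.Agent.Lib.MP_d01072_ag.CL
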