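import Pool.Agent.Lib.MP_d01072_ag.CL.Spec

/-!
MP_d01072_ag, package CL, module Gen: generic functionals.
-/

set_option autoImplicit false

namespace Pool.Agent.Lib.MP_d01072_ag.CL

private theorem gen_aux {K : Type} [Field K] [Infinite K] {n : ℕ} (V : Finset (Vc K n))
    (hV : ∀ v ∈ V, v ≠ 0) : ∃ ξ : Vc K n, ∀ v ∈ V, vl ξ v ≠ 0 := by
  classical
  obtain ⟨ξ, hξ⟩ := Module.Dual.exists_forall_ne_zero_of_forall_exists (K := K) (M := Vc K n)
    (ι := {v // v ∈ V}) (fun v => Fintype.linearCombination K (v.1 : Fin (n + 1) → K)) (by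
      intro v
      obtain ⟨a, ha⟩ := Function.ne_iff.mp (hV v.1 v.2)
      refine ⟨Pi.single a 1, ?_⟩
      rw [Fintype.linearCombination_apply_single, one_smul]
      exact ha)
  refine ⟨ξ, fun v hv => ?_⟩
  have h := hξ ⟨v, hv⟩
  rw [Fintype.linearCombination_apply] at h
  exact h

private theorem nm_ne_zero {K : Type} [Field K] {n : ℕ} {v : Vc K n} (h : Nm v) : v ≠ 0 := by
  rintro rfl
  obtain ⟨i, hi, -⟩ := h
  exact zero_ne_one hi

private theorem nm_eq {K : Type} [Field K] {n : ℕ} {v w : Vc K n} (hv : Nm v) (hw : Nm w)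
    {c : K} (hc : ∀ i, w i = c * v i) : v = w := by
  obtain ⟨i, hi, hi'⟩ := hv
  obtain ⟨j, hj, hj'⟩ := hw
  have hc0 : c ≠ 0 := by
    rintro rfl
    have := hc j
    rw [hj, zero_mul] at this
    exact one_ne_zero this
  have hij : i = j := by
    rcases lt_trichotomy i j with h | h | h
    · have h1 := hc i
      rw [hj' i h, hi, mul_one] at h1
      exact absurd h1.symm hc0
    · exact h
    · have h1 := hc j
      rw [hi' j h, hj, mul_zero] at h1
      exact absurd h1 one_ne_zero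
  have hc1 : c = 1 := by
    have h1 := hc i
    rw [hi, mul_one, hij, hj] at h1
    exact h1.symm
  funext a
  rw [hc a, hc1, one_mul]

theorem t_Gen : S_Gen := by
  classical
  intro K _ _ n X
  refine ⟨fun h => ?_, fun h => ?_⟩
  · obtain ⟨ξ, hξ⟩ := gen_aux (X.image Prod.fst ∪ X.image Prod.snd) (by
      intro v hv
      rw [Finset.mem_union, Finset.mem_image, Finset.mem_image] at hv
      rcases hv with ⟨p, hp, rfl⟩ | ⟨p, hp, rfl⟩
      · exact nm_ne_zero (h p hp).1
      · exact nm_ne_zero (h p hp).2.1)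
    obtain ⟨η, hη⟩ := gen_aux (X.image fun p => vl ξ p.1 • p.2 - vl ξ p.2 • p.1) (by
      intro v hv
      rw [Finset.mem_image] at hv
      obtain ⟨p, hp, rfl⟩ := hv
      intro h0
      have h1 : vl ξ p.1 ≠ 0 := hξ p.1 (Finset.mem_union_left _ (Finset.mem_image_of_mem _ hp))
      have h2 : vl ξ p.2 ≠ 0 := hξ p.2 (Finset.mem_union_right _ (Finset.mem_image_of_mem _ hp))
      refine (h p hp).2.2 (nm_eq (h p hp).1 (h p hp).2.1 (c := (vl ξ p.1)⁻¹ * vl ξ p.2) ?_)
      intro i
      have h3 := congrFun h0 i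
      simp only [Pi.sub_apply, Pi.smul_apply, smul_eq_mul, Pi.zero_apply] at h3
      rw [sub_eq_zero] at h3
      rw [mul_assoc, ← h3, inv_mul_cancel_left₀ h1])
    refine ⟨ξ, η, fun p hp => ?_⟩
    have h4 := hη _ (Finset.mem_image_of_mem _ hp)
    have h5 : vl η (vl ξ p.1 • p.2 - vl ξ p.2 • p.1) =
        vl ξ p.1 * vl η p.2 - vl η p.1 * vl ξ p.2 := by
      simp only [vl, Pi.sub_apply, Pi.smul_apply, smul_eq_mul, mul_sub, Finset.sum_sub_distrib]
      congr 1
      · rw [Finset.mul_sum]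
        exact Finset.sum_congr rfl fun a _ => by ring
      · rw [mul_comm, Finset.mul_sum]
        exact Finset.sum_congr rfl fun a _ => by ring
    rwa [h5] at h4
  · obtain ⟨ξ, hξ⟩ := gen_aux (X.image Prod.fst) (by
      intro v hv
      rw [Finset.mem_image] at hv
      obtain ⟨p, hp, rfl⟩ := hv
      exact h p hp)
    exact ⟨ξ, fun p hp => hξ _ (Finset.mem_image_of_mem _ hp)⟩

end Pool.Agent.Lib.MP_d01072_ag.CL
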