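import Pool.Agent.Lib.MP_d01072_ag.CL.Spec

/-! MP_d01072_ag, theorem CL, module Grp. -/

set_option autoImplicit false

namespace Pool.Agent.Lib.MP_d01072_ag.CL

open Classical in
private theorem Grp_ind {ι β : Type} (S : Finset ι) (g : ι → β) (w : ℕ) (hw : 1 ≤ w)
    (hsm : ∀ v, (S.filter fun t => g t = v).card < w) (V : Finset β) :
    w ≤ (S.filter fun t => g t ∈ V).card → ∃ T : Finset β,
      w ≤ (S.filter fun t => g t ∈ T).card ∧ (S.filter fun t => g t ∈ T).card < 2 * w := by
  induction V using Finset.induction_on with
  | empty =>
    intro h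
    simp at h
    omega
  | insert v V hv ih =>
    intro h
    by_cases h1 : w ≤ (S.filter fun t => g t ∈ V).card
    · exact ih h1
    · refine ⟨insert v V, h, ?_⟩
      have h2 : (S.filter fun t => g t ∈ insert v V).card ≤
          (S.filter fun t => g t = v).card + (S.filter fun t => g t ∈ V).card := by
        refine le_trans (Finset.card_le_card ?_) (Finset.card_union_le _ _)
        intro t ht
        simp only [Finset.mem_filter, Finset.mem_insert, Finset.mem_union] at ht ⊢
        rcases ht with ⟨h3, h4 | h4⟩
        · exact Or.inl ⟨h3, h4⟩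
        · exact Or.inr ⟨h3, h4⟩
      have h3 := hsm v
      omega

theorem t_Grp : S_Grp := by
  classical
  intro ι β S g w hw hS hv
  by_cases hbig : ∃ v, w ≤ (S.filter fun t => g t = v).card
  · obtain ⟨v, hv1⟩ := hbig
    refine ⟨{v}, ?_, ?_⟩
    · have h1 := hv1
      simpa using h1
    · have h1 := hv v
      simpa using h1
  · push Not at hbig
    have hall : w ≤ (S.filter fun t => g t ∈ S.image g).card := by
      have h1 : (S.filter fun t => g t ∈ S.image g) = S := by
        apply Finset.filter_true_of_mem
        intro t ht
        exact Finset.mem_image_of_mem g ht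
      rw [h1]
      omega
    obtain ⟨T, hT1, hT2⟩ := Grp_ind S g w hw (by simpa using hbig) (S.image g) (by simpa using hall)
    refine ⟨(T : Set β), by simpa using hT1, ?_⟩
    have h2 := Finset.card_filter_add_card_filter_not (s := S) (fun t => g t ∈ T)
    have h3 : w ≤ (S.filter fun t => ¬ g t ∈ T).card := by
      omega
    simpa using h3

end Pool.Agent.Lib.MP_d01072_ag.CL
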