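import Pool.Agent.Lib.MP_d01072_ag.CL.Spec

/-!
MP_d01072_ag, package CL, module Idp (helper80): rank-one tensors which are linearly independent are
linearly independent on few slots.
-/

set_option autoImplicit false

namespace Pool.Agent.Lib.MP_d01072_ag.CL

open MvPolynomial

/-- a functional which does not vanish on finitely many nonzero vectors -/
private theorem exists_xi {K : Type} [Field K] [Infinite K] {n : ℕ} {β : Type} [Fintype β]
    (v : β → Vc K n) (hv : ∀ b, ∃ i, v b i ≠ 0) : ∃ ξ : Vc K n, ∀ b, vl ξ (v b) ≠ 0 := by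
  classical
  let L : β → MvPolynomial (Fin (n + 1)) K := fun b => ∑ a, X a * C (v b a)
  have hL : ∀ b (ξ : Vc K n), eval ξ (L b) = vl ξ (v b) := by
    intro b ξ
    simp only [L, map_sum, map_mul, eval_X, eval_C, vl]
  have hne : ∀ b, L b ≠ 0 := by
    intro b h0
    obtain ⟨i, hi⟩ := hv b
    have h1 := hL b (Pi.single i 1)
    rw [h0, map_zero] at h1
    apply hi
    have h2 : vl (Pi.single i 1) (v b) = v b i := by
      simp only [vl]
      rw [Finset.sum_eq_single i]
      · simp
      · intro a _ ha
        simp [Pi.single_eq_of_ne ha]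
      · intro h
        exact absurd (Finset.mem_univ i) h
    rw [← h2, ← h1]
  have hprod : ∏ b, L b ≠ 0 := Finset.prod_ne_zero_iff.2 fun b _ => hne b
  by_contra hcon
  push Not at hcon
  apply hprod
  apply MvPolynomial.funext
  intro ξ
  obtain ⟨b, hb⟩ := hcon ξ
  rw [map_prod, map_zero]
  exact Finset.prod_eq_zero (Finset.mem_univ b) (by rw [hL, hb])

/-- the relations between the rank-one tensors on the slots `A` -/
private def NA {K : Type} [Field K] {n d r : ℕ} (l : Fin r → Fin d → Vc K n) (A : Finset (Fin d)) :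
    Submodule K (Fin r → K) where
  carrier := {c | ∀ i : Fin d → Fin (n + 1), ∑ j, c j * ∏ t ∈ A, l j t (i t) = 0}
  add_mem' {a b} ha hb := fun i => by
    simp only [Pi.add_apply, add_mul, Finset.sum_add_distrib]
    rw [ha i, hb i, add_zero]
  zero_mem' := fun i => by simp
  smul_mem' c f hf := fun i => by
    simp only [Pi.smul_apply, smul_eq_mul, mul_assoc]
    rw [← Finset.mul_sum, hf i, mul_zero]

private theorem li_iff {K : Type} [Field K] {n d r : ℕ} (l : Fin r → Fin d → Vc K n)
    (A : Finset (Fin d)) : LinearIndependent K (fun j => pr A (l j)) ↔ NA l A = ⊥ := by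
  rw [Fintype.linearIndependent_iff, Submodule.eq_bot_iff]
  have h : ∀ c : Fin r → K, (∑ j, c j • pr A (l j) = 0) ↔ c ∈ NA l A := by
    intro c
    constructor
    · intro h i
      have h1 := congrFun h i
      simpa [Finset.sum_apply, pr] using h1
    · intro h
      funext i
      have h1 := h i
      simpa [Finset.sum_apply, pr] using h1
  constructor
  · intro h1 c hc
    funext j
    exact h1 c ((h c).2 hc) j
  · intro h1 c hc j
    rw [h1 c ((h c).1 hc)]
    rfl

/-- contraction of one slot -/
private theorem contr {K : Type} [Field K] {n d r : ℕ} (l : Fin r → Fin d → Vc K n)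
    (A : Finset (Fin d)) (t : Fin d) (ht : t ∉ A) (ξ : Vc K n) (c : Fin r → K)
    (hc : c ∈ NA l (insert t A)) : (fun j => c j * vl ξ (l j t)) ∈ NA l A := by
  intro i
  have h1 : ∀ a, ∑ j, c j * (l j t a * ∏ u ∈ A, l j u (i u)) = 0 := by
    intro a
    have h2 := hc (Function.update i t a)
    rw [← h2]
    refine Finset.sum_congr rfl fun j _ => ?_
    rw [Finset.prod_insert ht, Function.update_self]
    congr 2
    refine Finset.prod_congr rfl fun u hu => ?_
    have hut : u ≠ t := by
      rintro rfl
      exact ht hu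
    rw [Function.update_of_ne hut]
  have h3 : ∑ j, c j * vl ξ (l j t) * ∏ u ∈ A, l j u (i u) =
      ∑ a, ξ a * ∑ j, c j * (l j t a * ∏ u ∈ A, l j u (i u)) := by
    simp only [vl, Finset.mul_sum, Finset.sum_mul]
    rw [Finset.sum_comm]
    refine Finset.sum_congr rfl fun a _ => Finset.sum_congr rfl fun j _ => ?_
    ring
  show ∑ j, c j * vl ξ (l j t) * ∏ u ∈ A, l j u (i u) = 0
  rw [h3]
  exact Finset.sum_eq_zero fun a _ => by rw [h1 a, mul_zero]

private theorem single_vl {K : Type} [Field K] {n : ℕ} (a : Fin (n + 1)) (v : Vc K n) :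
    vl (Pi.single a 1) v = v a := by
  simp only [vl]
  rw [Finset.sum_eq_single a]
  · simp
  · intro b _ hb
    simp [Pi.single_eq_of_ne hb]
  · intro h
    exact absurd (Finset.mem_univ a) h

/-- one step: vectors with `vl ξ (l j t) = 1` -/
private theorem step {K : Type} [Field K] {n d r : ℕ} (l : Fin r → Fin d → Vc K n) (ξ : Vc K n)
    (hξ : ∀ j t, vl ξ (l j t) = 1) (Bs A : Finset (Fin d)) (hA : A ⊆ Bs) (hB : NA l Bs = ⊥)
    (hne : NA l A ≠ ⊥) : ∃ t ∈ Bs, t ∉ A ∧ NA l (insert t A) < NA l A := by
  classical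
  have hle : ∀ t, t ∉ A → NA l (insert t A) ≤ NA l A := by
    intro t ht c hc
    have h := contr l A t ht ξ c hc
    simpa [hξ] using h
  by_contra hcon
  push Not at hcon
  have heq : ∀ t ∈ Bs, t ∉ A → NA l (insert t A) = NA l A := by
    intro t ht htA
    by_contra h
    exact hcon t ht htA (lt_of_le_of_ne (hle t htA) h)
  have hmul : ∀ c ∈ NA l A, ∀ C : Finset (Fin d), C ⊆ Bs \ A → ∀ i : Fin d → Fin (n + 1),
      (fun j => c j * ∏ t ∈ C, l j t (i t)) ∈ NA l A := by
    intro c hc C
    induction C using Finset.induction_on with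
    | empty =>
      intro _ i
      simpa using hc
    | insert t C ht ih =>
      intro hC i
      have hC' : C ⊆ Bs \ A := fun u hu => hC (Finset.mem_insert_of_mem hu)
      have htm := Finset.mem_sdiff.1 (hC (Finset.mem_insert_self t C))
      have h1 := ih hC' i
      rw [← heq t htm.1 htm.2] at h1
      have h2 := contr l A t htm.2 (Pi.single (i t) 1) _ h1
      have h3 : (fun j => c j * ∏ t ∈ insert t C, l j t (i t)) =
          fun j => c j * (∏ t ∈ C, l j t (i t)) * vl (Pi.single (i t) 1) (l j t) := by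
        funext j
        rw [Finset.prod_insert ht, single_vl]
        ring
      rw [h3]
      exact h2
  apply hne
  rw [Submodule.eq_bot_iff]
  intro c hc
  have hcB : c ∈ NA l Bs := by
    intro i
    have h1 := hmul c hc (Bs \ A) (Finset.Subset.refl _) i i
    rw [← h1]
    refine Finset.sum_congr rfl fun j _ => ?_
    rw [← Finset.prod_sdiff hA, mul_assoc]
  rw [hB] at hcB
  exact (Submodule.mem_bot K).1 hcB

theorem t_Idp : S_Idp := by
  intro K _ _ n d r Bs l hr hNm hli
  classical
  obtain ⟨ξ, hξ⟩ := exists_xi (fun p : Fin r × Fin d => l p.1 p.2) (fun p => by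
    obtain ⟨i, hi, _⟩ := hNm p.1 p.2
    exact ⟨i, by rw [hi]; exact one_ne_zero⟩)
  let l' : Fin r → Fin d → Vc K n := fun j t => (vl ξ (l j t))⁻¹ • l j t
  have hl' : ∀ j t, vl ξ (l' j t) = 1 := by
    intro j t
    have h0 : vl ξ (l j t) ≠ 0 := hξ (j, t)
    have h1 : vl ξ (l' j t) = (vl ξ (l j t))⁻¹ * vl ξ (l j t) := by
      simp only [l', vl, Pi.smul_apply, smul_eq_mul, Finset.mul_sum]
      refine Finset.sum_congr rfl fun a _ => ?_
      ring
    rw [h1, inv_mul_cancel₀ h0]
  have hpr : ∀ A : Finset (Fin d), ∀ j, pr A (l' j) = (∏ t ∈ A, (vl ξ (l j t))⁻¹) • pr A (l j) := by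
    intro A j
    funext i
    simp only [pr, l', Pi.smul_apply, smul_eq_mul, Finset.prod_mul_distrib]
  have hsc : ∀ A : Finset (Fin d), LinearIndependent K (fun j => pr A (l' j)) ↔
      LinearIndependent K (fun j => pr A (l j)) := by
    intro A
    have hu : ∀ j, ∏ t ∈ A, (vl ξ (l j t))⁻¹ ≠ 0 := fun j =>
      Finset.prod_ne_zero_iff.2 fun t _ => inv_ne_zero (hξ (j, t))
    have h1 : (fun j => pr A (l' j)) =
        (fun j => Units.mk0 (∏ t ∈ A, (vl ξ (l j t))⁻¹) (hu j)) • fun j => pr A (l j) := by
      funext j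
      rw [hpr A j]
      rfl
    rw [h1]
    exact LinearIndependent.units_smul_iff _ _
  have hB : NA l' Bs = ⊥ := (li_iff l' Bs).1 ((hsc Bs).2 hli)
  have main : ∀ k : ℕ, ∃ A ⊆ Bs, A.card ≤ k ∧
      (NA l' A = ⊥ ∨ Module.finrank K (NA l' A) + k + 1 ≤ r) := by
    intro k
    induction k with
    | zero =>
      refine ⟨∅, Finset.empty_subset _, le_refl _, Or.inr ?_⟩
      have hlt : NA l' (∅ : Finset (Fin d)) < ⊤ := by
        rw [lt_top_iff_ne_top]
        intro htop
        have h1 : (Pi.single (⟨0, hr⟩ : Fin r) (1 : K)) ∈ NA l' (∅ : Finset (Fin d)) := by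
          rw [htop]
          exact Submodule.mem_top
        have h2 := h1 (fun _ => 0)
        simp at h2
      have h3 := Submodule.finrank_lt hlt.ne
      rw [Module.finrank_fin_fun] at h3
      omega
    | succ k ih =>
      obtain ⟨A, hA, hcard, h⟩ := ih
      by_cases hbot : NA l' A = ⊥
      · exact ⟨A, hA, by omega, Or.inl hbot⟩
      · rcases h with h | h
        · exact absurd h hbot
        · obtain ⟨t, htB, htA, hlt⟩ := step l' ξ hl' Bs A hA hB hbot
          refine ⟨insert t A, ?_, ?_, Or.inr ?_⟩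
          · intro u hu
            rcases Finset.mem_insert.1 hu with rfl | hu
            · exact htB
            · exact hA hu
          · rw [Finset.card_insert_of_notMem htA]
            omega
          · have := Submodule.finrank_lt_finrank_of_lt hlt
            omega
  obtain ⟨A, hA, hcard, h⟩ := main (r - 1)
  refine ⟨A, hA, by omega, (hsc A).1 ((li_iff l' A).2 ?_)⟩
  rcases h with h | h
  · exact h
  · have h0 : Module.finrank K (NA l' A) = 0 := by omega
    exact Submodule.finrank_eq_zero.1 h0

end Pool.Agent.Lib.MP_d01072_ag.CL
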