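import Pool.Agent.Lib.MP_d01072_ag.CL.Spec

/-! MP_d01072_ag, package CL: leading indices. -/

set_option autoImplicit false

namespace Pool.Agent.Lib.MP_d01072_ag.CL

private lemma ini_card {K I : Type} [Field K] [Fintype I] [LinearOrder I]
    (Y : Submodule K (I → K)) : (In Y).ncard = Module.finrank K Y := by
  classical
  have hfin : (In Y).Finite := Set.toFinite _
  have : Fintype (In Y) := hfin.fintype
  rw [Set.ncard_eq_toFinset_card', Set.toFinset_card]
  apply le_antisymm
  · have hy : ∀ i : In Y, ∃ y : Y, (y : I → K) i ≠ 0 ∧ ∀ i', (i : I) < i' → (y : I → K) i' = 0 := by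
      rintro ⟨i, y, hy, hyi, hy0⟩
      exact ⟨⟨y, hy⟩, hyi, hy0⟩
    choose y hyi hy0 using hy
    have hli : LinearIndependent K y := by
      rw [linearIndependent_iff']
      intro s g hg
      by_contra hne
      push Not at hne
      obtain ⟨i, his, hgi⟩ := hne
      set t : Finset (In Y) := s.filter fun i => g i ≠ 0 with ht
      have htn : t.Nonempty := ⟨i, by rw [ht, Finset.mem_filter]; exact ⟨his, hgi⟩⟩
      obtain ⟨m, hmt, hmax⟩ := Finset.exists_max_image t (fun i => (i : I)) htn
      rw [ht, Finset.mem_filter] at hmt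
      have h0 : ∑ i ∈ s, g i * (y i : I → K) m = 0 := by
        have := congrArg (fun z : Y => (z : I → K) m) hg
        simpa using this
      have h1 : ∑ i ∈ s, g i * (y i : I → K) m = g m * (y m : I → K) m := by
        refine Finset.sum_eq_single_of_mem m hmt.1 ?_
        intro j hj hjm
        by_cases hgj : g j = 0
        · rw [hgj, zero_mul]
        · have hjt : j ∈ t := by
            rw [ht, Finset.mem_filter]
            exact ⟨hj, hgj⟩
          have hle : (j : I) ≤ m := hmax j hjt
          have hlt : (j : I) < m := lt_of_le_of_ne hle fun h => hjm (Subtype.ext h)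
          rw [hy0 j m hlt, mul_zero]
      rw [h1] at h0
      exact mul_ne_zero hmt.2 (hyi m) h0
    exact hli.fintype_card_le_finrank
  · have hinj : Function.Injective
        ((LinearMap.funLeft K K (fun i : In Y => (i : I))).comp Y.subtype) := by
      rw [injective_iff_map_eq_zero]
      intro y hy
      by_contra hne
      have hne' : ∃ i, (y : I → K) i ≠ 0 := by
        by_contra h
        push Not at h
        exact hne (Subtype.ext (funext h))
      obtain ⟨i, hi⟩ := hne'
      obtain ⟨m, hmt, hmax⟩ := Finset.exists_max_image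
        (Finset.univ.filter fun i => (y : I → K) i ≠ 0) (fun i => i)
        ⟨i, by rw [Finset.mem_filter]; exact ⟨Finset.mem_univ _, hi⟩⟩
      rw [Finset.mem_filter] at hmt
      have hm : m ∈ In Y := by
        refine ⟨y, y.2, hmt.2, fun i' hi' => ?_⟩
        by_contra h
        exact absurd (hmax i' (by rw [Finset.mem_filter]; exact ⟨Finset.mem_univ _, h⟩))
          (not_le.2 hi')
      have := congrFun hy ⟨m, hm⟩
      exact hmt.2 this
    have h := LinearMap.finrank_le_finrank_of_injective hinj
    rwa [Module.finrank_fintype_fun_eq_card] at h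

private lemma ini_perp {K I : Type} [Field K] [Fintype I] [LinearOrder I]
    (Y : Submodule K (I → K)) (i : I) (hi : i ∉ In Y) :
    ∃ w : I → K, w i ≠ 0 ∧ (∀ i', i' < i → w i' = 0) ∧ ∀ y ∈ Y, ∑ i', w i' * y i' = 0 := by
  classical
  let P : (I → K) →ₗ[K] (I → K) :=
    { toFun := fun y j => if i ≤ j then y j else 0
      map_add' := fun y z => by
        funext j
        by_cases h : i ≤ j <;> simp [h]
      map_smul' := fun c y => by
        funext j
        by_cases h : i ≤ j <;> simp [h] }
  have hP : ∀ y j, P y j = if i ≤ j then y j else 0 := fun _ _ => rfl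
  have hne : (Pi.single i 1 : I → K) ∉ Y.map P := by
    rintro ⟨y, hy, hyP⟩
    apply hi
    refine ⟨y, hy, ?_, fun j hj => ?_⟩
    · have := congrFun hyP i
      rw [hP, if_pos (le_refl i), Pi.single_eq_same] at this
      rw [this]
      exact one_ne_zero
    · have := congrFun hyP j
      rwa [hP, if_pos hj.le, Pi.single_eq_of_ne hj.ne'] at this
  obtain ⟨φ, hφ, hφ0⟩ := Submodule.exists_dual_map_eq_bot_of_notMem hne inferInstance
  refine ⟨fun j => if i ≤ j then φ (Pi.single j 1) else 0, ?_, fun j hj => ?_, fun y hy => ?_⟩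
  · simpa using hφ
  · exact if_neg (not_le.2 hj)
  · have h1 : φ (P y) = 0 := by
      have : φ (P y) ∈ (Y.map P).map φ := Submodule.mem_map_of_mem (Submodule.mem_map_of_mem hy)
      rw [hφ0] at this
      exact this
    refine Eq.trans ?_ h1
    have h2 : P y = ∑ j, (P y j) • (Pi.single j 1 : I → K) := by
      funext j
      simp [Finset.sum_apply, Pi.single_apply]
    rw [h2, map_sum]
    refine Finset.sum_congr rfl fun j _ => ?_
    rw [map_smul, hP, smul_eq_mul]
    by_cases h : i ≤ j
    · simp [h, mul_comm]
    · simp [h]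

theorem t_Ini : S_Ini := by
  intro K I _ _ _ Y
  exact ⟨ini_card Y, fun i hi => ini_perp Y i hi⟩

end Pool.Agent.Lib.MP_d01072_ag.CL
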