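import Pool.Agent.Lib.MP_d01072_ag.CL.Spec

/-!
MP_d01072_ag, package CL, module Key.
-/

set_option autoImplicit false

namespace Pool.Agent.Lib.MP_d01072_ag.CL

open MvPolynomial

/-- reindexing a sum of terms indexed by a finite set -/
private theorem key_rep {K X α : Type} [AddCommMonoid K] (s : Finset α) (g : X → K) (f : α → X) :
    ∃ l : Fin s.card → X, ∑ j, g (l j) = ∑ j ∈ s, g (f j) := by
  refine ⟨fun j => f (s.equivFin.symm j), ?_⟩
  rw [← Finset.sum_coe_sort s (fun j => g (f j))]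
  exact Equiv.sum_comp s.equivFin.symm (fun x : s => g (f x))

private theorem key_rep2 {K X : Type} [AddCommMonoid K] (a b : ℕ) (g : X → K) (f : Fin a → X)
    (f' : Fin b → X) :
    ∃ l : Fin (a + b) → X, ∑ j, g (l j) = ∑ j, g (f j) + ∑ j, g (f' j) := by
  refine ⟨Fin.append f f', ?_⟩
  rw [Fin.sum_univ_add]
  simp only [Fin.append_left, Fin.append_right]

private theorem key_norm {K : Type} [Field K] {n : ℕ} (v : Vc K n) (hv : v ≠ 0) :
    ∃ (c : K) (x : Vc K n), c ≠ 0 ∧ Nm x ∧ v = c • x := by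
  classical
  have hex : ∃ i, v i ≠ 0 := by
    by_contra hcon
    refine hv (funext fun i => ?_)
    by_contra hi
    exact hcon ⟨i, hi⟩
  have hne : (Finset.univ.filter fun i => v i ≠ 0).Nonempty := by
    obtain ⟨i, hi⟩ := hex
    exact ⟨i, Finset.mem_filter.2 ⟨Finset.mem_univ _, hi⟩⟩
  set i₀ := (Finset.univ.filter fun i => v i ≠ 0).min' hne with hi₀
  have h1 : v i₀ ≠ 0 := (Finset.mem_filter.1 (Finset.min'_mem _ hne)).2
  have h2 : ∀ j, j < i₀ → v j = 0 := by
    intro j hj
    by_contra hcon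
    exact absurd (Finset.min'_le _ j (Finset.mem_filter.2 ⟨Finset.mem_univ _, hcon⟩))
      (not_le.2 hj)
  refine ⟨v i₀, (v i₀)⁻¹ • v, h1, ⟨i₀, ?_, fun j hj => ?_⟩, ?_⟩
  · rw [Pi.smul_apply, smul_eq_mul, inv_mul_cancel₀ h1]
  · rw [Pi.smul_apply, h2 j hj, smul_zero]
  · rw [smul_smul, mul_inv_cancel₀ h1, one_smul]

private theorem key_pr_smul {K : Type} [Field K] {n d : ℕ} (c : Fin d → K)
    (x : Fin d → Vc K n) :
    pr Finset.univ (fun t => c t • x t) = (∏ t, c t) • pr Finset.univ x := by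
  funext i
  simp only [pr, Pi.smul_apply, smul_eq_mul, Finset.prod_mul_distrib]

private theorem key_pr_upd {K : Type} [Field K] {n d : ℕ} (t : Fin d) (c : K)
    (x : Fin d → Vc K n) :
    pr Finset.univ (Function.update x t (c • x t)) = c • pr Finset.univ x := by
  classical
  have h : Function.update x t (c • x t) = fun u => (if u = t then c else 1) • x u := by
    funext u
    by_cases hu : u = t
    · subst hu
      rw [Function.update_self, if_pos rfl]
    · rw [Function.update_of_ne hu, if_neg hu, one_smul]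
  rw [h, key_pr_smul, Finset.prod_ite_eq' Finset.univ t (fun _ => c),
    if_pos (Finset.mem_univ _)]

private theorem key_pr_zero {K : Type} [Field K] {n d : ℕ} (t : Fin d)
    (x : Fin d → Vc K n) (h : x t = 0) : pr Finset.univ x = 0 := by
  funext i
  simp only [pr, Pi.zero_apply]
  exact Finset.prod_eq_zero (Finset.mem_univ t) (by rw [h]; rfl)

private theorem key_pr_mem {K : Type} [Field K] {ι : Type} [DecidableEq ι] {n : ℕ} (τ : Bool)
    (S : Finset ι) (x : ι → Vc K n) : pr S x ∈ Mo τ S x :=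
  Submodule.subset_span (Set.mem_union_left _ rfl)

private theorem key_Es_le {K : Type} [Field K] {ι α : Type} [DecidableEq ι] {n : ℕ} (τ : Bool)
    (S : Finset ι) (J : Finset α) (l : α → ι → Vc K n) (Y : Submodule K (Tn K ι n))
    (h : ∀ j ∈ J, Mo τ S (l j) ≤ Y) : Es τ S J l ≤ Y :=
  iSup₂_le h

private theorem key_Es_union {K : Type} [Field K] {ι α : Type} [DecidableEq ι] [DecidableEq α]
    {n : ℕ} (τ : Bool) (S : Finset ι) (J J' : Finset α) (l : α → ι → Vc K n) :
    Es τ S (J ∪ J') l = Es τ S J l ⊔ Es τ S J' l := by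
  unfold Es
  exact Finset.iSup_union

private theorem key_Es_dim {K : Type} [Field K] {ι α : Type} [Fintype ι] [DecidableEq ι]
    {n : ℕ} (τ : Bool)
    (S : Finset ι) (l : α → ι → Vc K n) (B : ℕ) (J : Finset α)
    (h : ∀ j ∈ J, Module.finrank K (Mo τ S (l j)) ≤ B) :
    Module.finrank K (Es τ S J l) ≤ B * J.card := by
  classical
  induction J using Finset.induction_on with
  | empty =>
    have h0 : Es τ S (∅ : Finset α) l = ⊥ := by
      refine le_antisymm (key_Es_le _ _ _ _ _ fun j hj => ?_) bot_le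
      exact absurd hj (Finset.notMem_empty j)
    rw [h0, finrank_bot]
    exact Nat.zero_le _
  | insert a s ha ih =>
    have h1 : Es τ S (insert a s) l = Mo τ S (l a) ⊔ Es τ S s l := by
      unfold Es
      exact Finset.iSup_insert a s _
    rw [h1, Finset.card_insert_of_notMem ha]
    have h2 := ih fun j hj => h j (Finset.mem_insert_of_mem hj)
    have h3 := h a (Finset.mem_insert_self a s)
    have h4 := Submodule.finrank_add_le_finrank_add_finrank (Mo τ S (l a)) (Es τ S s l)
    calc _ ≤ _ := h4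
      _ ≤ B + B * s.card := Nat.add_le_add h3 h2
      _ = B * (s.card + 1) := by ring

theorem t_Key (h1 : S_CtA) (h2 : S_CtB) (h3 : S_Mn) (h4 : S_Der) (h5 : S_Sml) : S_Key := by
  classical
  intro n E hn
  obtain ⟨D₀, hD₀⟩ := h3 n hn
  refine ⟨D₀ + 32 * E + 1, ?_⟩
  intro K _ _ _ d r m v J hD hsym halg hr
  have _ : Infinite K := IsAlgClosed.instInfinite
  have hd1 : 1 ≤ d := by omega
  have hd2 : D₀ ≤ d := by omega
  have hd3 : 32 * E ≤ d := by omega
  set t₀ : Fin d := ⟨0, hd1⟩ with ht₀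
  set τ : Tn K (Fin d) n := ∑ j, pr Finset.univ (v j) with hτ
  have hτi : ∀ i, τ i = ∑ j, ∏ t, v j t (i t) := by
    intro i
    rw [hτ, Finset.sum_apply]
    rfl
  -- minimal representation
  obtain ⟨r₀, ⟨l', hl'⟩, hmin⟩ : ∃ r₀ : ℕ,
      (∃ l' : Fin r₀ → Fin d → Vc K n, ∑ j, pr Finset.univ (l' j) = τ) ∧
      ∀ (r' : ℕ) (l'' : Fin r' → Fin d → Vc K n), ∑ j, pr Finset.univ (l'' j) = τ →
        r₀ ≤ r' := by
    have hex : ∃ r' : ℕ, ∃ l' : Fin r' → Fin d → Vc K n, ∑ j, pr Finset.univ (l' j) = τ :=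
      ⟨r, v, rfl⟩
    exact ⟨Nat.find hex, Nat.find_spec hex, fun r' l'' h => Nat.find_min' hex ⟨l'', h⟩⟩
  have hr₀r : r₀ ≤ r := hmin r v rfl
  have hne : ∀ j t, l' j t ≠ 0 := by
    intro j t hjt
    obtain ⟨l'', hl''⟩ := key_rep (Finset.univ.erase j)
      (fun x : Fin d → Vc K n => pr Finset.univ x) l'
    have h6 : ∑ k, pr Finset.univ (l'' k) = τ := by
      rw [hl'', ← hl', ← Finset.add_sum_erase _ _ (Finset.mem_univ j), key_pr_zero t _ hjt,
        zero_add]
    have h7 := hmin _ l'' h6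
    rw [Finset.card_erase_of_mem (Finset.mem_univ j), Finset.card_univ, Fintype.card_fin] at h7
    have h8 : 0 < r₀ := Fin.pos j
    omega
  choose c l hc hl hcl using fun j t => key_norm (l' j t) (hne j t)
  set w : Fin r₀ → K := fun j => ∏ t, c j t with hw
  have hpr : ∀ j, pr Finset.univ (l' j) = w j • pr Finset.univ (l j) := by
    intro j
    rw [← key_pr_smul]
    exact congrArg _ (funext fun t => hcl j t)
  have hτ2 : ∑ j, w j • pr Finset.univ (l j) = τ := by
    rw [← hl']
    exact Finset.sum_congr rfl fun j _ => (hpr j).symm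
  have hτS : τ ∈ Sy K n (Finset.univ : Finset (Fin d)) := by
    intro t _ t' _ i
    rw [hτi, hτi]
    exact hsym (Equiv.swap t t') i
  have hmy : m ≤ yy true Finset.univ (Finset.univ : Finset (Fin r₀)) l := by
    refine h4 K n d r₀ m w l J ?_ ?_
    · rw [hτ2]
      exact hτS
    · have h6 : (fun a => (∑ j, w j • pr Finset.univ (l j)) (J a)) =
          fun a => ∑ j, ∏ t, v j t (J a t) := by
        funext a
        rw [hτ2, hτi]
      rw [h6]
      exact halg
  -- the two parts
  set Js : Finset (Fin r₀) := Finset.univ.filter fun j => ∀ t t', l j t = l j t' with hJs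
  set Jt : Finset (Fin r₀) := Finset.univ.filter fun j => ¬ ∀ t t', l j t = l j t' with hJt
  have hcard : Js.card + Jt.card = r₀ := by
    have h6 := Finset.card_filter_add_card_filter_not (s := (Finset.univ : Finset (Fin r₀)))
      (fun j => ∀ t t', l j t = l j t')
    rw [Finset.card_univ, Fintype.card_fin] at h6
    exact h6
  have hun : Js ∪ Jt = Finset.univ := Finset.filter_union_filter_not_eq _ _
  have hMoS : ∀ j ∈ Js, Mo true Finset.univ (l j) ≤ Sy K n (Finset.univ : Finset (Fin d)) := by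
    intro j hj
    have h6 := (Finset.mem_filter.1 hj).2
    exact (h1 K (Fin d) n true Finset.univ (l j)).2.1 Finset.univ (Finset.Subset.refl _)
      fun t _ t' _ => h6 t t'
  have hEsS : Es true Finset.univ Js l ≤ Sy K n (Finset.univ : Finset (Fin d)) :=
    key_Es_le _ _ _ _ _ hMoS
  have hy1 : yy true Finset.univ (Finset.univ : Finset (Fin r₀)) l ≤
      Module.finrank K (Es true (Finset.univ : Finset (Fin d)) Js l) +
        yy true Finset.univ Jt l := by
    unfold yy
    rw [← hun, key_Es_union]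
    have h6 : Sy K n (Finset.univ : Finset (Fin d)) ⊓
        (Es true Finset.univ Js l ⊔ Es true Finset.univ Jt l) =
        Es true Finset.univ Js l ⊔
          (Sy K n (Finset.univ : Finset (Fin d)) ⊓ Es true Finset.univ Jt l) := by
      rw [inf_comm, sup_inf_assoc_of_le _ hEsS, inf_comm]
    rw [h6]
    exact Submodule.finrank_add_le_finrank_add_finrank _ _
  have hy2 : Module.finrank K (Es true (Finset.univ : Finset (Fin d)) Js l) ≤
      (n + 1) * Js.card := by
    refine key_Es_dim _ _ _ _ _ fun j hj => ?_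
    have h6 := (h2 K (Fin d) n true Finset.univ (l j)).2.2.2.2.2.2 fun t _ => hl j t
    have h7 : cl Finset.univ (l j) ≤ 1 := by
      unfold cl
      refine Finset.card_le_one.2 fun a ha b hb => ?_
      obtain ⟨t, -, rfl⟩ := Finset.mem_image.1 ha
      obtain ⟨t', -, rfl⟩ := Finset.mem_image.1 hb
      exact (Finset.mem_filter.1 hj).2 t t'
    calc _ ≤ _ := h6
      _ ≤ n * 1 + 1 := by
        have := Nat.mul_le_mul_left n h7
        omega
      _ = n + 1 := by ring
  have hy3 : 16 * yy true Finset.univ Jt l ≤ (16 * n + 13) * Jt.card := by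
    refine hD₀ K (Fin r₀) d Jt l hd2 (fun j _ t => hl j t) fun j hj => ?_
    have h6 := (Finset.mem_filter.1 hj).2
    by_contra hcon
    refine h6 fun t t' => ?_
    by_contra hne'
    exact hcon ⟨t, t', hne'⟩
  have hE : 3 * Jt.card ≤ 16 * E := by
    have h6 : 16 * m ≤ 16 * ((n + 1) * Js.card) + (16 * n + 13) * Jt.card := by omega
    have h7 : (n + 1) * r₀ ≤ m + E := (Nat.mul_le_mul_left _ hr₀r).trans hr
    have h8 : (n + 1) * r₀ = (n + 1) * Js.card + (n + 1) * Jt.card := by
      rw [← mul_add, hcard]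
    have h9 : (16 * n + 13) * Jt.card + 3 * Jt.card = 16 * ((n + 1) * Jt.card) := by ring
    omega
  -- the small part
  obtain ⟨q, hq⟩ : ∃ q : Fin Jt.card → Fin r₀, (∀ k, q k ∈ Jt) ∧ (∀ j ∈ Jt, ∃ k, q k = j) ∧
      ∀ g : Fin r₀ → Tn K (Fin d) n, ∑ k, g (q k) = ∑ j ∈ Jt, g j := by
    refine ⟨fun k => (Jt.equivFin.symm k : Jt), fun k => (Jt.equivFin.symm k).2,
      fun j hj => ⟨Jt.equivFin ⟨j, hj⟩, ?_⟩, fun g => ?_⟩
    · change ((Jt.equivFin.symm (Jt.equivFin ⟨j, hj⟩) : Jt) : Fin r₀) = j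
      rw [Equiv.symm_apply_apply]
    · rw [← Finset.sum_coe_sort Jt g]
      exact Equiv.sum_comp Jt.equivFin.symm (fun x : Jt => g x)
  obtain ⟨hq1, hq2, hq3⟩ := hq
  have hsplit : ∑ j ∈ Js, w j • pr Finset.univ (l j) + ∑ k, w (q k) • pr Finset.univ (l (q k)) =
      τ := by
    rw [hq3 fun j => w j • pr Finset.univ (l j), ← hτ2]
    exact Finset.sum_filter_add_sum_filter_not _ _ _
  have hJsS : ∑ j ∈ Js, w j • pr Finset.univ (l j) ∈ Sy K n (Finset.univ : Finset (Fin d)) :=
    Submodule.sum_mem _ fun j hj => Submodule.smul_mem _ _ (hMoS j hj (key_pr_mem _ _ _))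
  have hconst := h5 K n d Jt.card (fun k => w (q k)) (fun k => l (q k)) (by omega)
    (fun k t => hl _ t) (by
      have h6 := Submodule.sub_mem _ hτS hJsS
      rw [← hsplit, add_sub_cancel_left] at h6
      exact h6) (by
      intro r' l'' hr' heq
      obtain ⟨a, ha⟩ := key_rep Js (fun x : Fin d → Vc K n => pr Finset.univ x)
        (fun j => Function.update (l j) t₀ (w j • l j t₀))
      obtain ⟨b, hb⟩ := key_rep2 Js.card r' (fun x : Fin d → Vc K n => pr Finset.univ x) a l''
      have h6 : ∑ k, pr Finset.univ (b k) = τ := by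
        rw [hb, ha, heq, ← hsplit]
        exact congrArg (· + _) (Finset.sum_congr rfl fun j _ => key_pr_upd _ _ _)
      have h7 := hmin _ b h6
      omega)
  have hJt0 : Jt = ∅ := by
    refine Finset.eq_empty_of_forall_notMem fun j hj => ?_
    obtain ⟨k, hk⟩ := hq2 j hj
    refine (Finset.mem_filter.1 hj).2 fun t t' => ?_
    have h6 := hconst k t t'
    rw [hk] at h6
    exact h6
  have hall : ∀ j t, l j t = l j t₀ := by
    intro j t
    have h6 : j ∈ Js := by
      have h7 : j ∈ Js ∪ Jt := by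
        rw [hun]
        exact Finset.mem_univ j
      rw [hJt0, Finset.union_empty] at h7
      exact h7
    exact (Finset.mem_filter.1 h6).2 t t₀
  choose ρ hρ using fun j => IsAlgClosed.exists_pow_nat_eq (w j) (n := d) hd1
  refine ⟨fun j => if h : (j : ℕ) < r₀ then ρ ⟨j, h⟩ • l ⟨j, h⟩ t₀ else 0, fun i => ?_⟩
  rw [← hτi, ← hτ2, Finset.sum_apply]
  set F : ℕ → K := fun j => if h : j < r₀ then ∏ t, (ρ ⟨j, h⟩ • l ⟨j, h⟩ t₀) (i t) else 0
    with hF
  have h6 : ∀ j : Fin r, ∏ t, (if h : (j : ℕ) < r₀ then ρ ⟨j, h⟩ • l ⟨j, h⟩ t₀ else 0 :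
      Vc K n) (i t) = F j := by
    intro j
    by_cases h : (j : ℕ) < r₀
    · simp only [hF, dif_pos h]
    · simp only [hF, dif_neg h]
      exact Finset.prod_eq_zero (Finset.mem_univ t₀) rfl
  have h7 : ∀ j : Fin r₀, (w j • pr Finset.univ (l j)) i = F j := by
    intro j
    simp only [hF, dif_pos j.2]
    rw [Pi.smul_apply, smul_eq_mul, ← hρ j]
    have h8 : ∀ t, (ρ j • l j t₀) (i t) = ρ j * l j t (i t) := by
      intro t
      rw [Pi.smul_apply, smul_eq_mul, hall j t]
    change ρ j ^ d * ∏ t, l j t (i t) = ∏ t, (ρ j • l j t₀) (i t)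
    rw [Finset.prod_congr rfl fun t _ => h8 t, Finset.prod_mul_distrib, Finset.prod_const,
      Finset.card_univ, Fintype.card_fin]
  rw [Finset.sum_congr rfl fun j _ => h7 j]
  refine Eq.trans ?_ (Finset.sum_congr rfl fun j _ => (h6 j).symm)
  rw [Fin.sum_univ_eq_sum_range, Fin.sum_univ_eq_sum_range]
  refine Finset.sum_subset (Finset.range_subset_range.2 hr₀r) fun j _ hj => ?_
  have h8 : ¬ j < r₀ := fun h => hj (Finset.mem_range.2 h)
  simp only [hF, dif_neg h8]

end Pool.Agent.Lib.MP_d01072_ag.CL
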