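import Pool.Agent.Lib.MP_d01072_ag.CL.Spec

/-!
MP_d01072_ag, package CL, module MQ (helper62): many deviations, common set.
-/

set_option autoImplicit false

namespace Pool.Agent.Lib.MP_d01072_ag.CL

open MvPolynomial

section

variable {K ι α : Type} [Field K] [Fintype ι] [DecidableEq ι] {n : ℕ}

omit [Fintype ι] in
private lemma Es_congr (τ : Bool) (S : Finset ι) (J : Finset α) (l l' : α → ι → Vc K n)
    (h : ∀ j ∈ J, l j = l' j) : Es τ S J l = Es τ S J l' := by
  unfold Es
  exact iSup_congr fun j => iSup_congr fun hj => by rw [h j hj]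

omit [Fintype ι] in
private lemma yy_congr (τ : Bool) (S : Finset ι) (J : Finset α) (l l' : α → ι → Vc K n)
    (h : ∀ j ∈ J, l j = l' j) : yy τ S J l = yy τ S J l' := by
  unfold yy
  rw [Es_congr τ S J l l' h]

omit [Fintype ι] in
private lemma Es_mono (τ : Bool) (S : Finset ι) {J J' : Finset α} (l : α → ι → Vc K n) (h : J ⊆ J') :
    Es τ S J l ≤ Es τ S J' l :=
  iSup₂_le fun j hj => le_iSup₂_of_le j (h hj) le_rfl

omit [Fintype ι] in
private lemma Es_union_le (τ : Bool) (S : Finset ι) (J J₁ J₂ : Finset α) (l : α → ι → Vc K n)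
    (h : ∀ j ∈ J, j ∈ J₁ ∨ j ∈ J₂) : Es τ S J l ≤ Es τ S J₁ l ⊔ Es τ S J₂ l := by
  refine iSup₂_le fun j hj => ?_
  rcases h j hj with h1 | h1
  · exact le_sup_of_le_left (le_iSup₂_of_le j h1 le_rfl)
  · exact le_sup_of_le_right (le_iSup₂_of_le j h1 le_rfl)

/-- The dimension of the sum of the lines. -/
private lemma Es_card (h2 : S_CtB) (S : Finset ι) (J : Finset α) (l : α → ι → Vc K n) :
    Module.finrank K (Es false S J l) ≤ J.card := by
  classical
  induction J using Finset.induction_on with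
  | empty =>
    have h : Es false S (∅ : Finset α) l = ⊥ := by
      unfold Es
      simp
    rw [h, finrank_bot, Finset.card_empty]
  | insert j J hj ih =>
    have h : Es false S (insert j J) l = Mo false S (l j) ⊔ Es false S J l := by
      unfold Es
      rw [Finset.iSup_insert]
    have h3 := Submodule.finrank_add_le_finrank_add_finrank (Mo false S (l j)) (Es false S J l)
    have h4 := (h2 K ι n false S (l j)).2.2.2.2.2.1
    rw [h, Finset.card_insert_of_notMem hj]
    omega

end

theorem t_MQ (_h1 : S_CtA) (h2 : S_CtB) (h3 : S_Bss) (h4 : S_Pp) (h5 : S_R2) (h6 : S_Rc4) : S_MQ := by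
  classical
  intro K ι α _ _ _ inst n S Q q J l a hQS hq hnQ hCs hNm ha0 ha1
  have hinst : inst = fun a b => Classical.propDecidable (a = b) := Subsingleton.elim _ _
  subst hinst
  have hq0 : q ∈ S := hQS hq
  have hb : 1 ≤ Q.card := Finset.card_pos.2 ⟨q, hq⟩
  have hb' : (1 : ℝ) ≤ Q.card := by exact_mod_cast hb
  have hnb : (n : ℝ) ≤ Q.card := by exact_mod_cast hnQ
  have hrp0 : rp (∅ : Finset ι) q l = l := by
    funext j u
    unfold rp
    rw [if_neg (Finset.notMem_empty u)]
  obtain ⟨D, hD⟩ : ∃ D : α → Finset ι, ∀ j t, t ∈ D j ↔ t ∈ S \ Q ∧ l j t ≠ l j q :=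
    ⟨fun j => (S \ Q).filter fun t => l j t ≠ l j q, fun j t => Finset.mem_filter⟩
  have hcard : ∀ j ∈ J, dv S (l j) (l j q) = (D j).card := by
    intro j hj
    unfold dv
    congr 1
    ext t
    rw [Finset.mem_filter, hD, Finset.mem_sdiff]
    constructor
    · rintro ⟨h7, h8⟩
      exact ⟨⟨h7, fun h9 => h8 (hCs j hj t h9 q hq)⟩, h8⟩
    · rintro ⟨⟨h7, _⟩, h8⟩
      exact ⟨h7, h8⟩
  have hrpq : ∀ (A : Finset ι) (j : α), rp A q l j q = l j q := by
    intro A j
    unfold rp
    split_ifs <;> rfl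
  have hmain := h6 α ι (S \ Q) J D a (3 * n / Q.card)
    (fun F A => (yy false S F (rp A q l) : ℝ)) ha0 ha1 (by positivity)
    (fun j _ t ht => ((hD j t).1 ht).1) ?_ ?_ ?_
  · simp only [hrp0] at hmain
    refine hmain.trans (le_of_eq (Finset.sum_congr rfl fun j hj => ?_))
    rw [hcard j hj]
  · intro F _ A _
    have h7 : yy false S F (rp A q l) ≤ F.card :=
      (Submodule.finrank_mono inf_le_right).trans (Es_card h2 S F _)
    exact_mod_cast h7
  · intro F _ A _ t ht htA hF
    have h7 : ∀ j ∈ F, rp A q l j = rp (insert t A) q l j := by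
      intro j hj
      funext u
      unfold rp
      by_cases hu : u = t
      · rw [hu, if_neg htA, if_pos (Finset.mem_insert_self t A)]
        by_contra h8
        exact hF j hj ((hD j t).2 ⟨ht, h8⟩)
      · by_cases huA : u ∈ A
        · rw [if_pos huA, if_pos (Finset.mem_insert_of_mem huA)]
        · rw [if_neg huA, if_neg (fun h8 => (Finset.mem_insert.1 h8).elim hu huA)]
    exact le_of_eq (congrArg Nat.cast (yy_congr false S F _ _ h7))
  · intro F hFJ A hA t ht htA
    obtain ⟨htS, htQ⟩ := Finset.mem_sdiff.1 ht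
    have htq : t ≠ q := fun h => htQ (h ▸ hq)
    have hlt : ∀ j, rp A q l j t = l j t := fun j => by
      unfold rp
      rw [if_neg htA]
    obtain ⟨F₁, hF₁, hEs, hdim⟩ := h3 K ι α n S F (rp A q l)
    obtain ⟨F', hF', hEs', hdim'⟩ := h3 K ι α n ((S.erase t).erase q) (Jn F₁ (rp A q l) t q) (rp A q l)
    have hJn : ∀ j, j ∈ Jn F₁ (rp A q l) t q ↔ j ∈ F₁ ∧ t ∈ D j := by
      intro j
      unfold Jn
      rw [Finset.mem_filter, hlt, hrpq, hD]
      exact ⟨fun h => ⟨h.1, ht, h.2⟩, fun h => ⟨h.1, h.2.2⟩⟩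
    have hJe : ∀ j, j ∈ Je F₁ (rp A q l) t q ↔ j ∈ F₁ ∧ t ∉ D j := by
      intro j
      unfold Je
      rw [Finset.mem_filter, hlt, hrpq, hD]
      constructor
      · rintro ⟨h7, h8⟩
        exact ⟨h7, fun h9 => h9.2 h8⟩
      · rintro ⟨h7, h8⟩
        refine ⟨h7, ?_⟩
        by_contra h9
        exact h8 ⟨ht, h9⟩
    have eJn : F₁.filter (fun j => t ∈ D j) = Jn F₁ (rp A q l) t q := by
      ext j
      rw [Finset.mem_filter, hJn]
    have eJe : F₁.filter (fun j => t ∉ D j) = Je F₁ (rp A q l) t q := by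
      ext j
      rw [Finset.mem_filter, hJe]
    have hyy : yy false S F (rp A q l) = yy false S F₁ (rp A q l) := by
      unfold yy
      rw [hEs]
    have hNmA : ∀ j ∈ J, ∀ u ∈ S, Nm (rp A q l j u) := by
      intro j hj u hu
      unfold rp
      split_ifs
      · exact hNm j hj q hq0
      · exact hNm j hj u hu
    have hP := h4 K ι α n false S t q F₁ (rp A q l) htS hq0 htq
      (fun j hj => ⟨hNmA j (hFJ (hF₁ hj)) t htS, hNmA j (hFJ (hF₁ hj)) q hq0⟩)
    have hR := h5 K ι α n S Q t q F₁ F' (rp A q l) hQS htS htQ hq (by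
        intro j hj u hu u' hu'
        have huA : ∀ v ∈ Q, v ∉ A := fun v hv hvA => (Finset.mem_sdiff.1 (hA hvA)).2 hv
        unfold rp
        rw [if_neg (huA u hu), if_neg (huA u' hu')]
        exact hCs j (hFJ (hF₁ hj)) u hu u' hu')
      (fun j hj => hNmA j (hFJ (hF₁ hj)) q hq0) hF' hEs'
    rw [← hEs', hdim'] at hP
    rw [← hEs', hdim'] at hR
    have hF₁le : F₁.card ≤ (Jn F₁ (rp A q l) t q).card +
        Module.finrank K (Es false S (Je F₁ (rp A q l) t q) (rp A q l)) := by
      rw [← hdim]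
      have h7 := Submodule.finrank_mono (Es_union_le false S F₁ (Jn F₁ (rp A q l) t q)
        (Je F₁ (rp A q l) t q) (rp A q l) (fun j hj => by
          rw [hJn, hJe]
          by_cases h8 : t ∈ D j
          · exact Or.inl ⟨hj, h8⟩
          · exact Or.inr ⟨hj, h8⟩))
      rw [hEs] at h7 ⊢
      have h8 := Submodule.finrank_add_le_finrank_add_finrank
        (Es false S (Jn F₁ (rp A q l) t q) (rp A q l)) (Es false S (Je F₁ (rp A q l) t q) (rp A q l))
      have h9 := Es_card h2 S (Jn F₁ (rp A q l) t q) (rp A q l)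
      omega
    rw [hdim] at hP
    have hrr : rp {t} q (rp A q l) = rp (insert t A) q l := by
      funext j u
      unfold rp
      by_cases hu : u = t
      · have h9 : u ∈ insert t A := by
          rw [hu]
          exact Finset.mem_insert_self t A
        rw [if_pos (Finset.mem_singleton.2 hu), if_pos h9]
        split_ifs <;> rfl
      · rw [if_neg (fun h => hu (Finset.mem_singleton.1 h))]
        by_cases huA : u ∈ A
        · rw [if_pos huA, if_pos (Finset.mem_insert_of_mem huA)]
        · rw [if_neg huA, if_neg (fun h8 => (Finset.mem_insert.1 h8).elim hu huA)]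
    rw [hrr] at hR
    refine ⟨F₁, hF₁, F', ?_, ?_, ?_⟩
    · rw [eJn]
      exact hF'
    · rw [eJn, eJe, hyy]
      have h7 : yy false S F₁ (rp A q l) + F'.card ≤ (Jn F₁ (rp A q l) t q).card +
          yy false S (Je F₁ (rp A q l) t q) (rp A q l) := by omega
      have h8 : (yy false S F₁ (rp A q l) : ℝ) + F'.card ≤ (Jn F₁ (rp A q l) t q).card +
          yy false S (Je F₁ (rp A q l) t q) (rp A q l) := by exact_mod_cast h7
      linarith
    · rw [eJn, eJe, hyy]
      have h7 : F'.card ≤ (Jn F₁ (rp A q l) t q).card := Finset.card_le_card hF'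
      have h8 : (F'.card : ℝ) ≤ (Jn F₁ (rp A q l) t q).card := by exact_mod_cast h7
      have h9 : ((Q.card : ℝ) + 1) * Q.card * yy false S F₁ (rp A q l) ≤
          ((Q.card : ℝ) + 1) * Q.card * yy false S (F' ∪ Je F₁ (rp A q l) t q) (rp (insert t A) q l) +
            n * (2 * Q.card + n + 1) * F'.card := by exact_mod_cast hR
      have hpos : (0 : ℝ) < ((Q.card : ℝ) + 1) * Q.card := by positivity
      have hn0 : (0 : ℝ) ≤ n := Nat.cast_nonneg n
      have hF0 : (0 : ℝ) ≤ F'.card := Nat.cast_nonneg _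
      have h10 : (n : ℝ) * (2 * Q.card + n + 1) * F'.card ≤
          ((Q.card : ℝ) + 1) * Q.card * (3 * n / Q.card * (Jn F₁ (rp A q l) t q).card) := by
        have h11 : ((Q.card : ℝ) + 1) * Q.card * (3 * n / Q.card * (Jn F₁ (rp A q l) t q).card) =
            n * (3 * (Q.card + 1)) * (Jn F₁ (rp A q l) t q).card := by
          field_simp
        rw [h11]
        have h12 : (n : ℝ) * (2 * Q.card + n + 1) ≤ n * (3 * (Q.card + 1)) :=
          mul_le_mul_of_nonneg_left (by linarith) hn0
        exact mul_le_mul h12 h8 hF0 (by positivity)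
      refine le_of_mul_le_mul_left ?_ hpos
      rw [mul_add]
      linarith

end Pool.Agent.Lib.MP_d01072_ag.CL
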