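import Pool.Agent.Lib.MP_d01072_ag.CL.Spec

/-!
MP_d01072_ag, package CL, module MnM: families with many deviations, average over the transversals.
-/

set_option autoImplicit false

namespace Pool.Agent.Lib.MP_d01072_ag.CL

open MvPolynomial

section
variable {K : Type} [Field K]

private lemma finrank_inf_sup_le {V : Type} [AddCommGroup V] [Module K V] [FiniteDimensional K V]
    (U A C : Submodule K V) :
    Module.finrank K (U ⊓ (A ⊔ C) : Submodule K V) ≤
      Module.finrank K (U ⊓ A : Submodule K V) + Module.finrank K C := by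
  have h1 := Submodule.finrank_sup_add_finrank_inf_eq (U ⊓ (A ⊔ C)) A
  have h2 : (U ⊓ (A ⊔ C)) ⊓ A = U ⊓ A := by
    apply le_antisymm
    · exact le_inf (inf_le_left.trans inf_le_left) inf_le_right
    · exact le_inf (le_inf inf_le_left (inf_le_right.trans le_sup_left)) inf_le_right
  rw [h2] at h1
  have h3 : Module.finrank K ((U ⊓ (A ⊔ C)) ⊔ A : Submodule K V) ≤
      Module.finrank K (A ⊔ C : Submodule K V) :=
    Submodule.finrank_mono (sup_le inf_le_right le_sup_left)
  have h4 : Module.finrank K (A ⊔ C : Submodule K V) ≤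
      Module.finrank K A + Module.finrank K C :=
    Submodule.finrank_add_le_finrank_add_finrank A C
  omega

private lemma finrank_Es_le {ι : Type} [Fintype ι] [DecidableEq ι] {α : Type} {n : ℕ}
    (S : Finset ι) (X : Finset α) (l : α → ι → Vc K n)
    (h : ∀ x : ι → Vc K n, Module.finrank K (Mo false S x) ≤ 1) :
    Module.finrank K (Es false S X l) ≤ X.card := by
  classical
  unfold Es
  induction X using Finset.induction_on with
  | empty => simp
  | insert a X ha ih =>
    rw [Finset.iSup_insert, Finset.card_insert_of_notMem ha]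
    refine (Submodule.finrank_add_le_finrank_add_finrank _ _).trans ?_
    have := h (l a)
    omega

private lemma le_card_Pc {d p B : ℕ} (hd : p * B ≤ d) (c : Fin p → Fin B) :
    p ≤ (Pc c : Finset (Fin d)).card := by
  classical
  have hlt : ∀ i : Fin p, (i : ℕ) * B + c i < d := by
    intro i
    have h1 : (c i : ℕ) < B := (c i).2
    have h2 : ((i : ℕ) + 1) * B ≤ p * B := Nat.mul_le_mul_right B i.2
    have h3 : ((i : ℕ) + 1) * B = (i : ℕ) * B + B := by ring
    omega
  let f : Fin p → Fin d := fun i => ⟨(i : ℕ) * B + c i, hlt i⟩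
  have hf : Function.Injective f := by
    intro i i' hi
    have h0 : (i : ℕ) * B + c i = (i' : ℕ) * B + c i' := congrArg Fin.val hi
    have hB : 0 < B := (Nat.zero_le _).trans_lt (c i).2
    have h1 : ((i : ℕ) * B + c i) / B = i := by
      rw [mul_comm, Nat.mul_add_div hB, Nat.div_eq_of_lt (c i).2, add_zero]
    have h2 : ((i' : ℕ) * B + c i') / B = i' := by
      rw [mul_comm, Nat.mul_add_div hB, Nat.div_eq_of_lt (c i').2, add_zero]
    apply Fin.ext
    rw [← h1, ← h2, h0]
  have h1 : (Finset.univ.image f).card = p := by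
    rw [Finset.card_image_of_injective _ hf, Finset.card_univ, Fintype.card_fin]
  refine h1.symm.le.trans ?_
  apply Finset.card_le_card
  intro t ht
  obtain ⟨i, -, rfl⟩ := Finset.mem_image.1 ht
  unfold Pc
  exact Finset.mem_filter.2 ⟨Finset.mem_univ _, i, rfl⟩

end

theorem t_MnM (h1 : S_CtB) (h2 : S_Sof) (h3 : S_TrM) : S_MnM := by
  classical
  intro n B ε hB hε
  obtain ⟨M₀, s₀, hG⟩ := h2 n (ε / 2) (by positivity)
  set m : ℕ := max M₀ 1 with hm
  have hm1 : 1 ≤ m := le_max_right _ _
  have hmM : M₀ ≤ m := le_max_left _ _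
  have hBr : (2 : ℝ) ≤ B := by exact_mod_cast hB
  have hr0 : (0 : ℝ) ≤ ((B : ℝ) - 1) / B := by
    apply div_nonneg <;> linarith
  have hr1 : ((B : ℝ) - 1) / B < 1 := by
    rw [div_lt_one (by linarith)]
    linarith
  have hmr : (0 : ℝ) < m := by exact_mod_cast hm1
  obtain ⟨w, hw⟩ := exists_pow_lt_of_lt_one (show 0 < ε / (4 * m) by positivity) hr1
  set w₁ : ℕ := w + 1 with hw₁
  have hw2 : 2 * (m : ℝ) * (((B : ℝ) - 1) / B) ^ w₁ ≤ ε / 2 := by
    have e1 : (((B : ℝ) - 1) / B) ^ w₁ ≤ (((B : ℝ) - 1) / B) ^ w :=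
      pow_le_pow_of_le_one hr0 hr1.le (Nat.le_succ w)
    have e2 : (((B : ℝ) - 1) / B) ^ w₁ ≤ ε / (4 * m) := e1.trans hw.le
    calc 2 * (m : ℝ) * (((B : ℝ) - 1) / B) ^ w₁ ≤ 2 * (m : ℝ) * (ε / (4 * m)) :=
          mul_le_mul_of_nonneg_left e2 (by positivity)
      _ = ε / 2 := by field_simp; ring
  refine ⟨m * w₁ + B, 4 * (m * w₁ + B) + (s₀ + 1) * B, ?_⟩
  intro K α _ _ d p J l hD hp hd hNm hdv
  -- the families
  let X : (Fin p → Fin B) → Finset α := fun c =>
    J.filter fun j => ∃ v, dv (Pc c) (l j) v < m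
  have hs : s₀ ≤ p := by
    by_contra hcon
    have : (p + 1) * B ≤ (s₀ + 1) * B := Nat.mul_le_mul_right B (by omega)
    omega
  have hMo : ∀ (S : Finset (Fin d)) (x : Fin d → Vc K n), Module.finrank K (Mo false S x) ≤ 1 :=
    fun S x => (h1 K (Fin d) n false S x).2.2.2.2.2.1
  have hc : ∀ c : Fin p → Fin B, (yy false (Pc c) J l : ℝ) ≤ ε / 2 * J.card + (X c).card := by
    intro c
    have e1 : Es false (Pc c) J l = Es false (Pc c) (J \ X c) l ⊔ Es false (Pc c) (X c) l := by
      have hJ : J = (J \ X c) ∪ X c := (Finset.sdiff_union_of_subset (Finset.filter_subset _ _)).symm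
      conv_lhs => rw [hJ]
      unfold Es
      rw [Finset.iSup_union]
    have e2 : yy false (Pc c) J l ≤ yy false (Pc c) (J \ X c) l + (X c).card := by
      unfold yy
      rw [e1]
      exact (finrank_inf_sup_le _ _ _).trans
        (Nat.add_le_add_left (finrank_Es_le _ _ _ (hMo _)) _)
    have e3 : (yy false (Pc c) (J \ X c) l : ℝ) ≤ (0 + ε / 2) * (J \ X c).card := by
      refine hG K (Fin d) α (Pc c) ∅ (J \ X c) l (hs.trans (le_card_Pc hp c))
        (Finset.empty_subset _) rfl ?_ ?_ ?_
      · intro j _ t ht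
        exact absurd ht (Finset.notMem_empty t)
      · intro j hj t _
        exact hNm j (Finset.mem_sdiff.1 hj).1 t
      · intro j hj v
        obtain ⟨hj1, hj2⟩ := Finset.mem_sdiff.1 hj
        by_contra hcon
        exact hj2 (Finset.mem_filter.2 ⟨hj1, v, by omega⟩)
    have e4 : ((J \ X c).card : ℝ) ≤ J.card := by
      exact_mod_cast Finset.card_le_card Finset.sdiff_subset
    have e5 : (yy false (Pc c) J l : ℝ) ≤ yy false (Pc c) (J \ X c) l + (X c).card := by
      exact_mod_cast e2
    have e6 : (0 + ε / 2) * ((J \ X c).card : ℝ) ≤ ε / 2 * J.card := by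
      rw [zero_add]
      exact mul_le_mul_of_nonneg_left e4 (by positivity)
    linarith
  -- counting
  have hX : ∑ c : Fin p → Fin B, ((X c).card : ℝ) ≤ ε / 2 * B ^ p * J.card := by
    have e1 : ∑ c : Fin p → Fin B, (X c).card =
        ∑ j ∈ J, (Finset.univ.filter fun c : Fin p → Fin B => ∃ v, dv (Pc c) (l j) v < m).card := by
      simp only [X, Finset.card_filter]
      exact Finset.sum_comm
    have e2 : ∀ j ∈ J, ((Finset.univ.filter fun c : Fin p → Fin B =>
        ∃ v, dv (Pc c) (l j) v < m).card : ℝ) ≤ ε / 2 * B ^ p := by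
      intro j hj
      have e3 := h3 d p B m w₁ (Vc K n) (l j) (by omega) hp hd hm1 (by omega) (by omega)
        (by
          intro v
          have := hdv j hj v
          unfold dv at this
          convert this)
      have e4 : (Finset.univ.filter fun c : Fin p → Fin B =>
          ∃ v, dv (Pc c) (l j) v < m).card * B ^ w₁ ≤ 2 * m * ((B - 1) ^ w₁ * B ^ p) := by
        unfold dv
        convert e3
      have e5 : ((Finset.univ.filter fun c : Fin p → Fin B =>
          ∃ v, dv (Pc c) (l j) v < m).card : ℝ) * (B : ℝ) ^ w₁ ≤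
            2 * m * (((B : ℝ) - 1) ^ w₁ * (B : ℝ) ^ p) := by
        have h := (Nat.cast_le (α := ℝ)).2 e4
        push_cast [Nat.cast_sub (show 1 ≤ B by omega)] at h
        exact h
      have hBw : (0 : ℝ) < (B : ℝ) ^ w₁ := by positivity
      have e6 : ((Finset.univ.filter fun c : Fin p → Fin B =>
          ∃ v, dv (Pc c) (l j) v < m).card : ℝ) ≤
            2 * m * (((B : ℝ) - 1) / B) ^ w₁ * (B : ℝ) ^ p := by
        rw [div_pow]
        rw [← le_div_iff₀ hBw] at e5
        refine e5.trans (le_of_eq ?_)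
        field_simp
      exact e6.trans (mul_le_mul_of_nonneg_right hw2 (by positivity))
    have e7 : ∑ c : Fin p → Fin B, ((X c).card : ℝ) = ((∑ c : Fin p → Fin B, (X c).card : ℕ) : ℝ) := by
      push_cast
      rfl
    rw [e7, e1]
    push_cast
    calc ∑ j ∈ J, ((Finset.univ.filter fun c : Fin p → Fin B =>
            ∃ v, dv (Pc c) (l j) v < m).card : ℝ) ≤ ∑ j ∈ J, ε / 2 * (B : ℝ) ^ p :=
          Finset.sum_le_sum e2
      _ = ε / 2 * B ^ p * J.card := by
          rw [Finset.sum_const, nsmul_eq_mul]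
          ring
  have hcard : (Finset.univ : Finset (Fin p → Fin B)).card = B ^ p := by
    rw [Finset.card_univ, Fintype.card_fun, Fintype.card_fin, Fintype.card_fin]
  calc ∑ c : Fin p → Fin B, (yy false (Pc c) J l : ℝ)
      ≤ ∑ c : Fin p → Fin B, (ε / 2 * J.card + (X c).card) := Finset.sum_le_sum fun c _ => hc c
    _ = B ^ p * (ε / 2 * J.card) + ∑ c : Fin p → Fin B, ((X c).card : ℝ) := by
        rw [Finset.sum_add_distrib, Finset.sum_const, hcard, nsmul_eq_mul]
        push_cast
        ring
    _ ≤ B ^ p * (ε / 2 * J.card) + ε / 2 * B ^ p * J.card := by linarith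
    _ = ε * B ^ p * J.card := by ring

end Pool.Agent.Lib.MP_d01072_ag.CL
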