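import Pool.Agent.Lib.MP_d01072_ag.CL.Spec

/-!
MP_d01072_ag, package CL, module Nmb: quotients of binomial coefficients.
-/

set_option autoImplicit false

namespace Pool.Agent.Lib.MP_d01072_ag.CL

private theorem nmb_step (a n : ℕ) :
    (a + (n + 1)).choose (n + 1) * (n + 1) = (a + n + 1) * (a + n).choose n := by
  have h := Nat.add_one_mul_choose_eq (a + n) n
  rw [← add_assoc, ← h]

private theorem nmb_quot (a b : ℕ) (hab : b ≤ a) (n : ℕ) :
    (a + n).choose n * b ^ n ≤ a ^ n * (b + n).choose n := by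
  induction n with
  | zero => simp
  | succ n ih =>
    have h1 := nmb_step a n
    have h2 := nmb_step b n
    have h3 : (a + n + 1) * b ≤ a * (b + n + 1) := by nlinarith
    have h4 : (a + (n + 1)).choose (n + 1) * b ^ (n + 1) * (n + 1) ≤
        a ^ (n + 1) * (b + (n + 1)).choose (n + 1) * (n + 1) := by
      calc (a + (n + 1)).choose (n + 1) * b ^ (n + 1) * (n + 1)
          = ((a + (n + 1)).choose (n + 1) * (n + 1)) * b ^ n * b := by ring
        _ = ((a + n + 1) * b) * ((a + n).choose n * b ^ n) := by rw [h1]; ring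
        _ ≤ (a * (b + n + 1)) * (a ^ n * (b + n).choose n) := Nat.mul_le_mul h3 ih
        _ = a ^ (n + 1) * ((b + n + 1) * (b + n).choose n) := by ring
        _ = a ^ (n + 1) * (b + (n + 1)).choose (n + 1) * (n + 1) := by rw [← h2]; ring
    exact Nat.le_of_mul_le_mul_right h4 (Nat.succ_pos n)

theorem t_Nmb : S_Nmb := by
  intro n d hn hd
  set B := 32 * n * (n + 1) with hB
  have hB1 : 64 ≤ B := by nlinarith
  have hB0 : 0 < B := by omega
  set p := d / B with hp
  have hp1 : 1 ≤ p := (Nat.one_le_div_iff hB0).2 hd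
  have hpB : p * B ≤ d := Nat.div_mul_le_self d B
  have hdp : d < (p + 1) * B := by
    have := Nat.lt_div_mul_add hB0 (a := d)
    rw [add_mul, one_mul]
    exact this
  have hpd : p ≤ d := by nlinarith
  have hd0 : 0 < d := by omega
  unfold Nn
  constructor
  · have h1 := nmb_quot d (d - p) (Nat.sub_le _ _) n
    have h1' : ((d + n).choose n : ℝ) * ((d - p : ℕ) : ℝ) ^ n ≤
        (d : ℝ) ^ n * ((d - p + n).choose n : ℝ) := by exact_mod_cast h1
    have hdR : (0 : ℝ) < d := by exact_mod_cast hd0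
    have hBR : (0 : ℝ) < B := by exact_mod_cast hB0
    have hcast : ((d - p : ℕ) : ℝ) = d - p := by
      rw [Nat.cast_sub hpd]
    have h2 : (1 - 1 / (B : ℝ)) * d ≤ ((d - p : ℕ) : ℝ) := by
      rw [hcast]
      have h3 : (p : ℝ) * B ≤ d := by exact_mod_cast hpB
      have h4 : (p : ℝ) ≤ d / B := by rw [le_div_iff₀ hBR]; exact h3
      have h5 : (1 - 1 / (B : ℝ)) * d = d - d / B := by ring
      rw [h5]
      linarith
    have hB64 : (64 : ℝ) ≤ B := by exact_mod_cast hB1
    have h6 : (0 : ℝ) ≤ 1 - 1 / (B : ℝ) := by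
      rw [sub_nonneg, div_le_one hBR]
      linarith
    have h7 : (1 : ℝ) - n / B ≤ (1 - 1 / (B : ℝ)) ^ n := by
      have h8 := one_add_mul_le_pow (a := -(1 / (B : ℝ))) (by
        have : 1 / (B : ℝ) ≤ 1 := by rw [div_le_one hBR]; linarith
        linarith) n
      have e1 : (1 : ℝ) + n * -(1 / (B : ℝ)) = 1 - n / B := by ring
      have e2 : (1 : ℝ) + -(1 / (B : ℝ)) = 1 - 1 / B := by ring
      rw [e1, e2] at h8
      exact h8
    have h9 : (1 - (n : ℝ) / B) * d ^ n ≤ ((d - p : ℕ) : ℝ) ^ n := by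
      calc (1 - (n : ℝ) / B) * d ^ n ≤ (1 - 1 / (B : ℝ)) ^ n * d ^ n :=
            mul_le_mul_of_nonneg_right h7 (by positivity)
        _ = ((1 - 1 / (B : ℝ)) * d) ^ n := by rw [mul_pow]
        _ ≤ _ := pow_le_pow_left₀ (mul_nonneg h6 hdR.le) h2 n
    have hnR : (1 : ℝ) ≤ n := by exact_mod_cast hn
    have h10 : (n : ℝ) / B = 1 / (32 * (n + 1)) := by
      rw [hB]
      push_cast
      field_simp
    have h11 : (1 : ℝ) ≤ (1 + 1 / (8 * (n + 1))) * (1 - (n : ℝ) / B) := by
      rw [h10]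
      have hx : (0 : ℝ) < n + 1 := by linarith
      have e : (1 + 1 / (8 * ((n : ℝ) + 1))) * (1 - 1 / (32 * (n + 1))) =
          1 + (24 * (n + 1) - 1) / (256 * (n + 1) ^ 2) := by
        field_simp
        ring
      rw [e]
      have : (0 : ℝ) ≤ (24 * (n + 1) - 1) / (256 * (n + 1) ^ 2) := by
        apply div_nonneg
        · linarith
        · positivity
      linarith
    have h12 : (0 : ℝ) < d ^ n := by positivity
    have hC : (0 : ℝ) ≤ ((d + n).choose n : ℝ) := by positivity
    have h13 : ((d + n).choose n : ℝ) * (1 - (n : ℝ) / B) ≤ ((d - p + n).choose n : ℝ) := by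
      have h14 : ((d + n).choose n : ℝ) * ((1 - (n : ℝ) / B) * d ^ n) ≤
          (d : ℝ) ^ n * ((d - p + n).choose n : ℝ) :=
        (mul_le_mul_of_nonneg_left h9 hC).trans h1'
      have h15 : ((d + n).choose n : ℝ) * (1 - (n : ℝ) / B) * d ^ n ≤
          ((d - p + n).choose n : ℝ) * d ^ n := by nlinarith
      exact le_of_mul_le_mul_right h15 h12
    have h16 : (0 : ℝ) ≤ 1 + 1 / (8 * ((n : ℝ) + 1)) := by positivity
    calc ((d + n).choose n : ℝ) = 1 * ((d + n).choose n : ℝ) := by ring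
      _ ≤ ((1 + 1 / (8 * ((n : ℝ) + 1))) * (1 - (n : ℝ) / B)) * ((d + n).choose n : ℝ) :=
          mul_le_mul_of_nonneg_right h11 hC
      _ = (1 + 1 / (8 * ((n : ℝ) + 1))) * (((d + n).choose n : ℝ) * (1 - (n : ℝ) / B)) := by ring
      _ ≤ _ := mul_le_mul_of_nonneg_left h13 h16
  · have h1 := nmb_quot d p hpd n
    have h2 : d ^ n ≤ (64 * n * (n + 1)) ^ n * p ^ n := by
      rw [← mul_pow]
      refine Nat.pow_le_pow_left ?_ n
      have : (p + 1) * B ≤ 64 * n * (n + 1) * p := by
        have e : 64 * n * (n + 1) * p = 2 * p * B := by rw [hB]; ring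
        rw [e]
        exact Nat.mul_le_mul_right _ (by omega)
      omega
    have h3 : (d + n).choose n * p ^ n ≤ (64 * n * (n + 1)) ^ n * (p + n).choose n * p ^ n := by
      calc (d + n).choose n * p ^ n ≤ d ^ n * (p + n).choose n := h1
        _ ≤ ((64 * n * (n + 1)) ^ n * p ^ n) * (p + n).choose n := Nat.mul_le_mul_right _ h2
        _ = _ := by ring
    have h4 := Nat.le_of_mul_le_mul_right h3 (Nat.pow_pos (by omega))
    exact_mod_cast h4

end Pool.Agent.Lib.MP_d01072_ag.CL
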