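import Pool.Agent.Lib.MP_d01072_ag.CL.Spec

set_option autoImplicit false

namespace Pool.Agent.Lib.MP_d01072_ag.CL

open MvPolynomial

private theorem pp_rank {K V W : Type} [Field K] [AddCommGroup V] [Module K V]
    [AddCommGroup W] [Module K W] [FiniteDimensional K V] (Φ : V →ₗ[K] W)
    (E : Submodule K V) :
    Module.finrank K (E.map Φ) + Module.finrank K (LinearMap.ker Φ ⊓ E : Submodule K V) =
      Module.finrank K E := by
  have h := LinearMap.finrank_range_add_finrank_ker (Φ.domRestrict E)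
  rw [LinearMap.range_domRestrict, LinearMap.ker_domRestrict] at h
  rw [← h]
  congr 1
  have h2 : Module.finrank K (((LinearMap.ker Φ).comap E.subtype).map E.subtype) =
      Module.finrank K ((LinearMap.ker Φ).comap E.subtype) :=
    Submodule.finrank_map_subtype_eq E _
  rw [Submodule.map_comap_subtype, inf_comm] at h2
  exact h2

private theorem pp_main {K V W : Type} [Field K] [AddCommGroup V] [Module K V]
    [AddCommGroup W] [Module K W] [FiniteDimensional K V] (Φ : V →ₗ[K] W)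
    (S E E₀ : Submodule K V) (h1 : S ≤ LinearMap.ker Φ) (h2 : E₀ ≤ LinearMap.ker Φ) (h3 : E₀ ≤ E) :
    Module.finrank K (S ⊓ E : Submodule K V) + Module.finrank K (E.map Φ) +
        Module.finrank K E₀ ≤
      Module.finrank K E + Module.finrank K (S ⊓ E₀ : Submodule K V) := by
  have e1 := pp_rank Φ E
  have e2 := Submodule.finrank_sup_add_finrank_inf_eq (S ⊓ E) E₀
  have e3 : (S ⊓ E) ⊓ E₀ = S ⊓ E₀ := by rw [inf_assoc, inf_eq_right.2 h3]
  rw [e3] at e2
  have e4 : Module.finrank K ((S ⊓ E) ⊔ E₀ : Submodule K V) ≤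
      Module.finrank K (LinearMap.ker Φ ⊓ E : Submodule K V) :=
    Submodule.finrank_mono (sup_le (inf_le_inf h1 le_rfl) (le_inf h2 h3))
  omega

private theorem pp_map {K V W α : Type} [Field K] [AddCommGroup V] [Module K V]
    [AddCommGroup W] [Module K W] (Φ : V →ₗ[K] W) (J : Finset α) (M : α → Submodule K V)
    (N : α → Submodule K W) (h : ∀ j ∈ J, (M j).map Φ = N j) :
    (⨆ j ∈ J, M j).map Φ = ⨆ j ∈ J, N j := by
  rw [Submodule.map_iSup]
  refine iSup_congr fun j => ?_
  rw [Submodule.map_iSup]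
  exact iSup_congr fun hj => h j hj

theorem t_Pp (h1 : S_CtB) (h2 : S_Gen) : S_Pp := by
  classical
  intro K ι α _ _ _ _ n τ S t q J l ht hq htq hN
  obtain ⟨ξ, η, hω⟩ := (h2 K n ((Jn J l t q).image fun j => (l j t, l j q))).1 (by
    intro p hp
    obtain ⟨j, hj, rfl⟩ := Finset.mem_image.1 hp
    rw [Jn, Finset.mem_filter] at hj
    exact ⟨(hN j hj.1).1, (hN j hj.1).2, hj.2⟩)
  have hω' : ∀ j ∈ Jn J l t q, vl ξ (l j t) * vl η (l j q) - vl η (l j t) * vl ξ (l j q) ≠ 0 :=
    fun j hj => hω _ (Finset.mem_image_of_mem (fun j => (l j t, l j q)) hj)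
  have hS : Sy K n S ≤ LinearMap.ker (sk t q ξ η) := fun f hf =>
    (h1 K ι n τ S (fun _ => 0)).1 t ht q hq htq ξ η f hf
  have hE0 : Es τ S (Je J l t q) l ≤ LinearMap.ker (sk t q ξ η) := by
    refine iSup₂_le fun j hj f hf => ?_
    rw [Je, Finset.mem_filter] at hj
    exact (h1 K ι n τ S (l j)).2.1 t ht q hq htq hj.2 ξ η f hf
  have hle : Es τ S (Je J l t q) l ≤ Es τ S J l :=
    iSup₂_le fun j hj => le_iSup₂_of_le (f := fun j _ => Mo τ S (l j)) j
      (Finset.mem_filter.1 hj).1 le_rfl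
  have hun : Es τ S J l = Es τ S (Jn J l t q) l ⊔ Es τ S (Je J l t q) l := by
    refine le_antisymm (iSup₂_le fun j hj => ?_) (sup_le ?_ hle)
    · by_cases hjj : l j t = l j q
      · exact le_sup_of_le_right (le_iSup₂_of_le (f := fun j _ => Mo τ S (l j)) j
          (Finset.mem_filter.2 ⟨hj, hjj⟩) le_rfl)
      · exact le_sup_of_le_left (le_iSup₂_of_le (f := fun j _ => Mo τ S (l j)) j
          (Finset.mem_filter.2 ⟨hj, hjj⟩) le_rfl)
    · exact iSup₂_le fun j hj => le_iSup₂_of_le (f := fun j _ => Mo τ S (l j)) j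
        (Finset.mem_filter.1 hj).1 le_rfl
  have hmap : (Es τ S J l).map (sk t q ξ η) = Es τ ((S.erase t).erase q) (Jn J l t q) l := by
    rw [hun, Submodule.map_sup, LinearMap.le_ker_iff_map.1 hE0, sup_bot_eq]
    exact pp_map _ _ _ _ fun j hj => (h1 K ι n τ S (l j)).2.2.1 t ht q hq htq ξ η (hω' j hj)
  have key := pp_main (sk t q ξ η) (Sy K n S) (Es τ S J l) (Es τ S (Je J l t q) l) hS hE0 hle
  rw [hmap] at key
  exact key

end Pool.Agent.Lib.MP_d01072_ag.CL
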