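import Pool.Agent.Lib.MP_d01072_ag.CL.Spec

/-!
MP_d01072_ag, package CL, module R2: inequality (R) for subfamilies.
-/

set_option autoImplicit false

namespace Pool.Agent.Lib.MP_d01072_ag.CL

section
variable {K : Type} [Field K] {ι : Type} {α : Type} {n : ℕ}

private lemma r2_dp_mono {S T : Finset ι} (h : S ⊆ T) : Dp K n S ≤ Dp K n T :=
  fun _ hf i i' hi => hf i i' fun t ht => hi t (h ht)

variable [DecidableEq ι]

private lemma r2_sy_mono {S T : Finset ι} (h : S ⊆ T) : Sy K n T ≤ Sy K n S :=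
  fun _ hf t ht t' ht' i => hf t (h ht) t' (h ht') i

private lemma r2_es_mono {τ : Bool} {S : Finset ι} {J J' : Finset α} (h : J' ⊆ J)
    (l : α → ι → Vc K n) : Es τ S J' l ≤ Es τ S J l :=
  biSup_mono fun _ hj => h hj

private lemma r2_es_union [DecidableEq α] {τ : Bool} {S : Finset ι} (J J' : Finset α)
    (l : α → ι → Vc K n) : Es τ S (J ∪ J') l = Es τ S J l ⊔ Es τ S J' l := by
  rw [Es, Finset.iSup_union]
  rfl

variable [Fintype ι]

private lemma r2_es_congr (h2 : S_CtA) {τ : Bool} {S : Finset ι} {J : Finset α}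
    {l l' : α → ι → Vc K n} (h : ∀ j ∈ J, ∀ t ∈ S, l j t = l' j t) :
    Es τ S J l = Es τ S J l' := by
  rw [Es, Es]
  refine iSup_congr fun j => iSup_congr fun hj => ?_
  exact (h2 K ι n τ S (l j)).2.2.2.2.2 (l' j) (h j hj)

private lemma r2_es_le (h2 : S_CtA) {τ : Bool} {S : Finset ι} {J : Finset α} {t q : ι}
    (ht : t ∈ S) (hq : q ∈ S) (htq : t ≠ q) (l : α → ι → Vc K n) :
    Es τ S J l ≤ Dp K n {t} * (Dp K n {q} * Es τ ((S.erase t).erase q) J l) := by
  refine iSup₂_le fun j hj => ?_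
  have e1 := (h2 K ι n τ S (l j)).2.2.2.2.1 t ht
  have e2 := (h2 K ι n τ (S.erase t) (l j)).2.2.2.2.1 q (Finset.mem_erase.2 ⟨htq.symm, hq⟩)
  refine e1.trans (mul_le_mul_right (e2.trans (mul_le_mul_right ?_ _)) _)
  exact le_iSup₂_of_le j hj le_rfl

private lemma r2_map (h2 : S_CtA) {τ : Bool} {S : Finset ι} {J : Finset α} {t : ι}
    (ht : t ∈ S) (l : α → ι → Vc K n) (ξ : Vc K n) (hξ : ∀ j ∈ J, vl ξ (l j t) ≠ 0) :
    (Es τ S J l).map (ct t ξ) = Es τ (S.erase t) J l := by
  rw [Es, Submodule.map_iSup, Es]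
  refine iSup_congr fun j => ?_
  rw [Submodule.map_iSup]
  refine iSup_congr fun hj => ?_
  exact (h2 K ι n τ S (l j)).2.2.2.1 t ht ξ (hξ j hj)

private lemma r2_dim {V : Type} [AddCommGroup V] [Module K V] [FiniteDimensional K V]
    {P Y Rp E0 E1 : Submodule K V} (h1 : Y ≤ P) (h2 : Y ≤ Rp ⊔ E0) (h3 : E1 ≤ Rp) :
    Module.finrank K Y + Module.finrank K E1 ≤
      Module.finrank K (P ⊓ (E1 ⊔ E0) : Submodule K V) + Module.finrank K Rp := by
  have e1 := Submodule.finrank_sup_add_finrank_inf_eq Y (E1 ⊔ E0)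
  have e2 := Submodule.finrank_sup_add_finrank_inf_eq Rp (E1 ⊔ E0)
  have l1 : Module.finrank K (Y ⊔ (E1 ⊔ E0) : Submodule K V) ≤
      Module.finrank K (Rp ⊔ (E1 ⊔ E0) : Submodule K V) := by
    apply Submodule.finrank_mono
    refine sup_le (h2.trans (sup_le le_sup_left (le_sup_right.trans le_sup_right))) le_sup_right
  have l2 : Module.finrank K (Y ⊓ (E1 ⊔ E0) : Submodule K V) ≤
      Module.finrank K (P ⊓ (E1 ⊔ E0) : Submodule K V) :=
    Submodule.finrank_mono (inf_le_inf_right _ h1)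
  have l3 : Module.finrank K E1 ≤ Module.finrank K (Rp ⊓ (E1 ⊔ E0) : Submodule K V) :=
    Submodule.finrank_mono (le_inf h3 le_sup_left)
  omega

end

theorem t_R2 (h1 : S_U2) (h2 : S_CtA) (h3 : S_Gen) : S_R2 := by
  classical
  intro K ι α _ _ _ _ n S Q t q J J' l hQS htS htQ hqQ hcs hnm hJ' hZ
  have hqS : q ∈ S := hQS hqQ
  have htq : t ≠ q := fun h => htQ (h ▸ hqQ)
  have hJn : Jn J l t q ⊆ J := Finset.filter_subset _ _
  have hJe : Je J l t q ⊆ J := Finset.filter_subset _ _
  have hJu : Jn J l t q ∪ Je J l t q = J := by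
    ext j
    simp only [Jn, Je, Finset.mem_union, Finset.mem_filter]
    tauto
  have hins : insert t Q ⊆ S := Finset.insert_subset htS hQS
  have hrp1 : ∀ j, rp {t} q l j t = l j q := fun j => by simp [rp]
  have hrp2 : ∀ j u, u ≠ t → rp {t} q l j u = l j u := fun j u hu => by simp [rp, hu]
  set Z := Es false ((S.erase t).erase q) (Jn J l t q) l with hZdef
  set Rp := (Sy K n (insert t Q) ⊓ Dp K n {t} * (Dp K n {q} * Z) : Submodule K (Tn K ι n))
    with hRp
  set E0 := Es false S (Je J l t q) l with hE0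
  set E1 := Es false S J' (rp {t} q l) with hE1
  -- the symmetric parts
  have hE0s : E0 ≤ Sy K n (insert t Q) := by
    refine iSup₂_le fun j hj => ?_
    have hj' : j ∈ J ∧ l j t = l j q := by simpa [Je] using hj
    refine (h2 K ι n false S (l j)).2.1 _ hins ?_
    have hc : ∀ u ∈ insert t Q, l j u = l j q := by
      intro u hu
      rcases Finset.mem_insert.1 hu with rfl | hu
      · exact hj'.2
      · exact hcs j hj'.1 u hu q hqQ
    intro u hu u' hu'
    rw [hc u hu, hc u' hu']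
  have hE1s : E1 ≤ Sy K n (insert t Q) := by
    refine iSup₂_le fun j hj => ?_
    refine (h2 K ι n false S (rp {t} q l j)).2.1 _ hins ?_
    have hc : ∀ u ∈ insert t Q, rp {t} q l j u = l j q := by
      intro u hu
      rcases Finset.mem_insert.1 hu with rfl | hu
      · exact hrp1 j
      · rw [hrp2 j u (fun h => htQ (h ▸ hu))]
        exact hcs j (hJn (hJ' hj)) u hu q hqQ
    intro u hu u' hu'
    rw [hc u hu, hc u' hu']
  have hcongr : Es false ((S.erase t).erase q) J' (rp {t} q l) = Z := by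
    rw [← hZ]
    refine r2_es_congr h2 fun j _ u hu => hrp2 j u ?_
    exact (Finset.mem_erase.1 (Finset.mem_erase.1 hu).2).1
  have hE1R : E1 ≤ Rp := by
    refine le_inf hE1s ?_
    have := r2_es_le h2 (τ := false) (J := J') htS hqS htq (rp {t} q l)
    rwa [hcongr] at this
  have hYR : (Sy K n S ⊓ Es false S J l : Submodule K (Tn K ι n)) ≤ Rp ⊔ E0 := by
    intro y hy
    obtain ⟨hyS, hyE⟩ := Submodule.mem_inf.1 hy
    rw [← hJu, r2_es_union] at hyE
    obtain ⟨T, hT, T0, hT0, rfl⟩ := Submodule.mem_sup.1 hyE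
    refine Submodule.add_mem_sup (Submodule.mem_inf.2 ⟨?_, ?_⟩) hT0
    · have e1 : T = (T + T0) - T0 := by rw [add_sub_cancel_right]
      rw [e1]
      exact Submodule.sub_mem _ (r2_sy_mono hins hyS) (hE0s hT0)
    · exact r2_es_le h2 htS hqS htq l hT
  -- contraction of `E1`
  obtain ⟨ξ, hξ⟩ := (h3 K n (J.image fun j => (l j q, l j q))).2 (by
    intro p hp hp0
    obtain ⟨j, hj, rfl⟩ := Finset.mem_image.1 hp
    obtain ⟨i, hi, -⟩ := hnm j hj
    have hp1 : l j q = 0 := hp0
    rw [hp1] at hi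
    exact zero_ne_one hi)
  have hξ' : ∀ j ∈ J, vl ξ (l j q) ≠ 0 := fun j hj =>
    hξ (l j q, l j q) (Finset.mem_image.2 ⟨j, hj, rfl⟩)
  have hm1 : E1.map (ct t ξ) = Es false (S.erase t) J' (rp {t} q l) :=
    r2_map h2 htS _ ξ fun j hj => by rw [hrp1 j]; exact hξ' j (hJn (hJ' hj))
  have hm2 : (Es false (S.erase t) J' (rp {t} q l)).map (ct q ξ) = Z := by
    rw [r2_map h2 (Finset.mem_erase.2 ⟨htq.symm, hqS⟩) _ ξ fun j hj => by
      rw [hrp2 j q htq.symm]; exact hξ' j (hJn (hJ' hj)), hcongr]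
  have hr : Module.finrank K Z ≤ Module.finrank K E1 := by
    rw [← hm2, ← hm1]
    exact (Submodule.finrank_map_le _ _).trans (Submodule.finrank_map_le _ _)
  -- dimensions
  have hd := r2_dim (P := Sy K n S) inf_le_left hYR hE1R
  have hY1 : yy false S (J' ∪ Je J l t q) (rp {t} q l) =
      Module.finrank K (Sy K n S ⊓ (E1 ⊔ E0) : Submodule K (Tn K ι n)) := by
    rw [yy, r2_es_union]
    have : Es false S (Je J l t q) (rp {t} q l) = E0 := by
      refine r2_es_congr h2 fun j hj u _ => ?_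
      by_cases hu : u = t
      · subst hu
        have hj' : j ∈ J ∧ l j u = l j q := by simpa [Je] using hj
        rw [hrp1 j, hj'.2]
      · exact hrp2 j u hu
    rw [this]
  have hZD : Z ≤ Dp K n ((Finset.univ.erase t).erase q) := by
    refine iSup₂_le fun j _ => ?_
    refine ((h2 K ι n false ((S.erase t).erase q) (l j)).1).trans (r2_dp_mono ?_)
    exact Finset.erase_subset_erase _ (Finset.erase_subset_erase _ (Finset.subset_univ _))
  have hU := h1 K ι n (insert t Q) t q Z (Finset.mem_insert_self _ _)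
    (Finset.mem_insert_of_mem hqQ) htq hZD
  rw [Finset.card_insert_of_notMem htQ, Nat.add_sub_cancel, ← hRp] at hU
  rw [hY1, yy]
  have hk : (Q.card + 1) * Q.card *
      (Module.finrank K (Sy K n S ⊓ Es false S J l : Submodule K (Tn K ι n)) +
        Module.finrank K Z) ≤ (Q.card + 1) * Q.card *
      (Module.finrank K (Sy K n S ⊓ (E1 ⊔ E0) : Submodule K (Tn K ι n)) +
        Module.finrank K Rp) := Nat.mul_le_mul_left _ (by omega)
  have hc : (Q.card + 1 + n) * (Q.card + n) * Module.finrank K Z =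
      (Q.card + 1) * Q.card * Module.finrank K Z +
        n * (2 * Q.card + n + 1) * Module.finrank K Z := by ring
  rw [hc] at hU
  rw [mul_add, mul_add] at hk
  linarith

end Pool.Agent.Lib.MP_d01072_ag.CL
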