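import Pool.Agent.Lib.MP_d01072_ag.CL.Spec

/-!
# MP_d01072_ag, Theorem CL: the recursion for many deviations (real numbers)
-/

set_option autoImplicit false

namespace Pool.Agent.Lib.MP_d01072_ag.CL

/-- The contribution of an element with `k` deviations. -/
private noncomputable def Rc4_g (a lam : ℝ) (k : ℕ) : ℝ :=
  max a ((1 - a) ^ k) + lam * ∑ i ∈ Finset.range k, (1 - a) ^ i

private lemma Rc4_sg_nonneg {a : ℝ} (ha1 : a < 1) (k : ℕ) :
    0 ≤ ∑ i ∈ Finset.range k, (1 - a) ^ i :=
  Finset.sum_nonneg fun i _ => pow_nonneg (by linarith) i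

private lemma Rc4_g_nonneg {a lam : ℝ} (ha : 0 < a) (ha1 : a < 1) (hl : 0 ≤ lam) (k : ℕ) :
    0 ≤ Rc4_g a lam k :=
  add_nonneg (ha.le.trans (le_max_left _ _)) (mul_nonneg hl (Rc4_sg_nonneg ha1 k))

private lemma Rc4_sg_succ (a : ℝ) (k : ℕ) :
    ∑ i ∈ Finset.range (k + 1), (1 - a) ^ i = 1 + (1 - a) * ∑ i ∈ Finset.range k, (1 - a) ^ i := by
  rw [Finset.sum_range_succ', Finset.mul_sum, pow_zero, add_comm]
  congr 1
  refine Finset.sum_congr rfl fun i _ => ?_
  ring

private lemma Rc4_a {a lam : ℝ} (ha1 : a < 1) (hl : 0 ≤ lam) (ha : 0 < a) (k : ℕ) :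
    a + (1 - a) * lam ≤ Rc4_g a lam (k + 1) := by
  unfold Rc4_g
  rw [Rc4_sg_succ]
  have h1 : a ≤ max a ((1 - a) ^ (k + 1)) := le_max_left _ _
  have h2 := Rc4_sg_nonneg ha1 k
  have h3 : 0 ≤ lam * ((1 - a) * ∑ i ∈ Finset.range k, (1 - a) ^ i) :=
    mul_nonneg hl (mul_nonneg (by linarith) h2)
  have h4 : 0 ≤ a * lam := mul_nonneg ha.le hl
  nlinarith

private lemma Rc4_b {a lam : ℝ} (ha : 0 < a) (ha1 : a < 1) (hl : 0 ≤ lam) (k : ℕ) :
    (1 - a) * Rc4_g a lam k + (1 - a) * lam ≤ Rc4_g a lam (k + 1) := by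
  unfold Rc4_g
  rw [Rc4_sg_succ]
  have h1 : (1 - a) * max a ((1 - a) ^ k) ≤ max a ((1 - a) ^ (k + 1)) := by
    rw [mul_max_of_nonneg _ _ (by linarith : (0 : ℝ) ≤ 1 - a)]
    refine max_le_max ?_ ?_
    · nlinarith
    · rw [pow_succ, mul_comm]
  have h4 : 0 ≤ a * lam := mul_nonneg ha.le hl
  nlinarith

private lemma Rc4_sg_le {a : ℝ} (ha : 0 < a) (ha1 : a < 1) (k : ℕ) :
    ∑ i ∈ Finset.range k, (1 - a) ^ i ≤ 1 / a := by
  rw [le_div_iff₀ ha]
  have h1 : (∑ i ∈ Finset.range k, (1 - a) ^ i) * ((1 - a) - 1) = (1 - a) ^ k - 1 :=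
    geom_sum_mul (1 - a) k
  have h2 : 0 ≤ (1 - a) ^ k := pow_nonneg (by linarith) k
  nlinarith

open Classical in
theorem t_Rc4 : S_Rc4 := by
  intro α β U J D a lam y ha ha1 hl hD h1 h2 h3
  have key : ∀ m : ℕ, ∀ A ⊆ U, (U \ A).card = m → ∀ F ⊆ J,
      y F A ≤ ∑ j ∈ F, Rc4_g a lam (D j ∩ (U \ A)).card := by
    intro m
    induction m with
    | zero =>
      intro A hA hm F hF
      have hUA : U \ A = ∅ := Finset.card_eq_zero.1 hm
      refine (h1 F hF A hA).trans ?_
      rw [hUA]
      have hg : Rc4_g a lam 0 = 1 := by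
        unfold Rc4_g
        simp [ha1.le]
      simp [hg]
    | succ m ih =>
      intro A hA hm F hF
      obtain ⟨t, ht⟩ : (U \ A).Nonempty := Finset.card_pos.1 (by omega)
      obtain ⟨htU, htA⟩ := Finset.mem_sdiff.1 ht
      have hins : insert t A ⊆ U := Finset.insert_subset htU hA
      have hcard : (U \ insert t A).card = m := by
        have e1 : U \ insert t A = (U \ A).erase t := by
          ext x
          simp only [Finset.mem_sdiff, Finset.mem_insert, Finset.mem_erase]
          tauto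
        rw [e1, Finset.card_erase_of_mem ht, hm]
        rfl
      obtain ⟨F₁, hF₁, F', hF', e1, e2⟩ := h3 F hF A hA t htU htA
      set Ft := F₁.filter fun j => t ∈ D j with hFt
      set F₀ := F₁.filter fun j => t ∉ D j with hF₀
      have hF₀J : F₀ ⊆ J := (Finset.filter_subset _ _).trans (hF₁.trans hF)
      have hF'J : F' ⊆ J := hF'.trans ((Finset.filter_subset _ _).trans (hF₁.trans hF))
      have hdis : Disjoint F' F₀ := by
        rw [Finset.disjoint_left]
        intro j hj hj'
        exact (Finset.mem_filter.1 hj').2 (Finset.mem_filter.1 (hF' hj)).2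
      have e3 : y F₀ A ≤ y F₀ (insert t A) :=
        h2 F₀ hF₀J A hA t htU htA fun j hj => (Finset.mem_filter.1 hj).2
      have e4 := ih (insert t A) hins hcard F₀ hF₀J
      have e5 := ih (insert t A) hins hcard (F' ∪ F₀) (Finset.union_subset hF'J hF₀J)
      rw [Finset.sum_union hdis] at e5
      -- the numbers of deviations
      have k0 : ∀ j ∈ F₀, (D j ∩ (U \ insert t A)).card = (D j ∩ (U \ A)).card := by
        intro j hj
        have htj := (Finset.mem_filter.1 hj).2
        congr 1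
        ext x
        simp only [Finset.mem_inter, Finset.mem_sdiff, Finset.mem_insert]
        constructor
        · rintro ⟨u1, u2, u3⟩
          exact ⟨u1, u2, fun h => u3 (Or.inr h)⟩
        · rintro ⟨u1, u2, u3⟩
          refine ⟨u1, u2, ?_⟩
          rintro (h | h)
          · exact htj (h ▸ u1)
          · exact u3 h
      have k1 : ∀ j ∈ Ft, (D j ∩ (U \ A)).card = (D j ∩ (U \ insert t A)).card + 1 := by
        intro j hj
        have htj := (Finset.mem_filter.1 hj).2
        have e6 : D j ∩ (U \ A) = insert t (D j ∩ (U \ insert t A)) := by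
          ext x
          simp only [Finset.mem_inter, Finset.mem_sdiff, Finset.mem_insert]
          constructor
          · rintro ⟨u1, u2, u3⟩
            by_cases hx : x = t
            · exact Or.inl hx
            · exact Or.inr ⟨u1, u2, by tauto⟩
          · rintro (h | ⟨u1, u2, u3⟩)
            · subst h
              exact ⟨htj, htU, htA⟩
            · exact ⟨u1, u2, fun h => u3 (Or.inr h)⟩
        rw [e6, Finset.card_insert_of_notMem]
        simp
      have s0 : ∑ j ∈ F₀, Rc4_g a lam (D j ∩ (U \ insert t A)).card =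
          ∑ j ∈ F₀, Rc4_g a lam (D j ∩ (U \ A)).card :=
        Finset.sum_congr rfl fun j hj => by rw [k0 j hj]
      rw [s0] at e4 e5
      set S0 : ℝ := ∑ j ∈ F₀, Rc4_g a lam (D j ∩ (U \ A)).card with hS0
      set S1 : ℝ := ∑ j ∈ F', Rc4_g a lam (D j ∩ (U \ insert t A)).card with hS1
      -- the convex combination
      have c1 : y F A ≤ S0 + a * ((Ft.card : ℝ) - F'.card) + (1 - a) * S1 +
          (1 - a) * lam * Ft.card := by
        have q1 : y F A ≤ (Ft.card : ℝ) - F'.card + S0 := by linarith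
        have q2 : y F A ≤ S1 + S0 + lam * Ft.card := by linarith
        have q3 := mul_le_mul_of_nonneg_left q1 ha.le
        have q4 := mul_le_mul_of_nonneg_left q2 (by linarith : (0 : ℝ) ≤ 1 - a)
        nlinarith
      -- the sum over `F'`
      have c2 : (1 - a) * S1 + (1 - a) * lam * F'.card ≤
          ∑ j ∈ F', Rc4_g a lam (D j ∩ (U \ A)).card := by
        have q1 : (1 - a) * S1 + (1 - a) * lam * F'.card =
            ∑ j ∈ F', ((1 - a) * Rc4_g a lam (D j ∩ (U \ insert t A)).card + (1 - a) * lam) := by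
          rw [Finset.sum_add_distrib, ← Finset.mul_sum, Finset.sum_const, nsmul_eq_mul]
          ring
        rw [q1]
        refine Finset.sum_le_sum fun j hj => ?_
        rw [k1 j (hF' hj)]
        exact Rc4_b ha ha1 hl _
      -- the sum over `Ft \ F'`
      have c3 : (a + (1 - a) * lam) * ((Ft.card : ℝ) - F'.card) ≤
          ∑ j ∈ Ft \ F', Rc4_g a lam (D j ∩ (U \ A)).card := by
        have q0 : ((Ft \ F').card : ℝ) = (Ft.card : ℝ) - F'.card := by
          rw [Finset.card_sdiff_of_subset hF', Nat.cast_sub (Finset.card_le_card hF')]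
        have q1 : (a + (1 - a) * lam) * ((Ft.card : ℝ) - F'.card) =
            ∑ j ∈ Ft \ F', (a + (1 - a) * lam) := by
          rw [Finset.sum_const, nsmul_eq_mul, q0]
          ring
        rw [q1]
        refine Finset.sum_le_sum fun j hj => ?_
        rw [k1 j (Finset.mem_sdiff.1 hj).1]
        exact Rc4_a ha1 hl ha _
      have c4 : ∑ j ∈ Ft \ F', Rc4_g a lam (D j ∩ (U \ A)).card +
          ∑ j ∈ F', Rc4_g a lam (D j ∩ (U \ A)).card =
          ∑ j ∈ Ft, Rc4_g a lam (D j ∩ (U \ A)).card := Finset.sum_sdiff hF'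
      have c5 : ∑ j ∈ Ft, Rc4_g a lam (D j ∩ (U \ A)).card + S0 =
          ∑ j ∈ F₁, Rc4_g a lam (D j ∩ (U \ A)).card :=
        Finset.sum_filter_add_sum_filter_not F₁ (fun j => t ∈ D j) _
      have c6 : ∑ j ∈ F₁, Rc4_g a lam (D j ∩ (U \ A)).card ≤
          ∑ j ∈ F, Rc4_g a lam (D j ∩ (U \ A)).card :=
        Finset.sum_le_sum_of_subset_of_nonneg hF₁ fun j _ _ => Rc4_g_nonneg ha ha1 hl _
      have c7 : S0 + a * ((Ft.card : ℝ) - F'.card) + (1 - a) * S1 + (1 - a) * lam * Ft.card =
          S0 + ((1 - a) * S1 + (1 - a) * lam * F'.card) +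
            (a + (1 - a) * lam) * ((Ft.card : ℝ) - F'.card) := by ring
      linarith
  refine (key _ ∅ (Finset.empty_subset _) rfl J (Finset.Subset.refl _)).trans ?_
  refine Finset.sum_le_sum fun j hj => ?_
  have e1 : D j ∩ (U \ ∅) = D j := by
    rw [Finset.sdiff_empty]
    exact Finset.inter_eq_left.2 (hD j hj)
  rw [e1]
  unfold Rc4_g
  have e2 := mul_le_mul_of_nonneg_left (Rc4_sg_le ha ha1 (D j).card) hl
  have e3 : lam * (1 / a) = lam / a := by ring
  linarith

end Pool.Agent.Lib.MP_d01072_ag.CL
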