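import Pool.Agent.Lib.MP_d01072_ag.CL.Spec

/-!
MP_d01072_ag, package CL, module Rr: inequality (R).
-/

set_option autoImplicit false

namespace Pool.Agent.Lib.MP_d01072_ag.CL

section
variable {K : Type} [Field K] {ι : Type} [DecidableEq ι] {α : Type} {n : ℕ}

private theorem rr_es_le {τ : Bool} {S : Finset ι} {J : Finset α} {l : α → ι → Vc K n}
    {M : Submodule K (Tn K ι n)} (h : ∀ j ∈ J, Mo τ S (l j) ≤ M) : Es τ S J l ≤ M :=
  iSup₂_le h

private theorem rr_le_es {τ : Bool} {S : Finset ι} {J : Finset α} {l : α → ι → Vc K n}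
    {j : α} (h : j ∈ J) : Mo τ S (l j) ≤ Es τ S J l :=
  le_iSup₂_of_le (f := fun j (_ : j ∈ J) => Mo τ S (l j)) j h le_rfl

private theorem rr_es_congr {τ : Bool} {S : Finset ι} {J : Finset α} {l l' : α → ι → Vc K n}
    (h : ∀ j ∈ J, Mo τ S (l j) = Mo τ S (l' j)) : Es τ S J l = Es τ S J l' :=
  le_antisymm (rr_es_le fun j hj => (h j hj).le.trans (rr_le_es hj))
    (rr_es_le fun j hj => (h j hj).ge.trans (rr_le_es hj))

omit [DecidableEq ι] in
private theorem rr_mem_jn {J : Finset α} {l : α → ι → Vc K n} {t q : ι} {j : α} :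
    j ∈ Jn J l t q ↔ j ∈ J ∧ l j t ≠ l j q := by
  classical
  rw [Jn, Finset.mem_filter]

omit [DecidableEq ι] in
private theorem rr_mem_je {J : Finset α} {l : α → ι → Vc K n} {t q : ι} {j : α} :
    j ∈ Je J l t q ↔ j ∈ J ∧ l j t = l j q := by
  classical
  rw [Je, Finset.mem_filter]

private theorem rr_es_split (τ : Bool) (S : Finset ι) (J : Finset α) (l l₂ : α → ι → Vc K n)
    (t q : ι) : Es τ S J l₂ = Es τ S (Jn J l t q) l₂ ⊔ Es τ S (Je J l t q) l₂ := by
  refine le_antisymm (rr_es_le fun j hj => ?_) (sup_le (rr_es_le fun j hj => ?_)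
    (rr_es_le fun j hj => ?_))
  · by_cases h : l j t = l j q
    · exact le_sup_of_le_right (rr_le_es (rr_mem_je.2 ⟨hj, h⟩))
    · exact le_sup_of_le_left (rr_le_es (rr_mem_jn.2 ⟨hj, h⟩))
  · exact rr_le_es (rr_mem_jn.1 hj).1
  · exact rr_le_es (rr_mem_je.1 hj).1

private theorem rr_es_map (τ : Bool) (S S' : Finset ι) (J : Finset α) (l l' : α → ι → Vc K n)
    (f : Tn K ι n →ₗ[K] Tn K ι n) (h : ∀ j ∈ J, (Mo τ S (l j)).map f = Mo τ S' (l' j)) :
    (Es τ S J l).map f = Es τ S' J l' := by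
  unfold Es
  rw [Submodule.map_iSup]
  refine iSup_congr fun j => ?_
  rw [Submodule.map_iSup]
  exact iSup_congr fun hj => h j hj

omit [DecidableEq ι] in
private theorem rr_dp_mono {S S' : Finset ι} (h : S ⊆ S') : Dp K n S ≤ Dp K n S' :=
  fun _ hf i i' hi => hf i i' fun t ht => hi t (h ht)

private theorem rr_sy_anti {S S' : Finset ι} (h : S ⊆ S') : Sy K n S' ≤ Sy K n S :=
  fun _ hf t ht t' ht' => hf t (h ht) t' (h ht')

private theorem rr_arith {b n a a' p r e : ℕ} (h1 : a + e ≤ a' + p) (h2 : r ≤ e)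
    (h3 : (b + 1) * p ≤ (b + 1 + n) * r) : (b + 1) * a ≤ (b + 1) * a' + n * r := by
  have e1 := Nat.mul_le_mul_left (b + 1) h1
  have e2 := Nat.mul_le_mul_left (b + 1) h2
  rw [mul_add, mul_add (b + 1) a' p] at e1
  rw [add_mul (b + 1) n r] at h3
  omega

/-- the dimension count -/
private theorem rr_dim {V : Type} [AddCommGroup V] [Module K V] [FiniteDimensional K V]
    (A Y Rp E0 E1 : Submodule K V) (hYA : Y ≤ A) (hY : Y ≤ Rp ⊔ E0) (hE : E1 ≤ Rp) :
    Module.finrank K Y + Module.finrank K E1 ≤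
      Module.finrank K (A ⊓ (E1 ⊔ E0) : Submodule K V) + Module.finrank K Rp := by
  have h1 := Submodule.finrank_sup_add_finrank_inf_eq Y (E1 ⊔ E0)
  have h2 := Submodule.finrank_sup_add_finrank_inf_eq Rp E0
  have h3 := Submodule.finrank_sup_add_finrank_inf_eq E1 E0
  have h4 : Module.finrank K (Y ⊔ (E1 ⊔ E0) : Submodule K V) ≤
      Module.finrank K (Rp ⊔ E0 : Submodule K V) :=
    Submodule.finrank_mono (sup_le hY (sup_le_sup_right hE _))
  have h5 : Module.finrank K (Y ⊓ (E1 ⊔ E0) : Submodule K V) ≤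
      Module.finrank K (A ⊓ (E1 ⊔ E0) : Submodule K V) :=
    Submodule.finrank_mono (inf_le_inf_right _ hYA)
  have h6 : Module.finrank K (E1 ⊓ E0 : Submodule K V) ≤
      Module.finrank K (Rp ⊓ E0 : Submodule K V) :=
    Submodule.finrank_mono (inf_le_inf_right _ hE)
  omega

end

theorem t_Rr (h1 : S_U1) (h2 : S_CtA) (h3 : S_Gen) : S_Rr := by
  classical
  intro K ι α _ _ _ _ n τ S Q t q J l hQS htS htQ hqQ hC hN
  have hqt : q ≠ t := fun h => htQ (h ▸ hqQ)
  -- the vectors of `l'`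
  have hl't : ∀ j, rp {t} q l j t = l j q := fun j => by
    simp [rp]
  have hl'u : ∀ j u, u ≠ t → rp {t} q l j u = l j u := fun j u hu => by
    simp [rp, hu]
  have hQt : insert t Q ⊆ S := Finset.insert_subset htS hQS
  have hJn : ∀ j ∈ Jn J l t q, j ∈ J := fun j hj => (rr_mem_jn.1 hj).1
  -- constancy on `insert t Q`
  have hcon' : ∀ j ∈ J, ∀ u ∈ insert t Q, ∀ u' ∈ insert t Q,
      rp {t} q l j u = rp {t} q l j u' := by
    intro j hj
    have key : ∀ u ∈ insert t Q, rp {t} q l j u = l j q := by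
      intro u hu
      by_cases hut : u = t
      · rw [hut, hl't]
      · rw [hl'u j u hut]
        exact hC j hj u ((Finset.mem_insert.mp hu).resolve_left hut) q hqQ
    intro u hu u' hu'
    rw [key u hu, key u' hu']
  have hJe : ∀ j ∈ Je J l t q, rp {t} q l j = l j := by
    intro j hj
    funext u
    by_cases hut : u = t
    · rw [hut, hl't, (rr_mem_je.1 hj).2]
    · exact hl'u j u hut
  obtain ⟨E0, hE0⟩ : ∃ E0 : Submodule K (Tn K ι n), E0 = Es τ S (Je J l t q) l := ⟨_, rfl⟩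
  have hE0' : Es τ S (Je J l t q) (rp {t} q l) = E0 := by
    rw [hE0]
    exact rr_es_congr fun j hj => by rw [hJe j hj]
  have hE0S : E0 ≤ Sy K n (insert t Q) := by
    rw [← hE0']
    refine rr_es_le fun j hj => ?_
    exact (h2 K ι n τ S _).2.1 (insert t Q) hQt (hcon' j (rr_mem_je.1 hj).1)
  obtain ⟨R, hR⟩ : ∃ R : Submodule K (Tn K ι n), R = Es τ (S.erase t) (Jn J l t q) l := ⟨_, rfl⟩
  obtain ⟨Rp, hRp⟩ : ∃ Rp : Submodule K (Tn K ι n),
    Rp = Sy K n (insert t Q) ⊓ Dp K n {t} * R := ⟨_, rfl⟩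
  obtain ⟨E1, hE1⟩ : ∃ E1 : Submodule K (Tn K ι n),
    E1 = Es τ S (Jn J l t q) (rp {t} q l) := ⟨_, rfl⟩
  -- `Mo` of `l'` without the slot `t`
  have hMo : ∀ j, Mo τ (S.erase t) (rp {t} q l j) = Mo τ (S.erase t) (l j) := fun j =>
    (h2 K ι n τ (S.erase t) _).2.2.2.2.2 _ fun u hu => hl'u j u (Finset.ne_of_mem_erase hu)
  have hE1R : E1 ≤ Rp := by
    rw [hE1, hRp]
    refine rr_es_le fun j hj => le_inf ?_ ?_
    · exact (h2 K ι n τ S _).2.1 (insert t Q) hQt (hcon' j (hJn j hj))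
    · refine ((h2 K ι n τ S _).2.2.2.2.1 t htS).trans ?_
      rw [hMo j]
      exact mul_le_mul' le_rfl (by rw [hR]; exact rr_le_es hj)
  -- `Y ≤ Rp ⊔ E0`
  have hY : Sy K n S ⊓ Es τ S J l ≤ Rp ⊔ E0 := by
    rintro y ⟨hyS, hyE⟩
    rw [SetLike.mem_coe, rr_es_split τ S J l l t q] at hyE
    obtain ⟨T, hT, T0, hT0, rfl⟩ := Submodule.mem_sup.mp hyE
    rw [← hE0] at hT0
    refine Submodule.add_mem_sup ?_ hT0
    rw [hRp]
    refine ⟨?_, ?_⟩
    · have e1 : T + T0 ∈ Sy K n (insert t Q) := rr_sy_anti hQt hyS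
      have e2 := Submodule.sub_mem _ e1 (hE0S hT0)
      rwa [add_sub_cancel_right] at e2
    · refine (rr_es_le (M := Dp K n {t} * R) fun j hj => ?_) hT
      refine ((h2 K ι n τ S _).2.2.2.2.1 t htS).trans ?_
      exact mul_le_mul' le_rfl (by rw [hR]; exact rr_le_es hj)
  -- the contraction
  have hRE : Module.finrank K R ≤ Module.finrank K E1 := by
    obtain ⟨ξ, hξ⟩ := (h3 K n (J.image fun j => (l j q, l j q))).2 (by
      intro p hp
      rw [Finset.mem_image] at hp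
      obtain ⟨j, hj, rfl⟩ := hp
      obtain ⟨i, hi, -⟩ := hN j hj
      intro h0
      have h0' : l j q = 0 := h0
      rw [h0'] at hi
      exact zero_ne_one hi)
    have hmap : E1.map (ct t ξ) = R := by
      rw [hE1, hR]
      refine rr_es_map τ S (S.erase t) _ _ _ _ fun j hj => ?_
      rw [(h2 K ι n τ S _).2.2.2.1 t htS ξ, hMo j]
      rw [hl't]
      exact hξ (l j q, l j q) (Finset.mem_image_of_mem _ (hJn j hj))
    rw [← hmap]
    exact Submodule.finrank_map_le _ _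
  -- the bound `U1`
  have hU := h1 K ι n (insert t Q) t R (Finset.mem_insert_self _ _) (by
    rw [hR]
    refine rr_es_le fun j hj => ((h2 K ι n τ (S.erase t) _).1).trans ?_
    exact rr_dp_mono (Finset.erase_subset_erase _ (Finset.subset_univ _)))
  rw [Finset.card_insert_of_notMem htQ, ← hRp] at hU
  have hdim := rr_dim (Sy K n S) (Sy K n S ⊓ Es τ S J l) Rp E0 E1 inf_le_left hY hE1R
  have hy' : (Sy K n S ⊓ (E1 ⊔ E0) : Submodule K (Tn K ι n)) =
      Sy K n S ⊓ Es τ S J (rp {t} q l) := by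
    rw [rr_es_split τ S J l (rp {t} q l) t q, hE0', ← hE1]
  rw [hy'] at hdim
  unfold yy
  rw [← hR]
  exact rr_arith hdim hRE hU

end Pool.Agent.Lib.MP_d01072_ag.CL
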