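import Pool.Agent.Lib.MP_d01072_ag.CL.Spec

set_option autoImplicit false

namespace Pool.Agent.Lib.MP_d01072_ag.CL

private lemma sh_Dp_mono {K : Type} [Field K] {ι : Type} {n : ℕ}
    {S T : Finset ι} (h : S ⊆ T) : Dp K n S ≤ Dp K n T :=
  fun _ hf i i' hi => hf i i' fun t ht => hi t (h ht)

private lemma sh_mul_mono {K : Type} [Field K] {ι : Type} {n : ℕ}
    {A B C : Submodule K (Tn K ι n)} (h : B ≤ C) : A * B ≤ A * C := by
  rw [Submodule.mul_le]
  exact fun f hf g hg => Submodule.mul_mem_mul hf (h hg)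

/-- inequality (S) -/
theorem t_Sh (h1 : S_U2) (h2 : S_CtA) : S_Sh := by
  intro K ι α _ _ _ n τ S Q t q J l hQS htS htQ hqQ hCs
  have hqt : q ≠ t := fun h => htQ (h ▸ hqQ)
  have hqS : q ∈ S := hQS hqQ
  have hqSt : q ∈ S.erase t := Finset.mem_erase.2 ⟨hqt, hqS⟩
  have c1 : (insert t Q).card = Q.card + 1 := Finset.card_insert_of_notMem htQ
  have hl : ∀ j, ∀ u, u ≠ t → rp {t} q l j u = l j u := fun j u hu => by
    rw [rp, if_neg (by rwa [Finset.mem_singleton])]
  have hlt : ∀ j, rp {t} q l j t = l j q := fun j => by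
    rw [rp, if_pos (Finset.mem_singleton_self t)]
  have hcon : ∀ j ∈ J, ∀ u ∈ insert t Q, rp {t} q l j u = l j q := by
    intro j hj u hu
    rcases Finset.mem_insert.1 hu with h | h
    · rw [h, hlt]
    · rw [hl j u (fun h' => htQ (h' ▸ h))]
      exact hCs j hj u h q hqQ
  have hE1 : Es τ S J (rp {t} q l) ≤ Sy K n (insert t Q) := by
    refine iSup₂_le fun j hj => ?_
    refine (h2 K ι n τ S (rp {t} q l j)).2.1 _ (Finset.insert_subset htS hQS) ?_
    intro u hu u' hu'
    rw [hcon j hj u hu, hcon j hj u' hu']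
  have hE2 : Es τ S J (rp {t} q l) ≤
      Dp K n {t} * (Dp K n {q} * Es τ ((S.erase t).erase q) J l) := by
    refine iSup₂_le fun j hj => ?_
    obtain ⟨-, -, -, -, a5, -⟩ := h2 K ι n τ S (rp {t} q l j)
    obtain ⟨-, -, -, -, b5, -⟩ := h2 K ι n τ (S.erase t) (rp {t} q l j)
    obtain ⟨-, -, -, -, -, c6⟩ := h2 K ι n τ ((S.erase t).erase q) (rp {t} q l j)
    have e1 : Mo τ ((S.erase t).erase q) (rp {t} q l j) ≤ Es τ ((S.erase t).erase q) J l := by
      rw [c6 (l j) fun u hu => hl j u (Finset.ne_of_mem_erase (Finset.mem_of_mem_erase hu))]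
      exact le_iSup₂_of_le j hj le_rfl
    exact (a5 t htS).trans (sh_mul_mono ((b5 q hqSt).trans
      (sh_mul_mono e1)))
  have hZ : Es τ ((S.erase t).erase q) J l ≤ Dp K n ((Finset.univ.erase t).erase q) := by
    refine iSup₂_le fun j _ => ?_
    exact ((h2 K ι n τ ((S.erase t).erase q) (l j)).1).trans (sh_Dp_mono
      (Finset.erase_subset_erase _ (Finset.erase_subset_erase _ (Finset.subset_univ _))))
  have key := h1 K ι n (insert t Q) t q _ (Finset.mem_insert_self _ _)
    (Finset.mem_insert_of_mem hqQ) (Ne.symm hqt) hZ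
  rw [c1, Nat.add_sub_cancel] at key
  refine le_trans (Nat.mul_le_mul_left _ ?_) key
  exact Submodule.finrank_mono (le_inf hE1 hE2)

end Pool.Agent.Lib.MP_d01072_ag.CL
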