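import Pool.Agent.Lib.MP_d01072_ag.CL.Spec

/-!
MP_d01072_ag, package CL, module Sml (helper80): symmetric tensors of small rank.
-/

set_option autoImplicit false

namespace Pool.Agent.Lib.MP_d01072_ag.CL

/-- normalised proportional vectors are equal -/
private theorem nm_eq {K : Type} [Field K] {n : ℕ} {x y : Vc K n} (hx : Nm x) (hy : Nm y)
    (h : ∀ a b, x a * y b = x b * y a) : x = y := by
  obtain ⟨i, hi, hi'⟩ := hx
  obtain ⟨j, hj, hj'⟩ := hy
  have h1 : ∀ b, y b = x b * y i := by
    intro b
    have := h i b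
    rwa [hi, one_mul] at this
  have h2 : x j * y i = 1 := by rw [← h1 j, hj]
  have hxj : x j ≠ 0 := left_ne_zero_of_mul_eq_one h2
  have hyi : y i ≠ 0 := right_ne_zero_of_mul_eq_one h2
  have hij : i = j := by
    rcases lt_trichotomy i j with h3 | h3 | h3
    · exact absurd (hj' i h3) hyi
    · exact h3
    · exact absurd (hi' j h3) hxj
  subst hij
  funext b
  rw [h1 b, hj, mul_one]

/-- less summands -/
private theorem min_erase {K : Type} [Field K] {n d r : ℕ} (w : Fin (r + 1) → K)
    (l : Fin (r + 1) → Fin d → Vc K n)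
    (hmin : ∀ (r' : ℕ) (l' : Fin r' → Fin d → Vc K n), r' < r + 1 →
      ∑ j, pr Finset.univ (l' j) ≠ ∑ j, w j • pr Finset.univ (l j))
    (t : Fin d) (k : Fin (r + 1)) (c : Fin (r + 1) → K)
    (hk : ∀ i : Fin d → Fin (n + 1), w k * ((∏ u ∈ Finset.univ.erase t, l k u (i u)) -
      ∑ m, c (k.succAbove m) * ∏ u ∈ Finset.univ.erase t, l (k.succAbove m) u (i u)) = 0) :
    False := by
  classical
  refine hmin r (fun m => Function.update (l (k.succAbove m)) t
    (w (k.succAbove m) • l (k.succAbove m) t + (w k * c (k.succAbove m)) • l k t)) (by omega) ?_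
  funext i
  rw [Fin.sum_univ_succAbove (fun j => w j • pr Finset.univ (l j)) k]
  have hprod : ∀ x : Fin d → Vc K n, pr Finset.univ x i =
      x t (i t) * ∏ u ∈ Finset.univ.erase t, x u (i u) := by
    intro x
    exact (Finset.mul_prod_erase Finset.univ (fun u => x u (i u)) (Finset.mem_univ t)).symm
  have hup : ∀ (x : Fin d → Vc K n) (v : Vc K n), pr Finset.univ (Function.update x t v) i =
      v (i t) * ∏ u ∈ Finset.univ.erase t, x u (i u) := by
    intro x v
    rw [hprod, Function.update_self]
    congr 1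
    refine Finset.prod_congr rfl fun u hu => ?_
    rw [Function.update_of_ne (Finset.ne_of_mem_erase hu)]
  simp only [Finset.sum_apply, Pi.add_apply, Pi.smul_apply, smul_eq_mul, hup]
  rw [hprod (l k)]
  simp only [hprod]
  have h1 := hk i
  have h2 : w k * ∏ u ∈ Finset.univ.erase t, l k u (i u) =
      ∑ m, w k * (c (k.succAbove m) *
        ∏ u ∈ Finset.univ.erase t, l (k.succAbove m) u (i u)) := by
    rw [← Finset.mul_sum]
    linear_combination h1
  have h3 : w k * (l k t (i t) * ∏ u ∈ Finset.univ.erase t, l k u (i u)) =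
      ∑ m, l k t (i t) * (w k * (c (k.succAbove m) *
        ∏ u ∈ Finset.univ.erase t, l (k.succAbove m) u (i u))) := by
    rw [← Finset.mul_sum, ← h2]
    ring
  rw [h3, ← Finset.sum_add_distrib]
  refine Finset.sum_congr rfl fun m _ => ?_
  ring

/-- constant outside `A` -/
private theorem const_out {K : Type} [Field K] {n d r : ℕ} (w : Fin r → K)
    (l : Fin r → Fin d → Vc K n) (hNm : ∀ j t, Nm (l j t))
    (hsym : (∑ j, w j • pr Finset.univ (l j)) ∈ Sy K n (Finset.univ : Finset (Fin d)))
    (A : Finset (Fin d)) (hli : LinearIndependent K (fun j => pr A (l j))) (j : Fin r)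
    (hw : w j ≠ 0) (t t' : Fin d) (ht : t ∉ A) (ht' : t' ∉ A) : l j t = l j t' := by
  classical
  by_cases htt : t = t'
  · rw [htt]
  -- the functional
  obtain ⟨φ, hφ⟩ : ∃ φ : ((Fin d → Fin (n + 1)) → K) →ₗ[K] K,
      ∀ k, φ (pr A (l k)) = if k = j then 1 else 0 := by
    have hker : LinearMap.ker (Fintype.linearCombination K (fun k => pr A (l k))) = ⊥ := by
      rw [LinearMap.ker_eq_bot']
      intro c hc
      rw [Fintype.linearCombination_apply] at hc
      funext k
      exact Fintype.linearIndependent_iff.1 hli c hc k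
    obtain ⟨g, hg⟩ := LinearMap.exists_leftInverse_of_injective _ hker
    refine ⟨(LinearMap.proj j).comp g, fun k => ?_⟩
    have h1 : g (pr A (l k)) = Pi.single k 1 := by
      have h2 := LinearMap.congr_fun hg (Pi.single k (1 : K))
      rw [LinearMap.comp_apply, Fintype.linearCombination_apply_single, one_smul] at h2
      exact h2
    rw [LinearMap.comp_apply, h1, LinearMap.proj_apply, Pi.single_apply]
    by_cases h : j = k
    · rw [if_pos h, if_pos h.symm]
    · rw [if_neg h, if_neg (fun h' => h h'.symm)]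
  let g0 : (Fin d → Fin (n + 1)) → K := fun i => φ (fun i' => if i = i' then 1 else 0)
  have hg0 : ∀ k, ∑ i, pr A (l k) i * g0 i = if k = j then 1 else 0 := by
    intro k
    rw [← hφ k, LinearMap.pi_apply_eq_sum_univ φ (pr A (l k))]
    simp only [smul_eq_mul, g0]
  let T : Tn K (Fin d) n := ∑ k, w k • pr Finset.univ (l k)
  let mg : (Fin d → Fin (n + 1)) → (Fin d → Fin (n + 1)) → (Fin d → Fin (n + 1)) :=
    fun i i' u => if u ∈ A then i u else i' u
  have hT : ∀ i i', T (mg i i') = ∑ k, w k * (pr A (l k) i * pr Aᶜ (l k) i') := by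
    intro i i'
    simp only [T, Finset.sum_apply, Pi.smul_apply, smul_eq_mul]
    refine Finset.sum_congr rfl fun k _ => ?_
    congr 1
    simp only [pr]
    rw [← Finset.prod_mul_prod_compl A (fun u => l k u (mg i i' u))]
    congr 1
    · refine Finset.prod_congr rfl fun u hu => ?_
      simp only [mg, if_pos hu]
    · refine Finset.prod_congr rfl fun u hu => ?_
      simp only [mg, if_neg (Finset.mem_compl.1 hu)]
  have hφT : ∀ i', ∑ i, g0 i * T (mg i i') = w j * pr Aᶜ (l j) i' := by
    intro i'
    simp only [hT]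
    have h1 : ∑ i, g0 i * ∑ k, w k * (pr A (l k) i * pr Aᶜ (l k) i') =
        ∑ k, w k * pr Aᶜ (l k) i' * ∑ i, pr A (l k) i * g0 i := by
      simp only [Finset.mul_sum]
      rw [Finset.sum_comm]
      refine Finset.sum_congr rfl fun k _ => Finset.sum_congr rfl fun i _ => ?_
      ring
    rw [h1]
    simp only [hg0, mul_ite, mul_one, mul_zero, Finset.sum_ite_eq', Finset.mem_univ, if_true]
  have hTs : ∀ i : Fin d → Fin (n + 1), T (fun u => i (Equiv.swap t t' u)) = T i :=
    fun i => hsym t (Finset.mem_univ t) t' (Finset.mem_univ t') i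
  have hmg : ∀ i i', mg i (fun u => i' (Equiv.swap t t' u)) =
      fun u => mg i i' (Equiv.swap t t' u) := by
    intro i i'
    funext u
    by_cases hu : u ∈ A
    · have h1 : u ≠ t := by
        rintro rfl
        exact ht hu
      have h2 : u ≠ t' := by
        rintro rfl
        exact ht' hu
      rw [Equiv.swap_apply_of_ne_of_ne h1 h2]
      simp only [mg, if_pos hu]
    · have h3 : Equiv.swap t t' u ∉ A := by
        by_cases h1 : u = t
        · subst h1
          rw [Equiv.swap_apply_left]
          exact ht'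
        · by_cases h2 : u = t'
          · subst h2
            rw [Equiv.swap_apply_right]
            exact ht
          · rw [Equiv.swap_apply_of_ne_of_ne h1 h2]
            exact hu
      simp only [mg, if_neg hu, if_neg h3]
  have hQ : ∀ i' : Fin d → Fin (n + 1),
      pr Aᶜ (l j) (fun u => i' (Equiv.swap t t' u)) = pr Aᶜ (l j) i' := by
    intro i'
    apply mul_left_cancel₀ hw
    rw [← hφT, ← hφT]
    refine Finset.sum_congr rfl fun i _ => ?_
    rw [hmg, hTs]
  -- evaluate
  choose p hp _ using hNm j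
  have hval : ∀ i' : Fin d → Fin (n + 1), (∀ u, u ≠ t → u ≠ t' → i' u = p u) →
      pr Aᶜ (l j) i' = l j t (i' t) * l j t' (i' t') := by
    intro i' hi'
    refine Finset.prod_eq_mul t t' htt ?_ ?_ ?_
    · intro u _ hu
      rw [hi' u hu.1 hu.2]
      exact hp u
    · intro h
      exact absurd (Finset.mem_compl.2 ht) h
    · intro h
      exact absurd (Finset.mem_compl.2 ht') h
  apply nm_eq (hNm j t) (hNm j t')
  intro a b
  have hn' : t' ≠ t := fun h => htt h.symm
  let i' : Fin d → Fin (n + 1) := fun u => if u = t then a else if u = t' then b else p u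
  have hi1 : i' t = a := by simp [i']
  have hi2 : i' t' = b := by simp [i', hn']
  have hi3 : ∀ u, u ≠ t → u ≠ t' → i' u = p u := by
    intro u h1 h2
    simp [i', h1, h2]
  have e1 := hval i' hi3
  have e2 := hval (fun u => i' (Equiv.swap t t' u)) (by
    intro u h1 h2
    rw [Equiv.swap_apply_of_ne_of_ne h1 h2]
    exact hi3 u h1 h2)
  rw [hQ i', e1] at e2
  simp only [Equiv.swap_apply_left, Equiv.swap_apply_right, hi1, hi2] at e2
  exact e2

theorem t_Sml (h1 : S_Idp) : S_Sml := by
  intro K _ _ n d r w l hd hNm hsym hmin j t t'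
  classical
  have hr : 1 ≤ r := Nat.succ_le_of_lt (lt_of_le_of_lt (Nat.zero_le _) j.isLt)
  obtain ⟨s, rfl⟩ : ∃ s, r = s + 1 := ⟨r - 1, by omega⟩
  have hli : ∀ t : Fin d, LinearIndependent K (fun j => pr (Finset.univ.erase t) (l j)) := by
    intro t
    by_contra hcon
    obtain ⟨c, hc, k, hck⟩ := Fintype.not_linearIndependent_iff.1 hcon
    refine min_erase w l hmin t k (fun j => -(c j / c k)) ?_
    intro i
    have h2 : ∑ j, c j * ∏ u ∈ Finset.univ.erase t, l j u (i u) = 0 := by
      have h3 := congrFun hc i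
      simpa [Finset.sum_apply, pr] using h3
    rw [Fin.sum_univ_succAbove _ k] at h2
    have h4 : (∏ u ∈ Finset.univ.erase t, l k u (i u)) =
        ∑ m, -(c (k.succAbove m) / c k) *
          ∏ u ∈ Finset.univ.erase t, l (k.succAbove m) u (i u) := by
      have h5 : ∑ m, -(c (k.succAbove m) / c k) *
          ∏ u ∈ Finset.univ.erase t, l (k.succAbove m) u (i u) =
          -(∑ m, c (k.succAbove m) *
            ∏ u ∈ Finset.univ.erase t, l (k.succAbove m) u (i u)) / c k := by
        rw [neg_div, Finset.sum_div, ← Finset.sum_neg_distrib]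
        refine Finset.sum_congr rfl fun m _ => ?_
        ring
      rw [h5, eq_div_iff hck]
      linear_combination h2
    rw [← h4, sub_self, mul_zero]
  have hw : w j ≠ 0 := by
    intro h0
    refine min_erase w l hmin t j 0 ?_
    intro i
    rw [h0, zero_mul]
  obtain ⟨A, hA, hAc, hAl⟩ := h1 K n d (s + 1) (Finset.univ.erase t) l hr hNm (hli t)
  obtain ⟨A', hA', hAc', hAl'⟩ := h1 K n d (s + 1) (Finset.univ.erase t') l hr hNm (hli t')
  have htA : t ∉ A := fun h => (Finset.mem_erase.1 (hA h)).1 rfl
  have htA' : t' ∉ A' := fun h => (Finset.mem_erase.1 (hA' h)).1 rfl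
  obtain ⟨u, hu⟩ : ∃ u : Fin d, u ∉ A ∪ A' := by
    by_contra hcon
    push Not at hcon
    have h3 : (Finset.univ : Finset (Fin d)) ⊆ A ∪ A' := fun u _ => hcon u
    have h4 := Finset.card_le_card h3
    have h5 := Finset.card_union_le A A'
    rw [Finset.card_univ, Fintype.card_fin] at h4
    omega
  rw [Finset.mem_union, not_or] at hu
  have e1 := const_out w l hNm hsym A hAl j hw t u htA hu.1
  have e2 := const_out w l hNm hsym A' hAl' j hw t' u htA' hu.2
  rw [e1, e2]

end Pool.Agent.Lib.MP_d01072_ag.CL
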