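import Pool.Agent.Lib.MP_d01072_ag.CL.Spec

/-!
MP_d01072_ag, package CL: the module Sof (the soft argument).
-/

set_option autoImplicit false

namespace Pool.Agent.Lib.MP_d01072_ag.CL

private lemma gd_mono {n q : ℕ} {c d : ℝ} (h : c ≤ d) (hc : Gd n q c) : Gd n q d := by
  intro η hη
  obtain ⟨M, s₀, hM⟩ := hc η hη
  refine ⟨M, s₀, ?_⟩
  intro K ι α _ _ _ _ S Q J l h1 h2 h3 h4 h5 h6
  refine (hM K ι α S Q J l h1 h2 h3 h4 h5 h6).trans ?_
  exact mul_le_mul_of_nonneg_right (by linarith) (Nat.cast_nonneg _)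

private lemma soft (G : ℕ → ℝ → Prop) (hmono : ∀ q c d, c ≤ d → G q c → G q d)
    (m1 : ∀ q, G q 1) (m2 : ∀ q c, G q c → G (q + 1) c) (m3 : ∀ c, G 1 c → G 0 c)
    (m4 : ∀ q c, (∀ c', c < c' → G q c') → G q c) (m5 : ∀ η : ℝ, 0 < η → ∃ k, G k η)
    (s1 : ∀ q c' c'', 0 < c' → 0 ≤ c'' → G q c' → G (q + 2) c'' →
      G (q + 1) (c' * (1 + c'') / (1 + c'))) : G 0 0 := by
  set A : ℕ → Set ℝ := fun q => {c | 0 ≤ c ∧ G q c} with hA
  set c : ℕ → ℝ := fun q => sInf (A q) with hc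
  have hbdd : ∀ q, BddBelow (A q) := fun q => ⟨0, fun x hx => hx.1⟩
  have hne : ∀ q, (A q).Nonempty := fun q => ⟨1, zero_le_one, m1 q⟩
  have hc0 : ∀ q, 0 ≤ c q := fun q => le_csInf (hne q) fun x hx => hx.1
  have hle : ∀ q x, 0 ≤ x → G q x → c q ≤ x := fun q x hx hG => csInf_le (hbdd q) ⟨hx, hG⟩
  have hG : ∀ q, G q (c q) := by
    intro q
    refine m4 q _ fun c' hc' => ?_
    obtain ⟨a, ha, hac⟩ := (csInf_lt_iff (hbdd q) (hne q)).1 hc'
    exact hmono q a c' hac.le ha.2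
  have hdec : ∀ q, c (q + 1) ≤ c q := fun q => hle _ _ (hc0 q) (m2 q _ (hG q))
  have h01 : c 0 ≤ c 1 := hle 0 _ (hc0 1) (m3 _ (hG 1))
  rcases (hc0 0).lt_or_eq with hpos | hz
  · exfalso
    have key : ∀ q, c q = c 0 ∧ c (q + 1) = c 0 := by
      intro q
      induction q with
      | zero => exact ⟨rfl, le_antisymm (hdec 0) h01⟩
      | succ q ih =>
        refine ⟨ih.2, le_antisymm ((hdec (q + 1)).trans ih.2.le) ?_⟩
        have hq : 0 < c q := by rw [ih.1]; exact hpos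
        have h1 := s1 q (c q) (c (q + 2)) hq (hc0 _) (hG q) (hG (q + 2))
        have h2 : c (q + 1) ≤ c q * (1 + c (q + 2)) / (1 + c q) :=
          hle _ _ (by have := hc0 (q + 2); positivity) h1
        rw [ih.1, ih.2, le_div_iff₀ (by linarith)] at h2
        have h3 : 1 + c 0 ≤ 1 + c (q + 2) := le_of_mul_le_mul_left h2 hpos
        change c 0 ≤ c (q + 2)
        linarith
    obtain ⟨k, hk⟩ := m5 (c 0 / 2) (by linarith)
    have h1 := hle k _ (by linarith) hk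
    rw [(key k).1] at h1
    linarith
  · have h := hG 0
    rwa [← hz] at h

theorem t_Sof (h1 : S_GdS) (h2 : S_GdM) : S_Sof := by
  intro n
  exact soft (Gd n) (fun q c d h hc => gd_mono h hc) (fun q => (h2 n q).1)
    (fun q => (h2 n q).2.1) (h2 n 0).2.2.1 (fun q => (h2 n q).2.2.2.1) (h2 n 0).2.2.2.2
    (fun q c' c'' hc' hc'' => (h1 n q c' c'' hc' hc'').1)

end Pool.Agent.Lib.MP_d01072_ag.CL
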