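import Pool.Agent.Lib.MP_d01072_ag.CL.Spec

/-!
MP_d01072_ag, package CL, module Spl: splitting of the slots.
-/

set_option autoImplicit false

namespace Pool.Agent.Lib.MP_d01072_ag.CL

private theorem dim_inf_sup {K V : Type} [Field K] [AddCommGroup V] [Module K V]
    [FiniteDimensional K V] (Y Z₁ Z₂ : Submodule K V) :
    Module.finrank K (Y ⊓ (Z₁ ⊔ Z₂) : Submodule K V) ≤
      Module.finrank K Z₁ + Module.finrank K (Y ⊓ Z₂ : Submodule K V) := by
  have e1 := Submodule.finrank_sup_add_finrank_inf_eq (Y ⊓ (Z₁ ⊔ Z₂)) Z₂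
  have e2 : Module.finrank K ((Y ⊓ (Z₁ ⊔ Z₂)) ⊔ Z₂ : Submodule K V) ≤
      Module.finrank K (Z₁ ⊔ Z₂ : Submodule K V) :=
    Submodule.finrank_mono (sup_le inf_le_right le_sup_right)
  have e3 : Module.finrank K ((Y ⊓ (Z₁ ⊔ Z₂)) ⊓ Z₂ : Submodule K V) ≤
      Module.finrank K (Y ⊓ Z₂ : Submodule K V) :=
    Submodule.finrank_mono (inf_le_inf_right _ inf_le_left)
  have e4 := Submodule.finrank_add_le_finrank_add_finrank Z₁ Z₂
  have e5 : Module.finrank K (Z₁ ⊔ Z₂ : Submodule K V) ≤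
    Module.finrank K Z₁ + Module.finrank K Z₂ := e4
  omega

private theorem dim_Es (h3 : S_CtB) {K ι α : Type} [Field K] [Fintype ι] [DecidableEq ι] {n : ℕ}
    (S : Finset ι) (J : Finset α) (l : α → ι → Vc K n) :
    Module.finrank K (Es false S J l) ≤ J.card := by
  classical
  induction J using Finset.induction_on with
  | empty =>
    have : Es false S (∅ : Finset α) l = ⊥ := by simp [Es]
    rw [this]
    simp
  | insert a J ha ih =>
    have e1 : Es false S (insert a J) l = Mo false S (l a) ⊔ Es false S J l := by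
      unfold Es
      rw [Finset.iSup_insert]
    have e2 : Module.finrank K (Mo false S (l a) ⊔ Es false S J l : Submodule K (Tn K ι n)) ≤
        Module.finrank K (Mo false S (l a)) + Module.finrank K (Es false S J l) :=
      Submodule.finrank_add_le_finrank_add_finrank _ _
    have e3 := (h3 K ι n false S (l a)).2.2.2.2.2.1
    rw [e1, Finset.card_insert_of_notMem ha]
    omega

theorem t_Spl (h1 : S_U3) (h2 : S_CtA) (h3 : S_CtB) : S_Spl := by
  classical
  intro K ι α _ _ _ n P Jm Jf l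
  set S : Finset ι := Finset.univ \ P with hS
  set A : Submodule K (Tn K ι n) := Es false P Jm l with hA
  set Z₁ : Submodule K (Tn K ι n) := Es false S Jm l with hZ₁
  set Z₂ : Submodule K (Tn K ι n) := Es true S Jf l with hZ₂
  have hAD : A ≤ Dp K n P := iSup₂_le fun j _ => (h2 K ι n false P (l j)).1
  have hZD : Z₁ ⊔ Z₂ ≤ Dp K n S :=
    sup_le (iSup₂_le fun j _ => (h2 K ι n false S (l j)).1)
      (iSup₂_le fun j _ => (h2 K ι n true S (l j)).1)
  have hsub : (P : Finset ι) ⊆ Finset.univ := Finset.subset_univ P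
  have hU := h1 K ι n Finset.univ P A (Z₁ ⊔ Z₂) hsub hAD hZD
  have hle : ∀ J : Finset α, (∀ j ∈ J, j ∈ Jm ∨ j ∈ Jf) →
      Es true Finset.univ J l ≤ A * Dp K n S ⊔ Dp K n P * (Z₁ ⊔ Z₂) := by
    intro J hJ
    refine iSup₂_le fun j hj => ?_
    rcases hJ j hj with hj | hj
    · refine ((h3 K ι n true Finset.univ (l j)).2.2.2.2.1 P hsub).trans (sup_le_sup ?_ ?_)
      · exact mul_le_mul' (le_iSup₂ (f := fun j (_ : j ∈ Jm) => Mo false P (l j)) j hj) le_rfl
      · refine mul_le_mul' le_rfl (le_sup_of_le_left ?_)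
        exact le_iSup₂ (f := fun j (_ : j ∈ Jm) => Mo false S (l j)) j hj
    · refine ((h3 K ι n true Finset.univ (l j)).2.2.2.1 P hsub).trans (le_sup_of_le_right ?_)
      refine mul_le_mul' le_rfl (le_sup_of_le_right ?_)
      exact le_iSup₂ (f := fun j (_ : j ∈ Jf) => Mo true S (l j)) j hj
  have hyy : ∀ J : Finset α, (∀ j ∈ J, j ∈ Jm ∨ j ∈ Jf) → yy true Finset.univ J l ≤
      Module.finrank K (Sy K n Finset.univ ⊓ (A * Dp K n S ⊔ Dp K n P * (Z₁ ⊔ Z₂)) :
        Submodule K (Tn K ι n)) := fun J hJ =>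
    Submodule.finrank_mono (inf_le_inf_left _ (hle J hJ))
  have hZ : Module.finrank K (Sy K n S ⊓ (Z₁ ⊔ Z₂) : Submodule K (Tn K ι n)) ≤
      Jm.card + yy true S Jf l :=
    (dim_inf_sup _ _ _).trans (Nat.add_le_add_right (dim_Es h3 S Jm l) _)
  have hcard : (Finset.univ : Finset ι).card = Fintype.card ι := rfl
  refine (Nat.mul_le_mul_right _ (hyy _ fun j hj => Finset.mem_union.1 hj)).trans ?_
  refine hU.trans ?_
  rw [hcard]
  refine Nat.mul_le_mul_left _ (Nat.add_le_add (Nat.mul_le_mul_left _ hZ) le_rfl)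

end Pool.Agent.Lib.MP_d01072_ag.CL
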