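import Pool.Agent.Lib.MP_d01072_ag.CL.Spec

/-!
# Most transversals meet all chunks
-/

set_option autoImplicit false

namespace Pool.Agent.Lib.MP_d01072_ag.CL

open Finset

private theorem chunks {α : Type} [DecidableEq α] (w : ℕ) : ∀ (m : ℕ) (G : Finset α),
    m * w ≤ G.card → ∃ C : Fin m → Finset α, (∀ i, C i ⊆ G) ∧ (∀ i, (C i).card = w) ∧
      ∀ i j, i ≠ j → Disjoint (C i) (C j) := by
  intro m
  induction m with
  | zero =>
    intro G _
    exact ⟨fun i => i.elim0, fun i => i.elim0, fun i => i.elim0, fun i => i.elim0⟩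
  | succ m ih =>
    intro G hG
    have hw : w ≤ G.card := by
      rw [Nat.succ_mul] at hG
      omega
    obtain ⟨D, hD, hDc⟩ := Finset.exists_subset_card_eq hw
    have h1 : m * w ≤ (G \ D).card := by
      rw [card_sdiff_of_subset hD, hDc]
      rw [Nat.succ_mul] at hG
      omega
    obtain ⟨C, hC1, hC2, hC3⟩ := ih (G \ D) h1
    have hdis : ∀ i, Disjoint D (C i) := fun i =>
      Finset.disjoint_of_subset_right (hC1 i) Finset.disjoint_sdiff
    refine ⟨Fin.cons D C, ?_, ?_, ?_⟩
    · intro i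
      refine Fin.cases ?_ (fun i => ?_) i
      · simpa using hD
      · simpa using (hC1 i).trans sdiff_subset
    · intro i
      refine Fin.cases ?_ (fun i => ?_) i
      · simpa using hDc
      · simpa using hC2 i
    · intro i j
      refine Fin.cases ?_ (fun i => ?_) i <;> refine Fin.cases ?_ (fun j => ?_) j
      · intro h
        exact absurd rfl h
      · intro _
        simpa using hdis j
      · intro _
        simpa using (hdis i).symm
      · intro h
        simpa using hC3 i j (fun h' => h (by rw [h']))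

private theorem blk {d p B : ℕ} (hdp : d < (p + 1) * B) (G : Finset (Fin d)) :
    G.card ≤ (G.filter fun t : Fin d => (t : ℕ) < p * B).card + B := by
  have h1 := G.card_filter_add_card_filter_not (fun t : Fin d => (t : ℕ) < p * B)
  have h2 : (G.filter fun t : Fin d => ¬ (t : ℕ) < p * B).card ≤ (Ico (p * B) d).card := by
    refine card_le_card_of_injOn (fun t : Fin d => (t : ℕ)) ?_ ?_
    · intro t ht
      rw [mem_coe, mem_filter] at ht
      rw [mem_coe, mem_Ico]
      exact ⟨not_lt.mp ht.2, t.2⟩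
    · intro s _ t _ h
      exact Fin.ext h
  rw [Nat.card_Ico] at h2
  have h3 : (p + 1) * B = p * B + B := by ring
  omega

private theorem bad_sub {d p B m : ℕ} {β : Type} (g : Fin d → β) (T : Set β)
    (C1 C2 : Fin m → Finset (Fin d)) (h1 : ∀ i, ∀ t ∈ C1 i, g t ∈ T)
    (h2 : ∀ i, ∀ t ∈ C2 i, g t ∉ T) (d1 : ∀ i j, i ≠ j → Disjoint (C1 i) (C1 j))
    (d2 : ∀ i j, i ≠ j → Disjoint (C2 i) (C2 j)) (c : Fin p → Fin B) (v : β)
    (F : Finset (Fin d)) (hF : ∀ t, t ∈ F ↔ t ∈ Pc (d := d) c ∧ g t ≠ v) (hlt : F.card < m) :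
    (∃ i, Disjoint (C1 i) (Pc c)) ∨ ∃ i, Disjoint (C2 i) (Pc c) := by
  classical
  by_contra hcon
  push Not at hcon
  obtain ⟨n1, n2⟩ := hcon
  have core : ∀ C : Fin m → Finset (Fin d), (∀ i, ∀ t ∈ C i, g t ≠ v) →
      (∀ i j, i ≠ j → Disjoint (C i) (C j)) → (∀ i, ¬ Disjoint (C i) (Pc c)) → False := by
    intro C hC hd hn
    have hex : ∀ i, ∃ t, t ∈ C i ∧ t ∈ Pc (d := d) c := by
      intro i
      have := hn i
      rw [Finset.not_disjoint_iff] at this
      exact this
    choose f hf1 hf2 using hex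
    have hcard : (univ : Finset (Fin m)).card ≤ F.card := by
      refine card_le_card_of_injOn f ?_ ?_
      · intro i _
        rw [mem_coe, hF]
        exact ⟨hf2 i, hC i _ (hf1 i)⟩
      · intro i _ j _ h
        by_contra hij
        have := hd i j hij
        rw [Finset.disjoint_left] at this
        exact this (hf1 i) (by rw [h]; exact hf1 j)
    rw [card_univ, Fintype.card_fin] at hcard
    omega
  by_cases hv : v ∈ T
  · refine core C2 (fun i t ht h => h2 i t ht ?_) d2 n2
    rw [h]
    exact hv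
  · refine core C1 (fun i t ht h => hv ?_) d1 n1
    rw [← h]
    exact h1 i t ht

private theorem filter_card_eq {α : Type} (s : Finset α) (P : α → Prop) (i1 i2 : DecidablePred P) :
    (@Finset.filter α P i1 s).card = (@Finset.filter α P i2 s).card := by
  congr

theorem t_TrM (h1 : S_Grp) (h2 : S_Trv) : S_TrM := by
  classical
  intro d p B m w β g hB hpd hdp hm hw h4 hv
  obtain ⟨T, hT1, hT2⟩ := h1 (Fin d) β Finset.univ g (m * w + B) (by omega)
    (by rw [card_univ, Fintype.card_fin]; exact h4) hv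
  obtain ⟨-, -, h3⟩ := h2 d p B hB hpd
  have hG1 := blk hdp (Finset.univ.filter fun t : Fin d => g t ∈ T)
  have hG2 := blk hdp (Finset.univ.filter fun t : Fin d => g t ∉ T)
  set G1 := (Finset.univ.filter fun t : Fin d => g t ∈ T).filter
    (fun t : Fin d => (t : ℕ) < p * B) with hG1d
  set G2 := (Finset.univ.filter fun t : Fin d => g t ∉ T).filter
    (fun t : Fin d => (t : ℕ) < p * B) with hG2d
  have e1 : m * w ≤ G1.card := by
    have : m * w + B ≤ G1.card + B := le_trans (le_trans hT1 (le_of_eq (filter_card_eq _ _ _ _))) hG1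
    omega
  have e2 : m * w ≤ G2.card := by
    have : m * w + B ≤ G2.card + B := le_trans (le_trans hT2 (le_of_eq (filter_card_eq _ _ _ _))) hG2
    omega
  obtain ⟨C1, a1, a2, a3⟩ := chunks w m G1 e1
  obtain ⟨C2, b1, b2, b3⟩ := chunks w m G2 e2
  have m1 : ∀ i, ∀ t ∈ C1 i, g t ∈ T ∧ (t : ℕ) < p * B := by
    intro i t ht
    have := a1 i ht
    rw [hG1d, mem_filter, mem_filter] at this
    exact ⟨this.1.2, this.2⟩
  have m2 : ∀ i, ∀ t ∈ C2 i, g t ∉ T ∧ (t : ℕ) < p * B := by
    intro i t ht
    have := b1 i ht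
    rw [hG2d, mem_filter, mem_filter] at this
    exact ⟨this.1.2, this.2⟩
  -- union bound
  have hU : ∀ A : Finset (Fin p → Fin B), (∀ c ∈ A, ∃ v, ∃ F : Finset (Fin d),
      (∀ t, t ∈ F ↔ t ∈ Pc (d := d) c ∧ g t ≠ v) ∧ F.card < m) →
      A.card * B ^ w ≤ 2 * m * ((B - 1) ^ w * B ^ p) := by
    intro A hA
    have hsub : A ⊆ (univ : Finset (Fin m)).biUnion (fun i =>
        (univ.filter fun c : Fin p → Fin B => Disjoint (C1 i) (Pc c)) ∪
        (univ.filter fun c : Fin p → Fin B => Disjoint (C2 i) (Pc c))) := by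
      intro c hc
      obtain ⟨v, F, hF, hlt⟩ := hA c hc
      rw [mem_biUnion]
      rcases bad_sub g T C1 C2 (fun i t ht => (m1 i t ht).1) (fun i t ht => (m2 i t ht).1) a3 b3 c v
        F hF hlt with ⟨i, hi⟩ | ⟨i, hi⟩
      · exact ⟨i, mem_univ i, mem_union_left _ (by rw [mem_filter]; exact ⟨mem_univ _, hi⟩)⟩
      · exact ⟨i, mem_univ i, mem_union_right _ (by rw [mem_filter]; exact ⟨mem_univ _, hi⟩)⟩
    have hchunk : ∀ G : Finset (Fin d), G.card = w → (∀ t ∈ G, (t : ℕ) < p * B) →
        (univ.filter fun c : Fin p → Fin B => Disjoint G (Pc c)).card * B ^ w ≤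
          (B - 1) ^ w * B ^ p := by
      intro G hGc hG
      have := h3 G hG
      rw [hGc] at this
      exact le_trans (le_of_eq (congrArg (· * B ^ w) (filter_card_eq _ _ _ _))) this
    calc A.card * B ^ w
        ≤ (∑ i : Fin m, ((univ.filter fun c : Fin p → Fin B => Disjoint (C1 i) (Pc c)) ∪
            (univ.filter fun c : Fin p → Fin B => Disjoint (C2 i) (Pc c))).card) * B ^ w :=
          Nat.mul_le_mul_right _ (le_trans (card_le_card hsub) card_biUnion_le)
      _ ≤ (∑ i : Fin m, ((univ.filter fun c : Fin p → Fin B => Disjoint (C1 i) (Pc c)).card +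
            (univ.filter fun c : Fin p → Fin B => Disjoint (C2 i) (Pc c)).card)) * B ^ w :=
          Nat.mul_le_mul_right _ (sum_le_sum fun i _ => card_union_le _ _)
      _ = ∑ i : Fin m, ((univ.filter fun c : Fin p → Fin B => Disjoint (C1 i) (Pc c)).card * B ^ w +
            (univ.filter fun c : Fin p → Fin B => Disjoint (C2 i) (Pc c)).card * B ^ w) := by
          rw [sum_mul]
          exact sum_congr rfl fun i _ => by ring
      _ ≤ ∑ _i : Fin m, ((B - 1) ^ w * B ^ p + (B - 1) ^ w * B ^ p) :=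
          sum_le_sum fun i _ => add_le_add
            (hchunk _ (a2 i) fun t ht => (m1 i t ht).2) (hchunk _ (b2 i) fun t ht => (m2 i t ht).2)
      _ = 2 * m * ((B - 1) ^ w * B ^ p) := by
          rw [sum_const, card_univ, Fintype.card_fin, smul_eq_mul]
          ring
  refine hU _ ?_
  intro c hc
  obtain ⟨v, hv'⟩ := (Finset.mem_filter.mp hc).2
  exact ⟨v, _, fun t => Finset.mem_filter, hv'⟩

end Pool.Agent.Lib.MP_d01072_ag.CL
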