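import Pool.Agent.Lib.MP_d01072_ag.CL.Spec

/-!
MP_d01072_ag, package CL, module Trv: transversals.
-/

set_option autoImplicit false

namespace Pool.Agent.Lib.MP_d01072_ag.CL

private theorem trv_bern (B : ℕ) (hB : 1 ≤ B) (g : ℕ) :
    (B - g) * B ^ g ≤ (B - 1) ^ g * B := by
  induction g with
  | zero => simp
  | succ g ih =>
    rcases le_or_gt B (g + 1) with h | h
    · have : B - (g + 1) = 0 := by omega
      rw [this, zero_mul]
      exact Nat.zero_le _
    · obtain ⟨k, rfl⟩ := Nat.exists_eq_add_of_lt h
      have e1 : g + 1 + k + 1 - (g + 1) = k + 1 := by omega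
      have e2 : g + 1 + k + 1 - 1 = g + k + 1 := by omega
      have e3 : g + 1 + k + 1 - g = k + 2 := by omega
      rw [e2, e3] at ih
      rw [e1, e2]
      have h1 : (k + 1) * (g + 1 + k + 1) ≤ (g + k + 1) * (k + 2) := by nlinarith
      calc (k + 1) * (g + 1 + k + 1) ^ (g + 1)
          = ((k + 1) * (g + 1 + k + 1)) * (g + 1 + k + 1) ^ g := by ring
        _ ≤ ((g + k + 1) * (k + 2)) * (g + 1 + k + 1) ^ g := Nat.mul_le_mul_right _ h1
        _ = (g + k + 1) * ((k + 2) * (g + 1 + k + 1) ^ g) := by ring
        _ ≤ (g + k + 1) * ((g + k + 1) ^ g * (g + 1 + k + 1)) := Nat.mul_le_mul_left _ ih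
        _ = _ := by ring

private theorem trv_div {B i b : ℕ} (hb : b < B) : (i * B + b) / B = i := by
  rw [mul_comm, Nat.mul_add_div (by omega), Nat.div_eq_of_lt hb, add_zero]

private theorem trv_lt {d p B : ℕ} (hpB : p * B ≤ d) (i : Fin p) (b : Fin B) :
    (i : ℕ) * B + b < d := by
  have h1 : ((i : ℕ) + 1) * B ≤ p * B := Nat.mul_le_mul_right _ i.2
  have h2 : (b : ℕ) < B := b.2
  rw [add_mul, one_mul] at h1
  omega

theorem t_Trv : S_Trv := by
  classical
  intro d p B hB hpB
  refine ⟨fun c => ?_, fun t => ?_, fun G hG => ?_⟩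
  · set e : Fin p → Fin d := fun i => ⟨(i : ℕ) * B + c i, trv_lt hpB i (c i)⟩ with he
    have hinj : Function.Injective e := by
      intro i j hij
      have h1 : (i : ℕ) * B + c i = (j : ℕ) * B + c j := congrArg Fin.val hij
      have h2 := congrArg (fun x => x / B) h1
      simp only [trv_div (c i).2, trv_div (c j).2] at h2
      exact Fin.ext h2
    have himg : (Pc c : Finset (Fin d)) = Finset.univ.image e := by
      ext t
      rw [Pc, Finset.mem_filter, Finset.mem_image]
      constructor
      · rintro ⟨-, i, hi⟩
        exact ⟨i, Finset.mem_univ _, Fin.ext hi.symm⟩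
      · rintro ⟨i, -, rfl⟩
        exact ⟨Finset.mem_univ _, i, rfl⟩
    rw [himg, Finset.card_image_of_injective _ hinj, Finset.card_univ, Fintype.card_fin]
  · rcases Nat.lt_or_ge ((t : ℕ) / B) p with ht | ht
    · set i : Fin p := ⟨(t : ℕ) / B, ht⟩ with hi
      set b : Fin B := ⟨(t : ℕ) % B, Nat.mod_lt _ hB⟩ with hb
      have hsub : (Finset.univ.filter fun c : Fin p → Fin B => t ∈ Pc c) ⊆
          Fintype.piFinset fun j : Fin p => if j = i then {b} else Finset.univ := by
        intro c hc
        have hc' := (Finset.mem_filter.1 hc).2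
        rw [Pc, Finset.mem_filter] at hc'
        obtain ⟨-, j, hj⟩ := hc'
        rw [Fintype.mem_piFinset]
        intro k
        by_cases hk : k = i
        · rw [if_pos hk, Finset.mem_singleton]
          have h1 : (t : ℕ) / B = j := by rw [hj, trv_div (c j).2]
          have h2 : j = i := Fin.ext h1.symm
          rw [hk, ← h2]
          apply Fin.ext
          show ((c j : Fin B) : ℕ) = (t : ℕ) % B
          rw [hj, mul_comm, Nat.mul_add_mod, Nat.mod_eq_of_lt (c j).2]
        · rw [if_neg hk]
          exact Finset.mem_univ _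
      have hcard := Finset.card_le_card hsub
      rw [Fintype.card_piFinset] at hcard
      have hprod : B * ∏ j : Fin p, (if j = i then ({b} : Finset (Fin B)) else Finset.univ).card =
          B ^ p := by
        rw [← Finset.mul_prod_erase Finset.univ _ (Finset.mem_univ i), if_pos rfl,
          Finset.card_singleton, one_mul]
        have h3 : ∏ j ∈ Finset.univ.erase i,
            (if j = i then ({b} : Finset (Fin B)) else Finset.univ).card =
            ∏ j ∈ (Finset.univ : Finset (Fin p)).erase i, B := by
          refine Finset.prod_congr rfl fun j hj => ?_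
          rw [if_neg (Finset.ne_of_mem_erase hj), Finset.card_univ, Fintype.card_fin]
        rw [h3, Finset.prod_const, Finset.card_erase_of_mem (Finset.mem_univ _), Finset.card_univ,
          Fintype.card_fin]
        have : p = (p - 1) + 1 := by omega
        conv_rhs => rw [this, pow_succ]
        rw [mul_comm]
      calc B * _ ≤ B * _ := Nat.mul_le_mul_left _ hcard
        _ = B ^ p := hprod
    · have h0 : (Finset.univ.filter fun c : Fin p → Fin B => t ∈ Pc c) = ∅ := by
        rw [Finset.filter_eq_empty_iff]
        intro c _ hc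
        rw [Pc, Finset.mem_filter] at hc
        obtain ⟨-, j, hj⟩ := hc
        have h1 : (t : ℕ) / B = j := by rw [hj, trv_div (c j).2]
        have := j.2
        omega
      rw [h0, Finset.card_empty, mul_zero]
      exact Nat.zero_le _
  · set s : Fin p → Finset (Fin B) := fun i =>
      Finset.univ.filter fun b => ∀ t ∈ G, (t : ℕ) ≠ (i : ℕ) * B + b with hs
    set g : Fin p → ℕ := fun i => (G.filter fun t : Fin d => (t : ℕ) / B = i).card with hg
    have hgs : ∀ i, (s i).card + g i = B := by
      intro i
      have h1 : (Finset.univ.filter fun b : Fin B => ¬ ∀ t ∈ G, (t : ℕ) ≠ (i : ℕ) * B + b).card =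
          g i := by
        symm
        refine Finset.card_bij (fun t _ => (⟨(t : ℕ) % B, Nat.mod_lt _ hB⟩ : Fin B)) ?_ ?_ ?_
        · intro t ht
          rw [Finset.mem_filter] at ht
          rw [Finset.mem_filter]
          refine ⟨Finset.mem_univ _, fun hcon => hcon t ht.1 ?_⟩
          show (t : ℕ) = (i : ℕ) * B + (t : ℕ) % B
          rw [← ht.2]
          exact (Nat.div_add_mod' (t : ℕ) B).symm
        · intro t ht t' ht' h
          rw [Finset.mem_filter] at ht ht'
          have h2 : (t : ℕ) % B = (t' : ℕ) % B := congrArg Fin.val h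
          apply Fin.ext
          rw [← Nat.div_add_mod' (t : ℕ) B, ← Nat.div_add_mod' (t' : ℕ) B, ht.2, ht'.2, h2]
        · intro b hb
          rw [Finset.mem_filter] at hb
          have hb2 := hb.2
          push Not at hb2
          obtain ⟨t, ht, htb⟩ := hb2
          refine ⟨t, Finset.mem_filter.2 ⟨ht, ?_⟩, ?_⟩
          · rw [htb, trv_div b.2]
          · apply Fin.ext
            show (t : ℕ) % B = b
            rw [htb, mul_comm, Nat.mul_add_mod, Nat.mod_eq_of_lt b.2]
      rw [← h1, hs]
      have h2 := Finset.card_filter_add_card_filter_not (s := (Finset.univ : Finset (Fin B)))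
        (fun b : Fin B => ∀ t ∈ G, (t : ℕ) ≠ (i : ℕ) * B + b)
      rw [Finset.card_univ, Fintype.card_fin] at h2
      exact h2
    have hGsum : ∑ i, g i = G.card := by
      have h1 : ∀ t ∈ G, (t : ℕ) / B < p := fun t ht => by
        rw [Nat.div_lt_iff_lt_mul hB]
        exact hG t ht
      rw [hg]
      have h2 := Finset.card_eq_sum_card_fiberwise (s := G) (t := Finset.range p)
        (f := fun t : Fin d => (t : ℕ) / B) (fun t ht => by
          rw [Finset.mem_coe, Finset.mem_range]
          exact h1 t ht)
      rw [h2, Finset.sum_range]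
    have hsub : (Finset.univ.filter fun c : Fin p → Fin B => Disjoint G (Pc c)) ⊆
        Fintype.piFinset s := by
      intro c hc
      have hc' := (Finset.mem_filter.1 hc).2
      rw [Fintype.mem_piFinset]
      intro i
      rw [hs, Finset.mem_filter]
      refine ⟨Finset.mem_univ _, fun t ht hcon => ?_⟩
      exact Finset.disjoint_left.1 hc' ht (by
        rw [Pc, Finset.mem_filter]
        exact ⟨Finset.mem_univ _, i, hcon⟩)
    have hcard := Finset.card_le_card hsub
    rw [Fintype.card_piFinset] at hcard
    calc _ ≤ (∏ i, (s i).card) * B ^ G.card := Nat.mul_le_mul_right _ hcard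
      _ = ∏ i, ((s i).card * B ^ g i) := by
          rw [Finset.prod_mul_distrib, Finset.prod_pow_eq_pow_sum, hGsum]
      _ ≤ ∏ i, ((B - 1) ^ g i * B) := by
          refine Finset.prod_le_prod' fun i _ => ?_
          have h1 : (s i).card = B - g i := by
            have := hgs i
            omega
          rw [h1]
          exact trv_bern B hB (g i)
      _ = (B - 1) ^ G.card * B ^ p := by
          rw [Finset.prod_mul_distrib, Finset.prod_pow_eq_pow_sum, hGsum, Finset.prod_const,
            Finset.card_univ, Fintype.card_fin]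

end Pool.Agent.Lib.MP_d01072_ag.CL
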