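import Pool.Agent.Lib.MP_d01072_ag.Bp.Spec

/-!
MP_d01072_ag, package CL: Comon's conjecture for general points of ALL secant varieties of ALL Veronese
varieties, ALL types (in particular the tensor rank), `d ≥ d_0(n)`. The proof in words is note 3858.
Definitions and the statements of all modules, as Props, with complete proofs in the docstrings. The
modules are independent: the module `Xxx` is the file `CL/Xxx.lean` (imports this file) with
`theorem t_Xxx (h1 : S_Yyy) … : S_Xxx`, where `S_Yyy, …` are the statements named in the docstring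
(`uses …`). Auxiliary lemmas private.

All tensors live in one space: `Tn K ι n` = functions on `ι → Fin (n + 1)`; `ι` = all slots. A tensor on
the slots `S` is a function which depends only on the coordinates in `S` (`Dp S`). The tensor product of
tensors on disjoint sets of slots is the pointwise product (`Tn` is a commutative ring, and products of
subspaces are the products of `Submodule K (Tn K ι n)`). A family of rank-one tensors is a finite set `J` of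
indices and `l : α → ι → (Fin (n + 1) → K)`. All vectors are normalised (`Nm`), so proportional vectors
are equal.
-/

set_option autoImplicit false

namespace Pool.Agent.Lib.MP_d01072_ag.CL

open MvPolynomial

/-! ## Definitions -/

/-- tensors with the slots `ι` -/
abbrev Tn (K ι : Type) (n : ℕ) : Type := (ι → Fin (n + 1)) → K

/-- vectors -/
abbrev Vc (K : Type) (n : ℕ) : Type := Fin (n + 1) → K

/-- `C(s + n, n)`, the dimension of the space of symmetric tensors with `s` slots -/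
def Nn (n s : ℕ) : ℕ := (s + n).choose n

/-- the multisets of size `s` -/
def Dl (n s : ℕ) : Finset (Fin (n + 1) → ℕ) := Finset.piAntidiag Finset.univ s

/-- the content of `i` on the slots `S` -/
def cont {ι : Type} {n : ℕ} (S : Finset ι) (i : ι → Fin (n + 1)) : Fin (n + 1) → ℕ :=
  fun a => (S.filter fun t => i t = a).card

/-- normalised: the first nonzero coordinate is `1` -/
def Nm {K : Type} [Field K] {n : ℕ} (v : Vc K n) : Prop := ∃ i, v i = 1 ∧ ∀ j, j < i → v j = 0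

section
variable {K : Type} [Field K] {ι : Type} [DecidableEq ι] {α : Type} {n : ℕ}

/-- the rank-one tensor with the vectors `x t` in the slots `t ∈ S` -/
def pr (S : Finset ι) (x : ι → Vc K n) : Tn K ι n := fun i => ∏ t ∈ S, x t (i t)

variable (K n) in
/-- the tensors on the slots `S` -/
def Dp (S : Finset ι) : Submodule K (Tn K ι n) where
  carrier := {f | ∀ i i' : ι → Fin (n + 1), (∀ t ∈ S, i t = i' t) → f i = f i'}
  add_mem' {f g} hf hg := fun i i' h => by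
    rw [Pi.add_apply, Pi.add_apply, hf i i' h, hg i i' h]
  zero_mem' := fun _ _ _ => rfl
  smul_mem' c f hf := fun i i' h => by rw [Pi.smul_apply, Pi.smul_apply, hf i i' h]

variable (K n) in
/-- the tensors which are symmetric in the slots `S` -/
def Sy (S : Finset ι) : Submodule K (Tn K ι n) where
  carrier := {f | ∀ t ∈ S, ∀ t' ∈ S, ∀ i : ι → Fin (n + 1), f (fun u => i (Equiv.swap t t' u)) = f i}
  add_mem' {f g} hf hg := fun t ht t' ht' i => by
    rw [Pi.add_apply, Pi.add_apply, hf t ht t' ht' i, hg t ht t' ht' i]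
  zero_mem' := fun _ _ _ _ _ => rfl
  smul_mem' c f hf := fun t ht t' ht' i => by
    rw [Pi.smul_apply, Pi.smul_apply, hf t ht t' ht' i]

/-- contraction of the slot `t` with `ξ` -/
def ct (t : ι) (ξ : Vc K n) : Tn K ι n →ₗ[K] Tn K ι n where
  toFun f := fun i => ∑ a, ξ a * f (Function.update i t a)
  map_add' f g := by
    funext i
    simp only [Pi.add_apply, mul_add, Finset.sum_add_distrib]
  map_smul' c f := by
    funext i
    simp only [Pi.smul_apply, smul_eq_mul, RingHom.id_apply, Finset.mul_sum]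
    exact Finset.sum_congr rfl fun a _ => by ring

/-- skew contraction of the slots `t`, `q` -/
def sk (t q : ι) (ξ η : Vc K n) : Tn K ι n →ₗ[K] Tn K ι n := ct q η ∘ₗ ct t ξ - ct q ξ ∘ₗ ct t η

/-- the value of the functional `ξ` -/
def vl (ξ v : Vc K n) : K := ∑ a, ξ a * v a

open Classical in
/-- `τ = false`: the line through `pr S x`. `τ = true`: its tangent space, all slots with the same vector
being deformed in the same way. -/
def Mo (τ : Bool) (S : Finset ι) (x : ι → Vc K n) : Submodule K (Tn K ι n) :=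
  Submodule.span K ({pr S x} ∪ {f | τ = true ∧ ∃ w v : Vc K n,
    f = ∑ u ∈ S.filter (fun u => x u = w), pr S (Function.update x u v)})

/-- the sum of the spaces `Mo` of a family -/
def Es (τ : Bool) (S : Finset ι) (J : Finset α) (l : α → ι → Vc K n) : Submodule K (Tn K ι n) :=
  ⨆ j ∈ J, Mo τ S (l j)

/-- the dimension of the symmetric part -/
noncomputable def yy (τ : Bool) (S : Finset ι) (J : Finset α) (l : α → ι → Vc K n) : ℕ :=
  Module.finrank K (Sy K n S ⊓ Es τ S J l : Submodule K (Tn K ι n))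

/-- in the slots of `A` the vector is replaced by the vector of the slot `q` -/
def rp (A : Finset ι) (q : ι) (l : α → ι → Vc K n) : α → ι → Vc K n :=
  fun j u => if u ∈ A then l j q else l j u

open Classical in
/-- the members of the family with different vectors in the slots `t`, `q` -/
noncomputable def Jn (J : Finset α) (l : α → ι → Vc K n) (t q : ι) : Finset α :=
  J.filter fun j => l j t ≠ l j q

open Classical in
/-- the members of the family with the same vector in the slots `t`, `q` -/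
noncomputable def Je (J : Finset α) (l : α → ι → Vc K n) (t q : ι) : Finset α :=
  J.filter fun j => l j t = l j q

open Classical in
/-- the number of the slots of `S` with a vector different from `v` -/
noncomputable def dv (S : Finset ι) (x : ι → Vc K n) (v : Vc K n) : ℕ :=
  (S.filter fun t => x t ≠ v).card

open Classical in
/-- the number of the classes of equal vectors in `S` -/
noncomputable def cl (S : Finset ι) (x : ι → Vc K n) : ℕ := (S.image x).card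

/-- the vectors of the family are constant on `Q` -/
def Cs (Q : Finset ι) (J : Finset α) (l : α → ι → Vc K n) : Prop :=
  ∀ j ∈ J, ∀ t ∈ Q, ∀ t' ∈ Q, l j t = l j t'

end

/-! ## 1. Leading indices -/

/-- **Wg**. (1) the number of the multisets. (2) multivariate Vandermonde (the `p`-subsets of `s` objects
of which `μ i` have the colour `i`). (3) `∑_μ ∏ C(μ_i, κ_i) = C(s + n, p + n)`: the coefficient of `z^s` in
`∏ z^(κ_i) / (1 - z)^(κ_i + 1) = z^p / (1 - z)^(p + n + 1)`; or induction on `n` with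
`∑_a C(a, k) C(s - a, m) = C(s + 1, k + m + 1)`. (4) factorials. -/
def S_Wg : Prop := ∀ n p s : ℕ, p ≤ s → (Dl n s).card = Nn n s ∧
    (∀ μ ∈ Dl n s, ∑ κ ∈ Dl n p, ∏ i, (μ i).choose (κ i) = s.choose p) ∧
    (∀ κ ∈ Dl n p, ∑ μ ∈ Dl n s, ∏ i, (μ i).choose (κ i) = (s + n).choose (p + n)) ∧
    (s + n).choose (p + n) * Nn n p = Nn n s * s.choose p

/-- the leading (largest) indices of the elements of `Y` -/
def In {K I : Type} [Field K] [LinearOrder I] (Y : Submodule K (I → K)) : Set I :=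
  {i | ∃ y ∈ Y, y i ≠ 0 ∧ ∀ i', i < i' → y i' = 0}

/-- **Ini**. (1) Choose for each `i ∈ In Y` an element with leading index `i`; they are a basis of `Y`
(subtract multiples, the leading index gets smaller). (2) The space `Y⊥` of the `w` with `∑ w y = 0` for all
`y ∈ Y` has dimension `|I| - dim Y`, so (by (1) for the opposite order) it has `|I| - |In Y|` smallest
indices; a smallest index of `w ∈ Y⊥` is not in `In Y` (`∑ w y = w i * y i`), so every `i ∉ In Y` is the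
smallest index of some `w ∈ Y⊥`. -/
def S_Ini : Prop := ∀ (K I : Type) [Field K] [Fintype I] [LinearOrder I]
    (Y : Submodule K (I → K)), (In Y).ncard = Module.finrank K Y ∧
    ∀ i, i ∉ In Y → ∃ w : I → K, w i ≠ 0 ∧ (∀ i', i' < i → w i' = 0) ∧
      ∀ y ∈ Y, ∑ i', w i' * y i' = 0

/-- **Cnt**. (1) `∑_a cont Q i a = |Q|`. (2) distribute the values in `Q` (induction on `Q`).
(3) A permutation of `Q` carries `i` to `i'`; it is a product of transpositions `swap t t'`, `t, t' ∈ Q`. -/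
def S_Cnt : Prop := ∀ (K ι : Type) [Field K] [DecidableEq ι] (n : ℕ) (Q : Finset ι),
    (∀ i : ι → Fin (n + 1), cont Q i ∈ Dl n Q.card) ∧
    (∀ μ ∈ Dl n Q.card, ∀ i₀ : ι → Fin (n + 1), ∃ i, cont Q i = μ ∧ ∀ t, t ∉ Q → i t = i₀ t) ∧
    ∀ f ∈ Sy K n Q, ∀ i i' : ι → Fin (n + 1), cont Q i = cont Q i' → (∀ t, t ∉ Q → i t = i' t) →
      f i = f i'

/-- **U1** (uses `S_Ini`, `S_Cnt`, `S_Wg`). `b = |Q|`. Let `R` = the slots outside `Q`,
`I_b = Dl n b × (R → Fin (n+1))` with a linear order such that `(μ, ρ) < (μ', ρ) → (μ + κ, ρ) < (μ' + κ, ρ)`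
and so on (lexicographic order on the first component, then any order on the second;
`Pi.Lex`). An element `y` of `Y = Sy Q ⊓ Dp {t} * Z` is by `S_Cnt` a function `ŷ` on `I_b` (for fixed values
outside `Q` it depends only on the content). For `a : Fin (n+1)` the tensor `y_a(i) = y (update i t a)` is
in `Z` and symmetric in `Q \ t`, it is the function `(ν, ρ) ↦ ŷ (ν + e_a, ρ)` on `I_(b-1)`. So if `(μ, ρ)`
is the leading index of `ŷ` and `μ a ≥ 1` then `(μ - e_a, ρ)` is the leading index of `ŷ_a`. Count the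
pairs `((μ, ρ), a)` with weight `μ a`: `b |In Ŷ| ≤ ∑_((ν, ρ) ∈ In Ẑ') ∑_a (ν a + 1) = (b + n) |In Ẑ'|`,
`Z'` = the elements of `Z` symmetric in `Q \ t`; `|In Ŷ| = dim Y`, `|In Ẑ'| = dim Z' ≤ dim Z`. -/
def S_U1 : Prop := ∀ (K ι : Type) [Field K] [Fintype ι] [DecidableEq ι] (n : ℕ) (Q : Finset ι)
    (t : ι) (Z : Submodule K (Tn K ι n)), t ∈ Q → Z ≤ Dp K n (Finset.univ.erase t) →
    Q.card * Module.finrank K (Sy K n Q ⊓ Dp K n {t} * Z : Submodule K (Tn K ι n)) ≤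
      (Q.card + n) * Module.finrank K Z

/-- **U2** (uses `S_U1`). `Y` = the space on the left, `Z₁` = the span of the `y (update · t a)`, `y ∈ Y`.
`Y ≤ Dp {t} * Z₁` (`y i = ∑_a [i t = a] y (update i t a)`), `Z₁ ≤ Sy (Q \ t) ⊓ Dp {q} * Z`. `S_U1` for
`Z₁` and `Q`, and for `Z` and `Q \ t`. -/
def S_U2 : Prop := ∀ (K ι : Type) [Field K] [Fintype ι] [DecidableEq ι] (n : ℕ) (Q : Finset ι)
    (t q : ι) (Z : Submodule K (Tn K ι n)), t ∈ Q → q ∈ Q → t ≠ q →
    Z ≤ Dp K n ((Finset.univ.erase t).erase q) →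
    Q.card * (Q.card - 1) * Module.finrank K
        (Sy K n Q ⊓ Dp K n {t} * (Dp K n {q} * Z) : Submodule K (Tn K ι n)) ≤
      (Q.card + n) * (Q.card - 1 + n) * Module.finrank K Z

/-- **U3** (uses `S_Ini`, `S_Cnt`, `S_Wg`). `s = |S|`, `p = |P|`. Tensors on `S` symmetric in `S` are
functions on `Dl n s` (`S_Cnt`; lexicographic order). `Y` = the space on the left, `Â` = the functions on
`Dl n p` of the elements of `Sy P ⊓ A`, `Ẑ` those of `Sy (S \ P) ⊓ Z`. Claim: if `μ ∈ In Ŷ` and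
`μ = κ + ν`, `κ ∈ Dl n p`, then `κ ∈ In Â` or `ν ∈ In Ẑ`. Suppose `κ ∉ In Â` and let `w` be as in `S_Ini` (2).
There is a functional `φ` on `Dp P` which is `0` on `A` and `∑_κ' w κ' â κ'` on `Sy P ⊓ Dp P` (it is well
defined on the sum, extend it). Let `z = φ · y` (contraction of `P`: for fixed values of `i` outside `P` apply
`φ` to the tensor in the slots `P`). From `y = ∑ a_k f_k + ∑ g_k z_k` we get `z = ∑ φ(g_k) z_k ∈ Z`, and
since `y` is symmetric `ẑ(ν') = ∑_κ' w κ' ŷ (ν' + κ')`; so `ẑ ν = w κ * ŷ μ ≠ 0` and `ẑ ν' = 0` for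
`ν' > ν`. Now count with the weights `h(μ, κ) = ∏ C(μ_i, κ_i) / C(s, p)`:
`|In Ŷ| = ∑_μ ∑_κ h ≤ ∑_(κ ∈ In Â) ∑_μ h + ∑_(ν ∈ In Ẑ) ∑_μ h(μ, ν)` (`h(μ, μ - ν)`, symmetric), and
`∑_μ h(μ, κ) = Nn s / Nn p` by `S_Wg` (3), (4). -/
def S_U3 : Prop := ∀ (K ι : Type) [Field K] [Fintype ι] [DecidableEq ι] (n : ℕ)
    (S P : Finset ι) (A Z : Submodule K (Tn K ι n)), P ⊆ S → A ≤ Dp K n P → Z ≤ Dp K n (S \ P) →
    Module.finrank K (Sy K n S ⊓ (A * Dp K n (S \ P) ⊔ Dp K n P * Z) :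
        Submodule K (Tn K ι n)) * (Nn n P.card * Nn n (S \ P).card) ≤
      Nn n S.card * (Nn n P.card * Module.finrank K (Sy K n (S \ P) ⊓ Z :
        Submodule K (Tn K ι n)) + Nn n (S \ P).card * Module.finrank K (Sy K n P ⊓ A :
        Submodule K (Tn K ι n)))

/-! ## 2. The spaces `Mo` -/

/-- **CtA**. (1) clear. (2) for `τ = true`: the class which contains `Q` is deformed symmetrically; if
`u ∉ Q` then `update x u v` is still constant on `Q`. (3), (4): for the class `w` and `u ≠ t`: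
`ct t ξ (pr S (update x u v)) = vl ξ (x t) • pr (S.erase t) (update x u v)`; for `u = t`:
`ct t ξ (pr S (update x t v)) = vl ξ v • pr (S.erase t) x`. (5) `y = ∑_a [i t = a] y (update i t a)`, the
contractions with the unit vectors. (6) clear. -/
def S_CtA : Prop := ∀ (K ι : Type) [Field K] [Fintype ι] [DecidableEq ι] (n : ℕ) (τ : Bool)
    (S : Finset ι) (x : ι → Vc K n),
    Mo τ S x ≤ Dp K n S ∧
    (∀ Q, Q ⊆ S → (∀ t ∈ Q, ∀ t' ∈ Q, x t = x t') → Mo τ S x ≤ Sy K n Q) ∧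
    (∀ t ∈ S, ∀ ξ : Vc K n, (Mo τ S x).map (ct t ξ) ≤ Mo τ (S.erase t) x) ∧
    (∀ t ∈ S, ∀ ξ : Vc K n, vl ξ (x t) ≠ 0 → (Mo τ S x).map (ct t ξ) = Mo τ (S.erase t) x) ∧
    (∀ t ∈ S, Mo τ S x ≤ Dp K n {t} * Mo τ (S.erase t) x) ∧
    ∀ x' : ι → Vc K n, (∀ t ∈ S, x t = x' t) → Mo τ S x = Mo τ S x'

/-- **CtB** (uses `S_CtA`). (1) `f` is symmetric in `t`, `q`. (2) `pr S x` is symmetric in `t`, `q`; the same
for the tangent vectors of `Mo` (`S_CtA` (2) with `Q = {t, q}`). (3) `ω = vl ξ (x t) * vl η (x q) -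
vl η (x t) * vl ξ (x q)`. `sk (pr S x) = ω • pr (S \ {t,q}) x`; for `u ≠ t, q`:
`sk (pr S (update x u v)) = ω • pr (S \ {t,q}) (update x u v)`, for `u = t` or `u = q` a multiple of
`pr (S \ {t,q}) x`. (4) `S = P ∪ (S \ P)`, the sum over a class splits in the parts `u ∈ P` and `u ∉ P`.
(5) as (4). (6) `τ = false`: clear. `τ = true`: modulo `pr S x` the tangent vectors of the class `w` (a
value of `x` on `S`) are a linear image of the space of the `v`, and `v = w` gives a multiple of `pr S x`,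
`w ≠ 0`. -/
def S_CtB : Prop := ∀ (K ι : Type) [Field K] [Fintype ι] [DecidableEq ι] (n : ℕ) (τ : Bool)
    (S : Finset ι) (x : ι → Vc K n),
    (∀ t ∈ S, ∀ q ∈ S, t ≠ q → ∀ ξ η : Vc K n, ∀ f ∈ Sy K n S, sk t q ξ η f = 0) ∧
    (∀ t ∈ S, ∀ q ∈ S, t ≠ q → x t = x q → ∀ ξ η : Vc K n, ∀ f ∈ Mo τ S x, sk t q ξ η f = 0) ∧
    (∀ t ∈ S, ∀ q ∈ S, t ≠ q → ∀ ξ η : Vc K n,
      vl ξ (x t) * vl η (x q) - vl η (x t) * vl ξ (x q) ≠ 0 →
      (Mo τ S x).map (sk t q ξ η) = Mo τ ((S.erase t).erase q) x) ∧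
    (∀ P, P ⊆ S → Mo true S x ≤ Dp K n P * Mo true (S \ P) x) ∧
    (∀ P, P ⊆ S → Mo true S x ≤ Mo false P x * Dp K n (S \ P) ⊔ Dp K n P * Mo false (S \ P) x) ∧
    Module.finrank K (Mo false S x) ≤ 1 ∧
    ((∀ t ∈ S, Nm (x t)) → Module.finrank K (Mo true S x) ≤ n * cl S x + 1)

/-- **Gen**. For each pair some `ξ, η` with the property exist (normalised different vectors are linearly
independent), so the product over the finite set of the polynomials in `(ξ, η)` is not `0`; `K` is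
infinite. The same for the second claim. -/
def S_Gen : Prop := ∀ (K : Type) [Field K] [Infinite K] (n : ℕ) (X : Finset (Vc K n × Vc K n)),
    ((∀ p ∈ X, Nm p.1 ∧ Nm p.2 ∧ p.1 ≠ p.2) → ∃ ξ η : Vc K n,
      ∀ p ∈ X, vl ξ p.1 * vl η p.2 - vl η p.1 * vl ξ p.2 ≠ 0) ∧
    ((∀ p ∈ X, p.1 ≠ 0) → ∃ ξ : Vc K n, ∀ p ∈ X, vl ξ p.1 ≠ 0)

/-- **Bss**. `Mo false S x` is the line of `pr S x`; choose a maximal linearly independent subfamily. -/
def S_Bss : Prop := ∀ (K ι α : Type) [Field K] [Fintype ι] [DecidableEq ι] (n : ℕ) (S : Finset ι)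
    (J : Finset α) (l : α → ι → Vc K n), ∃ F ⊆ J, Es false S F l = Es false S J l ∧
      Module.finrank K (Es false S F l) = F.card

/-- **Pp** (uses `S_CtB`, `S_Gen`). `Φ = sk t q ξ η` with `ω ≠ 0` for all `j ∈ Jn` (`S_Gen`). `Φ = 0` on
`Sy S` and on `E₀ = Es (Je)`, `Φ (Es J) = Es ((S \ t) \ q) (Jn)` (`Es J = Es Jn ⊔ Es Je`). So
`Y ⊔ E₀ ≤ ker Φ`, `Y = Sy S ⊓ Es J`, and `dim Y + dim E₀ - dim (Y ⊓ E₀) + dim Φ (Es J) ≤ dim Es J`,
`Y ⊓ E₀ = Sy S ⊓ E₀`. -/
def S_Pp : Prop := ∀ (K ι α : Type) [Field K] [Infinite K] [Fintype ι] [DecidableEq ι] (n : ℕ)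
    (τ : Bool) (S : Finset ι) (t q : ι) (J : Finset α) (l : α → ι → Vc K n),
    t ∈ S → q ∈ S → t ≠ q → (∀ j ∈ J, Nm (l j t) ∧ Nm (l j q)) →
    yy τ S J l + Module.finrank K (Es τ ((S.erase t).erase q) (Jn J l t q) l) +
        Module.finrank K (Es τ S (Je J l t q) l) ≤
      Module.finrank K (Es τ S J l) + yy τ S (Je J l t q) l

/-- **Sh** (uses `S_U2`, `S_CtA`). `b = |Q|`. `l' = rp {t} q l` is constant on `insert t Q`, so
`E = Es τ S J l' ≤ Sy (insert t Q)`, and `E ≤ Dp {t} * (Dp {q} * Z)`,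
`Z = Es τ ((S \ t) \ q) J l' = Es τ ((S \ t) \ q) J l` (`S_CtA` (5), (6)). `S_U2` for `insert t Q`. -/
def S_Sh : Prop := ∀ (K ι α : Type) [Field K] [Fintype ι] [DecidableEq ι] (n : ℕ)
    (τ : Bool) (S Q : Finset ι) (t q : ι) (J : Finset α) (l : α → ι → Vc K n),
    Q ⊆ S → t ∈ S → t ∉ Q → q ∈ Q → Cs Q J l →
    (Q.card + 1) * Q.card * Module.finrank K (Es τ S J (rp {t} q l)) ≤
      (Q.card + 1 + n) * (Q.card + n) *
        Module.finrank K (Es τ ((S.erase t).erase q) J l)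

/-- **Rr** (uses `S_U1`, `S_CtA`, `S_Gen`). `b = |Q|`, `l' = rp {t} q l`; `J = Jn ∪ Je`, and
`Es S (Je) l' = Es S (Je) l =: E₀ ≤ Sy (insert t Q)`. `R = Es τ (S \ t) (Jn) l`,
`Rp = Sy (insert t Q) ⊓ Dp {t} * R`. Let `y ∈ Sy S ⊓ Es S J l`, `y = T + T₀`, `T ∈ Es S (Jn) l`, `T₀ ∈ E₀`.
`T = y - T₀` is symmetric in `insert t Q`, so `T ∈ Rp` (`S_CtA` (5)). So `Sy S ⊓ Es S J l ≤ Rp ⊔ E₀`. And
`E₁ = Es S (Jn) l' ≤ Rp`, and `ct t ξ` maps `E₁` onto `R` for a `ξ` with `vl ξ (l j q) ≠ 0` for all `j ∈ J`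
(`S_CtA` (4), (6)), so `dim E₁ ≥ dim R`. `(b + 1) dim Rp ≤ (b + 1 + n) dim R` by `S_U1`. With
`Y = Sy S ⊓ Es S J l` and `Y₁ = Sy S ⊓ (E₁ ⊔ E₀) = Sy S ⊓ Es S J l'`:
`dim Y - dim (Y ⊓ Y₁) ≤ dim (Rp ⊔ E₀) - dim (E₁ ⊔ E₀) ≤ dim Rp - dim E₁`. -/
def S_Rr : Prop := ∀ (K ι α : Type) [Field K] [Infinite K] [Fintype ι] [DecidableEq ι] (n : ℕ)
    (τ : Bool) (S Q : Finset ι) (t q : ι) (J : Finset α) (l : α → ι → Vc K n),
    Q ⊆ S → t ∈ S → t ∉ Q → q ∈ Q → Cs Q J l → (∀ j ∈ J, Nm (l j q)) →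
    (Q.card + 1) * yy τ S J l ≤ (Q.card + 1) * yy τ S J (rp {t} q l) +
      n * Module.finrank K (Es τ (S.erase t) (Jn J l t q) l)

open Classical in
/-- **R2** (uses `S_U2`, `S_CtA`, `S_Gen`). As `S_Rr`, for `τ = false`: `b = |Q|`,
`r = dim Es ((S \ t) \ q) (Jn) l`, `Rp = Sy (insert t Q) ⊓ Dp {t} * (Dp {q} * Es ((S \ t) \ q) (Jn) l)`,
`(b + 1) b dim Rp ≤ (b + 1 + n) (b + n) r` by `S_U2`. `E₁ = Es S J' l' ≤ Rp`, and contraction of `t` and `q`
with a `ξ` which does not vanish at the `l j q` maps `E₁` onto `Es ((S \ t) \ q) J' l`, of dimension `r`;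
`Sy S ⊓ Es S J l ≤ Rp ⊔ E₀`, `E₀ = Es S (Je) l`, and `dim Y ≤ dim (Sy S ⊓ (E₁ ⊔ E₀)) + dim Rp - dim E₁`,
`(b + 1 + n) (b + n) - (b + 1) b = n (2 b + n + 1)`. -/
def S_R2 : Prop := ∀ (K ι α : Type) [Field K] [Infinite K] [Fintype ι] [DecidableEq ι] (n : ℕ)
    (S Q : Finset ι) (t q : ι) (J J' : Finset α) (l : α → ι → Vc K n),
    Q ⊆ S → t ∈ S → t ∉ Q → q ∈ Q → Cs Q J l → (∀ j ∈ J, Nm (l j q)) → J' ⊆ Jn J l t q →
    Es false ((S.erase t).erase q) J' l = Es false ((S.erase t).erase q) (Jn J l t q) l →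
    (Q.card + 1) * Q.card * yy false S J l ≤
      (Q.card + 1) * Q.card * yy false S (J' ∪ Je J l t q) (rp {t} q l) +
        n * (2 * Q.card + n + 1) *
          Module.finrank K (Es false ((S.erase t).erase q) (Jn J l t q) l)

/-! ## 3. Few deviations -/

open Classical in
/-- **Chn** (only real numbers). Define `G F A U'` (`A`, `U'` disjoint subsets of `U`) by
`(|U'| + 1) G F A U' = y F A + ∑_(t ∈ U') G F (A + t) (U' - t)`. Write `F₀(t)` for the `j ∈ F` with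
`t ∉ D j` and `δ_t(F)` for `∑ w j` over the other ones.
(1) `(|U'| + 1) G F A U' ≤ s F A + ∑_(t ∈ U') G (F₀(t)) A (U' - t) + lam ∑_(t ∈ U') δ_t(F)`: induction on
`u = |U'|`. `u = 0`: `y ≤ s`. `u ≥ 1`: by induction
`u G F (A + t) (U' - t) ≤ s F (A + t) + ∑_(t' ∈ U' - t) G (F₀(t')) (A + t) (U' - t - t') + lam ∑_(t' ≠ t) δ_t'`,
sum over `t`, divide by `u`; and the average over `t ∈ U'` of
`y F A ≤ s F A - s F (A + t) + y (F₀(t)) A + lam δ_t`; the terms `s F (A + t)` cancel and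
`y (F₀(t')) A + ∑_(t ≠ t') G (F₀(t')) (A + t) (U' - t' - t) = u G (F₀(t')) A (U' - t')`.
(2) `G F ∅ U' ≤ ∑_(j ∈ F) w j (1 / (m + 1) + lam)`, `m = |D j ∩ U'|`: induction on `U'` with (1) for `A = ∅`,
`s F ∅ ≤ ∑ w j`: `1 + (u - m) (1 / (m + 1) + lam) + lam m = (u + 1) / (m + 1) + lam u`.
(3) `y F ∅ ≤ y F A + lam ∑ w j |D j|` for all `A`, so `y J ∅ ≤ G J ∅ U + lam ∑ w j |D j|`. -/
def S_Chn : Prop := ∀ (α β : Type) (U : Finset β) (J : Finset α) (D : α → Finset β)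
    (w : α → ℝ) (lam : ℝ) (y s : Finset α → Finset β → ℝ), 0 ≤ lam → (∀ j ∈ J, 0 ≤ w j) →
    (∀ j ∈ J, D j ⊆ U) →
    (∀ F ⊆ J, ∀ A ⊆ U, y F A ≤ s F A) → (∀ F ⊆ J, s F ∅ ≤ ∑ j ∈ F, w j) →
    (∀ F ⊆ J, ∀ A ⊆ U, ∀ t ∈ U, t ∉ A → y F A ≤ s F A - s F (insert t A) +
      y (F.filter fun j => t ∉ D j) A + lam * ∑ j ∈ F.filter (fun j => t ∈ D j), w j) →
    (∀ F ⊆ J, ∀ A ⊆ U, ∀ t ∈ U, t ∉ A → y F A ≤ y F (insert t A) +
      lam * ∑ j ∈ F.filter (fun j => t ∈ D j), w j) →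
    y J ∅ ≤ ∑ j ∈ J, w j * (1 / ((D j).card + 1) + lam * ((D j).card + 1))

/-- **Few** (uses `S_CtA`, `S_CtB`, `S_Pp`, `S_Sh`, `S_Rr`, `S_Chn`). `S_Chn` with `U = S \ Q`, `D j` = the
`t ∈ S \ Q` with `l j t ≠ l j q`, `w j = n cl S (l j) + 1`, `lam = 3 n / b`,
`y F A = yy true S F (rp A q l)`, `s F A = dim Es true S F (rp A q l)`. For `t ∉ A`, with `l_A = rp A q l`:
`Jn F l_A t q` = the `j ∈ F` with `t ∈ D j`, `rp {t} q l_A = rp (insert t A) q l`, and
`Es S (Je) (rp (insert t A) q l) = Es S (Je) l_A`. (P'): `S_Pp`, and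
`s F (insert t A) ≤ dim Es S (Jn) (rp (insert t A)) + dim Es S (Je) l_A`, and by `S_Sh`
`dim Es S (Jn) (rp (insert t A)) - dim Es ((S \ t) \ q) (Jn) l_A ≤
(1 - b (b+1) / ((b+1+n) (b+n))) ∑_(Jn) w j`, `≤ (3 n / b) ∑ w j`. (R'): `S_Rr`. The dimension of
`Mo true S (l_A j)` and of `Mo true (S \ t) (l_A j)` is at most `w j` (`S_CtB` (7): the number of the classes
does not increase). -/
def S_Few : Prop := ∀ (K ι α : Type) [Field K] [Infinite K] [Fintype ι] [DecidableEq ι] (n : ℕ)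
    (S Q : Finset ι) (q : ι) (J : Finset α) (l : α → ι → Vc K n),
    Q ⊆ S → q ∈ Q → n ≤ Q.card → Cs Q J l → (∀ j ∈ J, ∀ t ∈ S, Nm (l j t)) →
    (yy true S J l : ℝ) ≤ ∑ j ∈ J, (n * cl S (l j) + 1 : ℝ) *
      (1 / (dv S (l j) (l j q) + 1) + 3 * n / Q.card * (dv S (l j) (l j q) + 1))

/-! ## 4. Many deviations, common set -/

open Classical in
/-- **Rc4** (only real numbers). `c k = max a ((1 - a)^k)`, `sg k = ∑_(i < k) (1 - a)^i ≤ 1 / a`. Claim for
`F ⊆ J`, `A ⊆ U`: `y F A ≤ ∑_(j ∈ F) (c (k j) + lam sg (k j))`, `k j = |D j ∩ (U \ A)|`. Induction on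
`|U \ A|`. If `A = U`: `y F A ≤ |F|`. Otherwise take `t ∈ U \ A`, `F₁`, `F'` from the hypothesis,
`F₁ = F_t ∪ F₀`. `y F A ≤ a (|F_t| - |F'| + y F₀ A) + (1 - a) (y (F' ∪ F₀) (A + t) + lam |F_t|)`, and
`y F₀ A ≤ y F₀ (A + t)`. An element of `F₀` contributes `c (k) + lam sg (k)`; an element of `F_t \ F'` (so
`k ≥ 1`) contributes `a + (1 - a) lam ≤ c k + lam sg k`; an element of `F'` contributes
`(1 - a) (c (k-1) + lam sg (k-1)) + (1 - a) lam ≤ c k + lam sg k`. The other elements of `F` contribute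
`0`. -/
def S_Rc4 : Prop := ∀ (α β : Type) (U : Finset β) (J : Finset α) (D : α → Finset β)
    (a lam : ℝ) (y : Finset α → Finset β → ℝ), 0 < a → a < 1 → 0 ≤ lam → (∀ j ∈ J, D j ⊆ U) →
    (∀ F ⊆ J, ∀ A ⊆ U, y F A ≤ F.card) →
    (∀ F ⊆ J, ∀ A ⊆ U, ∀ t ∈ U, t ∉ A → (∀ j ∈ F, t ∉ D j) → y F A ≤ y F (insert t A)) →
    (∀ F ⊆ J, ∀ A ⊆ U, ∀ t ∈ U, t ∉ A → ∃ F₁ ⊆ F, ∃ F' ⊆ F₁.filter (fun j => t ∈ D j),
      y F A ≤ (F₁.filter fun j => t ∈ D j).card - F'.card + y (F₁.filter fun j => t ∉ D j) A ∧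
      y F A ≤ y (F' ∪ F₁.filter fun j => t ∉ D j) (insert t A) +
        lam * (F₁.filter fun j => t ∈ D j).card) →
    y J ∅ ≤ ∑ j ∈ J, (max a ((1 - a) ^ (D j).card) + lam / a)

/-- **MQ** (uses `S_CtA`, `S_CtB`, `S_Bss`, `S_Pp`, `S_R2`, `S_Rc4`). `S_Rc4` with `U = S \ Q`, `D j` = the
`t ∈ S \ Q` with `l j t ≠ l j q`, `lam = 3 n / b`, `y F A = yy false S F (rp A q l)`. `y F A ≤ |F|`: `S_CtB`
(6). If `t ∉ D j` for `j ∈ F` then `rp A q l` and `rp (insert t A) q l` agree on `F`. For the last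
hypothesis: `F₁ ⊆ F` from `S_Bss` for `l_A = rp A q l`, `F' ⊆ Jn F₁ l_A t q` from `S_Bss` for the slots
`(S \ t) \ q`. `S_Pp` for `F₁` (`dim Es S F₁ l_A = |F₁|`, and the same for its subset `Je F₁ l_A t q`:
`|F₁| ≤ |Jn F₁| + dim Es S (Je F₁)`), `S_R2` for `F₁`, `F'` (`n (2b+n+1) / ((b+1) b) ≤ 3 n / b`). -/
def S_MQ : Prop := ∀ (K ι α : Type) [Field K] [Infinite K] [Fintype ι] [DecidableEq ι] (n : ℕ)
    (S Q : Finset ι) (q : ι) (J : Finset α) (l : α → ι → Vc K n) (a : ℝ),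
    Q ⊆ S → q ∈ Q → n ≤ Q.card → Cs Q J l → (∀ j ∈ J, ∀ t ∈ S, Nm (l j t)) → 0 < a → a < 1 →
    (yy false S J l : ℝ) ≤ ∑ j ∈ J, (max a ((1 - a) ^ dv S (l j) (l j q)) + 3 * n / Q.card / a)

/-! ## 5. Many deviations -/

open Classical in
/-- **Stp** (uses `S_U2`, `S_CtA`, `S_Bss`, `S_Pp`). `F ⊆ J` from `S_Bss` for `S`, `B ⊆ Jn F l t q` from
`S_Bss` for `(S \ t) \ q`. First claim: `S_Pp` for `F` (`dim Es S F = |F| ≤ |Jn F| + dim Es S (Je F)`, in fact
`dim Es S (Je F) = |Je F|`). Second claim: `Y = Sy S ⊓ Es S J l`, `Z` = the span of the contractions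
`y (update (update · t a) q a')`: `Y ≤ Sy S ⊓ Dp {t} * (Dp {q} * Z)` and
`Z ≤ Sy ((S \ t) \ q) ⊓ Es ((S \ t) \ q) F l`, and `Es ((S \ t) \ q) F l = Es ((S \ t) \ q) (B ∪ Je F) l`;
`S_U2` with `Q = S`. -/
def S_Stp : Prop := ∀ (K ι α : Type) [Field K] [Infinite K] [Fintype ι] [DecidableEq ι] (n : ℕ)
    (S : Finset ι) (t q : ι) (J : Finset α) (l : α → ι → Vc K n),
    t ∈ S → q ∈ S → t ≠ q → (∀ j ∈ J, Nm (l j t) ∧ Nm (l j q)) →
    ∃ F ⊆ J, ∃ B ⊆ Jn F l t q,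
      yy false S J l + B.card ≤ (Jn F l t q).card + yy false S (Je F l t q) l ∧
      S.card * (S.card - 1) * yy false S J l ≤ (S.card + n) * (S.card - 1 + n) *
        yy false ((S.erase t).erase q) (B ∪ Je F l t q) l

/-- `y_S(X) ≤ (c + η) |X|` for large `S` and families with many deviations, constant on a set of `q` slots -/
def Gd (n q : ℕ) (c : ℝ) : Prop := ∀ η : ℝ, 0 < η → ∃ M s₀ : ℕ,
    ∀ (K ι α : Type) [Field K] [Infinite K] [Fintype ι] [DecidableEq ι] (S Q : Finset ι)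
      (J : Finset α) (l : α → ι → Vc K n), s₀ ≤ S.card → Q ⊆ S → Q.card = q → Cs Q J l →
      (∀ j ∈ J, ∀ t ∈ S, Nm (l j t)) → (∀ j ∈ J, ∀ v, M ≤ dv S (l j) v) →
      (yy false S J l : ℝ) ≤ (c + η) * J.card

/-- **GdS** (uses `S_Stp`). `s` large, `θ = s (s-1) / ((s+n) (s-1+n)) → 1`. (1) `t ∈ Q`, `t' ∈ S \ Q`
(`s > q`): `F`, `B` from `S_Stp` for `t`, `t'`. `Je F` is constant on `insert t' Q` (`q + 1` slots), all of
`F` is constant on `Q \ t` (`q - 1` slots), and the number of deviations in `(S \ t) \ t'` is at least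
`M - 2`. With `a' = c' + η'`, `a'' = c'' + η'`, `β = |B|`, `y = yy S J`:
`y ≤ |Jn F| - β + a'' |Je F|`, `θ y ≤ a' (β + |Je F|)`, so `y (1 + θ / a') ≤ (1 + a'') |J|`,
`y ≤ a' (1 + a'') / (a' + θ) |J|`, which tends to `c' (1 + c'') / (c' + 1)`. (2) `Q = ∅`: any two slots
`t ≠ t'`, `Je F` is constant on `{t, t'}`. -/
def S_GdS : Prop := ∀ (n q : ℕ) (c' c'' : ℝ), 0 < c' → 0 ≤ c'' →
    (Gd n q c' → Gd n (q + 2) c'' → Gd n (q + 1) (c' * (1 + c'') / (1 + c'))) ∧
    (Gd n 0 c' → Gd n 2 c'' → Gd n 0 (c' * (1 + c'') / (1 + c')))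

/-- **GdM** (uses `S_CtB`, `S_MQ`). (1) `yy ≤ dim Es ≤ |J|`. (2) take a subset of `Q`. (3) for `q = 0` choose
any slot, `Cs {t}` is trivial (`S` not empty). (4) `η / 2` in the definition. (5) `S_MQ` with `a = η / 4`
(`η < 1`), `q = K` with `3 n / (K a) ≤ η / 4` and `n ≤ K`, `1 ≤ K`, and `M` with `(1 - a)^M ≤ a`: the vector
of `Q` has at least `M` deviations. -/
def S_GdM : Prop := ∀ n q : ℕ, Gd n q 1 ∧ (∀ c, Gd n q c → Gd n (q + 1) c) ∧
    (∀ c, Gd n 1 c → Gd n 0 c) ∧ (∀ c, (∀ c', c < c' → Gd n q c') → Gd n q c) ∧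
    ∀ η : ℝ, 0 < η → ∃ k, Gd n k η

/-- **Sof** (uses `S_GdS`, `S_GdM`). `c q` = the infimum of the `c ≥ 0` with `Gd n q c`; `Gd n q (c q)` by
`S_GdM` (4) (`Gd` is monotone in `c`). `c 0 = c 1 ≥ c 2 ≥ …`, and `c q → 0` by (5). Suppose `c 0 > 0`.
`S_GdS` (2) with `c' = c 0`, `c'' = c 2`: `c 0 (1 + c 0) ≤ c 0 (1 + c 2)`, so `c 2 ≥ c 0`. If
`c (q) = c (q+1) = c 0` then `S_GdS` (1): `c (q+1) (1 + c q) ≤ c q (1 + c (q+2))`, so `c (q+2) ≥ c 0`. So all
`c q = c 0 > 0`, a contradiction. -/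
def S_Sof : Prop := ∀ n : ℕ, Gd n 0 0

/-! ## 6. Choice of the slots `P` -/

open Classical in
/-- **Grp**. Let `T` be a maximal set of values with `|{t ∈ S : g t ∈ T}| ≤ |S| - w` (`∅` has the property).
If `|{t ∈ S : g t ∈ T}| ≥ w` we are done. Otherwise each class outside `T` has more than `|S| - 2 w`
elements. Two such classes have together more than `2 |S| - 4 w ≥ |S|` elements; so there is exactly
one such class (`T` does not contain all values since `w ≥ 1`), and the slots outside it are those with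
values in `T`, less than `w`, a contradiction to the hypothesis. -/
def S_Grp : Prop := ∀ (ι β : Type) (S : Finset ι) (g : ι → β) (w : ℕ), 1 ≤ w → 4 * w ≤ S.card →
    (∀ v, w ≤ (S.filter fun t => g t ≠ v).card) → ∃ T : Set β,
      w ≤ (S.filter fun t => g t ∈ T).card ∧ w ≤ (S.filter fun t => g t ∉ T).card

/-- the transversal: one slot in each of the `p` blocks of `B` slots -/
def Pc {d p B : ℕ} (c : Fin p → Fin B) : Finset (Fin d) :=
  Finset.univ.filter fun t => ∃ i : Fin p, (t : ℕ) = i * B + c i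

open Classical in
/-- **Trv**. (1) the `p` slots are different. (2) the slot `t` is in one block `i` at most and then `c i` is
determined. (3) `g i` = the number of the elements of `G` in the block `i`: the number of the `c` is
`∏ (B - g i)`, and `(B - g) B^g ≤ (B - 1)^g B` (Bernoulli). -/
def S_Trv : Prop := ∀ d p B : ℕ, 1 ≤ B → p * B ≤ d →
    (∀ c : Fin p → Fin B, (Pc c : Finset (Fin d)).card = p) ∧
    (∀ t : Fin d, B * (Finset.univ.filter fun c : Fin p → Fin B => t ∈ Pc c).card ≤ B ^ p) ∧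
    ∀ G : Finset (Fin d), (∀ t ∈ G, (t : ℕ) < p * B) →
      (Finset.univ.filter fun c : Fin p → Fin B => Disjoint G (Pc c)).card * B ^ G.card ≤
        (B - 1) ^ G.card * B ^ p

open Classical in
/-- **TrM** (uses `S_Grp`, `S_Trv`). `w = m w₁ + B`. `T` from `S_Grp`, `G₁`, `G₂` the two sets of slots. Less
than `B` slots are outside the blocks, so `G₁` and `G₂` contain `m` disjoint sets (chunks) of `w₁` slots in
the blocks each. If `Pc c` meets all `2 m` chunks then every value `v` is different from `g t` for at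
least `m` elements `t` of `Pc c` (`v ∈ T`: the elements of `G₂`; `v ∉ T`: those of `G₁`). `S_Trv` (3) for the
chunks. -/
def S_TrM : Prop := ∀ (d p B m w₁ : ℕ) (β : Type) (g : Fin d → β), 1 ≤ B → p * B ≤ d →
    d < (p + 1) * B → 1 ≤ m → 1 ≤ w₁ → 4 * (m * w₁ + B) ≤ d →
    (∀ v, m * w₁ + B ≤ (Finset.univ.filter fun t => g t ≠ v).card) →
    (Finset.univ.filter fun c : Fin p → Fin B =>
      ∃ v, ((Pc c).filter fun t => g t ≠ v).card < m).card * B ^ w₁ ≤
        2 * m * ((B - 1) ^ w₁ * B ^ p)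

/-- **Nmb**. `B = 32 n (n+1)`, `p = d / B`. `Nn n d / Nn n (d - p) = ∏_(i=1..n) (d + i) / (d - p + i) ≤
(d / (d - p))^n ≤ (1 - 1 / B)^(-n) ≤ 1 / (1 - n / B) ≤ 1 + 2 n / B = 1 + 1 / (16 (n+1))`.
`Nn n d / Nn n p ≤ (d / p)^n ≤ (2 B)^n` (`p ≥ d / (2B)`). -/
def S_Nmb : Prop := ∀ n d : ℕ, 1 ≤ n → 32 * n * (n + 1) ≤ d →
    (Nn n d : ℝ) ≤ (1 + 1 / (8 * (n + 1))) * Nn n (d - d / (32 * n * (n + 1))) ∧
    (Nn n d : ℝ) ≤ (64 * n * (n + 1)) ^ n * Nn n (d / (32 * n * (n + 1)))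

/-! ## 7. The main inequality -/

open Classical in
/-- **Spl** (uses `S_U3`, `S_CtA`, `S_CtB`). `S = Pᶜ`. `A = Es false P Jm l`,
`Z = Es false S Jm l ⊔ Es true S Jf l`. By `S_CtB` (4), (5)
`Es true univ (Jm ∪ Jf) l ≤ A * Dp S ⊔ Dp P * Z`. `S_U3` (with `univ` for `S`), and
`dim (Sy S ⊓ (Z₁ ⊔ Z₂)) ≤ dim Z₁ + dim (Sy S ⊓ Z₂)`, `dim Es false S Jm l ≤ |Jm|`. -/
def S_Spl : Prop := ∀ (K ι α : Type) [Field K] [Fintype ι] [DecidableEq ι] (n : ℕ)
    (P : Finset ι) (Jm Jf : Finset α) (l : α → ι → Vc K n),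
    yy true Finset.univ (Jm ∪ Jf) l * (Nn n P.card * Nn n (Finset.univ \ P).card) ≤
      Nn n (Fintype.card ι) * (Nn n P.card * (Jm.card + yy true (Finset.univ \ P) Jf l) +
        Nn n (Finset.univ \ P).card * yy false P Jm l)

open Classical in
/-- **FwM** (uses `S_CtB`, `S_Few`). `D1 = n (M + 1) + 1`. Choose `b ≥ 1`, `b ≥ n` with
`(3 n / b) (M + 1) D1 ≤ 1 / 16`, `s₀` with `s₀ / b ≥ 16 D1 M + 1`. `v j` = a vector with at most `M`
deviations. Take `k = |S| / b` disjoint subsets of `S` with `b` elements; each `j` deviates (from `v j`) in at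
most `M` of them, so there is one, `Q`, such that the set `J₁` of the `j ∈ J` which deviate in `Q` satisfies
`k |J₁| ≤ M |J|`, so `16 D1 |J₁| ≤ |J|`. `yy S J ≤ yy S (J \ J₁) + ∑_(J₁) dim Mo`, `dim Mo ≤ n cl + 1 ≤ D1`
(`cl ≤ dv + 1`). For `J \ J₁`: `S_Few`, `l j q = v j`, `m = dv S (l j) (v j) ≤ M`, `cl ≤ m + 1`. If `m ≥ 1`:
`(n (m+1) + 1) / (m + 1) ≤ n + 1/2`, rest `≤ 1 / 16`. If `m = 0`: `l j` is constant on `S`, `cl = 1`, the term
is at most `(n + 1) + 1 / 16`. -/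
def S_FwM : Prop := ∀ n M : ℕ, 1 ≤ n → ∃ s₀ : ℕ, ∀ (K ι α : Type) [Field K] [Infinite K]
    [Fintype ι] [DecidableEq ι] (S : Finset ι) (J : Finset α) (l : α → ι → Vc K n),
    s₀ ≤ S.card → (∀ j ∈ J, ∀ t ∈ S, Nm (l j t)) → (∀ j ∈ J, ∃ v, dv S (l j) v ≤ M) →
    (yy true S J l : ℝ) ≤ (n + 5 / 8) * J.card +
      (n + 1) * (J.filter fun j => ∀ t ∈ S, ∀ t' ∈ S, l j t = l j t').card

/-- **MnM** (uses `S_CtB`, `S_Sof`, `S_TrM`). `m`, `s₀` from `Gd n 0 0` for `ε / 2` (`Q = ∅`; enlarge `m` to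
`≥ 1`), `w₁ ≥ 1` with `2 m ((B-1) / B)^(w₁) ≤ ε / 2`, `M = m w₁ + B`, `D ≥ 4 M`, `D ≥ (s₀ + 1) B`. For each
`c`: let `X_c` = the `j ∈ J` such that some `v` has less than `m` deviations on `Pc c`.
`yy (Pc c) J ≤ (ε / 2) |J| + |X_c|`. `∑_c |X_c| ≤ (ε / 2) B^p |J|` by `S_TrM` for each `j`. -/
def S_MnM : Prop := ∀ (n B : ℕ) (ε : ℝ), 2 ≤ B → 0 < ε → ∃ M D : ℕ, ∀ (K α : Type) [Field K]
    [Infinite K] (d p : ℕ) (J : Finset α) (l : α → Fin d → Vc K n), D ≤ d → p * B ≤ d →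
    d < (p + 1) * B → (∀ j ∈ J, ∀ t, Nm (l j t)) →
    (∀ j ∈ J, ∀ v, M ≤ dv Finset.univ (l j) v) →
    ∑ c : Fin p → Fin B, (yy false (Pc c) J l : ℝ) ≤ ε * B ^ p * J.card

/-- **Mn** (uses `S_Trv`, `S_Nmb`, `S_Spl`, `S_FwM`, `S_MnM`). `B = 32 n (n+1)`, `R = (2 B)^n`,
`ε = 1 / (16 R)`, `M`, `D` from `S_MnM`; `s₀` from `S_FwM` for `M`. `d ≥ D`, `d ≥ 2 s₀`, `d ≥ B`, `p = d / B`.
`Jm` = the `j ∈ J` with `M ≤ dv univ (l j) v` for all `v`, `Jf = J \ Jm`. For each `c : Fin p → Fin B` put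
`P = Pc c`, `S = univ \ P`, `|P| = p`, `|S| = d - p ≥ s₀`. By `S_Spl` and `S_Nmb`, dividing:
`yy univ J ≤ (1 + 1/(8(n+1))) (|Jm| + yy true S Jf) + R yy false P Jm`, and by `S_FwM`
`yy true S Jf ≤ (n + 5/8) |Jf| + (n+1) |X_c|`, `X_c` = the `j ∈ Jf` which are constant on `S`. For each
`j ∈ Jf` fix a vector `v` with `dv univ (l j) v < M` and a slot `t_j` with `l j t_j ≠ v` (exists since `l j` is
not constant). If `j ∈ X_c` then, since `|S| ≥ M`, some slot of `S` has the vector `v`, so all slots of `S` have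
it, so `t_j ∈ Pc c`. By `S_Trv` (2) `∑_c |X_c| ≤ (1/B) B^p |Jf|`. Average over the `B^p` functions `c`: `yy univ J ≤
(1 + 1/(8(n+1))) (|Jm| + (n + 5/8) |Jf| + ((n+1)/B) |Jf|) + R ε |Jm|`. `(n+1)/B ≤ 1/32`;
`(1 + 1/(8(n+1))) (n + 21/32) ≤ n + 13/16`, `1 + 1/(8(n+1)) + 1/16 ≤ n + 13/16`. -/
def S_Mn : Prop := ∀ n : ℕ, 1 ≤ n → ∃ D : ℕ, ∀ (K α : Type) [Field K] [Infinite K] (d : ℕ)
    (J : Finset α) (l : α → Fin d → Vc K n), D ≤ d → (∀ j ∈ J, ∀ t, Nm (l j t)) →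
    (∀ j ∈ J, ∃ t t', l j t ≠ l j t') →
    16 * yy true Finset.univ J l ≤ (16 * n + 13) * J.card

/-! ## 8. The end -/

/-- **Der**. Let `τ i = ∑ j, w j * pr univ (l j) i`. Every derivation `∂` of `K` over `ℂ` maps (applied to the
entries) `τ` to an element of `Es true univ univ l`: `∂ (w pr (x)) = (∂ w) pr x + w ∑_t pr (update x t (∂ (x t)))`
and the sum over the slots of a class (`x t = v`) is a tangent vector of `Mo true` with the vector `∂ v`.
It is symmetric. Since the `τ (J a)` are algebraically independent over `ℂ` and the characteristic is `0`,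
there are derivations `∂_a`, `a : Fin m`, of `K` with `∂_a (τ (J b)) = δ_ab` (the partial derivatives of the
field `ℂ(τ (J b))` extend to a transcendental extension, `0` on a transcendence basis, and uniquely to
algebraic extensions; or: the differentials `d (τ (J b))` are linearly independent in `Ω[K⁄ℂ]`). So the
`∂_a τ` are linearly independent. -/
def S_Der : Prop := ∀ (K : Type) [Field K] [Algebra ℂ K] (n d r m : ℕ) (w : Fin r → K)
    (l : Fin r → Fin d → Vc K n) (J : Fin m → (Fin d → Fin (n + 1))),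
    (∑ j, w j • pr Finset.univ (l j)) ∈ Sy K n (Finset.univ : Finset (Fin d)) →
    AlgebraicIndependent ℂ (fun a => (∑ j, w j • pr Finset.univ (l j)) (J a)) →
    m ≤ yy true Finset.univ (Finset.univ : Finset (Fin r)) l

/-- **Ind**. `K` infinite: there is `ξ` with `vl ξ (l j t) ≠ 0` for all `j`, `t`. For `A ⊆ Bs` let
`N_A = {c : ∑ j, c j • pr A (l j) = 0}`. Scale: `l' j t = (vl ξ (l j t))⁻¹ • l j t`, which multiplies
`pr A (l j)` by a nonzero scalar; so we may assume `vl ξ (l j t) = 1`. Then `N_(A + t) ⊆ N_A` (contract `t` with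
`ξ`). If `N_(A + t) = N_A` for all `t ∈ Bs \ A` then for `c ∈ N_A = N_(A + t)` contraction of `t` with `ξ'` gives
`(c j vl ξ' (l j t))_j ∈ N_A`, so `N_A` is stable under the multiplications by `vl ξ' (l j t)`, `t ∈ Bs \ A`,
hence by products of them, and `N_A ⊆ N_Bs = 0` (take unit vectors `ξ'`). So as long as `N_A ≠ 0` there is
`t ∈ Bs \ A` with `N_(A + t) < N_A`. `N_∅` has dimension `r - 1` (`r ≥ 1`), so after at most `r - 1` steps
`N_A = 0`. -/
def S_Idp : Prop := ∀ (K : Type) [Field K] [Infinite K] (n d r : ℕ) (Bs : Finset (Fin d))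
    (l : Fin r → Fin d → Vc K n), 1 ≤ r → (∀ j t, Nm (l j t)) →
    LinearIndependent K (fun j => pr Bs (l j)) →
    ∃ A ⊆ Bs, A.card + 1 ≤ r ∧ LinearIndependent K (fun j => pr A (l j))

/-- **Sml** (uses `S_Idp`). `T = ∑ j, w j • pr univ (l j)` symmetric, and not a sum of less than `r` such
terms (arbitrary vectors); so all `w j ≠ 0`. (a) `(pr (univ \ t) (l j))_j` is linearly independent for every
slot `t`: otherwise
`pr (univ \ t) (l k) = ∑_(j ≠ k) c j pr (univ \ t) (l j)` for some `k`, and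
`T = ∑_(j ≠ k) pr univ (update (l j) t (w j • l j t + w k c j • l k t))`, `r - 1` terms. In particular
(`d ≥ 1`) `(pr univ (l j))_j` is linearly independent. (b) If `(pr A (l j))_(j)` is linearly independent,
then for each `j` there is a functional on `Dp A` with value `1 / w j` at `pr A (l j)` and `0` at the others;
contraction of `T` with it shows that `pr (univ \ A) (l j)` is symmetric in the slots outside `A`, so `l j` is
constant outside `A` (normalised vectors). (c) `A₀` from `S_Idp` for `Bs = univ`, `A_t` from `S_Idp` for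
`Bs = univ \ t`, `|A| ≤ r - 1`. `l j` is constant on the complement of `A₀` and on the complement of `A_t`,
which contains `t`; the two complements meet since `2 (r - 1) < d`. So `l j t` is the value of `l j`
outside `A₀`. -/
def S_Sml : Prop := ∀ (K : Type) [Field K] [Infinite K] (n d r : ℕ) (w : Fin r → K)
    (l : Fin r → Fin d → Vc K n), 2 * r ≤ d + 1 → (∀ j t, Nm (l j t)) →
    (∑ j, w j • pr Finset.univ (l j)) ∈ Sy K n (Finset.univ : Finset (Fin d)) →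
    (∀ (r' : ℕ) (l' : Fin r' → Fin d → Vc K n), r' < r →
      ∑ j, pr Finset.univ (l' j) ≠ ∑ j, w j • pr Finset.univ (l j)) →
    ∀ j t t', l j t = l j t'

/-- **Key** (uses `S_CtA`, `S_CtB`, `S_Mn`, `S_Der`, `S_Sml`). `D` from `S_Mn`, enlarged: `d ≥ 1`,
`d + 1 ≥ 2 * (16 E)`. Let `r₀ ≤ r` be minimal such that `τ = ∑_(j < r₀) pr univ (l' j)` for some `l'`; no
vector is `0`, normalise: `τ = ∑_(j < r₀) w j • pr univ (l j)`, `l` normalised. `Js` = the `j` with `l j`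
constant, `Jt` = the others. `S_Der`: `m ≤ yy univ univ l`. `Es true univ Js l ≤ Sy univ` (`S_CtA` (2)), so
`yy univ (Js ∪ Jt) ≤ dim Es Js + yy univ Jt ≤ (n+1) |Js| + yy univ Jt` (modular law; `cl ≤ 1`), and
`16 yy univ Jt ≤ (16 n + 13) |Jt|`. So `16 m ≤ 16 (n+1) r₀ - 3 |Jt| ≤ 16 m + 16 E - 3 |Jt|`,
`3 |Jt| ≤ 16 E`. `T = τ - ∑_(Js) = ∑_(Jt) w j • pr univ (l j)` is symmetric and not a sum of less than `|Jt|`
terms; `2 |Jt| ≤ d + 1`; `S_Sml`: all `l j`, `j ∈ Jt`, are constant. So `Jt = ∅` and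
`τ = ∑_(j < r₀) w j • pr univ (const)`; take `d`-th roots of the `w j` (`d ≥ 1`), and zero vectors for the
other indices. -/
def S_Key : Prop := ∀ n E : ℕ, 1 ≤ n → ∃ D : ℕ, ∀ (K : Type) [Field K] [Algebra ℂ K]
    [IsAlgClosed K] (d r m : ℕ) (v : Fin r → Fin d → Fin (n + 1) → K)
    (J : Fin m → (Fin d → Fin (n + 1))), D ≤ d →
    (∀ (σ : Equiv.Perm (Fin d)) (i : Fin d → Fin (n + 1)),
      ∑ j, ∏ t, v j t (i (σ t)) = ∑ j, ∏ t, v j t (i t)) →
    AlgebraicIndependent ℂ (fun a => ∑ j, ∏ t, v j t (J a t)) →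
    (n + 1) * r ≤ m + E →
    ∃ u : Fin r → Fin (n + 1) → K, ∀ i : Fin d → Fin (n + 1),
      ∑ j, ∏ t, v j t (i t) = ∑ j, ∏ t, u j (i t)

/-- **Fnl** (uses `Bp.S_AHn`, `Bp.S_All`, `Bp.S_Gp`, `S_Key`). As `Bp/FinL.lean` (landed; copy). `E` from
`Bp.S_AHn`, `D` from `S_Key` for `n, E`, `D ≥ 1`. Let `h1 ≤ h` be the smallest number with
`sec n d h1 = sec n d h`; `h1 ≥ 1`, `r = h1 - 1`. There is `P` with `aeval (par n d r) P = 0` and
`aeval (par n d h1) P ≠ 0`. `(n+1) r ≤ C(d+n,n) + E` and for `mJ`, `J` from `Bp.S_AHn` for `h1`: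
`(n+1) r ≤ mJ + E` (if the first alternative holds for `h1`: `(n+1) r ≤ (n+1) h1 ≤ mJ + E`; if
`mJ = C(d+n,n)`: `Bp.S_AHn` for `r`, in the case `m' = C(d+n,n)` `Bp.S_All` gives
`sec n d h1 ⊆ sec n d r`, impossible, so `(n+1) r ≤ m' + E ≤ mJ + E`). If the tensors `T ∈ sec n d h1` with
`SumOf c r T` were dense, `Bp.S_Gp` gives `K`, `v`, and `S_Key` with the vectors `v j (c t)` (symmetric because
the equations of `par` hold; the `τ (J a)` are algebraically independent since those of `par` are) gives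
`u` with `τ i = ∑ j, ∏ t, u j (i t)`: so `aeval τ P = 0` (substitute in `aeval (par n d r) P = 0`), against
`aeval (par n d h1) P ≠ 0`. So there is `Q1` which vanishes on the `T ∈ sec n d h1` with `SumOf c r T`,
`aeval (par n d h1) Q1 ≠ 0`; finish as in `Bp/FinL.lean` (`Q2` from `exists_open_image`,
`rk c T = h1 = srk T`, homogeneous component). -/
def S_Fnl : Prop := ∀ n : ℕ, 1 ≤ n → ∃ D : ℕ, ∀ (d p : ℕ) (c : Fin d → Fin p) (h : ℕ), D ≤ d →
    1 ≤ h → Bp.Concl (n := n) c h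

end Pool.Agent.Lib.MP_d01072_ag.CL
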