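import Mathlib
import Pool.Agent.Lib.MP_d01072_ag.CL.Spec

/-!
MP_d01072_ag, package CL, module U1: density for one contraction.
-/

set_option autoImplicit false

namespace Pool.Agent.Lib.MP_d01072_ag.CL

/-- the abstract counting lemma: leading indices, weights and shifts -/
private theorem absU1 {K I I' A : Type} [Field K] [Fintype I] [Fintype I'] [Fintype A]
    (h1 : S_Ini) (F : I → ℕ) (hF : Function.Injective F) (F' : I' → ℕ)
    (hF' : Function.Injective F') (m : I → A → ℕ) (s : I' → A → I) (b c : ℕ)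
    (hb : ∀ i, b ≤ ∑ a, m i a) (h2 : ∀ i a, m i a ≠ 0 → ∃ i', s i' a = i)
    (h4 : ∀ i', ∑ a, m (s i' a) a ≤ c)
    (h5 : ∀ a i' j', F' i' < F' j' → F (s i' a) < F (s j' a))
    (Y : Submodule K (I → K)) (Z : Submodule K (I' → K))
    (hYZ : ∀ y ∈ Y, ∀ a, (fun i' => y (s i' a)) ∈ Z) :
    b * Module.finrank K Y ≤ c * Module.finrank K Z := by
  classical
  let iI : LinearOrder I := LinearOrder.lift' F hF
  let iI' : LinearOrder I' := LinearOrder.lift' F' hF'
  have hlt : ∀ i j : I, i < j ↔ F i < F j := fun _ _ => Iff.rfl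
  have hlt' : ∀ i j : I', i < j ↔ F' i < F' j := fun _ _ => Iff.rfl
  rw [← (h1 K I Y).1, ← (h1 K I' Z).1]
  have hsinj : ∀ a, Function.Injective (fun i' => s i' a) := by
    intro a i' j' hij
    by_contra hne
    rcases lt_or_gt_of_ne (fun h => hne (hF' h) : F' i' ≠ F' j') with h | h
    · have := h5 a _ _ h
      simp only at hij
      rw [hij] at this
      exact lt_irrefl _ this
    · have := h5 a _ _ h
      simp only at hij
      rw [hij] at this
      exact lt_irrefl _ this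
  have hYf : (In Y).Finite := Set.toFinite _
  have hZf : (In Z).Finite := Set.toFinite _
  have key : ∀ a, ∑ i ∈ hYf.toFinset, m i a ≤ ∑ i' ∈ hZf.toFinset, m (s i' a) a := by
    intro a
    have e1 : ∑ i' ∈ hZf.toFinset, m (s i' a) a
        = ∑ i ∈ hZf.toFinset.image (fun i' => s i' a), m i a := by
      rw [Finset.sum_image (fun x _ y _ h => hsinj a h)]
    rw [e1]
    have e2 : ∑ i ∈ hYf.toFinset, m i a = ∑ i ∈ hYf.toFinset.filter (fun i => m i a ≠ 0), m i a := by
      rw [Finset.sum_filter_ne_zero]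
    rw [e2]
    apply Finset.sum_le_sum_of_subset
    intro i hi
    rw [Finset.mem_filter, Set.Finite.mem_toFinset] at hi
    obtain ⟨⟨y, hyY, hyi, hyl⟩, hm⟩ := hi
    obtain ⟨i', hi'⟩ := h2 i a hm
    rw [Finset.mem_image]
    refine ⟨i', ?_, hi'⟩
    rw [Set.Finite.mem_toFinset]
    refine ⟨fun i' => y (s i' a), hYZ y hyY a, by simpa only [hi'] using hyi, fun j' hj' => ?_⟩
    apply hyl
    have := h5 a _ _ ((hlt' _ _).1 hj')
    rw [hi'] at this
    exact (hlt _ _).2 this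
  rw [Set.ncard_eq_toFinset_card _ hYf, Set.ncard_eq_toFinset_card _ hZf]
  calc b * hYf.toFinset.card = ∑ i ∈ hYf.toFinset, b := by
        rw [Finset.sum_const, smul_eq_mul, mul_comm]
    _ ≤ ∑ i ∈ hYf.toFinset, ∑ a, m i a := Finset.sum_le_sum fun i _ => hb i
    _ = ∑ a, ∑ i ∈ hYf.toFinset, m i a := Finset.sum_comm
    _ ≤ ∑ a, ∑ i' ∈ hZf.toFinset, m (s i' a) a := Finset.sum_le_sum fun a _ => key a
    _ = ∑ i' ∈ hZf.toFinset, ∑ a, m (s i' a) a := Finset.sum_comm
    _ ≤ ∑ i' ∈ hZf.toFinset, c := Finset.sum_le_sum fun i _ => h4 i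
    _ = c * hZf.toFinset.card := by rw [Finset.sum_const, smul_eq_mul, mul_comm]

/-- the weight of an index -/
private noncomputable def wt {ι : Type} [Fintype ι] [DecidableEq ι] {n : ℕ} (B : ℕ)
    (p : (Fin (n + 1) → ℕ) × (ι → Fin (n + 1))) : ℕ :=
  (∑ a : Fin (n + 1), p.1 a * B ^ (a : ℕ)) * Fintype.card (ι → Fin (n + 1)) +
    ((Fintype.equivFin (ι → Fin (n + 1))) p.2 : ℕ)

private theorem wt_inj {ι : Type} [Fintype ι] [DecidableEq ι] {n : ℕ} (B : ℕ)
    (p q : (Fin (n + 1) → ℕ) × (ι → Fin (n + 1))) (hp : ∀ a, p.1 a < B) (hq : ∀ a, q.1 a < B)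
    (h : wt B p = wt B q) : p = q := by
  unfold wt at h
  set M := Fintype.card (ι → Fin (n + 1)) with hM
  have hp2 : ((Fintype.equivFin (ι → Fin (n + 1))) p.2 : ℕ) < M := Fin.is_lt _
  have hq2 : ((Fintype.equivFin (ι → Fin (n + 1))) q.2 : ℕ) < M := Fin.is_lt _
  have e2 : ((Fintype.equivFin (ι → Fin (n + 1))) p.2 : ℕ)
      = ((Fintype.equivFin (ι → Fin (n + 1))) q.2 : ℕ) := by
    have h' := congrArg (fun x => x % M) h
    rwa [Nat.add_comm, Nat.add_mul_mod_self_right, Nat.add_comm (_ * M), Nat.add_mul_mod_self_right,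
      Nat.mod_eq_of_lt hp2, Nat.mod_eq_of_lt hq2] at h'
  have hM0 : 0 < M := lt_of_le_of_lt (Nat.zero_le _) hp2
  have e1 : ∑ a : Fin (n + 1), p.1 a * B ^ (a : ℕ) = ∑ a : Fin (n + 1), q.1 a * B ^ (a : ℕ) := by
    rw [e2] at h
    exact Nat.eq_of_mul_eq_mul_right hM0 (Nat.add_right_cancel h)
  have e3 : (fun a => (⟨p.1 a, hp a⟩ : Fin B)) = fun a => (⟨q.1 a, hq a⟩ : Fin B) := by
    apply (finFunctionFinEquiv (m := B) (n := n + 1)).injective
    apply Fin.ext
    rw [finFunctionFinEquiv_apply_val, finFunctionFinEquiv_apply_val]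
    exact e1
  apply Prod.ext
  · funext a
    have := congrFun e3 a
    simpa using this
  · exact (Fintype.equivFin (ι → Fin (n + 1))).injective (Fin.ext e2)

private theorem wt_add {ι : Type} [Fintype ι] [DecidableEq ι] {n : ℕ} (B : ℕ)
    (ν : Fin (n + 1) → ℕ) (ρ : ι → Fin (n + 1)) (a : Fin (n + 1)) :
    wt B (ν + Pi.single a 1, ρ) = wt B (ν, ρ) + B ^ (a : ℕ) * Fintype.card (ι → Fin (n + 1)) := by
  unfold wt
  have : ∑ c : Fin (n + 1), (ν + Pi.single a 1 : Fin (n + 1) → ℕ) c * B ^ (c : ℕ)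
      = ∑ c : Fin (n + 1), ν c * B ^ (c : ℕ) + B ^ (a : ℕ) := by
    simp only [Pi.add_apply, add_mul, Finset.sum_add_distrib]
    congr 1
    rw [Finset.sum_eq_single a]
    · simp
    · intro c _ hc
      rw [Pi.single_eq_of_ne hc, zero_mul]
    · intro h
      exact absurd (Finset.mem_univ a) h
  simp only [this]
  ring

private theorem mem_Dl {n s : ℕ} (μ : Fin (n + 1) → ℕ) : μ ∈ Dl n s ↔ ∑ a, μ a = s := by
  unfold Dl
  rw [Finset.mem_piAntidiag]
  exact ⟨fun h => h.1, fun h => ⟨h, fun i _ => Finset.mem_univ i⟩⟩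

private theorem Dl_lt {n s : ℕ} (μ : Fin (n + 1) → ℕ) (h : μ ∈ Dl n s) (a : Fin (n + 1)) :
    μ a < s + 1 := by
  rw [mem_Dl] at h
  rw [← h]
  exact Nat.lt_succ_of_le (Finset.single_le_sum (fun _ _ => Nat.zero_le _) (Finset.mem_univ a))

private theorem cont_update {ι : Type} [DecidableEq ι] {n : ℕ} (Q : Finset ι) (t : ι) (ht : t ∈ Q)
    (i : ι → Fin (n + 1)) (a : Fin (n + 1)) :
    cont Q (Function.update i t a) = cont (Q.erase t) i + Pi.single a 1 := by
  funext c
  unfold cont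
  rw [Pi.add_apply, ← Finset.insert_erase ht, Finset.filter_insert]
  have hf : (Finset.filter (fun u => Function.update i t a u = c) (Q.erase t))
      = Finset.filter (fun u => i u = c) (Q.erase t) := by
    apply Finset.filter_congr
    intro u hu
    rw [Function.update_of_ne (Finset.ne_of_mem_erase hu)]
  rw [hf, Finset.erase_insert_eq_erase, Finset.erase_idem, Function.update_self]
  by_cases hc : a = c
  · subst hc
    rw [if_pos rfl, Finset.card_insert_of_notMem, Pi.single_eq_same]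
    simp
  · rw [if_neg hc, Pi.single_eq_of_ne (Ne.symm hc), add_zero]

/-- evaluation at `a` in the slot `t` -/
private def ev {K ι : Type} [Field K] [DecidableEq ι] {n : ℕ} (t : ι) (a : Fin (n + 1)) :
    Tn K ι n →ₗ[K] Tn K ι n where
  toFun y := fun i => y (Function.update i t a)
  map_add' _ _ := rfl
  map_smul' _ _ := rfl

private theorem ev_mem {K ι : Type} [Field K] [Fintype ι] [DecidableEq ι] {n : ℕ} (t : ι)
    (Z : Submodule K (Tn K ι n)) (hZ : Z ≤ Dp K n (Finset.univ.erase t)) (a : Fin (n + 1))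
    (y : Tn K ι n) (hy : y ∈ Dp K n {t} * Z) : ev t a y ∈ Z := by
  have : Dp K n {t} * Z ≤ Z.comap (ev t a) := by
    rw [Submodule.mul_le]
    intro f hf z hz
    rw [Submodule.mem_comap]
    have e : ev t a (f * z) = f (fun _ => a) • z := by
      funext i
      change f (Function.update i t a) * z (Function.update i t a) = f (fun _ => a) * z i
      have e1 : f (Function.update i t a) = f (fun _ => a) := by
        apply hf
        intro u hu
        rw [Finset.mem_singleton] at hu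
        subst hu
        rw [Function.update_self]
      have e2 : z (Function.update i t a) = z i := by
        apply hZ hz
        intro u hu
        rw [Function.update_of_ne (Finset.ne_of_mem_erase hu)]
      rw [e1, e2]
    rw [e]
    exact Z.smul_mem _ hz
  exact this hy

theorem t_U1 (h1 : S_Ini) (h2 : S_Cnt) (_h3 : S_Wg) : S_U1 := by
  intro K ι _ _ _ n Q t Z ht hZ
  classical
  obtain ⟨b, hb⟩ : ∃ b, Q.card = b + 1 := ⟨Q.card - 1, by
    have : 0 < Q.card := Finset.card_pos.2 ⟨t, ht⟩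
    omega⟩
  have hb' : (Q.erase t).card = b := by
    rw [Finset.card_erase_of_mem ht, hb]
    rfl
  obtain ⟨-, hC2, hC3⟩ := h2 K ι n Q
  obtain ⟨-, hD2, -⟩ := h2 K ι n (Q.erase t)
  rw [hb] at hC2
  rw [hb'] at hD2
  choose ch hch hch' using hC2
  choose dh hdh hdh' using hD2
  set Y : Submodule K (Tn K ι n) := Sy K n Q ⊓ Dp K n {t} * Z with hY
  let E : Tn K ι n →ₗ[K] ((↥(Dl n (b + 1)) × (ι → Fin (n + 1))) → K) :=
    { toFun := fun y p => y (ch p.1.1 p.1.2 p.2)
      map_add' := fun _ _ => rfl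
      map_smul' := fun _ _ => rfl }
  let E' : Tn K ι n →ₗ[K] ((↥(Dl n b) × (ι → Fin (n + 1))) → K) :=
    { toFun := fun y p => y (dh p.1.1 p.1.2 p.2)
      map_add' := fun _ _ => rfl
      map_smul' := fun _ _ => rfl }
  have hinj : Function.Injective (E.domRestrict Y) := by
    rw [← LinearMap.ker_eq_bot, LinearMap.ker_eq_bot']
    rintro ⟨y, hy⟩ h0
    have h0' : E y = 0 := h0
    apply Subtype.ext
    change y = 0
    funext i
    have hi : cont Q i ∈ Dl n (b + 1) := by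
      rw [← hb]
      exact (h2 K ι n Q).1 i
    have e1 : y i = y (ch (cont Q i) hi i) :=
      hC3 y (Submodule.mem_inf.1 hy).1 _ _ (hch _ hi i).symm fun u hu => (hch' _ hi i u hu).symm
    rw [e1]
    exact congrFun h0' (⟨cont Q i, hi⟩, i)
  have hfY : Module.finrank K Y = Module.finrank K (Y.map E) := by
    rw [← LinearMap.range_domRestrict, LinearMap.finrank_range_of_inj hinj]
  have hfZ : Module.finrank K (Z.map E') ≤ Module.finrank K Z := Submodule.finrank_map_le _ _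
  rw [hfY]
  refine le_trans ?_ (Nat.mul_le_mul_left _ hfZ)
  have hshift : ∀ (ν : Fin (n + 1) → ℕ) (a : Fin (n + 1)), ν ∈ Dl n b →
      ν + Pi.single a 1 ∈ Dl n (b + 1) := by
    intro ν a hν
    rw [mem_Dl] at hν ⊢
    rw [← hν]
    simp only [Pi.add_apply, Finset.sum_add_distrib]
    congr 1
    rw [Finset.sum_pi_single']
    simp
  let s : (↥(Dl n b) × (ι → Fin (n + 1))) → Fin (n + 1) → (↥(Dl n (b + 1)) × (ι → Fin (n + 1))) :=
    fun p a => (⟨p.1.1 + Pi.single a 1, hshift _ a p.1.2⟩, p.2)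
  refine absU1 h1 (fun p : ↥(Dl n (b + 1)) × (ι → Fin (n + 1)) => wt (b + 2) (p.1.1, p.2)) ?_
    (fun p : ↥(Dl n b) × (ι → Fin (n + 1)) => wt (b + 2) (p.1.1, p.2)) ?_
    (fun p a => p.1.1 a) s _ _ ?_ ?_ ?_ ?_ _ _ ?_
  · rintro ⟨⟨μ, hμ⟩, ρ⟩ ⟨⟨μ', hμ'⟩, ρ'⟩ h
    have := wt_inj (b + 2) (μ, ρ) (μ', ρ') (Dl_lt μ hμ) (Dl_lt μ' hμ') h
    simp only [Prod.mk.injEq] at this
    obtain ⟨rfl, rfl⟩ := this
    rfl
  · rintro ⟨⟨μ, hμ⟩, ρ⟩ ⟨⟨μ', hμ'⟩, ρ'⟩ h
    have := wt_inj (b + 2) (μ, ρ) (μ', ρ') (fun a => lt_trans (Dl_lt μ hμ a) (by omega))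
      (fun a => lt_trans (Dl_lt μ' hμ' a) (by omega)) h
    simp only [Prod.mk.injEq] at this
    obtain ⟨rfl, rfl⟩ := this
    rfl
  · rintro ⟨⟨μ, hμ⟩, ρ⟩
    rw [hb]
    exact le_of_eq ((mem_Dl μ).1 hμ).symm
  · rintro ⟨⟨μ, hμ⟩, ρ⟩ a ha
    have ha' : μ a ≠ 0 := ha
    have hν : (μ - Pi.single a 1) + Pi.single a 1 = μ := by
      apply tsub_add_cancel_of_le
      intro c
      by_cases hc : c = a
      · subst hc
        rw [Pi.single_eq_same]
        exact Nat.one_le_iff_ne_zero.2 ha'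
      · rw [Pi.single_eq_of_ne hc]
        exact Nat.zero_le _
    have hνm : μ - Pi.single a 1 ∈ Dl n b := by
      rw [mem_Dl] at hμ ⊢
      rw [← hν] at hμ
      simp only [Pi.add_apply, Finset.sum_add_distrib] at hμ
      rw [Finset.sum_pi_single'] at hμ
      simp only [Finset.mem_univ, if_true] at hμ
      exact Nat.add_right_cancel hμ
    refine ⟨(⟨μ - Pi.single a 1, hνm⟩, ρ), ?_⟩
    apply Prod.ext
    · exact Subtype.ext hν
    · rfl
  · rintro ⟨⟨ν, hν⟩, ρ⟩
    change ∑ a, (ν + Pi.single a 1 : Fin (n + 1) → ℕ) a ≤ Q.card + n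
    have : ∀ a, (ν + Pi.single a 1 : Fin (n + 1) → ℕ) a = ν a + 1 := by
      intro a
      rw [Pi.add_apply, Pi.single_eq_same]
    simp only [this, Finset.sum_add_distrib]
    rw [(mem_Dl ν).1 hν, hb]
    simp
    omega
  · rintro a ⟨⟨ν, hν⟩, ρ⟩ ⟨⟨ν', hν'⟩, ρ'⟩ h
    change wt (b + 2) (ν + Pi.single a 1, ρ) < wt (b + 2) (ν' + Pi.single a 1, ρ')
    rw [wt_add, wt_add]
    exact Nat.add_lt_add_right h _
  · rintro _ ⟨y, hy, rfl⟩ a
    refine ⟨ev t a y, ev_mem t Z hZ a y (Submodule.mem_inf.1 hy).2, ?_⟩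
    funext p
    obtain ⟨⟨ν, hν⟩, ρ⟩ := p
    change y (Function.update (dh ν hν ρ) t a) = y (ch (ν + Pi.single a 1) (hshift ν a hν) ρ)
    apply hC3 y (Submodule.mem_inf.1 hy).1
    · rw [cont_update Q t ht, hdh, hch]
    · intro u hu
      have hut : u ≠ t := fun h => hu (h ▸ ht)
      rw [Function.update_of_ne hut, hdh' ν hν ρ u (fun h => hu (Finset.mem_of_mem_erase h)),
        hch' _ _ ρ u hu]

end Pool.Agent.Lib.MP_d01072_ag.CL
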