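import Pool.Agent.Lib.MP_d01072_ag.CL.Spec

set_option autoImplicit false

namespace Pool.Agent.Lib.MP_d01072_ag.CL

private lemma u2_Dp_mono {K : Type} [Field K] {ι : Type} {n : ℕ}
    {S T : Finset ι} (h : S ⊆ T) : Dp K n S ≤ Dp K n T :=
  fun _ hf i i' hi => hf i i' fun t ht => hi t (h ht)

private lemma u2_Dp_mul {K : Type} [Field K] {ι : Type} {n : ℕ} {S : Finset ι}
    {A B : Submodule K (Tn K ι n)} (hA : A ≤ Dp K n S) (hB : B ≤ Dp K n S) :
    A * B ≤ Dp K n S := by
  rw [Submodule.mul_le]
  intro f hf g hg i i' hi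
  rw [Pi.mul_apply, Pi.mul_apply, hA hf i i' hi, hB hg i i' hi]

/-- restriction of the slot `t` to the value `a` -/
private def u2_R {K : Type} [Field K] {ι : Type} [DecidableEq ι] {n : ℕ} (t : ι)
    (a : Fin (n + 1)) : Tn K ι n →ₗ[K] Tn K ι n where
  toFun f := fun i => f (Function.update i t a)
  map_add' _ _ := rfl
  map_smul' _ _ := rfl

/-- two contractions -/
theorem t_U2 (h1 : S_U1) : S_U2 := by
  intro K ι _ _ _ n Q t q Z ht hq htq hZ
  classical
  set Y : Submodule K (Tn K ι n) := Sy K n Q ⊓ Dp K n {t} * (Dp K n {q} * Z) with hY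
  set Z₁ : Submodule K (Tn K ι n) := ⨆ a : Fin (n + 1), Y.map (u2_R t a) with hZ₁
  have hqt : Dp K n {q} ≤ Dp K n (Finset.univ.erase t) :=
    u2_Dp_mono (fun x hx => by
      rw [Finset.mem_singleton] at hx
      rw [Finset.mem_erase]
      exact ⟨by rw [hx]; exact htq.symm, Finset.mem_univ _⟩)
  have hZt : Z ≤ Dp K n (Finset.univ.erase t) := hZ.trans (u2_Dp_mono (Finset.erase_subset _ _))
  have hqZ : Dp K n {q} * Z ≤ Dp K n (Finset.univ.erase t) := u2_Dp_mul hqt hZt
  -- the restrictions are in `Dp q * Z`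
  have hR : ∀ a, (Dp K n {t} * (Dp K n {q} * Z)).map (u2_R t a) ≤ Dp K n {q} * Z := by
    intro a
    rw [Submodule.map_le_iff_le_comap, Submodule.mul_le]
    intro f hf g hg
    rw [Submodule.mem_comap]
    have e1 : (u2_R t a) (f * g) = (f (fun _ => a)) • g := by
      funext i
      change (f * g) (Function.update i t a) = f (fun _ => a) * g i
      rw [Pi.mul_apply]
      congr 1
      · refine hf _ _ fun x hx => ?_
        rw [Finset.mem_singleton] at hx
        rw [hx, Function.update_self]
      · refine hqZ hg _ _ fun x hx => ?_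
        rw [Finset.mem_erase] at hx
        rw [Function.update_of_ne hx.1]
    rw [e1]
    exact Submodule.smul_mem _ _ hg
  have hRS : ∀ a, (Sy K n Q).map (u2_R t a) ≤ Sy K n (Q.erase t) := by
    intro a
    rw [Submodule.map_le_iff_le_comap]
    intro f hf
    rw [Submodule.mem_comap]
    intro s hs s' hs' i
    rw [Finset.mem_erase] at hs hs'
    change f (Function.update (fun u => i (Equiv.swap s s' u)) t a) = f (Function.update i t a)
    rw [← hf s hs.2 s' hs'.2 (Function.update i t a)]
    congr 1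
    funext u
    by_cases hu : u = t
    · rw [hu, Function.update_self, Equiv.swap_apply_of_ne_of_ne (Ne.symm hs.1) (Ne.symm hs'.1),
        Function.update_self]
    · rw [Function.update_of_ne hu, Function.update_of_ne]
      intro h
      apply hu
      have h2 := congrArg (Equiv.swap s s') h
      rw [Equiv.swap_apply_self, Equiv.swap_apply_of_ne_of_ne (Ne.symm hs.1) (Ne.symm hs'.1)] at h2
      exact h2
  have hZ₁le : Z₁ ≤ Sy K n (Q.erase t) ⊓ Dp K n {q} * Z := by
    refine iSup_le fun a => le_inf ?_ ?_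
    · exact (Submodule.map_mono inf_le_left).trans (hRS a)
    · exact (Submodule.map_mono inf_le_right).trans (hR a)
  have hZ₁Dp : Z₁ ≤ Dp K n (Finset.univ.erase t) := (hZ₁le.trans inf_le_right).trans hqZ
  have hYle : Y ≤ Sy K n Q ⊓ Dp K n {t} * Z₁ := by
    refine le_inf inf_le_left fun y hy => ?_
    have e1 : y = ∑ a : Fin (n + 1),
        ((fun i : ι → Fin (n + 1) => if i t = a then (1 : K) else 0) : Tn K ι n) *
          u2_R t a y := by
      funext i
      rw [Finset.sum_apply, Finset.sum_eq_single (i t)]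
      · rw [Pi.mul_apply, if_pos rfl, one_mul]
        change y i = y (Function.update i t (i t))
        rw [Function.update_eq_self]
      · intro a _ ha
        rw [Pi.mul_apply, if_neg (Ne.symm ha), zero_mul]
      · intro h
        exact absurd (Finset.mem_univ _) h
    rw [e1]
    refine Submodule.sum_mem _ fun a _ => Submodule.mul_mem_mul ?_ ?_
    · intro i i' hi
      change (if i t = a then (1 : K) else 0) = if i' t = a then (1 : K) else 0
      rw [hi t (Finset.mem_singleton_self t)]
    · exact Submodule.mem_iSup_of_mem a (Submodule.mem_map_of_mem hy)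
  have c1 : (Q.erase t).card = Q.card - 1 := Finset.card_erase_of_mem ht
  have b1 := h1 K ι n Q t Z₁ ht hZ₁Dp
  have b2 := h1 K ι n (Q.erase t) q Z (Finset.mem_erase.2 ⟨htq.symm, hq⟩)
    (hZ.trans (u2_Dp_mono (Finset.erase_subset_erase _ (Finset.erase_subset _ _))))
  rw [c1] at b2
  have b3 : Module.finrank K Y ≤ Module.finrank K (Sy K n Q ⊓ Dp K n {t} * Z₁ :
      Submodule K (Tn K ι n)) := Submodule.finrank_mono hYle
  have b4 : Module.finrank K Z₁ ≤ Module.finrank K (Sy K n (Q.erase t) ⊓ Dp K n {q} * Z :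
      Submodule K (Tn K ι n)) := Submodule.finrank_mono hZ₁le
  calc Q.card * (Q.card - 1) * Module.finrank K Y
      ≤ Q.card * (Q.card - 1) * Module.finrank K (Sy K n Q ⊓ Dp K n {t} * Z₁ :
      Submodule K (Tn K ι n)) := Nat.mul_le_mul_left _ b3
    _ = (Q.card - 1) * (Q.card * Module.finrank K (Sy K n Q ⊓ Dp K n {t} * Z₁ :
      Submodule K (Tn K ι n))) := by ring
    _ ≤ (Q.card - 1) * ((Q.card + n) * Module.finrank K Z₁) := Nat.mul_le_mul_left _ b1
    _ ≤ (Q.card - 1) * ((Q.card + n) * Module.finrank K (Sy K n (Q.erase t) ⊓ Dp K n {q} * Z :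
      Submodule K (Tn K ι n))) := Nat.mul_le_mul_left _ (Nat.mul_le_mul_left _ b4)
    _ = (Q.card + n) * ((Q.card - 1) * Module.finrank K (Sy K n (Q.erase t) ⊓ Dp K n {q} * Z :
      Submodule K (Tn K ι n))) := by ring
    _ ≤ (Q.card + n) * ((Q.card - 1 + n) * Module.finrank K Z) := Nat.mul_le_mul_left _ b2
    _ = (Q.card + n) * (Q.card - 1 + n) * Module.finrank K Z := by ring

end Pool.Agent.Lib.MP_d01072_ag.CL
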