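import Pool.Agent.Lib.MP_d01072_ag.CL.Spec

/-! MP_d01072_ag, package CL: the union lemma for symmetric tensors. -/

set_option autoImplicit false

namespace Pool.Agent.Lib.MP_d01072_ag.CL

open MvPolynomial

/-- the multisets of size `m`, lexicographic order -/
private def Ix (n m : ℕ) : Type := {μ : Fin (n + 1) → ℕ // μ ∈ Dl n m}

private noncomputable instance ixFin (n m : ℕ) : Fintype (Ix n m) :=
  inferInstanceAs (Fintype {μ : Fin (n + 1) → ℕ // μ ∈ Dl n m})

private noncomputable instance ixOrd (n m : ℕ) : LinearOrder (Ix n m) :=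
  LinearOrder.lift' (fun μ : Ix n m => toLex μ.1) (fun _ _ h => Subtype.ext (toLex.injective h))

private theorem ix_lt {n m : ℕ} {a b : Ix n m} : a < b ↔ toLex a.1 < toLex b.1 := Iff.rfl

private theorem lex_add {n : ℕ} {a b : Fin (n + 1) → ℕ} (c : Fin (n + 1) → ℕ)
    (h : toLex a < toLex b) : toLex (a + c) < toLex (b + c) := by
  obtain ⟨i, hi, hlt⟩ := h
  refine ⟨i, fun j hj => ?_, ?_⟩
  · have := hi j hj
    show a j + c j = b j + c j
    exact congrArg (· + c j) this
  · show a i + c i < b i + c i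
    exact Nat.add_lt_add_right hlt _

private theorem lex_add_le {n : ℕ} {a b : Fin (n + 1) → ℕ} (c : Fin (n + 1) → ℕ)
    (h : toLex a ≤ toLex b) : toLex (a + c) ≤ toLex (b + c) := by
  rcases h.lt_or_eq with h | h
  · exact (lex_add c h).le
  · have : a = b := toLex.injective h
    rw [this]

section
variable {K : Type} [Field K] {ι : Type} [DecidableEq ι] {n : ℕ}

private noncomputable def rep (h : S_Cnt) (n : ℕ) (Q : Finset ι) (μ : Ix n Q.card) :
    ι → Fin (n + 1) :=
  Classical.choose ((h ℚ ι n Q).2.1 μ.1 μ.2 (fun _ => 0))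

private theorem rep_cont (h : S_Cnt) (Q : Finset ι) (μ : Ix n Q.card) :
    cont Q (rep h n Q μ) = μ.1 :=
  (Classical.choose_spec ((h ℚ ι n Q).2.1 μ.1 μ.2 (fun _ => 0))).1

private theorem rep_out (h : S_Cnt) (Q : Finset ι) (μ : Ix n Q.card) (t : ι) (ht : t ∉ Q) :
    rep h n Q μ t = 0 :=
  (Classical.choose_spec ((h ℚ ι n Q).2.1 μ.1 μ.2 (fun _ => 0))).2 t ht

private noncomputable def ctx (h : S_Cnt) (Q : Finset ι) (i : ι → Fin (n + 1)) : Ix n Q.card :=
  ⟨cont Q i, (h ℚ ι n Q).1 i⟩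

/-- restriction to the representatives -/
private noncomputable def hat (K : Type) [Field K] (h : S_Cnt) (n : ℕ) (Q : Finset ι) :
    Tn K ι n →ₗ[K] (Ix n Q.card → K) where
  toFun f := fun μ => f (rep h n Q μ)
  map_add' _ _ := rfl
  map_smul' _ _ := rfl

private theorem hat_eval (h : S_Cnt) (Q : Finset ι) {f : Tn K ι n} (hf : f ∈ Sy K n Q)
    (hd : f ∈ Dp K n Q) (i : ι → Fin (n + 1)) : f i = hat K h n Q f (ctx h Q i) := by
  show f i = f (rep h n Q (ctx h Q i))
  have e1 : f i = f (Q.piecewise i (rep h n Q (ctx h Q i))) := by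
    refine hd _ _ fun t ht => ?_
    rw [Finset.piecewise_eq_of_mem _ _ _ ht]
  rw [e1]
  refine (h K ι n Q).2.2 f hf _ _ ?_ fun t ht => by rw [Finset.piecewise_eq_of_notMem _ _ _ ht]
  rw [rep_cont]
  show cont Q _ = cont Q i
  funext a
  unfold cont
  congr 1
  refine Finset.filter_congr fun t ht => ?_
  rw [Finset.piecewise_eq_of_mem _ _ _ ht]

private theorem hat_inj (h : S_Cnt) (Q : Finset ι) {f : Tn K ι n} (hf : f ∈ Sy K n Q)
    (hd : f ∈ Dp K n Q) (h0 : hat K h n Q f = 0) : f = 0 := by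
  funext i
  rw [hat_eval h Q hf hd, h0]
  rfl

private theorem hat_finrank (h : S_Cnt) (Q : Finset ι) (W : Submodule K (Tn K ι n))
    (hW : W ≤ Sy K n Q) (hD : W ≤ Dp K n Q) :
    Module.finrank K (W.map (hat K h n Q)) = Module.finrank K W := by
  have hi : Function.Injective ((hat K h n Q).domRestrict W) := by
    rw [← LinearMap.ker_eq_bot, LinearMap.ker_eq_bot']
    rintro ⟨f, hf⟩ h0
    exact Subtype.ext (hat_inj h Q (hW hf) (hD hf) h0)
  have := LinearMap.finrank_range_of_inj hi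
  rwa [LinearMap.range_domRestrict] at this

/-- a functional with given values on two subspaces -/
private theorem exists_fun {V : Type} [AddCommGroup V] [Module K V] (A B : Submodule K V)
    (L : V →ₗ[K] K) (h : ∀ x ∈ A, x ∈ B → L x = 0) :
    ∃ φ : V →ₗ[K] K, (∀ x ∈ A, φ x = 0) ∧ ∀ x ∈ B, φ x = L x := by
  have h1 : L ∈ (A ⊓ B).dualAnnihilator := by
    rw [Submodule.mem_dualAnnihilator]
    exact fun x hx => h x hx.1 hx.2
  rw [Subspace.dualAnnihilator_inf_eq] at h1
  obtain ⟨φ, hφ, ψ, hψ, e⟩ := Submodule.mem_sup.1 h1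
  rw [Submodule.mem_dualAnnihilator] at hφ hψ
  refine ⟨φ, hφ, fun x hx => ?_⟩
  rw [← e, LinearMap.add_apply, hψ x hx, add_zero]

/-- contraction of the slots `P` with `φ` -/
private noncomputable def contr (P : Finset ι) (φ : Tn K ι n →ₗ[K] K) :
    Tn K ι n →ₗ[K] Tn K ι n where
  toFun y := fun i => φ (fun i' => y (P.piecewise i' i))
  map_add' y z := by
    funext i
    exact map_add φ (fun i' => y (P.piecewise i' i)) (fun i' => z (P.piecewise i' i))
  map_smul' c y := by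
    funext i
    exact map_smul φ c (fun i' => y (P.piecewise i' i))

private theorem contr_mul (S P : Finset ι) (φ : Tn K ι n →ₗ[K] K) {a g : Tn K ι n}
    (ha : a ∈ Dp K n P) (hg : g ∈ Dp K n (S \ P)) : contr P φ (a * g) = φ a • g := by
  funext i
  show φ (fun i' => (a * g) (P.piecewise i' i)) = φ a * g i
  have : (fun i' : ι → Fin (n + 1) => (a * g) (P.piecewise i' i)) = g i • a := by
    funext i'
    show a (P.piecewise i' i) * g (P.piecewise i' i) = g i * a i'
    have e1 : a (P.piecewise i' i) = a i' :=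
      ha _ _ fun t ht => Finset.piecewise_eq_of_mem _ _ _ ht
    have e2 : g (P.piecewise i' i) = g i :=
      hg _ _ fun t ht => Finset.piecewise_eq_of_notMem _ _ _ (Finset.mem_sdiff.1 ht).2
    rw [e1, e2, mul_comm]
  rw [this, map_smul, smul_eq_mul, mul_comm]

private theorem contr_mem (S P : Finset ι) (φ : Tn K ι n →ₗ[K] K)
    (A Z : Submodule K (Tn K ι n)) (hA : A ≤ Dp K n P) (hZ : Z ≤ Dp K n (S \ P))
    (hφ : ∀ x ∈ A, φ x = 0) {y : Tn K ι n}
    (hy : y ∈ A * Dp K n (S \ P) ⊔ Dp K n P * Z) : contr P φ y ∈ Z := by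
  have h1 : A * Dp K n (S \ P) ⊔ Dp K n P * Z ≤ Z.comap (contr P φ) := by
    refine sup_le (Submodule.mul_le.2 fun a ha g hg => ?_) (Submodule.mul_le.2 fun a ha g hg => ?_)
    · rw [Submodule.mem_comap, contr_mul S P φ (hA ha) hg, hφ a ha, zero_smul]
      exact Z.zero_mem
    · rw [Submodule.mem_comap, contr_mul S P φ ha (hZ hg)]
      exact Z.smul_mem _ hg
  exact h1 hy

private theorem pw_swap_out {P : Finset ι} {t t' : ι} (ht : t ∉ P) (ht' : t' ∉ P)
    (i i' : ι → Fin (n + 1)) :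
    P.piecewise i' (fun u => i (Equiv.swap t t' u)) =
      fun u => P.piecewise i' i (Equiv.swap t t' u) := by
  funext u
  by_cases hu : u ∈ P
  · have h1 : u ≠ t := fun e => ht (e ▸ hu)
    have h2 : u ≠ t' := fun e => ht' (e ▸ hu)
    rw [Equiv.swap_apply_of_ne_of_ne h1 h2, Finset.piecewise_eq_of_mem _ _ _ hu,
      Finset.piecewise_eq_of_mem _ _ _ hu]
  · have h3 : Equiv.swap t t' u ∉ P := by
      rw [Equiv.swap_apply_def]
      split_ifs
      · exact ht'
      · exact ht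
      · exact hu
    rw [Finset.piecewise_eq_of_notMem _ _ _ hu, Finset.piecewise_eq_of_notMem _ _ _ h3]

private theorem pw_swap_in {P : Finset ι} {t t' : ι} (ht : t ∈ P) (ht' : t' ∈ P)
    (i i' : ι → Fin (n + 1)) :
    P.piecewise (fun u => i' (Equiv.swap t t' u)) i =
      fun u => P.piecewise i' i (Equiv.swap t t' u) := by
  funext u
  by_cases hu : u ∈ P
  · have h3 : Equiv.swap t t' u ∈ P := by
      rw [Equiv.swap_apply_def]
      split_ifs
      · exact ht'
      · exact ht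
      · exact hu
    rw [Finset.piecewise_eq_of_mem _ _ _ hu, Finset.piecewise_eq_of_mem _ _ _ h3]
  · have h1 : u ≠ t := fun e => hu (e ▸ ht)
    have h2 : u ≠ t' := fun e => hu (e ▸ ht')
    rw [Equiv.swap_apply_of_ne_of_ne h1 h2, Finset.piecewise_eq_of_notMem _ _ _ hu,
      Finset.piecewise_eq_of_notMem _ _ _ hu]

private theorem contr_sym (S P : Finset ι) (φ : Tn K ι n →ₗ[K] K) {y : Tn K ι n}
    (hy : y ∈ Sy K n S) : contr P φ y ∈ Sy K n (S \ P) := by
  intro t ht t' ht' i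
  show φ (fun i' => y (P.piecewise i' (fun u => i (Equiv.swap t t' u)))) =
    φ (fun i' => y (P.piecewise i' i))
  congr 1
  funext i'
  rw [pw_swap_out (Finset.mem_sdiff.1 ht).2 (Finset.mem_sdiff.1 ht').2]
  exact hy t (Finset.mem_sdiff.1 ht).1 t' (Finset.mem_sdiff.1 ht').1 _

private theorem slice_sym (S P : Finset ι) (hP : P ⊆ S) {y : Tn K ι n} (hy : y ∈ Sy K n S)
    (r : ι → Fin (n + 1)) : (fun i' => y (P.piecewise i' r)) ∈ Sy K n P ⊓ Dp K n P := by
  refine ⟨fun t ht t' ht' i => ?_, fun i i' h => ?_⟩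
  · show y (P.piecewise (fun u => i (Equiv.swap t t' u)) r) = y (P.piecewise i r)
    rw [pw_swap_in ht ht']
    exact hy t (hP ht) t' (hP ht') _
  · show y (P.piecewise i r) = y (P.piecewise i' r)
    congr 1
    funext u
    by_cases hu : u ∈ P
    · rw [Finset.piecewise_eq_of_mem _ _ _ hu, Finset.piecewise_eq_of_mem _ _ _ hu, h u hu]
    · rw [Finset.piecewise_eq_of_notMem _ _ _ hu, Finset.piecewise_eq_of_notMem _ _ _ hu]

private theorem cont_pw (S P : Finset ι) (hP : P ⊆ S) (i i' : ι → Fin (n + 1)) :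
    cont S (P.piecewise i' i) = cont P i' + cont (S \ P) i := by
  funext a
  show (S.filter fun t => P.piecewise i' i t = a).card = (P.filter fun t => i' t = a).card +
    ((S \ P).filter fun t => i t = a).card
  have hS : S = P ∪ (S \ P) := (Finset.union_sdiff_of_subset hP).symm
  conv_lhs => rw [hS]
  rw [Finset.filter_union, Finset.card_union_of_disjoint]
  · congr 1
    · congr 1
      refine Finset.filter_congr fun t ht => ?_
      rw [Finset.piecewise_eq_of_mem _ _ _ ht]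
    · congr 1
      refine Finset.filter_congr fun t ht => ?_
      rw [Finset.piecewise_eq_of_notMem _ _ _ (Finset.mem_sdiff.1 ht).2]
  · exact Finset.disjoint_filter_filter Finset.disjoint_sdiff

/-- the values of the contraction -/
private theorem contr_val (h : S_Cnt) (S P : Finset ι) (hP : P ⊆ S) (φ : Tn K ι n →ₗ[K] K)
    (w : Ix n P.card → K)
    (hφ : ∀ x ∈ Sy K n P ⊓ Dp K n P, φ x = ∑ κ, w κ * hat K h n P x κ) {y : Tn K ι n}
    (hy : y ∈ Sy K n S) (hd : y ∈ Dp K n S) (ν : Ix n (S \ P).card) :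
    hat K h n (S \ P) (contr P φ y) ν =
      ∑ κ, w κ * hat K h n S y (ctx h S (P.piecewise (rep h n P κ) (rep h n (S \ P) ν))) := by
  show φ (fun i' => y (P.piecewise i' (rep h n (S \ P) ν))) = _
  rw [hφ _ (slice_sym S P hP hy _)]
  refine Finset.sum_congr rfl fun κ _ => ?_
  congr 1
  exact hat_eval h S hy hd _

private theorem claim (h : S_Cnt) (hI : S_Ini) (S P : Finset ι) (hP : P ⊆ S)
    (A Z : Submodule K (Tn K ι n)) (hA : A ≤ Dp K n P) (hZ : Z ≤ Dp K n (S \ P))
    (μ : Ix n S.card) (κ : Ix n P.card) (ν : Ix n (S \ P).card) (e : κ.1 + ν.1 = μ.1)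
    (hμ : μ ∈ In ((Sy K n S ⊓ (A * Dp K n (S \ P) ⊔ Dp K n P * Z) :
      Submodule K (Tn K ι n)).map (hat K h n S)))
    (hκ : κ ∉ In ((Sy K n P ⊓ A : Submodule K (Tn K ι n)).map (hat K h n P)))
    (hYD : (Sy K n S ⊓ (A * Dp K n (S \ P) ⊔ Dp K n P * Z) : Submodule K (Tn K ι n)) ≤
      Dp K n S) :
    ν ∈ In ((Sy K n (S \ P) ⊓ Z : Submodule K (Tn K ι n)).map (hat K h n (S \ P))) := by
  obtain ⟨w, hw, hw0, hwA⟩ := (hI K (Ix n P.card) _).2 κ hκ
  obtain ⟨φ, hφA, hφB⟩ := exists_fun A (Sy K n P ⊓ Dp K n P)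
    ((∑ κ', w κ' • (LinearMap.proj κ' : (Ix n P.card → K) →ₗ[K] K)) ∘ₗ hat K h n P) (by
      intro x hx hx'
      have := hwA _ (Submodule.mem_map_of_mem (f := hat K h n P)
        (show x ∈ (Sy K n P ⊓ A : Submodule K (Tn K ι n)) from ⟨hx'.1, hx⟩))
      rw [LinearMap.comp_apply, LinearMap.sum_apply]
      exact this)
  have hφ : ∀ x ∈ Sy K n P ⊓ Dp K n P, φ x = ∑ κ', w κ' * hat K h n P x κ' := by
    intro x hx
    rw [hφB x hx, LinearMap.comp_apply, LinearMap.sum_apply]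
    rfl
  obtain ⟨_, ⟨y, hy, rfl⟩, hyμ, hygt⟩ := hμ
  have hval := contr_val h S P hP φ w hφ hy.1 (hYD hy)
  have hadd : ∀ (κ' : Ix n P.card) (ν' : Ix n (S \ P).card),
      (ctx h S (P.piecewise (rep h n P κ') (rep h n (S \ P) ν'))).1 = κ'.1 + ν'.1 := by
    intro κ' ν'
    show cont S _ = _
    rw [cont_pw S P hP, rep_cont, rep_cont]
  refine ⟨_, Submodule.mem_map_of_mem (f := hat K h n (S \ P))
    (show contr P φ y ∈ (Sy K n (S \ P) ⊓ Z : Submodule K (Tn K ι n)) from
      ⟨contr_sym S P φ hy.1, contr_mem S P φ A Z hA hZ hφA hy.2⟩), ?_, ?_⟩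
  · rw [hval, Finset.sum_eq_single κ]
    · have e2 : ctx h S (P.piecewise (rep h n P κ) (rep h n (S \ P) ν)) = μ :=
        Subtype.ext ((hadd κ ν).trans e)
      rw [e2]
      exact mul_ne_zero hw hyμ
    · intro κ' _ hne
      rcases lt_or_gt_of_ne hne with hlt | hgt
      · rw [hw0 κ' hlt, zero_mul]
      · rw [hygt _ ?_, mul_zero]
        rw [ix_lt, hadd, ← e]
        exact lex_add _ (ix_lt.1 hgt)
    · intro hn
      exact absurd (Finset.mem_univ _) hn
  · intro ν' hν'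
    rw [hval]
    refine Finset.sum_eq_zero fun κ' _ => ?_
    rcases lt_or_ge κ' κ with hlt | hge
    · rw [hw0 κ' hlt, zero_mul]
    · rw [hygt _ ?_, mul_zero]
      rw [ix_lt, hadd, ← e]
      have h1 : toLex (κ.1 + ν.1) < toLex (κ.1 + ν'.1) := by
        rw [add_comm κ.1, add_comm κ.1]
        exact lex_add _ (ix_lt.1 hν')
      have h2 : toLex (κ.1 + ν'.1) ≤ toLex (κ'.1 + ν'.1) := by
        rcases hge.lt_or_eq with h3 | h3
        · exact (lex_add _ (ix_lt.1 h3)).le
        · rw [h3]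
      exact h1.trans_le h2

end

/-! ### Counting -/

private theorem choose_prod_symm {n : ℕ} {μ κ : Fin (n + 1) → ℕ} (h : ∀ i, κ i ≤ μ i) :
    ∏ i, (μ i).choose (κ i) = ∏ i, (μ i).choose ((μ - κ) i) :=
  Finset.prod_congr rfl fun i _ => (Nat.choose_symm (h i)).symm

private theorem mem_Dl {n m : ℕ} {μ : Fin (n + 1) → ℕ} : μ ∈ Dl n m ↔ ∑ i, μ i = m := by
  unfold Dl
  rw [Finset.mem_piAntidiag]
  constructor
  · exact fun h => h.1
  · exact fun h => ⟨h, fun i _ => Finset.mem_univ i⟩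

open Classical in
private theorem count (hW : S_Wg) (n p q s : ℕ) (hs : p + q = s)
    (y a z : (Fin (n + 1) → ℕ) → Prop)
    (h : ∀ μ κ ν, μ ∈ Dl n s → κ ∈ Dl n p → ν ∈ Dl n q → κ + ν = μ → y μ → ¬ a κ → z ν) :
    ((Dl n s).filter y).card * (Nn n p * Nn n q) ≤
      Nn n s * (Nn n p * ((Dl n q).filter z).card + Nn n q * ((Dl n p).filter a).card) := by
  subst hs
  obtain ⟨-, w2, w3, w4⟩ := hW n p (p + q) (Nat.le_add_right _ _)
  obtain ⟨-, -, v3, v4⟩ := hW n q (p + q) (Nat.le_add_left _ _)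
  have hpt : ∀ μ ∈ (Dl n (p + q)).filter y, (p + q).choose p ≤
      ∑ κ ∈ (Dl n p).filter a, ∏ i, (μ i).choose (κ i) +
        ∑ ν ∈ (Dl n q).filter z, ∏ i, (μ i).choose (ν i) := by
    intro μ hμ
    obtain ⟨hμ1, hμ2⟩ := Finset.mem_filter.1 hμ
    rw [← w2 μ hμ1, ← Finset.sum_filter_add_sum_filter_not (Dl n p) a]
    refine Nat.add_le_add_left ?_ _
    rw [← Finset.sum_filter_add_sum_filter_not ((Dl n p).filter fun κ => ¬ a κ)
      (fun κ => ∀ i, κ i ≤ μ i)]
    have h0 : ∑ κ ∈ ((Dl n p).filter fun κ => ¬ a κ).filter (fun κ => ¬ ∀ i, κ i ≤ μ i),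
        ∏ i, (μ i).choose (κ i) = 0 := by
      refine Finset.sum_eq_zero fun κ hκ => ?_
      obtain ⟨i, hi⟩ := not_forall.1 (Finset.mem_filter.1 hκ).2
      exact Finset.prod_eq_zero (Finset.mem_univ i) (Nat.choose_eq_zero_of_lt (not_le.1 hi))
    rw [h0, add_zero]
    rw [Finset.sum_congr rfl fun κ hκ => choose_prod_symm (Finset.mem_filter.1 hκ).2]
    rw [← Finset.sum_image (f := fun ν : Fin (n + 1) → ℕ => ∏ i, (μ i).choose (ν i))
      (g := fun κ => μ - κ)]
    · refine Finset.sum_le_sum_of_subset ?_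
      intro ν hν
      obtain ⟨κ, hκ, rfl⟩ := Finset.mem_image.1 hν
      obtain ⟨hκ1, hκ2⟩ := Finset.mem_filter.1 hκ
      obtain ⟨hκ3, hκ4⟩ := Finset.mem_filter.1 hκ1
      have e : κ + (μ - κ) = μ := by
        funext i
        exact Nat.add_sub_cancel' (hκ2 i)
      have hν1 : μ - κ ∈ Dl n q := by
        rw [mem_Dl] at hκ3 hμ1 ⊢
        have : ∑ i, κ i + ∑ i, (μ - κ) i = ∑ i, μ i := by
          rw [← Finset.sum_add_distrib]
          exact Finset.sum_congr rfl fun i _ => congrFun e i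
        omega
      exact Finset.mem_filter.2 ⟨hν1, h μ κ _ hμ1 hκ3 hν1 e hμ2 hκ4⟩
    · intro κ hκ κ' hκ' he
      have h1 := (Finset.mem_filter.1 hκ).2
      have h2 := (Finset.mem_filter.1 hκ').2
      funext i
      have h3 : μ i - κ i = μ i - κ' i := congrFun he i
      have h4 := h1 i
      have h5 := h2 i
      omega
  have hsum : ((Dl n (p + q)).filter y).card * (p + q).choose p ≤
      ((Dl n p).filter a).card * (p + q + n).choose (p + n) +
        ((Dl n q).filter z).card * (p + q + n).choose (q + n) := by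
    calc ((Dl n (p + q)).filter y).card * (p + q).choose p
        = ∑ μ ∈ (Dl n (p + q)).filter y, (p + q).choose p := by
          rw [Finset.sum_const, smul_eq_mul]
      _ ≤ ∑ μ ∈ (Dl n (p + q)).filter y, (∑ κ ∈ (Dl n p).filter a, ∏ i, (μ i).choose (κ i) +
            ∑ ν ∈ (Dl n q).filter z, ∏ i, (μ i).choose (ν i)) := Finset.sum_le_sum hpt
      _ ≤ ∑ μ ∈ Dl n (p + q), (∑ κ ∈ (Dl n p).filter a, ∏ i, (μ i).choose (κ i) +
            ∑ ν ∈ (Dl n q).filter z, ∏ i, (μ i).choose (ν i)) :=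
          Finset.sum_le_sum_of_subset (Finset.filter_subset _ _)
      _ = ∑ κ ∈ (Dl n p).filter a, ∑ μ ∈ Dl n (p + q), ∏ i, (μ i).choose (κ i) +
            ∑ ν ∈ (Dl n q).filter z, ∑ μ ∈ Dl n (p + q), ∏ i, (μ i).choose (ν i) := by
          rw [Finset.sum_add_distrib, Finset.sum_comm, Finset.sum_comm (s := Dl n (p + q))
            (t := (Dl n q).filter z)]
      _ = _ := by
          rw [Finset.sum_congr rfl fun κ hκ => w3 κ (Finset.mem_filter.1 hκ).1,
            Finset.sum_congr rfl fun ν hν => v3 ν (Finset.mem_filter.1 hν).1,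
            Finset.sum_const, Finset.sum_const, smul_eq_mul, smul_eq_mul]
  have hpos : 0 < (p + q).choose p := Nat.choose_pos (Nat.le_add_right _ _)
  have hsy : (p + q).choose q = (p + q).choose p := by
    rw [Nat.choose_symm_add]
  rw [hsy] at v4
  refine Nat.le_of_mul_le_mul_left ?_ hpos
  set c := (p + q).choose p
  set c1 := (p + q + n).choose (p + n)
  set c2 := (p + q + n).choose (q + n)
  set dY := ((Dl n (p + q)).filter y).card
  set dA := ((Dl n p).filter a).card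
  set dZ := ((Dl n q).filter z).card
  calc c * (dY * (Nn n p * Nn n q)) = (dY * c) * (Nn n p * Nn n q) := by ring
    _ ≤ (dA * c1 + dZ * c2) * (Nn n p * Nn n q) := Nat.mul_le_mul_right _ hsum
    _ = dA * (c1 * Nn n p) * Nn n q + dZ * (c2 * Nn n q) * Nn n p := by ring
    _ = c * (Nn n (p + q) * (Nn n p * dZ + Nn n q * dA)) := by rw [w4, v4]; ring

/-- membership for functions -/
private def InP {n m : ℕ} (T : Set (Ix n m)) (μ : Fin (n + 1) → ℕ) : Prop :=
  ∃ x ∈ T, x.1 = μ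

open Classical in
private theorem ncard_ix (n m : ℕ) (T : Set (Ix n m)) :
    T.ncard = ((Dl n m).filter fun μ => InP T μ).card := by
  have hT : T = ((Finset.univ.filter (· ∈ T) : Finset (Ix n m)) : Set (Ix n m)) := by
    ext x
    simp
  conv_lhs => rw [hT]
  rw [Set.ncard_coe_finset]
  refine Finset.card_bij (fun x _ => x.1) ?_ ?_ ?_
  · intro x hx
    exact Finset.mem_filter.2 ⟨x.2, x, (Finset.mem_filter.1 hx).2, rfl⟩
  · intro x _ x' _ e
    exact Subtype.ext e
  · intro μ hμ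
    obtain ⟨x, h, h'⟩ := (Finset.mem_filter.1 hμ).2
    exact ⟨x, Finset.mem_filter.2 ⟨Finset.mem_univ _, h⟩, h'⟩

theorem t_U3 (h1 : S_Ini) (h2 : S_Cnt) (h3 : S_Wg) : S_U3 := by
  intro K ι _ _ _ n S P A Z hP hA hZ
  have hYD : (Sy K n S ⊓ (A * Dp K n (S \ P) ⊔ Dp K n P * Z) : Submodule K (Tn K ι n)) ≤
      Dp K n S := by
    refine inf_le_right.trans (sup_le ?_ ?_)
    all_goals
      refine Submodule.mul_le.2 fun a ha g hg i i' h => ?_
      show a i * g i = a i' * g i'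
    · rw [hA ha i i' fun t ht => h t (hP ht),
        hg i i' fun t ht => h t (Finset.mem_sdiff.1 ht).1]
    · rw [ha i i' fun t ht => h t (hP ht),
        hZ hg i i' fun t ht => h t (Finset.mem_sdiff.1 ht).1]
  have hcard : P.card + (S \ P).card = S.card := by
    rw [add_comm, Finset.card_sdiff_add_card_eq_card hP]
  rw [← hat_finrank h2 S _ inf_le_left hYD,
    ← hat_finrank h2 (S \ P) (Sy K n (S \ P) ⊓ Z) inf_le_left (inf_le_right.trans hZ),
    ← hat_finrank h2 P (Sy K n P ⊓ A) inf_le_left (inf_le_right.trans hA),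
    ← (h1 K (Ix n S.card) _).1, ← (h1 K (Ix n (S \ P).card) _).1, ← (h1 K (Ix n P.card) _).1,
    ncard_ix, ncard_ix, ncard_ix]
  refine count h3 n _ _ _ hcard _ _ _ ?_
  rintro μ κ ν - hκ hν e ⟨x, hx, rfl⟩ hna
  exact ⟨⟨ν, hν⟩, claim h2 h1 S P hP A Z hA hZ x ⟨κ, hκ⟩ ⟨ν, hν⟩ e hx
    (fun hk => hna ⟨_, hk, rfl⟩) hYD, rfl⟩

end Pool.Agent.Lib.MP_d01072_ag.CL
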