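import Pool.Agent.Lib.MP_d01072_ag.CL.Spec

/-! The module `Wg` of the package CL. -/

set_option autoImplicit false

namespace Pool.Agent.Lib.MP_d01072_ag.CL

private theorem pw {n : ℕ} (s : ℕ) (f : Fin (n + 1) → PowerSeries ℤ) :
    PowerSeries.coeff s (∏ i, f i) = ∑ μ ∈ Dl n s, ∏ i, PowerSeries.coeff (μ i) (f i) := by
  rw [PowerSeries.coeff_prod]
  unfold Dl
  refine Finset.sum_bij' (fun l _ => (l : Fin (n + 1) → ℕ))
    (fun μ _ => Finsupp.equivFunOnFinite.symm μ) ?_ ?_ ?_ ?_ ?_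
  · intro l hl
    rw [Finset.mem_finsuppAntidiag] at hl
    rw [Finset.mem_piAntidiag]
    exact ⟨hl.1, fun i _ => Finset.mem_univ i⟩
  · intro μ hμ
    rw [Finset.mem_piAntidiag] at hμ
    rw [Finset.mem_finsuppAntidiag]
    exact ⟨hμ.1, Finset.subset_univ _⟩
  · intro l _
    ext i
    rfl
  · intro μ _
    rfl
  · intro l _
    rfl

private theorem on {n : ℕ} (s : ℕ) (f : Fin (n + 1) → ℕ → ℕ) :
    ((∑ μ ∈ Dl n s, ∏ i, f i (μ i) : ℕ) : ℤ) =
      PowerSeries.coeff s (∏ i, PowerSeries.mk fun a => ((f i a : ℕ) : ℤ)) := by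
  rw [pw]
  push_cast
  refine Finset.sum_congr rfl fun μ _ => Finset.prod_congr rfl fun i _ => ?_
  rw [PowerSeries.coeff_mk]

private theorem w1 (n s : ℕ) : (Dl n s).card = (s + n).choose n := by
  have h := on (n := n) s (fun _ _ => 1)
  have h2 : (PowerSeries.mk fun _ => (((1 : ℕ)) : ℤ)) = (PowerSeries.mk 1 : PowerSeries ℤ) := by
    ext a
    simp
  simp only [h2, Finset.prod_const_one, Finset.sum_const, smul_eq_mul, mul_one] at h
  rw [Finset.prod_const, Finset.card_univ, Fintype.card_fin,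
    PowerSeries.mk_one_pow_eq_mk_choose_add, PowerSeries.coeff_mk] at h
  rw [add_comm s n]
  exact_mod_cast h

private theorem bin (m : ℕ) : (PowerSeries.mk fun a => ((m.choose a : ℕ) : ℤ)) =
    ((1 + PowerSeries.X) ^ m : PowerSeries ℤ) := by
  ext a
  have h : ((1 + PowerSeries.X) ^ m : PowerSeries ℤ) =
      (((1 + Polynomial.X) ^ m : Polynomial ℤ) : PowerSeries ℤ) := by
    simp
  rw [PowerSeries.coeff_mk, h, Polynomial.coeff_coe, Polynomial.coeff_one_add_X_pow]

private theorem w2 (n p s : ℕ) (μ : Fin (n + 1) → ℕ) (hμ : μ ∈ Dl n s) :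
    ∑ κ ∈ Dl n p, ∏ i, (μ i).choose (κ i) = s.choose p := by
  have h := on (n := n) p (fun i a => (μ i).choose a)
  simp only [bin] at h
  rw [Finset.prod_pow_eq_pow_sum, (Finset.mem_piAntidiag.mp hμ).1, ← bin, PowerSeries.coeff_mk] at h
  exact_mod_cast h

private theorem geo (k : ℕ) : (PowerSeries.mk fun a => ((a.choose k : ℕ) : ℤ)) =
    PowerSeries.X ^ k * (PowerSeries.mk 1 : PowerSeries ℤ) ^ (k + 1) := by
  ext a
  rw [PowerSeries.mk_one_pow_eq_mk_choose_add, PowerSeries.coeff_mk, PowerSeries.coeff_X_pow_mul']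
  split_ifs with hk
  · rw [PowerSeries.coeff_mk, Nat.add_sub_cancel' hk]
  · rw [Nat.choose_eq_zero_of_lt (by omega)]
    rfl

private theorem w3 (n p s : ℕ) (hps : p ≤ s) (κ : Fin (n + 1) → ℕ) (hκ : κ ∈ Dl n p) :
    ∑ μ ∈ Dl n s, ∏ i, (μ i).choose (κ i) = (s + n).choose (p + n) := by
  have h := on (n := n) s (fun i a => a.choose (κ i))
  simp only [geo] at h
  rw [Finset.prod_mul_distrib, Finset.prod_pow_eq_pow_sum, Finset.prod_pow_eq_pow_sum,
    Finset.sum_add_distrib, (Finset.mem_piAntidiag.mp hκ).1, PowerSeries.coeff_X_pow_mul',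
    if_pos hps] at h
  have h3 : p + ∑ _i : Fin (n + 1), 1 = (p + n) + 1 := by
    simp [add_assoc]
  rw [h3, PowerSeries.mk_one_pow_eq_mk_choose_add, PowerSeries.coeff_mk,
    show p + n + (s - p) = s + n by omega] at h
  exact_mod_cast h

theorem t_Wg : S_Wg := by
  intro n p s hps
  refine ⟨w1 n s, fun μ hμ => w2 n p s μ hμ, fun κ hκ => w3 n p s hps κ hκ, ?_⟩
  have h := Nat.choose_mul (n := s + n) (k := p + n) (s := n) (by omega)
  rw [Nat.add_sub_cancel, Nat.add_sub_cancel] at h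
  exact h

end Pool.Agent.Lib.MP_d01072_ag.CL
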