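import Pool.Agent.Lib.MP_d01072_ag.Bp.Jac
import Pool.Agent.Lib.MP_d01072_ag.Bp.Rk
import Pool.Agent.Lib.MP_d01072_ag.Bp.Sem
import Pool.Agent.Lib.MP_d01072_ag.Bp.Am
import Pool.Agent.Lib.MP_d01072_ag.Bp.Hor
import Pool.Agent.Lib.MP_d01072_ag.Bp.Tr1
import Pool.Agent.Lib.MP_d01072_ag.Bp.Hs
import Pool.Agent.Lib.MP_d01072_ag.Bp.Bn
import Pool.Agent.Lib.MP_d01072_ag.Bp.ClN
import Pool.Agent.Lib.MP_d01072_ag.Bp.Ind
import Pool.Agent.Lib.MP_d01072_ag.Bp.Cor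
import Pool.Agent.Lib.MP_d01072_ag.Bp.AHn
import Pool.Agent.Lib.MP_d01072_ag.Bp.All
import Pool.Agent.Lib.MP_d01072_ag.Bp.Gp
import Pool.Agent.Lib.MP_d01072_ag.CL.Wg
import Pool.Agent.Lib.MP_d01072_ag.CL.Ini
import Pool.Agent.Lib.MP_d01072_ag.CL.Cnt
import Pool.Agent.Lib.MP_d01072_ag.CL.U1
import Pool.Agent.Lib.MP_d01072_ag.CL.U2
import Pool.Agent.Lib.MP_d01072_ag.CL.U3
import Pool.Agent.Lib.MP_d01072_ag.CL.CtA
import Pool.Agent.Lib.MP_d01072_ag.CL.CtB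
import Pool.Agent.Lib.MP_d01072_ag.CL.Gen
import Pool.Agent.Lib.MP_d01072_ag.CL.Bss
import Pool.Agent.Lib.MP_d01072_ag.CL.Pp
import Pool.Agent.Lib.MP_d01072_ag.CL.Sh
import Pool.Agent.Lib.MP_d01072_ag.CL.Rr
import Pool.Agent.Lib.MP_d01072_ag.CL.R2
import Pool.Agent.Lib.MP_d01072_ag.CL.Chn
import Pool.Agent.Lib.MP_d01072_ag.CL.Few
import Pool.Agent.Lib.MP_d01072_ag.CL.Rc4
import Pool.Agent.Lib.MP_d01072_ag.CL.MQ
import Pool.Agent.Lib.MP_d01072_ag.CL.Stp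
import Pool.Agent.Lib.MP_d01072_ag.CL.GdS
import Pool.Agent.Lib.MP_d01072_ag.CL.GdM
import Pool.Agent.Lib.MP_d01072_ag.CL.Sof
import Pool.Agent.Lib.MP_d01072_ag.CL.Grp
import Pool.Agent.Lib.MP_d01072_ag.CL.Trv
import Pool.Agent.Lib.MP_d01072_ag.CL.TrM
import Pool.Agent.Lib.MP_d01072_ag.CL.Nmb
import Pool.Agent.Lib.MP_d01072_ag.CL.Spl
import Pool.Agent.Lib.MP_d01072_ag.CL.FwM
import Pool.Agent.Lib.MP_d01072_ag.CL.MnM
import Pool.Agent.Lib.MP_d01072_ag.CL.Mn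
import Pool.Agent.Lib.MP_d01072_ag.CL.Der
import Pool.Agent.Lib.MP_d01072_ag.CL.Idp
import Pool.Agent.Lib.MP_d01072_ag.CL.Sml
import Pool.Agent.Lib.MP_d01072_ag.CL.Key
import Pool.Agent.Lib.MP_d01072_ag.CL.Fnl

/-!
MP_d01072_ag, package CL: assembly of the modules.
-/

set_option autoImplicit false

namespace Pool.Agent.Lib.MP_d01072_ag.CL

theorem bp_Am : Bp.S_Am := Bp.t_Am Bp.t_Sem

theorem bp_Hs : Bp.S_Hs := Bp.t_Hs bp_Am Bp.t_Hor Bp.t_Tr1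

theorem bp_Cor : Bp.S_Cor := Bp.t_Cor bp_Am (Bp.t_Bn bp_Am) (Bp.t_Ind bp_Am bp_Hs Bp.t_ClN)

theorem bp_AHn : Bp.S_AHn := Bp.t_AHn (Bp.t_Rk Bp.t_Jac) bp_Am bp_Cor

theorem all_U1 : S_U1 := t_U1 t_Ini t_Cnt t_Wg

theorem all_U2 : S_U2 := t_U2 all_U1

theorem all_U3 : S_U3 := t_U3 t_Ini t_Cnt t_Wg

theorem all_CtB : S_CtB := t_CtB t_CtA

theorem all_Pp : S_Pp := t_Pp all_CtB t_Gen

theorem all_Sh : S_Sh := t_Sh all_U2 t_CtA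

theorem all_Rr : S_Rr := t_Rr all_U1 t_CtA t_Gen

theorem all_R2 : S_R2 := t_R2 all_U2 t_CtA t_Gen

theorem all_Few : S_Few := t_Few t_CtA all_CtB all_Pp all_Sh all_Rr t_Chn

theorem all_MQ : S_MQ := t_MQ t_CtA all_CtB t_Bss all_Pp all_R2 t_Rc4

theorem all_Stp : S_Stp := t_Stp all_U2 t_CtA t_Bss all_Pp

theorem all_Sof : S_Sof := t_Sof (t_GdS all_Stp) (t_GdM all_CtB all_MQ)

theorem all_TrM : S_TrM := t_TrM t_Grp t_Trv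

theorem all_Spl : S_Spl := t_Spl all_U3 t_CtA all_CtB

theorem all_FwM : S_FwM := t_FwM all_CtB all_Few

theorem all_MnM : S_MnM := t_MnM all_CtB all_Sof all_TrM

/-- the main inequality -/
theorem all_Mn : S_Mn := t_Mn t_Trv t_Nmb all_Spl all_FwM all_MnM

theorem all_Key : S_Key := t_Key t_CtA all_CtB all_Mn t_Der (t_Sml t_Idp)

/-- the theorem -/
theorem all_Fnl : S_Fnl := t_Fnl bp_AHn Bp.t_All Bp.t_Gp all_Key

end Pool.Agent.Lib.MP_d01072_ag.CL
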