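import Pool.Agent.Lib.MP_d01072_ag.CL.Spec

/-! MP_d01072_ag, package CL: skew contractions and splitting of the spaces `Mo`. -/

set_option autoImplicit false

namespace Pool.Agent.Lib.MP_d01072_ag.CL

open MvPolynomial

namespace CtBAux

variable {K ι : Type} [Field K] [DecidableEq ι] {n : ℕ}

/-- a contraction of a rank-one tensor -/
private theorem ctPr {S : Finset ι} {t : ι} (ht : t ∈ S) (ξ : Vc K n) (y : ι → Vc K n) :
    ct t ξ (pr S y) = vl ξ (y t) • pr (S.erase t) y := by
  funext i
  change ∑ a, ξ a * pr S y (Function.update i t a) = vl ξ (y t) * pr (S.erase t) y i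
  rw [vl, Finset.sum_mul]
  refine Finset.sum_congr rfl fun a _ => ?_
  rw [mul_assoc]
  congr 1
  unfold pr
  rw [← Finset.mul_prod_erase S _ ht, Function.update_self]
  congr 1
  refine Finset.prod_congr rfl fun u hu => ?_
  rw [Function.update_of_ne (Finset.ne_of_mem_erase hu)]

/-- a skew contraction of a rank-one tensor -/
private theorem skPr {S : Finset ι} {t q : ι} (ht : t ∈ S) (hq : q ∈ S) (htq : t ≠ q)
    (ξ η : Vc K n) (y : ι → Vc K n) :
    sk t q ξ η (pr S y) = (vl ξ (y t) * vl η (y q) - vl η (y t) * vl ξ (y q)) •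
      pr ((S.erase t).erase q) y := by
  have hq' : q ∈ S.erase t := Finset.mem_erase.2 ⟨htq.symm, hq⟩
  change ct q η (ct t ξ (pr S y)) - ct q ξ (ct t η (pr S y)) = _
  rw [ctPr ht, ctPr ht, map_smul, map_smul, ctPr hq', ctPr hq', smul_smul, smul_smul, sub_smul]

/-- the value of `pr` after an update outside the set -/
private theorem prOut {S : Finset ι} {u : ι} (hu : u ∉ S) (x : ι → Vc K n) (v : Vc K n) :
    pr S (Function.update x u v) = pr S x := by
  funext i
  unfold pr
  refine Finset.prod_congr rfl fun t ht => ?_
  have htu : t ≠ u := fun h => hu (by rw [← h]; exact ht)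
  rw [Function.update_of_ne htu]

/-- the value of `pr` after an update inside the set -/
private theorem prIn {S : Finset ι} {u : ι} (hu : u ∈ S) (x : ι → Vc K n) (v : Vc K n)
    (i : ι → Fin (n + 1)) :
    pr S (Function.update x u v) i = v (i u) * pr (S.erase u) x i := by
  unfold pr
  rw [← Finset.mul_prod_erase S _ hu, Function.update_self]
  congr 1
  refine Finset.prod_congr rfl fun t ht => ?_
  rw [Function.update_of_ne (Finset.ne_of_mem_erase ht)]

open Classical in
/-- the tangent vectors of the class `w` -/
private noncomputable def T (S : Finset ι) (x : ι → Vc K n) (w : Vc K n) :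
    Vc K n →ₗ[K] Tn K ι n where
  toFun v := ∑ u ∈ S.filter (fun u => x u = w), pr S (Function.update x u v)
  map_add' v v' := by
    rw [← Finset.sum_add_distrib]
    refine Finset.sum_congr rfl fun u hu => ?_
    funext i
    rw [Pi.add_apply, prIn (Finset.mem_filter.1 hu).1, prIn (Finset.mem_filter.1 hu).1,
      prIn (Finset.mem_filter.1 hu).1, Pi.add_apply, add_mul]
  map_smul' c v := by
    rw [Finset.smul_sum]
    refine Finset.sum_congr rfl fun u hu => ?_
    funext i
    rw [RingHom.id_apply, Pi.smul_apply, prIn (Finset.mem_filter.1 hu).1,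
      prIn (Finset.mem_filter.1 hu).1, Pi.smul_apply, smul_eq_mul, smul_eq_mul, mul_assoc]

private theorem tMem (S : Finset ι) (x : ι → Vc K n) (w v : Vc K n) :
    T S x w v ∈ Mo true S x :=
  Submodule.subset_span (Or.inr ⟨rfl, w, v, rfl⟩)

private theorem pMem (τ : Bool) (S : Finset ι) (x : ι → Vc K n) : pr S x ∈ Mo τ S x :=
  Submodule.subset_span (Or.inl rfl)

private theorem moLe {S : Finset ι} {x : ι → Vc K n} {Y : Submodule K (Tn K ι n)}
    (h1 : pr S x ∈ Y) (h2 : ∀ w v, T S x w v ∈ Y) : Mo true S x ≤ Y := by
  refine Submodule.span_le.2 ?_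
  rintro f (hf | ⟨-, w, v, hf⟩)
  · rw [Set.mem_singleton_iff.1 hf]
    exact h1
  · rw [hf]
    exact h2 w v

private theorem moLeB {τ : Bool} {S : Finset ι} {x : ι → Vc K n} {Y : Submodule K (Tn K ι n)}
    (h1 : pr S x ∈ Y) (h2 : τ = true → ∀ w v, T S x w v ∈ Y) : Mo τ S x ≤ Y := by
  refine Submodule.span_le.2 ?_
  rintro f (hf | ⟨hτ, w, v, hf⟩)
  · rw [Set.mem_singleton_iff.1 hf]
    exact h1
  · rw [hf]
    exact h2 hτ w v

omit [DecidableEq ι] in
private theorem prDp (S : Finset ι) (y : ι → Vc K n) : pr S y ∈ Dp K n S := by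
  intro i i' h
  unfold pr
  exact Finset.prod_congr rfl fun t ht => by rw [h t ht]

/-- symmetric tensors are killed -/
private theorem skSy {t q : ι} (htq : t ≠ q) (ξ η : Vc K n) {f : Tn K ι n}
    (hf : ∀ i : ι → Fin (n + 1), f (fun u => i (Equiv.swap t q u)) = f i) :
    sk t q ξ η f = 0 := by
  funext i
  have key : ∀ a b, f (Function.update (Function.update i q b) t a)
      = f (Function.update (Function.update i q a) t b) := by
    intro a b
    rw [← hf (Function.update (Function.update i q b) t a)]
    congr 1
    funext u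
    by_cases h1 : u = t
    · subst h1
      rw [Equiv.swap_apply_left, Function.update_self, Function.update_of_ne htq.symm,
        Function.update_self]
    · by_cases h2 : u = q
      · subst h2
        rw [Equiv.swap_apply_right, Function.update_self, Function.update_of_ne h1,
          Function.update_self]
      · rw [Equiv.swap_apply_of_ne_of_ne h1 h2, Function.update_of_ne h1,
          Function.update_of_ne h2, Function.update_of_ne h1, Function.update_of_ne h2]
  change (∑ b, η b * ∑ a, ξ a * f (Function.update (Function.update i q b) t a))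
    - (∑ b, ξ b * ∑ a, η a * f (Function.update (Function.update i q b) t a)) = 0
  rw [sub_eq_zero]
  simp only [Finset.mul_sum]
  rw [Finset.sum_comm]
  refine Finset.sum_congr rfl fun a _ => Finset.sum_congr rfl fun b _ => ?_
  rw [key a b]
  ring

open Classical in
/-- a skew contraction of a tangent vector -/
private theorem skT {S : Finset ι} {t q : ι} (ht : t ∈ S) (hq : q ∈ S) (htq : t ≠ q)
    (ξ η : Vc K n) (x : ι → Vc K n) (w v : Vc K n) :
    ∃ c : K, sk t q ξ η (T S x w v) =
      (vl ξ (x t) * vl η (x q) - vl η (x t) * vl ξ (x q)) •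
        T ((S.erase t).erase q) x w v + c • pr ((S.erase t).erase q) x := by
  have hq' : q ∈ S.erase t := Finset.mem_erase.2 ⟨htq.symm, hq⟩
  have e1 : T S x w v = ∑ u ∈ S, if x u = w then pr S (Function.update x u v) else 0 := by
    change ∑ u ∈ S.filter (fun u => x u = w), pr S (Function.update x u v) = _
    rw [Finset.sum_filter]
  have e2 : T ((S.erase t).erase q) x w v = ∑ u ∈ (S.erase t).erase q,
      if x u = w then pr ((S.erase t).erase q) (Function.update x u v) else 0 := by
    change ∑ u ∈ ((S.erase t).erase q).filter (fun u => x u = w), _ = _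
    rw [Finset.sum_filter]
  have e3 : ∀ u, ∃ c : K, u = t ∨ u = q →
      sk t q ξ η (if x u = w then pr S (Function.update x u v) else 0) =
        c • pr ((S.erase t).erase q) x := by
    intro u
    by_cases hu : u = t ∨ u = q
    · have hu' : u ∉ (S.erase t).erase q := by
        rcases hu with rfl | rfl
        · exact fun h => absurd (Finset.mem_of_mem_erase h) (Finset.notMem_erase _ _)
        · exact Finset.notMem_erase _ _
      by_cases hw : x u = w
      · refine ⟨vl ξ (Function.update x u v t) * vl η (Function.update x u v q) -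
          vl η (Function.update x u v t) * vl ξ (Function.update x u v q), fun _ => ?_⟩
        rw [if_pos hw, skPr ht hq htq, prOut hu']
      · refine ⟨0, fun _ => ?_⟩
        rw [if_neg hw, map_zero, zero_smul]
    · exact ⟨0, fun h => absurd h hu⟩
  obtain ⟨c1, hc1⟩ := e3 t
  obtain ⟨c2, hc2⟩ := e3 q
  refine ⟨c1 + c2, ?_⟩
  rw [e1, map_sum, ← Finset.add_sum_erase S _ ht, ← Finset.add_sum_erase (S.erase t) _ hq',
    hc1 (Or.inl rfl), hc2 (Or.inr rfl), e2, Finset.smul_sum, add_smul]
  have e4 : ∑ u ∈ (S.erase t).erase q,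
      sk t q ξ η (if x u = w then pr S (Function.update x u v) else 0) =
      ∑ u ∈ (S.erase t).erase q, (vl ξ (x t) * vl η (x q) - vl η (x t) * vl ξ (x q)) •
        (if x u = w then pr ((S.erase t).erase q) (Function.update x u v) else 0) := by
    refine Finset.sum_congr rfl fun u hu => ?_
    have hu1 : u ≠ q := Finset.ne_of_mem_erase hu
    have hu2 : u ≠ t := Finset.ne_of_mem_erase (Finset.mem_of_mem_erase hu)
    split_ifs with hw
    · rw [skPr ht hq htq, Function.update_of_ne hu2.symm, Function.update_of_ne hu1.symm]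
    · rw [map_zero, smul_zero]
  rw [e4]
  abel

/-- `pr` of a disjoint union -/
private theorem prMul {S P : Finset ι} (hP : P ⊆ S) (y : ι → Vc K n) :
    pr S y = pr P y * pr (S \ P) y := by
  funext i
  rw [Pi.mul_apply]
  unfold pr
  rw [mul_comm, Finset.prod_sdiff hP]

open Classical in
/-- the tangent vectors of a disjoint union -/
private theorem tMul {S P : Finset ι} (hP : P ⊆ S) (x : ι → Vc K n) (w v : Vc K n) :
    T S x w v = T P x w v * pr (S \ P) x + pr P x * T (S \ P) x w v := by
  have e1 : T S x w v = ∑ u ∈ S, if x u = w then pr S (Function.update x u v) else 0 := by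
    change ∑ u ∈ S.filter (fun u => x u = w), pr S (Function.update x u v) = _
    rw [Finset.sum_filter]
  have e2 : T P x w v = ∑ u ∈ P, if x u = w then pr P (Function.update x u v) else 0 := by
    change ∑ u ∈ P.filter (fun u => x u = w), pr P (Function.update x u v) = _
    rw [Finset.sum_filter]
  have e3 : T (S \ P) x w v = ∑ u ∈ S \ P,
      if x u = w then pr (S \ P) (Function.update x u v) else 0 := by
    change ∑ u ∈ (S \ P).filter (fun u => x u = w), pr (S \ P) (Function.update x u v) = _
    rw [Finset.sum_filter]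
  rw [e1, e2, e3, ← Finset.sum_sdiff hP, Finset.sum_mul, Finset.mul_sum, add_comm]
  refine congrArg₂ (· + ·) (Finset.sum_congr rfl fun u hu => ?_)
    (Finset.sum_congr rfl fun u hu => ?_)
  · split_ifs with hw
    · rw [prMul hP, prOut (u := u) (S := S \ P)
        (fun h => (Finset.mem_sdiff.1 h).2 hu)]
    · rw [zero_mul]
  · split_ifs with hw
    · rw [prMul hP, prOut (u := u) (S := P) (Finset.mem_sdiff.1 hu).2]
    · rw [mul_zero]

open Classical in
private theorem tDp (S : Finset ι) (x : ι → Vc K n) (w v : Vc K n) : T S x w v ∈ Dp K n S :=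
  Submodule.sum_mem _ fun _ _ => prDp _ _

open Classical in
private theorem tSelf (S : Finset ι) (x : ι → Vc K n) (w : Vc K n) :
    ∃ c : K, T S x w w = c • pr S x := by
  refine ⟨((S.filter fun u => x u = w).card : K), ?_⟩
  change ∑ u ∈ S.filter (fun u => x u = w), pr S (Function.update x u w) = _
  have h : ∀ u ∈ S.filter (fun u => x u = w), pr S (Function.update x u w) = pr S x := by
    intro u hu
    rw [← (Finset.mem_filter.1 hu).2, Function.update_eq_self]
  rw [Finset.sum_congr rfl h, Finset.sum_const, Nat.cast_smul_eq_nsmul]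

open Classical in
private theorem rank [Fintype ι] (S : Finset ι) (x : ι → Vc K n) (hx : ∀ t ∈ S, Nm (x t)) :
    Module.finrank K (Mo true S x) ≤ n * cl S x + 1 := by
  have h1 : ∀ w : Vc K n, ∃ a : Fin (n + 1), w ∈ S.image x → w a = 1 := by
    intro w
    by_cases hw : w ∈ S.image x
    · obtain ⟨t, ht, rfl⟩ := Finset.mem_image.1 hw
      obtain ⟨a, ha, -⟩ := hx t ht
      exact ⟨a, fun _ => ha⟩
    · exact ⟨0, fun h => absurd h hw⟩
  choose m hm using h1
  let B : Finset (Tn K ι n) := insert (pr S x) ((S.image x).biUnion fun w =>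
    (Finset.univ.erase (m w)).image fun a => T S x w (Pi.single a 1))
  have hB : B.card ≤ n * cl S x + 1 := by
    refine (Finset.card_insert_le _ _).trans (Nat.add_le_add_right ?_ 1)
    refine Finset.card_biUnion_le.trans ?_
    have h2 : ∀ w ∈ S.image x, ((Finset.univ.erase (m w)).image fun a =>
        T S x w (Pi.single a 1)).card ≤ n := by
      intro w _
      refine Finset.card_image_le.trans ?_
      rw [Finset.card_erase_of_mem (Finset.mem_univ _), Finset.card_univ, Fintype.card_fin]
      exact le_rfl
    refine (Finset.sum_le_sum h2).trans ?_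
    rw [Finset.sum_const, smul_eq_mul, mul_comm]
    rfl
  have hpr : pr S x ∈ Submodule.span K (B : Set (Tn K ι n)) :=
    Submodule.subset_span (Finset.mem_coe.2 (Finset.mem_insert_self _ _))
  have hle : Mo true S x ≤ Submodule.span K (B : Set (Tn K ι n)) := by
    refine moLe hpr fun w v => ?_
    by_cases hw : w ∈ S.image x
    · have hexp : ∀ v : Vc K n, T S x w v = v (m w) • T S x w (Pi.single (m w) 1) +
          ∑ a ∈ Finset.univ.erase (m w), v a • T S x w (Pi.single a 1) := by
        intro v
        rw [Finset.add_sum_erase Finset.univ (fun a => v a • T S x w (Pi.single a 1))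
          (Finset.mem_univ _)]
        conv_lhs => rw [pi_eq_sum_univ' v]
        rw [map_sum]
        refine Finset.sum_congr rfl fun a _ => ?_
        rw [map_smul]
      have hrest : ∀ v : Vc K n, ∑ a ∈ Finset.univ.erase (m w), v a • T S x w (Pi.single a 1) ∈
          Submodule.span K (B : Set (Tn K ι n)) := by
        intro v
        refine Submodule.sum_mem _ fun a ha => Submodule.smul_mem _ _ (Submodule.subset_span ?_)
        refine Finset.mem_coe.2 (Finset.mem_insert_of_mem (Finset.mem_biUnion.2 ⟨w, hw, ?_⟩))
        exact Finset.mem_image_of_mem _ ha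
      have hmain : T S x w (Pi.single (m w) 1) ∈ Submodule.span K (B : Set (Tn K ι n)) := by
        obtain ⟨c, hc⟩ := tSelf S x w
        have h3 := hexp w
        rw [hc, hm w hw, one_smul] at h3
        have h4 : T S x w (Pi.single (m w) 1) = c • pr S x -
            ∑ a ∈ Finset.univ.erase (m w), w a • T S x w (Pi.single a 1) := by
          rw [h3, add_sub_cancel_right]
        rw [h4]
        exact Submodule.sub_mem _ (Submodule.smul_mem _ _ hpr) (hrest w)
      rw [hexp v]
      exact Submodule.add_mem _ (Submodule.smul_mem _ _ hmain) (hrest v)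
    · have h0 : T S x w v = 0 := by
        change ∑ u ∈ S.filter (fun u => x u = w), pr S (Function.update x u v) = 0
        rw [Finset.filter_eq_empty_iff.2, Finset.sum_empty]
        intro u hu h
        exact hw (Finset.mem_image.2 ⟨u, hu, h⟩)
      rw [h0]
      exact Submodule.zero_mem _
  have : Module.Finite K (Submodule.span K (B : Set (Tn K ι n))) :=
    FiniteDimensional.span_finset K B
  exact (Submodule.finrank_mono hle).trans ((finrank_span_finset_le_card B).trans hB)

end CtBAux

open CtBAux in
theorem t_CtB (h1 : S_CtA) : S_CtB := by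
  classical
  intro K ι _ _ _ n τ S x
  refine ⟨?_, ?_, ?_, ?_, ?_, ?_, ?_⟩
  · intro t ht q hq htq ξ η f hf
    exact skSy htq ξ η fun i => hf t ht q hq i
  · intro t ht q hq htq hx ξ η f hf
    have h2 := (h1 K ι n τ S x).2.1 {t, q} (by
      intro u hu
      rcases Finset.mem_insert.1 hu with rfl | hu
      · exact ht
      · rw [Finset.mem_singleton.1 hu]
        exact hq) (by
      intro u hu u' hu'
      have hh : ∀ u ∈ ({t, q} : Finset ι), x u = x t := by
        intro u hu
        rcases Finset.mem_insert.1 hu with rfl | hu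
        · rfl
        · rw [Finset.mem_singleton.1 hu, hx]
      rw [hh u hu, hh u' hu'])
    exact skSy htq ξ η fun i => h2 hf t (Finset.mem_insert_self _ _) q
      (Finset.mem_insert_of_mem (Finset.mem_singleton_self _)) i
  · intro t ht q hq htq ξ η hω
    refine le_antisymm ?_ ?_
    · rw [Submodule.map_le_iff_le_comap]
      refine moLeB ?_ fun hτ w v => ?_
      · rw [Submodule.mem_comap, skPr ht hq htq]
        exact Submodule.smul_mem _ _ (pMem _ _ _)
      · subst hτ
        obtain ⟨c, hc⟩ := skT ht hq htq ξ η x w v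
        rw [Submodule.mem_comap, hc]
        exact Submodule.add_mem _ (Submodule.smul_mem _ _ (tMem _ _ _ _))
          (Submodule.smul_mem _ _ (pMem _ _ _))
    · have hp : pr ((S.erase t).erase q) x ∈ (Mo τ S x).map (sk t q ξ η) := by
        have h2 : sk t q ξ η (pr S x) ∈ (Mo τ S x).map (sk t q ξ η) :=
          Submodule.mem_map_of_mem (pMem _ _ _)
        rw [skPr ht hq htq] at h2
        exact (Submodule.smul_mem_iff _ hω).1 h2
      refine moLeB hp fun hτ w v => ?_
      subst hτ
      obtain ⟨c, hc⟩ := skT ht hq htq ξ η x w v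
      have h2 : sk t q ξ η (T S x w v) ∈ (Mo true S x).map (sk t q ξ η) :=
        Submodule.mem_map_of_mem (tMem _ _ _ _)
      rw [hc] at h2
      have h3 := Submodule.sub_mem _ h2 (Submodule.smul_mem _ c hp)
      rw [add_sub_cancel_right] at h3
      exact (Submodule.smul_mem_iff _ hω).1 h3
  · intro P hP
    refine moLe ?_ fun w v => ?_
    · rw [prMul hP]
      exact Submodule.mul_mem_mul (prDp _ _) (pMem _ _ _)
    · rw [tMul hP]
      exact Submodule.add_mem _ (Submodule.mul_mem_mul (tDp _ _ _ _) (pMem _ _ _))
        (Submodule.mul_mem_mul (prDp _ _) (tMem _ _ _ _))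
  · intro P hP
    refine moLe ?_ fun w v => ?_
    · rw [prMul hP]
      exact Submodule.mem_sup_left (Submodule.mul_mem_mul (pMem _ _ _) (prDp _ _))
    · rw [tMul hP]
      exact Submodule.add_mem _
        (Submodule.mem_sup_right (Submodule.mul_mem_mul (tDp _ _ _ _) (pMem _ _ _)))
        (Submodule.mem_sup_left (Submodule.mul_mem_mul (pMem _ _ _) (tDp _ _ _ _)))
  · have h2 : Mo false S x ≤ Submodule.span K {pr S x} :=
      moLeB (Submodule.mem_span_singleton_self _) fun h => absurd h (by decide)
    refine (Submodule.finrank_mono h2).trans ?_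
    refine (finrank_span_le_card ({pr S x} : Set (Tn K ι n))).trans ?_
    simp
  · exact rank S x

end Pool.Agent.Lib.MP_d01072_ag.CL
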