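import Pool.Agent.Lib.MP_d01072_ag.CL.Spec

/-!
MP_d01072_ag, package CL, module Mn: the main inequality.
-/

set_option autoImplicit false

namespace Pool.Agent.Lib.MP_d01072_ag.CL

/-- For each member there is a slot which is contained in all transversals outside of which the member is
constant. -/
private theorem mn_slot {K α : Type} [Field K] {n d M : ℕ} (l : α → Fin d → Vc K n) (j : α)
    (hns : ∃ t t', l j t ≠ l j t') (hf : ∃ v, dv Finset.univ (l j) v < M) :
    ∃ u : Fin d, ∀ P : Finset (Fin d), M + P.card ≤ d →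
      (∀ t ∈ Finset.univ \ P, ∀ t' ∈ Finset.univ \ P, l j t = l j t') → u ∈ P := by
  classical
  obtain ⟨v, hv⟩ := hf
  obtain ⟨u, hu⟩ : ∃ u, l j u ≠ v := by
    obtain ⟨t, t', htt⟩ := hns
    by_cases h : l j t = v
    · exact ⟨t', fun h' => htt (h.trans h'.symm)⟩
    · exact ⟨t, h⟩
  refine ⟨u, fun P hP hc => ?_⟩
  by_contra huP
  have huS : u ∈ Finset.univ \ P := by simp [huP]
  have hsub : Finset.univ \ P ⊆ Finset.univ.filter (fun t => l j t ≠ v) := by
    intro t ht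
    rw [Finset.mem_filter]
    refine ⟨Finset.mem_univ _, fun h => hu ?_⟩
    rw [← hc t ht u huS]
    exact h
  have h1 := Finset.card_le_card hsub
  have h2 : (Finset.univ \ P).card = d - P.card := by
    rw [Finset.card_univ_sdiff, Fintype.card_fin]
  have h3 : (Finset.univ.filter (fun t => l j t ≠ v)).card < M := by
    unfold dv at hv
    convert hv
  omega

open Classical in
private theorem mn_X (h1 : S_Trv) {K α : Type} [Field K] {n d p B M : ℕ} (hB : 1 ≤ B)
    (hp : p * B ≤ d) (hM : M + p ≤ d) (Jf : Finset α) (l : α → Fin d → Vc K n)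
    (hns : ∀ j ∈ Jf, ∃ t t', l j t ≠ l j t')
    (hf : ∀ j ∈ Jf, ∃ v, dv Finset.univ (l j) v < M) :
    B * ∑ c : Fin p → Fin B, (Jf.filter fun j =>
      ∀ t ∈ Finset.univ \ (Pc c : Finset (Fin d)), ∀ t' ∈ Finset.univ \ (Pc c : Finset (Fin d)),
        l j t = l j t').card ≤ Jf.card * B ^ p := by
  obtain ⟨hc1, hc2, -⟩ := h1 d p B hB hp
  have hsl : ∀ j ∈ Jf, ∃ u : Fin d, ∀ P : Finset (Fin d), M + P.card ≤ d →
      (∀ t ∈ Finset.univ \ P, ∀ t' ∈ Finset.univ \ P, l j t = l j t') → u ∈ P :=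
    fun j hj => mn_slot l j (hns j hj) (hf j hj)
  have h2 : ∑ c : Fin p → Fin B, (Jf.filter fun j =>
      ∀ t ∈ Finset.univ \ (Pc c : Finset (Fin d)), ∀ t' ∈ Finset.univ \ (Pc c : Finset (Fin d)),
        l j t = l j t').card =
      ∑ j ∈ Jf, ((Finset.univ : Finset (Fin p → Fin B)).filter fun c =>
        ∀ t ∈ Finset.univ \ (Pc c : Finset (Fin d)),
        ∀ t' ∈ Finset.univ \ (Pc c : Finset (Fin d)), l j t = l j t').card := by
    simp only [Finset.card_filter]
    exact Finset.sum_comm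
  rw [h2, Finset.mul_sum]
  have h3 : ∀ j ∈ Jf, B * ((Finset.univ : Finset (Fin p → Fin B)).filter fun c =>
        ∀ t ∈ Finset.univ \ (Pc c : Finset (Fin d)),
        ∀ t' ∈ Finset.univ \ (Pc c : Finset (Fin d)), l j t = l j t').card ≤ B ^ p := by
    intro j hj
    obtain ⟨u, hu⟩ := hsl j hj
    refine le_trans (Nat.mul_le_mul_left B (Finset.card_le_card ?_)) (hc2 u)
    intro c hc
    rw [Finset.mem_filter] at hc ⊢
    exact ⟨Finset.mem_univ _, hu (Pc c) (by rw [hc1 c]; exact hM) hc.2⟩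
  calc ∑ j ∈ Jf, B * ((Finset.univ : Finset (Fin p → Fin B)).filter fun c =>
        ∀ t ∈ Finset.univ \ (Pc c : Finset (Fin d)),
        ∀ t' ∈ Finset.univ \ (Pc c : Finset (Fin d)), l j t = l j t').card
      ≤ ∑ _j ∈ Jf, B ^ p := Finset.sum_le_sum h3
    _ = Jf.card * B ^ p := by rw [Finset.sum_const, smul_eq_mul]

/-- The inequality after division. -/
private theorem mn_div {y N NP NS a yT yF δ R : ℝ} (hNP : 0 < NP) (hNS : 0 < NS) (ha : 0 ≤ a)
    (hyT : 0 ≤ yT) (hyF : 0 ≤ yF)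
    (h : y * (NP * NS) ≤ N * (NP * (a + yT) + NS * yF))
    (h1 : N ≤ (1 + δ) * NS) (h2 : N ≤ R * NP) : y ≤ (1 + δ) * (a + yT) + R * yF := by
  have h3 : N * (NP * (a + yT)) ≤ (1 + δ) * NS * (NP * (a + yT)) :=
    mul_le_mul_of_nonneg_right h1 (by positivity)
  have h4 : N * (NS * yF) ≤ R * NP * (NS * yF) :=
    mul_le_mul_of_nonneg_right h2 (by positivity)
  have h5 : y * (NP * NS) ≤ ((1 + δ) * (a + yT) + R * yF) * (NP * NS) := by
    calc y * (NP * NS) ≤ N * (NP * (a + yT) + NS * yF) := h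
      _ = N * (NP * (a + yT)) + N * (NS * yF) := by ring
      _ ≤ (1 + δ) * NS * (NP * (a + yT)) + R * NP * (NS * yF) := add_le_add h3 h4
      _ = ((1 + δ) * (a + yT) + R * yF) * (NP * NS) := by ring
  exact le_of_mul_le_mul_right h5 (by positivity)

open Classical in
theorem t_Mn (h1 : S_Trv) (h2 : S_Nmb) (h3 : S_Spl) (h4 : S_FwM) (h5 : S_MnM) : S_Mn := by
  intro n hn
  obtain ⟨B, hBdef⟩ : ∃ B : ℕ, B = 32 * n * (n + 1) := ⟨_, rfl⟩
  have hB64 : 64 ≤ B := by
    rw [hBdef]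
    have : 32 * n * (n + 1) ≥ 32 * 1 * (1 + 1) :=
      Nat.mul_le_mul (Nat.mul_le_mul_left 32 hn) (by omega)
    omega
  obtain ⟨R, hRdef⟩ : ∃ R : ℝ, R = (64 * n * (n + 1)) ^ n := ⟨_, rfl⟩
  have hnR : (1 : ℝ) ≤ n := by exact_mod_cast hn
  have hR0 : 0 < R := by rw [hRdef]; positivity
  obtain ⟨M, D5, hD5⟩ := h5 n B (1 / (16 * R)) (by omega) (by positivity)
  obtain ⟨s₀, hs₀⟩ := h4 n M hn
  refine ⟨D5 + 2 * s₀ + B + 2 * M, ?_⟩
  intro K α _ _ d J l hd hNm hns
  obtain ⟨p, hpdef⟩ : ∃ p : ℕ, p = d / B := ⟨_, rfl⟩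
  have hpB : p * B ≤ d := by rw [hpdef]; exact Nat.div_mul_le_self d B
  have hpB' : d < (p + 1) * B := by
    rw [hpdef]
    have := Nat.lt_div_mul_add (a := d) (b := B) (by omega)
    linarith [this, Nat.add_mul (d / B) 1 B]
  have h2p : 2 * p ≤ d := by nlinarith
  -- the two parts of the family
  obtain ⟨Jm, hJm⟩ : ∃ Jm : Finset α, Jm = J.filter (fun j => ∀ v, M ≤ dv Finset.univ (l j) v) :=
    ⟨_, rfl⟩
  obtain ⟨Jf, hJf⟩ : ∃ Jf : Finset α, Jf = J.filter (fun j => ¬ ∀ v, M ≤ dv Finset.univ (l j) v) :=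
    ⟨_, rfl⟩
  have hJ : Jm ∪ Jf = J := by rw [hJm, hJf]; exact Finset.filter_union_filter_not_eq _ _
  have hcard : Jm.card + Jf.card = J.card := by
    rw [hJm, hJf]; exact Finset.card_filter_add_card_filter_not _
  have hJmJ : Jm ⊆ J := by rw [hJm]; exact Finset.filter_subset _ _
  have hJfJ : Jf ⊆ J := by rw [hJf]; exact Finset.filter_subset _ _
  have hff : ∀ j ∈ Jf, ∃ v, dv Finset.univ (l j) v < M := by
    intro j hj
    rw [hJf, Finset.mem_filter] at hj
    have h6 := hj.2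
    push Not at h6
    exact h6
  obtain ⟨hc1, -, -⟩ := h1 d p B (by omega) hpB
  obtain ⟨hN1, hN2⟩ := h2 n d hn (by rw [← hBdef]; omega)
  rw [← hBdef, ← hpdef] at hN1 hN2
  rw [← hRdef] at hN2
  have hNpos : ∀ s : ℕ, (0 : ℝ) < Nn n s := by
    intro s
    unfold Nn
    exact_mod_cast Nat.choose_pos (Nat.le_add_left n s)
  -- the inequality for one transversal
  have hone : ∀ c : Fin p → Fin B, (yy true Finset.univ J l : ℝ) ≤
      (1 + 1 / (8 * (n + 1))) * (Jm.card + ((n + 5 / 8) * Jf.card + (n + 1) *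
        (Jf.filter fun j => ∀ t ∈ Finset.univ \ (Pc c : Finset (Fin d)),
          ∀ t' ∈ Finset.univ \ (Pc c : Finset (Fin d)), l j t = l j t').card)) +
      R * yy false (Pc c) Jm l := by
    intro c
    have hPc : (Pc c : Finset (Fin d)).card = p := hc1 c
    have hSc : (Finset.univ \ (Pc c : Finset (Fin d))).card = d - p := by
      rw [Finset.card_univ_sdiff, Fintype.card_fin, hPc]
    have h6 := h3 K (Fin d) α n (Pc c) Jm Jf l
    rw [hJ, hPc, hSc, Fintype.card_fin] at h6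
    have h7 : (yy true Finset.univ J l : ℝ) * ((Nn n p : ℝ) * (Nn n (d - p) : ℝ)) ≤
        (Nn n d : ℝ) * ((Nn n p : ℝ) * ((Jm.card : ℝ) +
          (yy true (Finset.univ \ (Pc c : Finset (Fin d))) Jf l : ℝ)) +
          (Nn n (d - p) : ℝ) * (yy false (Pc c) Jm l : ℝ)) := by
      exact_mod_cast h6
    have h8 := mn_div (hNpos p) (hNpos (d - p)) (Nat.cast_nonneg _) (Nat.cast_nonneg _)
      (Nat.cast_nonneg _) h7 hN1 hN2
    have h9 := hs₀ K (Fin d) α (Finset.univ \ (Pc c : Finset (Fin d))) Jf l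
      (by rw [hSc]; omega) (fun j hj t _ => hNm j (hJfJ hj) t)
      (fun j hj => by
        obtain ⟨v, hv⟩ := hff j hj
        refine ⟨v, le_trans ?_ hv.le⟩
        unfold dv
        exact Finset.card_le_card (Finset.filter_subset_filter _ (Finset.subset_univ _)))
    have h9' : (yy true (Finset.univ \ (Pc c : Finset (Fin d))) Jf l : ℝ) ≤
        (n + 5 / 8) * Jf.card + (n + 1) *
        (Jf.filter fun j => ∀ t ∈ Finset.univ \ (Pc c : Finset (Fin d)),
          ∀ t' ∈ Finset.univ \ (Pc c : Finset (Fin d)), l j t = l j t').card := by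
      convert h9
    have h10 : (0 : ℝ) ≤ 1 + 1 / (8 * (n + 1)) := by positivity
    have h11 := mul_le_mul_of_nonneg_left (add_le_add (le_refl (Jm.card : ℝ)) h9') h10
    exact h8.trans (add_le_add h11 (le_refl _))
  -- sum over all transversals
  have hX := mn_X h1 (M := M) (by omega) hpB (by omega) Jf l (fun j hj => hns j (hJfJ hj)) hff
  have hF := hD5 K α d p Jm l (by omega) hpB hpB' (fun j hj => hNm j (hJmJ hj))
    (fun j hj => by
      rw [hJm, Finset.mem_filter] at hj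
      exact hj.2)
  have hsum := Finset.sum_le_sum (fun c (_ : c ∈ (Finset.univ : Finset (Fin p → Fin B))) => hone c)
  rw [Finset.sum_const, Finset.card_univ, Fintype.card_fun, Fintype.card_fin, Fintype.card_fin,
    nsmul_eq_mul, Finset.sum_add_distrib, ← Finset.mul_sum, Finset.sum_add_distrib,
    Finset.sum_const, Finset.card_univ, Fintype.card_fun, Fintype.card_fin, Fintype.card_fin,
    nsmul_eq_mul, Finset.sum_add_distrib, Finset.sum_const, Finset.card_univ, Fintype.card_fun,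
    Fintype.card_fin, Fintype.card_fin, nsmul_eq_mul, ← Finset.mul_sum, ← Finset.mul_sum] at hsum
  obtain ⟨X, hXdef⟩ : ∃ X : ℝ, X = ∑ c : Fin p → Fin B, ((Jf.filter fun j =>
      ∀ t ∈ Finset.univ \ (Pc c : Finset (Fin d)), ∀ t' ∈ Finset.univ \ (Pc c : Finset (Fin d)),
        l j t = l j t').card : ℝ) := ⟨_, rfl⟩
  rw [← hXdef] at hsum
  have hX' : (B : ℝ) * X ≤ Jf.card * (B : ℝ) ^ p := by
    rw [hXdef]
    exact_mod_cast hX
  obtain ⟨T, hT⟩ : ∃ T : ℝ, T = (B : ℝ) ^ p := ⟨_, rfl⟩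
  have hT0 : 0 < T := by
    rw [hT]
    have : (0 : ℝ) < B := by exact_mod_cast (by omega : 0 < B)
    positivity
  push_cast at hsum
  rw [← hT] at hsum hX' hF
  have hBR : (B : ℝ) = 32 * n * (n + 1) := by rw [hBdef]; push_cast; ring
  have hX2 : (n + 1) * X ≤ 1 / 32 * (Jf.card * T) := by
    rw [hBR] at hX'
    have h6 : (0 : ℝ) ≤ Jf.card * T := by positivity
    have h7 : (n + 1) * X * n ≤ 1 / 32 * (Jf.card * T) := by nlinarith
    by_cases hXn : 0 ≤ (n + 1) * X
    · nlinarith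
    · push Not at hXn
      nlinarith
  have hF2 : R * ∑ c : Fin p → Fin B, (yy false (Pc c) Jm l : ℝ) ≤ 1 / 16 * (Jm.card * T) := by
    have h6 := mul_le_mul_of_nonneg_left hF hR0.le
    have h7 : R * (1 / (16 * R) * T * Jm.card) = 1 / 16 * (Jm.card * T) := by
      field_simp
    linarith
  obtain ⟨δ, hδ⟩ : ∃ δ : ℝ, δ = 1 / (8 * (n + 1)) := ⟨_, rfl⟩
  have hδ0 : 0 < δ := by rw [hδ]; positivity
  have hδn : δ * (n + 1) = 1 / 8 := by rw [hδ]; field_simp
  have hδ16 : δ ≤ 1 / 16 := by nlinarith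
  rw [← hδ] at hsum
  have ham : (0 : ℝ) ≤ Jm.card := Nat.cast_nonneg _
  have haf : (0 : ℝ) ≤ Jf.card := Nat.cast_nonneg _
  have hyn : (yy true Finset.univ J l : ℝ) ≤ (n + 13 / 16) * (Jm.card + Jf.card) := by
    have h6 : (1 + δ) * ((n + 1) * X) ≤ (1 + δ) * (1 / 32 * (Jf.card * T)) :=
      mul_le_mul_of_nonneg_left hX2 (by linarith)
    have h7 : T * (yy true Finset.univ J l : ℝ) ≤
        T * (((1 + δ) + 1 / 16) * Jm.card + ((1 + δ) * (n + 21 / 32)) * Jf.card) := by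
      calc T * (yy true Finset.univ J l : ℝ) ≤ _ := hsum
        _ ≤ _ := by
          have h8 : T * (((1 + δ) + 1 / 16) * (Jm.card : ℝ) +
              ((1 + δ) * (n + 21 / 32)) * (Jf.card : ℝ)) =
              (1 + δ) * (T * Jm.card + T * ((n + 5 / 8) * Jf.card)) +
                (1 + δ) * (1 / 32 * (Jf.card * T)) + 1 / 16 * (Jm.card * T) := by ring
          rw [h8]
          linarith
    have h9 := le_of_mul_le_mul_left h7 hT0
    have h10 : ((1 + δ) + 1 / 16) * (Jm.card : ℝ) ≤ (n + 13 / 16) * Jm.card :=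
      mul_le_mul_of_nonneg_right (by linarith) ham
    have h11 : ((1 + δ) * (n + 21 / 32)) * (Jf.card : ℝ) ≤ (n + 13 / 16) * Jf.card := by
      refine mul_le_mul_of_nonneg_right ?_ haf
      have : (1 + δ) * (n + 21 / 32) = n + 21 / 32 + (δ * (n + 1) - δ * (11 / 32)) := by ring
      rw [this, hδn]
      linarith [mul_pos hδ0 (by norm_num : (0 : ℝ) < 11 / 32)]
    linarith
  have hfin : (16 : ℝ) * (yy true Finset.univ J l : ℝ) ≤ (16 * n + 13) * (J.card : ℝ) := by
    rw [← hcard]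
    push_cast
    linarith
  exact_mod_cast hfin

end Pool.Agent.Lib.MP_d01072_ag.CL
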