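import Pool.Agent.Lib.MP_d01072_ag.CL.Spec

set_option autoImplicit false

namespace Pool.Agent.Lib.MP_d01072_ag.CL

open MvPolynomial

section
variable {K : Type} [Field K] {ι : Type} [DecidableEq ι] {α : Type} {n : ℕ}

private theorem Stp_ct_single (t : ι) (a : Fin (n + 1)) (f : Tn K ι n) (i : ι → Fin (n + 1)) :
    ct t (Pi.single a 1) f i = f (Function.update i t a) := by
  change ∑ b, (Pi.single a (1 : K) : Fin (n + 1) → K) b * f (Function.update i t b) = _
  rw [Finset.sum_eq_single a]
  · simp
  · intro b _ hb
    rw [Pi.single_eq_of_ne hb, zero_mul]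
  · intro h
    exact absurd (Finset.mem_univ a) h

/-- a tensor is a sum of products with its contractions -/
private theorem Stp_mem_mul (t : ι) (Z : Submodule K (Tn K ι n)) (y : Tn K ι n)
    (h : ∀ a, ct t (Pi.single a 1) y ∈ Z) : y ∈ Dp K n {t} * Z := by
  have e : y = ∑ a : Fin (n + 1), (fun i : ι → Fin (n + 1) => if i t = a then (1 : K) else 0) *
      ct t (Pi.single a 1) y := by
    funext i
    rw [Finset.sum_apply, Finset.sum_eq_single (i t)]
    · rw [Pi.mul_apply, Stp_ct_single, if_pos rfl, one_mul, Function.update_eq_self]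
    · intro b _ hb
      rw [Pi.mul_apply, if_neg (fun h => hb h.symm), zero_mul]
    · intro h
      exact absurd (Finset.mem_univ _) h
  rw [e]
  refine Submodule.sum_mem _ fun a _ => Submodule.mul_mem_mul ?_ (h a)
  intro i i' hii
  have : i t = i' t := hii t (Finset.mem_singleton_self t)
  simp only [this]

private theorem Stp_ct_sy (S : Finset ι) (t : ι) (ξ : Vc K n) (f : Tn K ι n)
    (hf : f ∈ Sy K n S) : ct t ξ f ∈ Sy K n (S.erase t) := by
  intro u hu u' hu' i
  have hut : t ≠ u := fun h => (Finset.mem_erase.mp hu).1 h.symm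
  have hut' : t ≠ u' := fun h => (Finset.mem_erase.mp hu').1 h.symm
  change ∑ a, ξ a * f (Function.update (fun v => i (Equiv.swap u u' v)) t a) =
    ∑ a, ξ a * f (Function.update i t a)
  refine Finset.sum_congr rfl fun a _ => ?_
  have e : Function.update (fun v => i (Equiv.swap u u' v)) t a =
      fun v => (Function.update i t a) (Equiv.swap u u' v) := by
    funext v
    by_cases hv : v = t
    · subst hv
      rw [Function.update_self, Equiv.swap_apply_of_ne_of_ne hut hut', Function.update_self]
    · rw [Function.update_of_ne hv]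
      have h2 : Equiv.swap u u' v ≠ t := by
        intro h
        have : v = Equiv.swap u u' t := by rw [← h, Equiv.swap_apply_self]
        rw [Equiv.swap_apply_of_ne_of_ne hut hut'] at this
        exact hv this
      rw [Function.update_of_ne h2]
  rw [e, hf u (Finset.mem_of_mem_erase hu) u' (Finset.mem_of_mem_erase hu')]

private theorem Stp_ct_dp [Fintype ι] (t q : ι) (ξ η : Vc K n) (f : Tn K ι n) :
    ct q η (ct t ξ f) ∈ Dp K n ((Finset.univ.erase t).erase q) := by
  intro i i' h
  change ∑ a, η a * (∑ b, ξ b * f (Function.update (Function.update i q a) t b)) =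
    ∑ a, η a * (∑ b, ξ b * f (Function.update (Function.update i' q a) t b))
  refine Finset.sum_congr rfl fun a _ => ?_
  refine congrArg _ (Finset.sum_congr rfl fun b _ => ?_)
  have e : Function.update (Function.update i q a) t b =
      Function.update (Function.update i' q a) t b := by
    funext v
    by_cases hv : v = t
    · subst hv
      rw [Function.update_self, Function.update_self]
    · rw [Function.update_of_ne hv, Function.update_of_ne hv]
      by_cases hq : v = q
      · subst hq
        rw [Function.update_self, Function.update_self]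
      · rw [Function.update_of_ne hq, Function.update_of_ne hq]
        exact h v (Finset.mem_erase.mpr ⟨hq, Finset.mem_erase.mpr ⟨hv, Finset.mem_univ _⟩⟩)
  rw [e]

private theorem Stp_Es_mono (τ : Bool) (S : Finset ι) {J J' : Finset α} (l : α → ι → Vc K n)
    (h : ∀ j ∈ J, j ∈ J') : Es τ S J l ≤ Es τ S J' l :=
  iSup₂_le fun j hj => le_iSup₂_of_le j (h j hj) le_rfl

private theorem Stp_finrank_le [Fintype ι] (S : Finset ι) (J : Finset α) (l : α → ι → Vc K n) :
    Module.finrank K (Es false S J l) ≤ J.card := by
  classical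
  have h : Es false S J l ≤ Submodule.span K ((J.image fun j => pr S (l j) : Finset (Tn K ι n)) :
      Set (Tn K ι n)) := by
    refine iSup₂_le fun j hj => Submodule.span_le.mpr ?_
    intro f hf
    rcases hf with hf | hf
    · have hf' : f = pr S (l j) := hf
      rw [hf']
      exact Submodule.subset_span (Finset.mem_coe.mpr (Finset.mem_image_of_mem _ hj))
    · exact absurd hf.1 (by decide)
  exact (Submodule.finrank_mono h).trans ((finrank_span_finset_le_card _).trans
    Finset.card_image_le)

end

open Classical in
theorem t_Stp (h1 : S_U2) (h2 : S_CtA) (h3 : S_Bss) (h4 : S_Pp) : S_Stp := by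
  intro K ι α _ _ _ _ n S t q J l ht hq htq hNm
  obtain ⟨F, hFJ, hF1, hF2⟩ := h3 K ι α n S J l
  obtain ⟨B, hBJ, hB1, hB2⟩ := h3 K ι α n ((S.erase t).erase q) (Jn F l t q) l
  have hmemn : ∀ j, j ∈ Jn F l t q ↔ j ∈ F ∧ l j t ≠ l j q := fun j => by
    unfold Jn; exact Finset.mem_filter
  have hmeme : ∀ j, j ∈ Je F l t q ↔ j ∈ F ∧ l j t = l j q := fun j => by
    unfold Je; exact Finset.mem_filter
  refine ⟨F, hFJ, B, hBJ, ?_, ?_⟩
  · have hyy : yy false S F l = yy false S J l := by unfold yy; rw [hF1]
    have hP := h4 K ι α n false S t q F l ht hq htq (fun j hj => hNm j (hFJ hj))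
    rw [hyy, ← hB1, hB2, hF2] at hP
    have hcard : F.card = (Jn F l t q).card + (Je F l t q).card := by
      rw [← Finset.card_union_of_disjoint]
      · congr 1
        ext j
        rw [Finset.mem_union, hmemn, hmeme]
        tauto
      · rw [Finset.disjoint_left]
        intro j hj hj'
        exact ((hmemn j).mp hj).2 ((hmeme j).mp hj').2
    have hsup : Es false S F l ≤ Es false S (Jn F l t q) l ⊔ Es false S (Je F l t q) l := by
      refine iSup₂_le fun j hj => ?_
      by_cases hjj : l j t = l j q
      · exact le_sup_of_le_right (le_iSup₂_of_le j ((hmeme j).mpr ⟨hj, hjj⟩) le_rfl)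
      · exact le_sup_of_le_left (le_iSup₂_of_le j ((hmemn j).mpr ⟨hj, hjj⟩) le_rfl)
    have hdim : F.card ≤ (Jn F l t q).card + Module.finrank K (Es false S (Je F l t q) l) := by
      rw [← hF2]
      calc Module.finrank K (Es false S F l)
          ≤ Module.finrank K (Es false S (Jn F l t q) l ⊔ Es false S (Je F l t q) l :
              Submodule K (Tn K ι n)) := Submodule.finrank_mono hsup
        _ ≤ Module.finrank K (Es false S (Jn F l t q) l) +
              Module.finrank K (Es false S (Je F l t q) l) := by
            have := Submodule.finrank_sup_add_finrank_inf_eq (Es false S (Jn F l t q) l)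
              (Es false S (Je F l t q) l)
            omega
        _ ≤ _ := Nat.add_le_add_right (Stp_finrank_le S _ l) _
    omega
  · -- second claim
    have hCt := h2 K ι n false
    let Y : Submodule K (Tn K ι n) := Sy K n S ⊓ Es false S J l
    let Z : Submodule K (Tn K ι n) := Submodule.span K
      {z | ∃ y ∈ Y, ∃ a a' : Fin (n + 1), z = ct q (Pi.single a' 1) (ct t (Pi.single a 1) y)}
    have hqt : q ∈ S.erase t := Finset.mem_erase.mpr ⟨fun h => htq h.symm, hq⟩
    have hZc : Z ≤ Dp K n ((Finset.univ.erase t).erase q) := by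
      refine Submodule.span_le.mpr ?_
      rintro z ⟨y, hy, a, a', rfl⟩
      exact Stp_ct_dp t q _ _ y
    have hYa : Y ≤ Sy K n S ⊓ Dp K n {t} * (Dp K n {q} * Z) := by
      intro y hy
      refine ⟨hy.1, ?_⟩
      refine Stp_mem_mul t _ y fun a => Stp_mem_mul q _ _ fun a' => ?_
      exact Submodule.subset_span ⟨y, hy, a, a', rfl⟩
    have hZb : Z ≤ Sy K n ((S.erase t).erase q) ⊓
        Es false ((S.erase t).erase q) (B ∪ Je F l t q) l := by
      refine Submodule.span_le.mpr ?_
      rintro z ⟨y, hy, a, a', rfl⟩
      refine ⟨Stp_ct_sy _ _ _ _ (Stp_ct_sy _ _ _ _ hy.1), ?_⟩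
      have hyF : y ∈ Es false S F l := by rw [hF1]; exact hy.2
      have hle : Es false S F l ≤ (Es false ((S.erase t).erase q) (B ∪ Je F l t q) l).comap
          ((ct q (Pi.single a' 1)) ∘ₗ (ct t (Pi.single a 1))) := by
        refine iSup₂_le fun j hj => ?_
        have e1 : (Mo false S (l j)).map ((ct q (Pi.single a' 1)) ∘ₗ (ct t (Pi.single a 1))) ≤
            Mo false ((S.erase t).erase q) (l j) := by
          rw [Submodule.map_comp]
          refine (Submodule.map_mono ((hCt S (l j)).2.2.1 t ht _)).trans ?_
          exact (hCt (S.erase t) (l j)).2.2.1 q hqt _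
        refine Submodule.map_le_iff_le_comap.mp (e1.trans ?_)
        by_cases hjj : l j t = l j q
        · exact le_iSup₂_of_le j (Finset.mem_union_right _ ((hmeme j).mpr ⟨hj, hjj⟩)) le_rfl
        · have e2 : Mo false ((S.erase t).erase q) (l j) ≤
              Es false ((S.erase t).erase q) (Jn F l t q) l :=
            le_iSup₂_of_le j ((hmemn j).mpr ⟨hj, hjj⟩) le_rfl
          rw [← hB1] at e2
          exact e2.trans (Stp_Es_mono _ _ _ fun j hj => Finset.mem_union_left _ hj)
      exact hle hyF
    have hU := h1 K ι n S t q Z ht hq htq hZc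
    have f1 : Module.finrank K Y ≤ Module.finrank K
        (Sy K n S ⊓ Dp K n {t} * (Dp K n {q} * Z) : Submodule K (Tn K ι n)) :=
      Submodule.finrank_mono hYa
    have f2 : Module.finrank K Z ≤ yy false ((S.erase t).erase q) (B ∪ Je F l t q) l :=
      Submodule.finrank_mono hZb
    have f0 : yy false S J l = Module.finrank K Y := rfl
    rw [f0]
    exact (Nat.mul_le_mul_left _ f1).trans (hU.trans (Nat.mul_le_mul_left _ f2))

end Pool.Agent.Lib.MP_d01072_ag.CL
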